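import Mathlib
import Pool.Agent.H94.NC.FExt

/-!
# Bockstein operator on periodic cyclic homology: definitions (block A)

* `Car p k R`: `R` is flat over `ℤ/p²` and `R/p = k`.
* `Sc S B`: structure constants over `S` of a graded algebra with a differential (nothing is
  required except degrees) in a homogeneous basis `B`.
* `W S B = (List B →₀ S)`: words; operators `Sc.opB'`, `Sc.opB`, `opT`, `opN` and the differential
  `Sc.D` of the periodic complex, with the signs of `H94/NP/Pub.lean`.
* `Lft c A`: a homogeneous basis of the dg algebra `A` with structure constants over `R` which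
  reduce to those of `A`.
-/

set_option autoImplicit false

noncomputable section

namespace NC

namespace BK

/-- coefficient rings: `R` is flat over `ℤ/p²` and `R/p = k` -/
structure Car (p : ℕ) (k R : Type) [Field k] [CommRing R] where
  π : R →+* k
  surj : Function.Surjective π
  pp : (p : R) * (p : R) = 0
  ker : ∀ r, π r = 0 → ∃ s, r = (p : R) * s
  flat : ∀ r, (p : R) * r = 0 → π r = 0

/-- words over `S` in the letters `B` -/
abbrev W (S B : Type) [CommRing S] : Type := List B →₀ S

section

variable {S B : Type} [CommRing S]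

/-- the sign `(-1)^n` -/
def sg (S : Type) [CommRing S] (n : ℤ) : S := ((Int.negOnePow n : ℤˣ) : ℤ)

/-- one letter words, with a prefix and a suffix -/
def ins (u v : List B) : (B →₀ S) →ₗ[S] W S B := Finsupp.lmapDomain S S (fun b => u ++ b :: v)

/-- linear extension of an operator on words -/
def lin {M : Type} [AddCommGroup M] [Module S M] (F : List B → M) : W S B →ₗ[S] M :=
  Finsupp.linearCombination S F

/-- the suspended degree of a word (of the same parity as the sum of the `deg b + 1`) -/
def sdg (deg : B → ℤ) (w : List B) : ℤ := (w.map (fun b => deg b - 1)).sum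

/-- the rotation by `i` letters (the last `w.length - i` letters go to the front) -/
def rotw (S : Type) [CommRing S] (deg : B → ℤ) (i : ℕ) (w : List B) : W S B :=
  Finsupp.single (w.drop i ++ w.take i) (sg S (sdg deg (w.take i) * sdg deg (w.drop i)))

/-- the cyclic permutation `t`: the last letter goes to the front -/
def tt (S : Type) [CommRing S] (deg : B → ℤ) : W S B →ₗ[S] W S B :=
  lin (fun w => rotw S deg (w.length - 1) w)

/-- the norm operator -/
def nn (S : Type) [CommRing S] (deg : B → ℤ) : W S B →ₗ[S] W S B :=
  lin (fun w => ∑ i ∈ Finset.range w.length, rotw S deg i w)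

/-- a cochain `φ` of arity `j` and degree `e` applied to the block of letters `i, …, i + j - 1` -/
def blk (deg : B → ℤ) (e : ℤ) (j : ℕ) (φ : List B → (B →₀ S)) (i : ℕ) (w : List B) : W S B :=
  sg S (e * sdg deg (w.take i)) • ins (w.take i) (w.drop (i + j)) (φ ((w.drop i).take j))

end

/-- structure constants over `S` of a graded algebra with a differential in a homogeneous basis
`B`; only degrees are required -/
structure Sc (S B : Type) [CommRing S] where
  deg : B → ℤ
  d : B → (B →₀ S)
  m : B → B → (B →₀ S)
  d_deg : ∀ a b, d a b ≠ 0 → deg b = deg a + 1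
  m_deg : ∀ a b c, m a b c ≠ 0 → deg c = deg a + deg b

namespace Sc

variable {S B : Type} [CommRing S] (L : Sc S B)

/-- the differential as a cochain of arity 1 -/
def c1 : List B → (B →₀ S)
  | [a] => L.d a
  | _ => 0

/-- the product as a cochain of arity 2: `(a, b) ↦ (-1)^|a| a b` -/
def c2 : List B → (B →₀ S)
  | [a, b] => sg S (L.deg a) • L.m a b
  | _ => 0

/-- the differential `b'` -/
def opB' : W S B →ₗ[S] W S B :=
  lin (fun w => ∑ i ∈ Finset.range w.length,
    (blk L.deg 1 1 L.c1 i w + blk L.deg 1 2 L.c2 i w))

/-- the differential `b = b' +` (the last letter times the first one) -/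
def opB : W S B →ₗ[S] W S B :=
  L.opB' + (lin (fun w => blk L.deg 1 2 L.c2 0 w)) ∘ₗ tt S L.deg

/-- the differential of the periodic complex: the columns are `b` (`p` even) and `-b'` (`p` odd),
the maps from column `p` to column `p - 1` are `1 - t` (`p` odd) and `N` (`p` even) -/
def D : (ℤ → W S B) →ₗ[S] (ℤ → W S B) where
  toFun c p := if Even p then L.opB (c p) + (c (p + 1) - tt S L.deg (c (p + 1)))
    else nn S L.deg (c (p + 1)) - L.opB' (c p)
  map_add' c d := by
    funext p
    simp only [Pi.add_apply]
    split_ifs
    · simp only [map_add]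
      abel
    · simp only [map_add]
      abel
  map_smul' r c := by
    funext p
    simp only [Pi.smul_apply, RingHom.id_apply]
    split_ifs
    · simp only [map_smul, smul_add, smul_sub]
    · simp only [map_smul, smul_sub]

/-- the differential of a linear combination of letters -/
def dL : (B →₀ S) →ₗ[S] (B →₀ S) := Finsupp.linearCombination S L.d

/-- the product of linear combinations of letters -/
def mL : (B →₀ S) →ₗ[S] (B →₀ S) →ₗ[S] (B →₀ S) :=
  Finsupp.lsum S (fun a => LinearMap.toSpanSingleton S _ (Finsupp.linearCombination S (L.m a)))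

/-- the axioms of a dg algebra (unit not required) -/
structure Strict : Prop where
  dd : ∀ a, L.dL (L.d a) = 0
  leib : ∀ a b, L.dL (L.m a b) =
    L.mL (L.d a) (Finsupp.single b 1) + sg S (L.deg a) • L.mL (Finsupp.single a 1) (L.d b)
  assoc : ∀ a b c, L.mL (L.m a b) (Finsupp.single c 1) = L.mL (Finsupp.single a 1) (L.m b c)

/-- the elements of degree `n` of the periodic complex: column `p` consists of nonempty words with
`length - 1 - Σ |uᵢ| = n - p`, and the columns with large `p` are zero -/
def Per (n : ℤ) : Submodule S (ℤ → W S B) where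
  carrier := {c | (∀ p, ∀ w, c p w ≠ 0 → w ≠ [] ∧ - sdg L.deg w - 1 = n - p) ∧
    ∃ q, ∀ p, q < p → c p = 0}
  add_mem' := by
    rintro c d ⟨h1, q, h2⟩ ⟨h1', q', h2'⟩
    refine ⟨fun p w hw => ?_, max q q', fun p hp => ?_⟩
    · by_cases h : c p w = 0
      · refine h1' p w (fun h' => hw ?_)
        rw [Pi.add_apply, Finsupp.add_apply, h, h', add_zero]
      · exact h1 p w h
    · rw [Pi.add_apply, h2 p (lt_of_le_of_lt (le_max_left _ _) hp),
        h2' p (lt_of_le_of_lt (le_max_right _ _) hp), add_zero]
  zero_mem' := ⟨fun p w hw => absurd rfl hw, 0, fun p _ => rfl⟩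
  smul_mem' := by
    rintro r c ⟨h1, q, h2⟩
    refine ⟨fun p w hw => h1 p w (fun h => hw ?_), q, fun p hp => ?_⟩
    · rw [Pi.smul_apply, Finsupp.smul_apply, h, smul_zero]
    · rw [Pi.smul_apply, h2 p hp, smul_zero]

end Sc

variable {p : ℕ} {k R : Type} [Field k] [CommRing R]

/-- the reduction modulo `p` of a finitely supported function -/
def red (c : Car p k R) {I : Type} (x : I →₀ R) : I →₀ k := x.mapRange c.π (map_zero c.π)

/-- a homogeneous basis of `A` with structure constants over `R` which reduce to those of `A` -/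
structure Lft (c : Car p k R) (A : ZDGA k) where
  B : Type
  e : Module.Basis B k A.V
  sc : Sc R B
  e_gr : ∀ b, e b ∈ A.gr (sc.deg b)
  e_D : ∀ a, e.repr (A.D (e a)) = red c (sc.d a)
  e_mul : ∀ a b, e.repr (A.mul (e a) (e b)) = red c (sc.m a b)

namespace Lft

variable {c : Car p k R} {A : ZDGA k} (L : Lft c A)

/-- the word `e_{b₀} ⊗ ⋯ ⊗ e_{bₙ}` (the empty word goes to `0`) -/
def word : List L.B → Wd k A.V A.V
  | [] => 0
  | b :: w => w.foldl (fun x a => Wd.snoc x (L.e a)) (Wd.nil (L.e b))

/-- from words in the basis to words in `A` -/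
def toWd : W k L.B →ₗ[k] Wd k A.V A.V := lin L.word

/-- the chain of `A` obtained by reduction modulo `p` -/
def toA (x : ℤ → W R L.B) : ℤ → A.cyc.V := fun q => L.toWd (red c (x q))

end Lft

/-- what is needed from the Bockstein operator: natural linear maps
`HP_m(A) → HP_{m-1}(A)` for all dg algebras, computed by `D X = p P` in every strict lift -/
structure Bock (c : Car p k R) where
  β : (A : ZDGA k) → (m : ℤ) → A.HP m →ₗ[k] A.HP (m - 1)
  nat : ∀ (A B : ZDGA k) (f : ZHom A B) (m : ℤ) (x : A.HP m),
    β B m (f.HP m x) = f.HP (m - 1) (β A m x)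
  strict : ∀ (A : ZDGA k) (L : Lft c A), L.sc.Strict → ∀ (m : ℤ) (X P : ℤ → W R L.B),
    X ∈ L.sc.Per m → P ∈ L.sc.Per (m - 1) → L.sc.D X = (p : R) • P →
    ∀ (hx : L.toA X ∈ A.cyc.Z Set.univ m) (hp : L.toA P ∈ A.cyc.Z Set.univ (m - 1)),
      β A m (A.cyc.cls (L.toA X) hx) = A.cyc.cls (L.toA P) hp

end BK

end NC
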