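import Mathlib
import Pool.Agent.H94.BK.Defs

/-!
# Bockstein block: definitions of all operators on words

Words `W S B = (List B →₀ S)`.  `cat` is the concatenation, `ltr` the one letter words.
`LM` letter maps `F`, `Co` cochains (arity `j`, degree `e` with respect to the suspended degree),
`bk F φ i` the cochain `φ` on the block of letters `i, …, i+j-1`, `F` on all other letters, with
the sign `(-1)^(e · degree of the prefix)`.

`IsFam dA dB j P`: the four rules for the operators `P i` (`i` = start of the block).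
`Lp` = `L'` (no wrapping block), `Lc` = `L` (cyclic), `kap`, `QQ` the components of the homotopy,
`KK`, `VV`, `DD` operators on the periodic complex.
-/

set_option autoImplicit false

noncomputable section

namespace NC

namespace BK

/-- words of length `m` -/
def Wl (S B : Type) [CommRing S] (m : ℕ) : Submodule S (W S B) :=
  Finsupp.supported S S {w | w.length = m}

/-- words of suspended degree `d` -/
def Ws (S : Type) {B : Type} [CommRing S] (deg : B → ℤ) (d : ℤ) : Submodule S (W S B) :=
  Finsupp.supported S S {w | sdg deg w = d}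

section

variable {S A B C : Type} [CommRing S]

/-- one letter words -/
def ltr : (B →₀ S) →ₗ[S] W S B := Finsupp.lmapDomain S S (fun b => [b])

/-- the component of a chain on the one letter words -/
def unl : W S B →ₗ[S] (B →₀ S) :=
  Finsupp.lcomapDomain (fun b => [b]) (fun _ _ h => (List.cons.inj h).1)

/-- concatenation -/
def cat : W S B →ₗ[S] W S B →ₗ[S] W S B := lin (fun u => Finsupp.lmapDomain S S (fun v => u ++ v))

/-- letter maps of degree `0` -/
structure LM (S : Type) {A B : Type} [CommRing S] (dA : A → ℤ) (dB : B → ℤ) where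
  f : A → (B →₀ S)
  dg : ∀ a b, f a b ≠ 0 → dB b = dA a

/-- the image of a word under a letter map -/
def LM.w {dA : A → ℤ} {dB : B → ℤ} (F : LM S dA dB) : List A → W S B
  | [] => Finsupp.single [] 1
  | a :: w => cat (ltr (F.f a)) (F.w w)

/-- the image of a chain under a letter map -/
def LM.Wm {dA : A → ℤ} {dB : B → ℤ} (F : LM S dA dB) : W S A →ₗ[S] W S B := lin F.w

/-- the identity -/
def LM.id (S : Type) [CommRing S] (dA : A → ℤ) : LM S dA dA where
  f a := Finsupp.single a 1
  dg a b h := by
    by_cases hb : a = b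
    · rw [hb]
    · exact absurd (Finsupp.single_eq_of_ne (Ne.symm hb)) h

/-- cochains of arity `j` and degree `e` (with respect to suspended degrees) -/
structure Co (S : Type) {A B : Type} [CommRing S] (dA : A → ℤ) (dB : B → ℤ) (j : ℕ) (e : ℤ) where
  φ : List A → (B →₀ S)
  ar : ∀ v, v.length ≠ j → φ v = 0
  dg : ∀ v b, φ v b ≠ 0 → dB b - 1 = sdg dA v + e

/-- a cochain `φ` on the block of letters `i, …, i + j - 1`, the letter map `F` on all others -/
def bk {dA : A → ℤ} {dB : B → ℤ} {j : ℕ} {e : ℤ} (F : LM S dA dB) (c : Co S dA dB j e) (i : ℕ) :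
    W S A →ₗ[S] W S B :=
  lin (fun w => sg S (e * sdg dA (w.take i)) •
    cat (F.w (w.take i)) (cat (ltr (c.φ ((w.drop i).take j))) (F.w (w.drop (i + j)))))

/-- composition of letter maps -/
def LM.comp {dA : A → ℤ} {dB : B → ℤ} {dC : C → ℤ} (G : LM S dB dC) (F : LM S dA dB) :
    LM S dA dC where
  f a := Finsupp.linearCombination S G.f (F.f a)
  dg a c h := by
    rw [Finsupp.linearCombination_apply, Finsupp.sum_apply] at h
    by_contra hc
    apply h
    rw [Finsupp.sum]
    refine Finset.sum_eq_zero (fun b hb => ?_)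
    rw [Finsupp.smul_apply]
    by_cases h1 : G.f b c = 0
    · rw [h1, smul_zero]
    · exact absurd ((G.dg b c h1).trans (F.dg a b (Finsupp.mem_support_iff.1 hb))) hc

/-- The rules for the operators `P i`, `i` the start of the block, `j` the arity; words of length
`m` are mapped to words of length `n = m + 1 - j`. -/
structure IsFam (dA : A → ℤ) (dB : B → ℤ) (j : ℕ) (P : ℕ → (W S A →ₗ[S] W S B)) : Prop where
  len : ∀ m n x, x ∈ Wl S A m → m + 1 = n + j → ∀ i, i < n → P i x ∈ Wl S B n
  van : ∀ m x, x ∈ Wl S A m → ∀ i, m < i + j → P i x = 0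
  tP : ∀ m n x, x ∈ Wl S A m → m + 1 = n + j → ∀ i, i + 1 < n →
    tt S dB (P i x) = P (i + 1) (tt S dA x)
  tL : ∀ m i x, x ∈ Wl S A m → m = i + j → tt S dB (P i x) = P 0 ((tt S dA ^ j) x)

/-- `N_q = 1 + t + ⋯ + t^(q-1)` -/
def nq (S : Type) [CommRing S] (dA : A → ℤ) (q : ℕ) : W S A →ₗ[S] W S A :=
  ∑ r ∈ Finset.range q, tt S dA ^ r

/-- `L'`: the sum over all blocks -/
def Lp (j : ℕ) (P : ℕ → (W S A →ₗ[S] W S B)) : W S A →ₗ[S] W S B :=
  lin (fun w => ∑ i ∈ Finset.range (w.length + 1 - j), P i (Finsupp.single w 1))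

/-- `L`: the sum over all cyclic blocks -/
def Lc (dA : A → ℤ) (j : ℕ) (P : ℕ → (W S A →ₗ[S] W S B)) : W S A →ₗ[S] W S B :=
  Lp j P + ∑ i ∈ Finset.range (j - 1), P 0 ∘ₗ (tt S dA ^ (i + 1))

/-- the component of the homotopy from even columns `p` to the odd columns `p + 1` -/
def kap (dA : A → ℤ) (j : ℕ) (P : ℕ → (W S A →ₗ[S] W S B)) : W S A →ₗ[S] W S B :=
  lin (fun w => ∑ i ∈ Finset.range (w.length + 1 - j), P i (nq S dA (i + j) (Finsupp.single w 1)))

/-- the block consists of the last `j` letters, the result goes to the front -/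
def QQ (dA : A → ℤ) (j : ℕ) (P : ℕ → (W S A →ₗ[S] W S B)) : W S A →ₗ[S] W S B :=
  P 0 ∘ₗ (tt S dA ^ j)

/-- `b'` for families `b1`, `b2` of arities 1, 2 -/
def pB' (b1 b2 : ℕ → (W S A →ₗ[S] W S A)) : W S A →ₗ[S] W S A := Lp 1 b1 + Lp 2 b2

/-- `b` for families `b1`, `b2` of arities 1, 2 -/
def pB (dA : A → ℤ) (b1 b2 : ℕ → (W S A →ₗ[S] W S A)) : W S A →ₗ[S] W S A :=
  pB' b1 b2 + b2 0 ∘ₗ tt S dA

/-- the differential of the periodic complex -/
def DD (dA : A → ℤ) (b1 b2 : ℕ → (W S A →ₗ[S] W S A)) : (ℤ → W S A) →ₗ[S] (ℤ → W S A) where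
  toFun c p := if Even p then pB dA b1 b2 (c p) + (c (p + 1) - tt S dA (c (p + 1)))
    else nn S dA (c (p + 1)) - pB' b1 b2 (c p)
  map_add' c d := by
    funext p
    simp only [Pi.add_apply]
    split_ifs
    · simp only [map_add]
      abel
    · simp only [map_add]
      abel
  map_smul' r c := by
    funext p
    simp only [Pi.smul_apply, RingHom.id_apply]
    split_ifs
    · simp only [map_smul, smul_add, smul_sub]
    · simp only [map_smul, smul_sub]

/-- the Lie derivative on the periodic complex, `s = (-1)^e` -/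
def VV (dA : A → ℤ) (s : S) (j : ℕ) (P : ℕ → (W S A →ₗ[S] W S B)) :
    (ℤ → W S A) →ₗ[S] (ℤ → W S B) where
  toFun c p := if Even p then Lc dA j P (c p) else s • Lp j P (c p)
  map_add' c d := by
    funext p
    simp only [Pi.add_apply]
    split_ifs
    · simp only [map_add]
    · simp only [map_add, smul_add]
  map_smul' r c := by
    funext p
    simp only [Pi.smul_apply, RingHom.id_apply]
    split_ifs
    · simp only [map_smul]
    · simp only [map_smul, smul_comm r s]

/-- the homotopy on the periodic complex, `s = (-1)^e`, `b2` the product of the target -/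
def KK (dA : A → ℤ) (s : S) (j : ℕ) (P : ℕ → (W S A →ₗ[S] W S B)) (b2 : ℕ → (W S B →ₗ[S] W S B)) :
    (ℤ → W S A) →ₗ[S] (ℤ → W S B) where
  toFun c p := if Even p then s • QQ dA j P (c (p - 1)) - b2 0 (QQ dA j P (c (p - 2)))
    else kap dA j P (c (p - 1))
  map_add' c d := by
    funext p
    simp only [Pi.add_apply]
    split_ifs
    · simp only [map_add, smul_add]
      abel
    · simp only [map_add]
  map_smul' r c := by
    funext p
    simp only [Pi.smul_apply, RingHom.id_apply]
    split_ifs
    · simp only [map_smul, smul_sub, smul_comm r s]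
    · simp only [map_smul]

/-- the commutator `[b_l, φ]`, a family of arity `j + l - 1` (`b` on the target, `a` on the source,
`s = (-1)^e`) -/
def brk (s : S) (l j : ℕ) (b : ℕ → (W S B →ₗ[S] W S B)) (a : ℕ → (W S A →ₗ[S] W S A))
    (P : ℕ → (W S A →ₗ[S] W S B)) (i : ℕ) : W S A →ₗ[S] W S B :=
  ∑ c ∈ Finset.range l, b i ∘ₗ P (i + c) - s • ∑ c ∈ Finset.range j, P i ∘ₗ a (i + c)

/-- disjoint blocks commute up to the sign `s`: `b` of arity `l` on the target, `a` of arity `l` on
the source, `P` of arity `j` -/
structure Comm (s : S) (l j : ℕ) (b : ℕ → (W S B →ₗ[S] W S B)) (a : ℕ → (W S A →ₗ[S] W S A))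
    (P : ℕ → (W S A →ₗ[S] W S B)) : Prop where
  right : ∀ i c x, i < c → b c (P i x) = s • P i (a (c + j - 1) x)
  left : ∀ i c x, c + l ≤ i → b c (P i x) = s • P (i + 1 - l) (a c x)

end

/-- base change of cochains and letter maps -/
def LM.map {S S' A B : Type} [CommRing S] [CommRing S'] (g : S →+* S') {dA : A → ℤ} {dB : B → ℤ}
    (F : LM S dA dB) : LM S' dA dB where
  f a := (F.f a).mapRange g (map_zero g)
  dg a b h := F.dg a b (fun h0 => h (by rw [Finsupp.mapRange_apply, h0, map_zero]))

/-- base change of cochains -/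
def Co.map {S S' A B : Type} [CommRing S] [CommRing S'] (g : S →+* S') {dA : A → ℤ} {dB : B → ℤ}
    {j : ℕ} {e : ℤ} (c : Co S dA dB j e) : Co S' dA dB j e where
  φ v := (c.φ v).mapRange g (map_zero g)
  ar v h := by rw [c.ar v h, Finsupp.mapRange_zero]
  dg v b h := c.dg v b (fun h0 => h (by rw [Finsupp.mapRange_apply, h0, map_zero]))

namespace Sc

variable {S B : Type} [CommRing S] (L : Sc S B)

theorem c1_dg (v : List B) (b : B) (h : L.c1 v b ≠ 0) : L.deg b - 1 = sdg L.deg v + 1 := by
  match v, h with
  | [], h => exact absurd rfl h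
  | [a], h =>
    have := L.d_deg a b h
    simp only [sdg, List.map_cons, List.map_nil, List.sum_cons, List.sum_nil]
    omega
  | _ :: _ :: _, h => exact absurd rfl h

theorem c2_dg (v : List B) (b : B) (h : L.c2 v b ≠ 0) : L.deg b - 1 = sdg L.deg v + 1 := by
  match v, h with
  | [], h => exact absurd rfl h
  | [a], h => exact absurd rfl h
  | [a, a'], h =>
    have := L.m_deg a a' b (fun h0 => h (by
      change (sg S (L.deg a) • L.m a a') b = 0
      rw [Finsupp.smul_apply, h0, smul_zero]))
    simp only [sdg, List.map_cons, List.map_nil, List.sum_cons, List.sum_nil]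
    omega
  | _ :: _ :: _ :: _, h => exact absurd rfl h

/-- the differential as a cochain -/
def co1 : Co S L.deg L.deg 1 1 where
  φ := L.c1
  ar v h := by
    match v, h with
    | [], _ => rfl
    | [a], h => exact absurd rfl h
    | _ :: _ :: _, _ => rfl
  dg := L.c1_dg

/-- the product as a cochain -/
def co2 : Co S L.deg L.deg 2 1 where
  φ := L.c2
  ar v h := by
    match v, h with
    | [], _ => rfl
    | [a], _ => rfl
    | [a, a'], h => exact absurd rfl h
    | _ :: _ :: _ :: _, _ => rfl
  dg := L.c2_dg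

/-- the families of the differential and the product -/
def f1 : ℕ → (W S B →ₗ[S] W S B) := bk (LM.id S L.deg) L.co1
/-- the families of the differential and the product -/
def f2 : ℕ → (W S B →ₗ[S] W S B) := bk (LM.id S L.deg) L.co2

/-- base change -/
def map {S' : Type} [CommRing S'] (g : S →+* S') : Sc S' B where
  deg := L.deg
  d a := (L.d a).mapRange g (map_zero g)
  m a b := (L.m a b).mapRange g (map_zero g)
  d_deg a b h := L.d_deg a b (fun h0 => h (by rw [Finsupp.mapRange_apply, h0, map_zero]))
  m_deg a b c h := L.m_deg a b c (fun h0 => h (by rw [Finsupp.mapRange_apply, h0, map_zero]))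

end Sc

end BK

end NC
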