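import Mathlib
import Pool.Agent.H94.BK.Ops

/-!
# Block A, module A01: signs, concatenation, rotations

Proofs: everything by linearity from basis words `Finsupp.single w 1` (`lin_ext`, `Wl_ind`).
`tt` on a nonempty word `w ++ [b]` is `±(b :: w)`; `tt_pow_append` by induction on `v` (from the
right), `tt_pow_len` is the case `u = []` of it, `nn_eq`: `rotw i = t^(m-i)`.
-/

set_option autoImplicit false

noncomputable section

namespace NC

namespace BK

section

variable {S S' A B : Type} [CommRing S] [CommRing S']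

theorem sg_zero : sg S 0 = 1 := by simp [sg]

theorem sg_one : sg S 1 = -1 := by simp [sg]

theorem sg_add (m n : ℤ) : sg S (m + n) = sg S m * sg S n := by
  simp [sg, Int.negOnePow_add]

theorem sg_sq (n : ℤ) : sg S n * sg S n = 1 := by
  rw [← sg_add, sg, Int.negOnePow_even _ ⟨n, rfl⟩]
  simp

theorem sg_neg (n : ℤ) : sg S (-n) = sg S n := by simp [sg, Int.negOnePow_neg]

theorem sg_sub (m n : ℤ) : sg S (m - n) = sg S m * sg S n := by
  rw [sub_eq_add_neg, sg_add, sg_neg]

theorem sg_congr {m n : ℤ} (h : Even (m - n)) : sg S m = sg S n := by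
  have h1 : sg S (m - n) = 1 := by
    rw [sg, Int.negOnePow_even _ h]
    simp
  have h2 : sg S m = sg S (m - n + n) := by rw [sub_add_cancel]
  rw [h2, sg_add, h1, one_mul]

theorem map_sg (g : S →+* S') (n : ℤ) : g (sg S n) = sg S' n := by
  rw [sg, sg, map_intCast]

@[simp] theorem sdg_nil (deg : B → ℤ) : sdg deg [] = 0 := rfl

@[simp] theorem sdg_cons (deg : B → ℤ) (b : B) (w : List B) :
    sdg deg (b :: w) = deg b - 1 + sdg deg w := by
  simp [sdg]

@[simp] theorem sdg_append (deg : B → ℤ) (u v : List B) :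
    sdg deg (u ++ v) = sdg deg u + sdg deg v := by
  simp [sdg]

@[simp] theorem lin_single {M : Type} [AddCommGroup M] [Module S M] (F : List B → M) (w : List B)
    (r : S) : lin F (Finsupp.single w r) = r • F w := by
  rw [lin, Finsupp.linearCombination_single]

theorem lin_ext {M : Type} [AddCommGroup M] [Module S M] {f g : W S B →ₗ[S] M}
    (h : ∀ w, f (Finsupp.single w 1) = g (Finsupp.single w 1)) : f = g := by
  refine Finsupp.lhom_ext (fun w r => ?_)
  have h1 : (Finsupp.single w r : W S B) = r • Finsupp.single w 1 := by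
    rw [Finsupp.smul_single, smul_eq_mul, mul_one]
  rw [h1, map_smul, map_smul, h w]

@[simp] theorem cat_single (u v : List B) (r s : S) :
    cat (Finsupp.single u r) (Finsupp.single v s) = Finsupp.single (u ++ v) (r * s) := by
  rw [cat, lin_single, LinearMap.smul_apply, Finsupp.lmapDomain_apply, Finsupp.mapDomain_single,
    Finsupp.smul_single, smul_eq_mul]

theorem cat_assoc (x y z : W S B) : cat (cat x y) z = cat x (cat y z) := by
  induction x using Finsupp.induction_linear with
  | zero => simp
  | add x x' hx hx' => simp only [map_add, LinearMap.add_apply, hx, hx']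
  | single u r =>
    induction y using Finsupp.induction_linear with
    | zero => simp
    | add y y' hy hy' => simp only [map_add, LinearMap.add_apply, hy, hy']
    | single v s =>
      induction z using Finsupp.induction_linear with
      | zero => simp
      | add z z' hz hz' => simp only [map_add, hz, hz']
      | single w t => simp only [cat_single, List.append_assoc, mul_assoc]

@[simp] theorem cat_nil_left (x : W S B) : cat (Finsupp.single [] 1) x = x := by
  induction x using Finsupp.induction_linear with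
  | zero => simp
  | add x x' hx hx' => simp only [map_add, hx, hx']
  | single u r => simp

@[simp] theorem cat_nil_right (x : W S B) : cat x (Finsupp.single [] 1) = x := by
  induction x using Finsupp.induction_linear with
  | zero => simp
  | add x x' hx hx' => simp only [map_add, LinearMap.add_apply, hx, hx']
  | single u r => simp

@[simp] theorem ltr_single (b : B) (r : S) : ltr (Finsupp.single b r) = Finsupp.single [b] r := by
  rw [ltr, Finsupp.lmapDomain_apply, Finsupp.mapDomain_single]

theorem ltr_inj : Function.Injective (fun b : B => [b]) := fun _ _ h => (List.cons.inj h).1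

@[simp] theorem unl_ltr (x : B →₀ S) : unl (ltr x) = x := by
  ext b
  change (Finsupp.mapDomain (fun b => [b]) x) [b] = x b
  exact Finsupp.mapDomain_apply ltr_inj x b

theorem ltr_unl {x : W S B} (hx : x ∈ Wl S B 1) : ltr (unl x) = x := by
  refine Finsupp.mapDomain_comapDomain _ ltr_inj x (fun w hw => ?_)
  have h1 : w.length = 1 := (Finsupp.mem_supported S x).1 hx hw
  obtain ⟨b, hb⟩ := List.length_eq_one_iff.1 h1
  exact ⟨b, hb.symm⟩

theorem ins_eq (u v : List B) (x : B →₀ S) :
    ins u v x = cat (Finsupp.single u 1) (cat (ltr x) (Finsupp.single v 1)) := by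
  induction x using Finsupp.induction_linear with
  | zero => simp
  | add x x' hx hx' => simp only [map_add, LinearMap.add_apply, hx, hx']
  | single b r =>
    rw [ltr_single, cat_single, cat_single, ins, Finsupp.lmapDomain_apply,
      Finsupp.mapDomain_single]
    simp

theorem single_mem_Wl {w : List B} {m : ℕ} (h : w.length = m) (r : S) :
    Finsupp.single w r ∈ Wl S B m := Finsupp.single_mem_supported S r h

theorem single_mem_Ws {deg : B → ℤ} {w : List B} {d : ℤ} (h : sdg deg w = d) (r : S) :
    Finsupp.single w r ∈ Ws S deg d := Finsupp.single_mem_supported S r h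

theorem supp_ind {s : Set (List B)} {p : W S B → Prop} (h0 : p 0)
    (hadd : ∀ x y, p x → p y → p (x + y)) (hsmul : ∀ (r : S) x, p x → p (r • x))
    (h : ∀ w : List B, w ∈ s → p (Finsupp.single w 1)) {x : W S B}
    (hx : x ∈ Finsupp.supported S S s) : p x := by
  rw [← Finsupp.sum_single x, Finsupp.sum]
  refine Finset.sum_induction _ p hadd h0 (fun w hw => ?_)
  have h1 : (Finsupp.single w (x w) : W S B) = x w • Finsupp.single w 1 := by
    rw [Finsupp.smul_single, smul_eq_mul, mul_one]
  rw [h1]
  exact hsmul _ _ (h w ((Finsupp.mem_supported S x).1 hx hw))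

theorem Wl_ind {m : ℕ} {p : W S B → Prop} (h0 : p 0) (hadd : ∀ x y, p x → p y → p (x + y))
    (hsmul : ∀ (r : S) x, p x → p (r • x)) (h : ∀ w : List B, w.length = m → p (Finsupp.single w 1))
    {x : W S B} (hx : x ∈ Wl S B m) : p x := supp_ind h0 hadd hsmul h hx

/-- every chain is a sum of chains of fixed length -/
theorem W_ind_len {p : W S B → Prop} (hadd : ∀ x y, p x → p y → p (x + y))
    (h : ∀ m, ∀ x ∈ Wl S B m, p x) (x : W S B) : p x := by
  rw [← Finsupp.sum_single x, Finsupp.sum]
  exact Finset.sum_induction _ p hadd (h 0 0 (Submodule.zero_mem _))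
    (fun w _ => h w.length _ (single_mem_Wl rfl _))

theorem cat_mem_Wl {m n : ℕ} {x y : W S B} (hx : x ∈ Wl S B m) (hy : y ∈ Wl S B n) :
    cat x y ∈ Wl S B (m + n) := by
  refine Wl_ind (p := fun x => cat x y ∈ Wl S B (m + n)) ?_ ?_ ?_ ?_ hx
  · simp
  · intro a b ha hb
    rw [map_add, LinearMap.add_apply]
    exact Submodule.add_mem _ ha hb
  · intro r a ha
    rw [map_smul, LinearMap.smul_apply]
    exact Submodule.smul_mem _ _ ha
  · intro u hu
    refine Wl_ind (p := fun y => cat (Finsupp.single u 1) y ∈ Wl S B (m + n)) ?_ ?_ ?_ ?_ hy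
    · simp
    · intro a b ha hb
      rw [map_add]
      exact Submodule.add_mem _ ha hb
    · intro r a ha
      rw [map_smul]
      exact Submodule.smul_mem _ _ ha
    · intro v hv
      rw [cat_single]
      exact single_mem_Wl (by rw [List.length_append, hu, hv]) _

theorem cat_mem_Ws {deg : B → ℤ} {m n : ℤ} {x y : W S B} (hx : x ∈ Ws S deg m)
    (hy : y ∈ Ws S deg n) : cat x y ∈ Ws S deg (m + n) := by
  refine supp_ind (p := fun x => cat x y ∈ Ws S deg (m + n)) ?_ ?_ ?_ ?_ hx
  · simp
  · intro a b ha hb
    rw [map_add, LinearMap.add_apply]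
    exact Submodule.add_mem _ ha hb
  · intro r a ha
    rw [map_smul, LinearMap.smul_apply]
    exact Submodule.smul_mem _ _ ha
  · intro u hu
    refine supp_ind (p := fun y => cat (Finsupp.single u 1) y ∈ Ws S deg (m + n)) ?_ ?_ ?_ ?_ hy
    · simp
    · intro a b ha hb
      rw [map_add]
      exact Submodule.add_mem _ ha hb
    · intro r a ha
      rw [map_smul]
      exact Submodule.smul_mem _ _ ha
    · intro v hv
      rw [cat_single]
      exact single_mem_Ws (by rw [sdg_append, show sdg deg u = m from hu,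
        show sdg deg v = n from hv]) _

theorem ltr_mem_Wl (x : B →₀ S) : ltr x ∈ Wl S B 1 := by
  induction x using Finsupp.induction_linear with
  | zero => simp
  | add x x' hx hx' =>
    rw [map_add]
    exact Submodule.add_mem _ hx hx'
  | single b r =>
    rw [ltr_single]
    exact single_mem_Wl rfl _

theorem ltr_mem_Ws {deg : B → ℤ} {x : B →₀ S} {d : ℤ} (h : ∀ b, x b ≠ 0 → deg b - 1 = d) :
    ltr x ∈ Ws S deg d := by
  have h1 : ltr x = ∑ b ∈ x.support, (Finsupp.single [b] (x b) : W S B) := by
    conv_lhs => rw [← Finsupp.sum_single x, Finsupp.sum, map_sum]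
    exact Finset.sum_congr rfl (fun b _ => ltr_single b _)
  rw [h1]
  refine Submodule.sum_mem _ (fun b hb => single_mem_Ws ?_ _)
  have h2 := h b (Finsupp.mem_support_iff.1 hb)
  rw [sdg_cons, sdg_nil, add_zero, h2]

theorem len_rot (i : ℕ) (w : List B) : (w.drop i ++ w.take i).length = w.length := by
  rw [List.length_append, add_comm, ← List.length_append, List.take_append_drop]

theorem sdg_rot (deg : B → ℤ) (i : ℕ) (w : List B) :
    sdg deg (w.drop i ++ w.take i) = sdg deg w := by
  conv_rhs => rw [← List.take_append_drop i w]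
  rw [sdg_append, sdg_append, add_comm]

theorem tt_mem_Wl (deg : B → ℤ) {m : ℕ} {x : W S B} (hx : x ∈ Wl S B m) :
    tt S deg x ∈ Wl S B m := by
  refine Wl_ind (p := fun x => tt S deg x ∈ Wl S B m) ?_ ?_ ?_ ?_ hx
  · simp
  · intro a b ha hb
    rw [map_add]
    exact Submodule.add_mem _ ha hb
  · intro r a ha
    rw [map_smul]
    exact Submodule.smul_mem _ _ ha
  · intro w hw
    rw [tt, lin_single, one_smul, rotw]
    exact single_mem_Wl (by rw [len_rot, hw]) _

theorem tt_pow_mem_Wl (deg : B → ℤ) {m : ℕ} {x : W S B} (hx : x ∈ Wl S B m) (r : ℕ) :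
    (tt S deg ^ r) x ∈ Wl S B m := by
  induction r with
  | zero => simpa using hx
  | succ r ih =>
    rw [pow_succ', Module.End.mul_apply]
    exact tt_mem_Wl deg ih

theorem tt_mem_Ws (deg : B → ℤ) {d : ℤ} {x : W S B} (hx : x ∈ Ws S deg d) :
    tt S deg x ∈ Ws S deg d := by
  refine supp_ind (p := fun x => tt S deg x ∈ Ws S deg d) ?_ ?_ ?_ ?_ hx
  · simp
  · intro a b ha hb
    rw [map_add]
    exact Submodule.add_mem _ ha hb
  · intro r a ha
    rw [map_smul]
    exact Submodule.smul_mem _ _ ha
  · intro w hw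
    rw [tt, lin_single, one_smul, rotw]
    exact single_mem_Ws (by rw [sdg_rot, show sdg deg w = d from hw]) _

theorem tt_snoc (deg : B → ℤ) (w : List B) (b : B) :
    tt S deg (Finsupp.single (w ++ [b]) 1) =
      sg S (sdg deg w * (deg b - 1)) • Finsupp.single (b :: w) 1 := by
  have h1 : (w ++ [b]).length - 1 = w.length := by simp
  rw [tt, lin_single, one_smul, rotw, h1, List.take_left, List.drop_left, Finsupp.smul_single,
    smul_eq_mul, mul_one]
  simp

theorem tt_nil (deg : B → ℤ) : tt S deg (Finsupp.single [] 1) = Finsupp.single [] 1 := by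
  rw [tt, lin_single, one_smul, rotw]
  simp [sg_zero]

theorem tt_pow_append (deg : B → ℤ) (u v : List B) :
    (tt S deg ^ v.length) (Finsupp.single (u ++ v) 1) =
      sg S (sdg deg u * sdg deg v) • Finsupp.single (v ++ u) 1 := by
  induction v using List.reverseRecOn generalizing u with
  | nil => simp [sg_zero]
  | append_singleton v b ih =>
    have h1 : (v ++ [b]).length = v.length + 1 := by simp
    have h2 : u ++ (v ++ [b]) = (u ++ v) ++ [b] := by simp
    have h3 : v ++ [b] ++ u = v ++ (b :: u) := by simp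
    have h4 : b :: (u ++ v) = (b :: u) ++ v := rfl
    rw [h1, pow_succ, Module.End.mul_apply, h2, tt_snoc, map_smul, h4, ih (b :: u), smul_smul,
      h3, ← sg_add]
    congr 1
    refine sg_congr ?_
    rw [sdg_append, sdg_append, sdg_cons, sdg_cons, sdg_nil]
    refine ⟨(deg b - 1) * sdg deg v, ?_⟩
    ring

theorem tt_pow_cat (deg : B → ℤ) {d d' : ℤ} {l : ℕ} {y z : W S B} (hy : y ∈ Ws S deg d)
    (hz : z ∈ Ws S deg d') (hl : z ∈ Wl S B l) :
    (tt S deg ^ l) (cat y z) = sg S (d * d') • cat z y := by
  have hz' : z ∈ Finsupp.supported S S {w : List B | sdg deg w = d' ∧ w.length = l} := by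
    rw [Finsupp.mem_supported]
    intro w hw
    exact ⟨(Finsupp.mem_supported S z).1 hz hw, (Finsupp.mem_supported S z).1 hl hw⟩
  refine supp_ind (p := fun y => (tt S deg ^ l) (cat y z) = sg S (d * d') • cat z y)
    ?_ ?_ ?_ ?_ hy
  · simp
  · intro a b ha hb
    rw [map_add, LinearMap.add_apply, map_add, ha, hb, map_add, smul_add]
  · intro r a ha
    rw [map_smul, LinearMap.smul_apply, map_smul, ha, map_smul, smul_comm]
  · intro u hu
    refine supp_ind (p := fun z => (tt S deg ^ l) (cat (Finsupp.single u 1) z) =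
      sg S (d * d') • cat z (Finsupp.single u 1)) ?_ ?_ ?_ ?_ hz'
    · simp
    · intro a b ha hb
      rw [map_add, map_add, ha, hb, map_add, LinearMap.add_apply, smul_add]
    · intro r a ha
      rw [map_smul, map_smul, ha, map_smul, LinearMap.smul_apply, smul_comm]
    · rintro v ⟨hv, hvl⟩
      rw [cat_single, cat_single, mul_one, ← hvl, tt_pow_append, hv,
        show sdg deg u = d from hu]

theorem tt_pow_len (deg : B → ℤ) {m : ℕ} {x : W S B} (hx : x ∈ Wl S B m) :
    (tt S deg ^ m) x = x := by
  refine Wl_ind (p := fun x => (tt S deg ^ m) x = x) ?_ ?_ ?_ ?_ hx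
  · simp
  · intro a b ha hb
    rw [map_add, ha, hb]
  · intro r a ha
    rw [map_smul, ha]
  · intro w hw
    have h1 := tt_pow_append (S := S) deg [] w
    rw [List.nil_append, List.append_nil, sdg_nil, zero_mul, sg_zero, one_smul, hw] at h1
    exact h1

theorem rotw_eq (deg : B → ℤ) (i : ℕ) (w : List B) (hi : i ≤ w.length) :
    rotw S deg i w = (tt S deg ^ (w.length - i)) (Finsupp.single w 1) := by
  have h1 := tt_pow_append (S := S) deg (w.take i) (w.drop i)
  rw [List.take_append_drop, List.length_drop] at h1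
  rw [h1, rotw, Finsupp.smul_single, smul_eq_mul, mul_one]

theorem nq_apply' (deg : B → ℤ) (q : ℕ) (x : W S B) :
    nq S deg q x = ∑ r ∈ Finset.range q, (tt S deg ^ r) x := by
  rw [nq, LinearMap.sum_apply]

theorem sum_pow_succ (deg : B → ℤ) {m : ℕ} {x : W S B} (hx : x ∈ Wl S B m) :
    ∑ r ∈ Finset.range m, (tt S deg ^ (r + 1)) x = ∑ r ∈ Finset.range m, (tt S deg ^ r) x := by
  have h1 := Finset.sum_range_succ (fun r => (tt S deg ^ r) x) m
  have h2 := Finset.sum_range_succ' (fun r => (tt S deg ^ r) x) m
  rw [h1, tt_pow_len deg hx] at h2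
  rw [pow_zero, Module.End.one_apply] at h2
  exact (add_right_cancel h2).symm

theorem nn_eq (deg : B → ℤ) {m : ℕ} {x : W S B} (hx : x ∈ Wl S B m) :
    nn S deg x = nq S deg m x := by
  refine Wl_ind (p := fun x => nn S deg x = nq S deg m x) ?_ ?_ ?_ ?_ hx
  · simp
  · intro a b ha hb
    rw [map_add, map_add, ha, hb]
  · intro r a ha
    rw [map_smul, map_smul, ha]
  · intro w hw
    have hx' : (Finsupp.single w 1 : W S B) ∈ Wl S B m := single_mem_Wl hw 1
    rw [nn, lin_single, one_smul, nq_apply', ← sum_pow_succ deg hx', hw,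
      ← Finset.sum_range_reflect (fun r => (tt S deg ^ (r + 1)) (Finsupp.single w 1 : W S B)) m]
    refine Finset.sum_congr rfl (fun i hi => ?_)
    have hi' := Finset.mem_range.1 hi
    rw [rotw_eq deg i w (by omega), hw]
    congr 2
    omega

theorem nq_apply (deg : B → ℤ) (q : ℕ) (x : W S B) :
    nq S deg q x = ∑ r ∈ Finset.range q, (tt S deg ^ r) x := nq_apply' deg q x

theorem nq_mem_Wl (deg : B → ℤ) {m : ℕ} {x : W S B} (hx : x ∈ Wl S B m) (q : ℕ) :
    nq S deg q x ∈ Wl S B m := by
  rw [nq_apply]
  exact Submodule.sum_mem _ (fun r _ => tt_pow_mem_Wl deg hx r)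

theorem nn_mem_Wl (deg : B → ℤ) {m : ℕ} {x : W S B} (hx : x ∈ Wl S B m) :
    nn S deg x ∈ Wl S B m := by
  rw [nn_eq deg hx]
  exact nq_mem_Wl deg hx m

theorem tt_nn (deg : B → ℤ) (x : W S B) : tt S deg (nn S deg x) = nn S deg x := by
  refine W_ind_len (p := fun x => tt S deg (nn S deg x) = nn S deg x) ?_ ?_ x
  · intro a b ha hb
    rw [map_add, map_add, ha, hb]
  · intro m x hx
    rw [nn_eq deg hx, nq_apply, map_sum]
    conv_rhs => rw [← sum_pow_succ deg hx]
    refine Finset.sum_congr rfl (fun r _ => ?_)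
    rw [pow_succ', Module.End.mul_apply]

theorem nn_tt (deg : B → ℤ) (x : W S B) : nn S deg (tt S deg x) = nn S deg x := by
  refine W_ind_len (p := fun x => nn S deg (tt S deg x) = nn S deg x) ?_ ?_ x
  · intro a b ha hb
    rw [map_add, map_add, map_add, ha, hb]
  · intro m x hx
    rw [nn_eq deg hx, nn_eq deg (tt_mem_Wl deg hx), nq_apply, nq_apply]
    conv_rhs => rw [← sum_pow_succ deg hx]
    refine Finset.sum_congr rfl (fun r _ => ?_)
    rw [pow_succ, Module.End.mul_apply]

theorem nn_mem_Ws (deg : B → ℤ) {d : ℤ} {x : W S B} (hx : x ∈ Ws S deg d) :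
    nn S deg x ∈ Ws S deg d := by
  refine supp_ind (p := fun x => nn S deg x ∈ Ws S deg d) ?_ ?_ ?_ ?_ hx
  · simp
  · intro a b ha hb
    rw [map_add]
    exact Submodule.add_mem _ ha hb
  · intro r a ha
    rw [map_smul]
    exact Submodule.smul_mem _ _ ha
  · intro w hw
    rw [nn, lin_single, one_smul]
    refine Submodule.sum_mem _ (fun i _ => ?_)
    rw [rotw]
    exact single_mem_Ws (by rw [sdg_rot, show sdg deg w = d from hw]) _

end

end BK

end NC
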