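import Mathlib
import Pool.Agent.H94.BK.Sgn

/-!
# Block A, module A02: letter maps and block operators

`bk_append` is the definition on a word `u ++ (v ++ x)` with the block `v`; `bk_single_van`: the
block does not fit, the cochain gets a shorter list and vanishes.
`bk_fam`: rules `len`, `van` clear; `tP`: the last letter `a` of the word is not in the block,
`t` moves it to the front; signs: `sg (e (deg a - 1))` from the prefix; `tL`: `w = u ++ v`.
-/

set_option autoImplicit false

noncomputable section

namespace NC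

namespace BK

section

variable {S A B C : Type} [CommRing S] {dA : A → ℤ} {dB : B → ℤ} {dC : C → ℤ}

private theorem sup_ind {α : Type} {s : Set α} {p : (α →₀ S) → Prop} (h0 : p 0)
    (hadd : ∀ x y, p x → p y → p (x + y)) (hsmul : ∀ (r : S) x, p x → p (r • x))
    (h : ∀ w ∈ s, p (Finsupp.single w 1)) {x : α →₀ S} (hx : x ∈ Finsupp.supported S S s) :
    p x := by
  rw [Finsupp.supported_eq_span_single] at hx
  induction hx using Submodule.span_induction with
  | mem y hy =>
    obtain ⟨w, hw, rfl⟩ := hy
    exact h w hw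
  | zero => exact h0
  | add y z _ _ hy hz => exact hadd y z hy hz
  | smul r y _ hy => exact hsmul r y hy

private theorem cat_ind {M : Type} [AddCommGroup M] [Module S M]
    {f g : W S A →ₗ[S] W S A →ₗ[S] M}
    (h : ∀ u v, f (Finsupp.single u 1) (Finsupp.single v 1) =
      g (Finsupp.single u 1) (Finsupp.single v 1)) : f = g :=
  lin_ext (fun u => lin_ext (fun v => h u v))

private theorem w_nil' (F : LM S dA dB) : F.w [] = Finsupp.single [] 1 := rfl

private theorem w_cons' (F : LM S dA dB) (a : A) (w : List A) :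
    F.w (a :: w) = cat (ltr (F.f a)) (F.w w) := rfl

private theorem w_sing (F : LM S dA dB) (a : A) : F.w [a] = ltr (F.f a) := by
  rw [w_cons', w_nil', cat_nil_right]

theorem LM.w_append (F : LM S dA dB) (u v : List A) : F.w (u ++ v) = cat (F.w u) (F.w v) := by
  induction u with
  | nil => rw [List.nil_append, w_nil', cat_nil_left]
  | cons a u ih => rw [List.cons_append, w_cons', w_cons', ih, cat_assoc]

@[simp] theorem LM.Wm_single (F : LM S dA dB) (w : List A) (r : S) :
    F.Wm (Finsupp.single w r) = r • F.w w := lin_single F.w w r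

theorem LM.Wm_cat (F : LM S dA dB) (x y : W S A) : F.Wm (cat x y) = cat (F.Wm x) (F.Wm y) := by
  have h : (cat (S := S) (B := A)).compr₂ F.Wm = (cat (S := S) (B := B)).compl₁₂ F.Wm F.Wm := by
    refine cat_ind (fun u v => ?_)
    rw [LinearMap.compr₂_apply, LinearMap.compl₁₂_apply, cat_single, LM.Wm_single, LM.Wm_single,
      LM.Wm_single, mul_one, one_smul, one_smul, one_smul, LM.w_append]
  exact LinearMap.congr_fun (LinearMap.congr_fun h x) y

theorem LM.Wm_ltr (F : LM S dA dB) (x : A →₀ S) :
    F.Wm (ltr x) = ltr (Finsupp.linearCombination S F.f x) := by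
  induction x using Finsupp.induction_linear with
  | zero => simp only [map_zero]
  | add x y hx hy => simp only [map_add, hx, hy]
  | single a r =>
    rw [ltr_single, LM.Wm_single, w_sing, Finsupp.linearCombination_single, map_smul]

theorem LM.w_mem_Wl (F : LM S dA dB) (w : List A) : F.w w ∈ Wl S B w.length := by
  induction w with
  | nil => exact single_mem_Wl rfl 1
  | cons a w ih =>
    rw [List.length_cons, add_comm w.length 1]
    exact cat_mem_Wl (ltr_mem_Wl _) ih

theorem LM.w_mem_Ws (F : LM S dA dB) (w : List A) : F.w w ∈ Ws S dB (sdg dA w) := by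
  induction w with
  | nil => exact single_mem_Ws (sdg_nil dB) 1
  | cons a w ih =>
    rw [sdg_cons]
    exact cat_mem_Ws (ltr_mem_Ws (fun b hb => by rw [F.dg a b hb])) ih

theorem LM.Wm_mem_Wl (F : LM S dA dB) {m : ℕ} {x : W S A} (hx : x ∈ Wl S A m) :
    F.Wm x ∈ Wl S B m := by
  refine Wl_ind (p := fun x => F.Wm x ∈ Wl S B m) ?_ ?_ ?_ ?_ hx
  · rw [map_zero]
    exact Submodule.zero_mem _
  · intro x y h1 h2
    rw [map_add]
    exact Submodule.add_mem _ h1 h2
  · intro r x h1
    rw [map_smul]
    exact Submodule.smul_mem _ r h1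
  · intro w hw
    rw [LM.Wm_single, one_smul, ← hw]
    exact F.w_mem_Wl w

theorem LM.Wm_mem_Ws (F : LM S dA dB) {d : ℤ} {x : W S A} (hx : x ∈ Ws S dA d) :
    F.Wm x ∈ Ws S dB d := by
  refine sup_ind (p := fun x => F.Wm x ∈ Ws S dB d) ?_ ?_ ?_ ?_ hx
  · rw [map_zero]
    exact Submodule.zero_mem _
  · intro x y h1 h2
    rw [map_add]
    exact Submodule.add_mem _ h1 h2
  · intro r x h1
    rw [map_smul]
    exact Submodule.smul_mem _ r h1
  · intro w hw
    rw [LM.Wm_single, one_smul, ← (show sdg dA w = d from hw)]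
    exact F.w_mem_Ws w

@[simp] theorem LM.id_w (w : List A) : (LM.id S dA).w w = Finsupp.single w 1 := by
  induction w with
  | nil => rfl
  | cons a w ih =>
    rw [w_cons', ih]
    change cat (ltr (Finsupp.single a 1)) _ = _
    rw [ltr_single, cat_single, mul_one, List.singleton_append]

theorem LM.Wm_id : (LM.id S dA).Wm = LinearMap.id :=
  lin_ext (fun w => by rw [LM.Wm_single, one_smul, LM.id_w, LinearMap.id_apply])

theorem LM.Wm_comp (G : LM S dB dC) (F : LM S dA dB) (x : W S A) :
    (G.comp F).Wm x = G.Wm (F.Wm x) := by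
  have h : ∀ w, (G.comp F).w w = G.Wm (F.w w) := by
    intro w
    induction w with
    | nil => rw [w_nil', w_nil', LM.Wm_single, one_smul, w_nil']
    | cons a w ih =>
      rw [w_cons', w_cons', ih, LM.Wm_cat, LM.Wm_ltr]
      rfl
  have h1 : (G.comp F).Wm = G.Wm ∘ₗ F.Wm := by
    refine lin_ext (fun w => ?_)
    rw [LinearMap.comp_apply, LM.Wm_single, LM.Wm_single, one_smul, one_smul, h]
  rw [h1, LinearMap.comp_apply]

private theorem tt_cat_one (deg : B → ℤ) {d d' : ℤ} {y z : W S B} (hy : y ∈ Ws S deg d)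
    (hz : z ∈ Ws S deg d') (hl : z ∈ Wl S B 1) :
    tt S deg (cat y z) = sg S (d * d') • cat z y := by
  have h := tt_pow_cat deg hy hz hl
  rwa [pow_one] at h

private theorem f_mem_Ws (F : LM S dA dB) (a : A) : ltr (F.f a) ∈ Ws S dB (dA a - 1) :=
  ltr_mem_Ws (fun b hb => by rw [F.dg a b hb])

private theorem wm_tt_lin (F : LM S dA dB) : F.Wm ∘ₗ tt S dA = tt S dB ∘ₗ F.Wm := by
  refine lin_ext (fun w => ?_)
  rw [LinearMap.comp_apply, LinearMap.comp_apply]
  rcases List.eq_nil_or_concat w with rfl | ⟨u, b, rfl⟩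
  · rw [tt_nil, LM.Wm_single, one_smul, w_nil', tt_nil]
  · rw [List.concat_eq_append, tt_snoc, map_smul, LM.Wm_single, LM.Wm_single, one_smul, one_smul,
      LM.w_append, w_sing, w_cons', tt_cat_one dB (F.w_mem_Ws u) (f_mem_Ws F b) (ltr_mem_Wl _)]

theorem LM.Wm_tt (F : LM S dA dB) (x : W S A) : F.Wm (tt S dA x) = tt S dB (F.Wm x) :=
  LinearMap.congr_fun (wm_tt_lin F) x

theorem LM.Wm_nn (F : LM S dA dB) (x : W S A) : F.Wm (nn S dA x) = nn S dB (F.Wm x) := by
  have hp : ∀ (r : ℕ) (x : W S A), F.Wm ((tt S dA ^ r) x) = (tt S dB ^ r) (F.Wm x) := by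
    intro r
    induction r with
    | zero =>
      intro x
      rw [pow_zero, pow_zero]
      rfl
    | succ r ih =>
      intro x
      rw [pow_succ, pow_succ, Module.End.mul_apply, Module.End.mul_apply, ih, LM.Wm_tt]
  refine W_ind_len (p := fun x => F.Wm (nn S dA x) = nn S dB (F.Wm x)) ?_ ?_ x
  · intro x y h1 h2
    rw [map_add, map_add, h1, h2, map_add, map_add]
  · intro m x hx
    rw [nn_eq dA hx, nn_eq dB (F.Wm_mem_Wl hx), nq_apply, nq_apply, map_sum]
    exact Finset.sum_congr rfl (fun r _ => hp r x)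

private theorem bk_single {j : ℕ} {e : ℤ} (F : LM S dA dB) (c : Co S dA dB j e) (i : ℕ)
    (w : List A) : bk F c i (Finsupp.single w 1) = sg S (e * sdg dA (w.take i)) •
      cat (F.w (w.take i)) (cat (ltr (c.φ ((w.drop i).take j))) (F.w (w.drop (i + j)))) := by
  rw [bk, lin_single, one_smul]

theorem bk_append {j : ℕ} {e : ℤ} (F : LM S dA dB) (c : Co S dA dB j e) (u v x : List A)
    (hv : v.length = j) : bk F c u.length (Finsupp.single (u ++ (v ++ x)) 1) =
      sg S (e * sdg dA u) • cat (F.w u) (cat (ltr (c.φ v)) (F.w x)) := by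
  have h3 : (u ++ (v ++ x)).drop (u.length + j) = x := by
    rw [← List.append_assoc]
    exact List.drop_left' (by rw [List.length_append, hv])
  have h4 : (v ++ x).take j = v := List.take_left' hv
  rw [bk_single, List.take_left, List.drop_left, h3, h4]

theorem bk_single_van {j : ℕ} {e : ℤ} (F : LM S dA dB) (c : Co S dA dB j e) (hj : 1 ≤ j) (i : ℕ)
    (w : List A) (h : w.length < i + j) : bk F c i (Finsupp.single w 1) = 0 := by
  rw [bk_single, c.ar ((w.drop i).take j) (by
    rw [List.length_take, List.length_drop]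
    omega), map_zero, map_zero, LinearMap.zero_apply, map_zero, smul_zero]

private theorem split3 {i j : ℕ} (w : List A) (h : i + j ≤ w.length) :
    ∃ u v y : List A, w = u ++ (v ++ y) ∧ u.length = i ∧ v.length = j ∧
      y.length = w.length - (i + j) := by
  refine ⟨w.take i, (w.drop i).take j, (w.drop i).drop j, ?_, ?_, ?_, ?_⟩
  · rw [List.take_append_drop, List.take_append_drop]
  · rw [List.length_take]
    omega
  · rw [List.length_take, List.length_drop]
    omega
  · rw [List.length_drop, List.length_drop]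
    omega

private theorem co_mem_Ws {j : ℕ} {e : ℤ} (c : Co S dA dB j e) (v : List A) :
    ltr (c.φ v) ∈ Ws S dB (sdg dA v + e) := ltr_mem_Ws (fun b hb => c.dg v b hb)

theorem bk_fam {j : ℕ} {e : ℤ} (hj : 1 ≤ j) (F : LM S dA dB) (c : Co S dA dB j e) :
    IsFam dA dB j (bk F c) where
  len m n x hx hm i hi := by
    refine Wl_ind (p := fun x => bk F c i x ∈ Wl S B n) ?_ ?_ ?_ ?_ hx
    · rw [map_zero]
      exact Submodule.zero_mem _
    · intro x y h1 h2
      rw [map_add]
      exact Submodule.add_mem _ h1 h2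
    · intro r x h1
      rw [map_smul]
      exact Submodule.smul_mem _ r h1
    · intro w hw
      obtain ⟨u, v, y, rfl, hu, hv, hy⟩ := split3 (i := i) (j := j) w (by omega)
      rw [← hu, bk_append F c u v y hv]
      refine Submodule.smul_mem _ _ ?_
      have h := cat_mem_Wl (F.w_mem_Wl u) (cat_mem_Wl (ltr_mem_Wl (c.φ v)) (F.w_mem_Wl y))
      have h1 : u.length + (1 + y.length) = n := by omega
      rwa [h1] at h
  van m x hx i hi := by
    refine Wl_ind (p := fun x => bk F c i x = 0) ?_ ?_ ?_ ?_ hx
    · exact map_zero _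
    · intro x y h1 h2
      rw [map_add, h1, h2, add_zero]
    · intro r x h1
      rw [map_smul, h1, smul_zero]
    · intro w hw
      exact bk_single_van F c hj i w (by omega)
  tP m n x hx hm i hi := by
    refine Wl_ind (p := fun x => tt S dB (bk F c i x) = bk F c (i + 1) (tt S dA x)) ?_ ?_ ?_ ?_ hx
    · simp only [map_zero]
    · intro x y h1 h2
      simp only [map_add, h1, h2]
    · intro r x h1
      simp only [map_smul, h1]
    · intro w hw
      obtain ⟨u, v, y, rfl, hu, hv, hy⟩ := split3 (i := i) (j := j) w (by omega)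
      rcases List.eq_nil_or_concat y with rfl | ⟨y, a, rfl⟩
      · rw [List.length_nil] at hy
        omega
      · rw [List.concat_eq_append]
        rw [← hu, bk_append F c u v _ hv, LM.w_append, w_sing]
        rw [show u ++ (v ++ (y ++ [a])) = (u ++ (v ++ y)) ++ [a] by
          rw [List.append_assoc, List.append_assoc], tt_snoc, map_smul,
          show a :: (u ++ (v ++ y)) = (a :: u) ++ (v ++ y) from rfl,
          show u.length + 1 = (a :: u).length from rfl, map_smul,
          bk_append F c (a :: u) v y hv, w_cons', ← cat_assoc (ltr (c.φ v)), ← cat_assoc (F.w u),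
          tt_cat_one dB (cat_mem_Ws (F.w_mem_Ws u) (cat_mem_Ws (co_mem_Ws c v) (F.w_mem_Ws y)))
            (f_mem_Ws F a) (ltr_mem_Wl _), cat_assoc (ltr (F.f a)), smul_smul, smul_smul,
          ← sg_add, ← sg_add]
        congr 2
        rw [sdg_append, sdg_append, sdg_cons]
        ring
  tL m i x hx hm := by
    refine Wl_ind (p := fun x => tt S dB (bk F c i x) = bk F c 0 ((tt S dA ^ j) x)) ?_ ?_ ?_ ?_ hx
    · simp only [map_zero]
    · intro x y h1 h2
      simp only [map_add, h1, h2]
    · intro r x h1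
      simp only [map_smul, h1]
    · intro w hw
      obtain ⟨u, v, y, rfl, hu, hv, hy⟩ := split3 (i := i) (j := j) w (by omega)
      have hy0 : y = [] := List.length_eq_zero_iff.1 (by omega)
      subst hy0
      rw [← hu, bk_append F c u v [] hv, w_nil', cat_nil_right, List.append_nil]
      have h1 : (tt S dA ^ j) (Finsupp.single (u ++ v) 1) =
          sg S (sdg dA u * sdg dA v) • Finsupp.single (v ++ u) 1 := by
        rw [← hv]
        exact tt_pow_append dA u v
      have h2 := bk_append F c [] v u hv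
      rw [List.length_nil, List.nil_append, w_nil', cat_nil_left, sdg_nil, mul_zero, sg_zero,
        one_smul] at h2
      rw [h1, map_smul, map_smul, h2,
        tt_cat_one dB (F.w_mem_Ws u) (co_mem_Ws c v) (ltr_mem_Wl _), smul_smul, ← sg_add]
      congr 1
      refine sg_congr ⟨e * sdg dA u, ?_⟩
      ring

/-- block operators and suspended degrees -/
theorem bk_mem_Ws {j : ℕ} {e : ℤ} (F : LM S dA dB) (c : Co S dA dB j e) (i : ℕ) {d : ℤ}
    {x : W S A} (hx : x ∈ Ws S dA d) : bk F c i x ∈ Ws S dB (d + e) := by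
  refine sup_ind (p := fun x => bk F c i x ∈ Ws S dB (d + e)) ?_ ?_ ?_ ?_ hx
  · rw [map_zero]
    exact Submodule.zero_mem _
  · intro x y h1 h2
    rw [map_add]
    exact Submodule.add_mem _ h1 h2
  · intro r x h1
    rw [map_smul]
    exact Submodule.smul_mem _ r h1
  · intro w hw
    have hw' : sdg dA w = d := hw
    rw [bk_single]
    refine Submodule.smul_mem _ _ ?_
    have h := cat_mem_Ws (F.w_mem_Ws (w.take i)) (cat_mem_Ws (co_mem_Ws c ((w.drop i).take j))
      (F.w_mem_Ws (w.drop (i + j))))
    have h1 : sdg dA (w.take i) + (sdg dA ((w.drop i).take j) + e + sdg dA (w.drop (i + j))) =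
        d + e := by
      have h2 : sdg dA w = sdg dA (w.take i) + (sdg dA ((w.drop i).take j) +
          sdg dA (w.drop (i + j))) := by
        rw [← sdg_append, ← List.drop_drop, List.take_append_drop, ← sdg_append,
          List.take_append_drop]
      rw [← hw', h2]
      ring
    rwa [h1] at h

private theorem blk_eq {j : ℕ} {e : ℤ} (c : Co S dA dA j e) (i : ℕ) (w : List A) :
    blk dA e j c.φ i w = bk (LM.id S dA) c i (Finsupp.single w 1) := by
  rw [bk_single, LM.id_w, LM.id_w, blk, ins_eq]

private theorem opB'_eq (L : Sc S B) : L.opB' = pB' L.f1 L.f2 := by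
  refine lin_ext (fun w => ?_)
  have e1 : ∀ i, blk L.deg 1 1 L.c1 i w = L.f1 i (Finsupp.single w 1) :=
    fun i => blk_eq L.co1 i w
  have e2 : ∀ i, blk L.deg 1 2 L.c2 i w = L.f2 i (Finsupp.single w 1) :=
    fun i => blk_eq L.co2 i w
  rw [Sc.opB', pB', LinearMap.add_apply, Lp, Lp, lin_single, lin_single, lin_single, one_smul,
    one_smul, one_smul, Finset.sum_add_distrib]
  congr 1
  · rw [Nat.add_sub_cancel]
    exact Finset.sum_congr rfl (fun i _ => e1 i)
  · have hs : Finset.range (w.length + 1 - 2) ⊆ Finset.range w.length := by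
      intro i hi
      rw [Finset.mem_range] at hi ⊢
      omega
    rw [← Finset.sum_subset hs (fun i hi hi' => ?_)]
    · exact Finset.sum_congr rfl (fun i _ => e2 i)
    · rw [Finset.mem_range] at hi hi'
      rw [e2]
      exact bk_single_van (LM.id S L.deg) L.co2 one_le_two i w (by omega)

private theorem opB_eq (L : Sc S B) : L.opB = pB L.deg L.f1 L.f2 := by
  rw [Sc.opB, pB, opB'_eq]
  congr 2
  refine lin_ext (fun w => ?_)
  rw [lin_single, one_smul]
  exact blk_eq L.co2 0 w

theorem Sc.D_eq (L : Sc S B) : L.D = DD L.deg L.f1 L.f2 := by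
  refine LinearMap.ext (fun c => ?_)
  funext p
  change (if Even p then L.opB (c p) + (c (p + 1) - tt S L.deg (c (p + 1)))
    else nn S L.deg (c (p + 1)) - L.opB' (c p)) =
    (if Even p then pB L.deg L.f1 L.f2 (c p) + (c (p + 1) - tt S L.deg (c (p + 1)))
    else nn S L.deg (c (p + 1)) - pB' L.f1 L.f2 (c p))
  rw [opB_eq, opB'_eq]

end

end BK

end NC
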