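import Mathlib
import Pool.Agent.H94.BK.Blk

/-!
# Block A, module A14: base change, reduction modulo `p`

`rd g` applies the ring homomorphism `g` to all coefficients.  All operators commute with it:
check on `Finsupp.single w r` (use `Finsupp.induction_linear` or additivity; `rd g (r • x) = g r • rd g x`).
-/

set_option autoImplicit false

noncomputable section

namespace NC

namespace BK

/-- base change of finitely supported functions -/
def rd {S S' I : Type} [CommRing S] [CommRing S'] (g : S →+* S') (x : I →₀ S) : I →₀ S' :=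
  x.mapRange g (map_zero g)

section

variable {S S' A B I : Type} [CommRing S] [CommRing S'] (g : S →+* S') {dA : A → ℤ} {dB : B → ℤ}

theorem rd_zero : rd g (0 : I →₀ S) = 0 := Finsupp.mapRange_zero

private theorem rd_apply (x : I →₀ S) (i : I) : rd g x i = g (x i) := Finsupp.mapRange_apply ..

theorem rd_add (x y : I →₀ S) : rd g (x + y) = rd g x + rd g y := by
  ext i
  rw [Finsupp.add_apply, rd_apply, rd_apply, rd_apply, Finsupp.add_apply, map_add]

theorem rd_neg (x : I →₀ S) : rd g (-x) = -rd g x := by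
  ext i
  rw [Finsupp.neg_apply, rd_apply, rd_apply, Finsupp.neg_apply, map_neg]

theorem rd_sub (x y : I →₀ S) : rd g (x - y) = rd g x - rd g y := by
  rw [sub_eq_add_neg, rd_add, rd_neg, ← sub_eq_add_neg]

theorem rd_smul (r : S) (x : I →₀ S) : rd g (r • x) = g r • rd g x := by
  ext i
  rw [Finsupp.smul_apply, rd_apply, rd_apply, Finsupp.smul_apply, smul_eq_mul, smul_eq_mul,
    map_mul]

theorem rd_single (i : I) (r : S) : rd g (Finsupp.single i r) = Finsupp.single i (g r) :=
  Finsupp.mapRange_single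

theorem rd_sum {J : Type} (s : Finset J) (f : J → (I →₀ S)) :
    rd g (∑ i ∈ s, f i) = ∑ i ∈ s, rd g (f i) := by
  classical
  induction s using Finset.induction_on with
  | empty => rw [Finset.sum_empty, Finset.sum_empty, rd_zero]
  | insert a s ha ih => rw [Finset.sum_insert ha, Finset.sum_insert ha, rd_add, ih]

private theorem rd_lc {J : Type} (F : J → (I →₀ S)) (F' : J → (I →₀ S'))
    (h : ∀ w, rd g (F w) = F' w) (x : J →₀ S) :
    rd g (Finsupp.linearCombination S F x) = Finsupp.linearCombination S' F' (rd g x) := by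
  induction x using Finsupp.induction_linear with
  | zero => rw [map_zero, rd_zero, rd_zero, map_zero]
  | add x y hx hy => rw [map_add, rd_add, rd_add, map_add, hx, hy]
  | single w r =>
    rw [rd_single, Finsupp.linearCombination_single, Finsupp.linearCombination_single, rd_smul,
      h w]

private theorem rd_lin (F : List A → (I →₀ S)) (F' : List A → (I →₀ S'))
    (h : ∀ w, rd g (F w) = F' w) (x : W S A) : rd g (lin F x) = lin F' (rd g x) :=
  rd_lc g F F' h x

theorem rd_ltr (x : B →₀ S) : rd g (ltr x) = ltr (rd g x) := by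
  induction x using Finsupp.induction_linear with
  | zero => rw [map_zero, rd_zero, rd_zero, map_zero]
  | add x y hx hy => rw [map_add, rd_add, rd_add, map_add, hx, hy]
  | single w r => rw [rd_single, ltr_single, ltr_single, rd_single]

theorem rd_cat (x y : W S B) : rd g (cat x y) = cat (rd g x) (rd g y) := by
  induction x using Finsupp.induction_linear with
  | zero => rw [map_zero, rd_zero, LinearMap.zero_apply, rd_zero, map_zero, LinearMap.zero_apply]
  | add x x' hx hx' =>
    rw [map_add, rd_add, LinearMap.add_apply, rd_add, map_add, LinearMap.add_apply, hx, hx']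
  | single u r =>
    induction y using Finsupp.induction_linear with
    | zero => rw [map_zero, rd_zero, map_zero]
    | add y y' hy hy' => rw [map_add, rd_add, rd_add, map_add, hy, hy']
    | single v s => rw [rd_single, rd_single, cat_single, cat_single, rd_single, map_mul]

private theorem rd_rotw (i : ℕ) (w : List B) : rd g (rotw S dB i w) = rotw S' dB i w := by
  rw [rotw, rd_single, map_sg, ← rotw]

theorem rd_tt (x : W S B) : rd g (tt S dB x) = tt S' dB (rd g x) :=
  rd_lin g _ _ (fun w => rd_rotw g _ w) x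

theorem rd_tt_pow (r : ℕ) (x : W S B) : rd g ((tt S dB ^ r) x) = (tt S' dB ^ r) (rd g x) := by
  induction r with
  | zero => rw [pow_zero, pow_zero, Module.End.one_apply, Module.End.one_apply]
  | succ r ih => rw [pow_succ', pow_succ', Module.End.mul_apply, Module.End.mul_apply, rd_tt, ih]

theorem rd_nn (x : W S B) : rd g (nn S dB x) = nn S' dB (rd g x) := by
  refine rd_lin g _ _ (fun w => ?_) x
  rw [rd_sum]
  exact Finset.sum_congr rfl (fun i _ => rd_rotw g i w)

theorem rd_nq (q : ℕ) (x : W S B) : rd g (nq S dB q x) = nq S' dB q (rd g x) := by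
  rw [nq_apply, nq_apply, rd_sum]
  exact Finset.sum_congr rfl (fun i _ => rd_tt_pow g i x)

private theorem rd_w (F : LM S dA dB) (w : List A) : rd g (F.w w) = (F.map g).w w := by
  induction w with
  | nil =>
    change rd g (Finsupp.single [] 1) = Finsupp.single [] 1
    rw [rd_single, map_one]
  | cons a w ih =>
    change rd g (cat (ltr (F.f a)) (F.w w)) = cat (ltr (rd g (F.f a))) ((F.map g).w w)
    rw [rd_cat, rd_ltr, ih]

theorem rd_Wm (F : LM S dA dB) (x : W S A) : rd g (F.Wm x) = (F.map g).Wm (rd g x) :=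
  rd_lin g _ _ (fun w => rd_w g F w) x

theorem rd_bk {j : ℕ} {e : ℤ} (F : LM S dA dB) (c : Co S dA dB j e) (i : ℕ) (x : W S A) :
    rd g (bk F c i x) = bk (F.map g) (c.map g) i (rd g x) := by
  refine rd_lin g _ _ (fun w => ?_) x
  rw [rd_smul, map_sg, rd_cat, rd_cat, rd_ltr, rd_w, rd_w]
  rfl

theorem LM.map_id : (LM.id S dA).map g = LM.id S' dA := by
  have h : ((LM.id S dA).map g).f = (LM.id S' dA).f := by
    funext a
    change rd g (Finsupp.single a 1) = Finsupp.single a 1
    rw [rd_single, map_one]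
  cases h1 : (LM.id S dA).map g
  cases h2 : LM.id S' dA
  rw [h1, h2] at h
  cases h
  rfl

private theorem co_ext {j : ℕ} {e : ℤ} {c c' : Co S dA dB j e} (h : c.φ = c'.φ) : c = c' := by
  cases c
  cases c'
  cases h
  rfl

theorem rd_f1 (L : Sc S B) (i : ℕ) (x : W S B) : rd g (L.f1 i x) = (L.map g).f1 i (rd g x) := by
  have h : L.co1.map g = (L.map g).co1 := by
    refine co_ext (funext (fun v => ?_))
    match v with
    | [] => exact rd_zero g
    | [a] => rfl
    | _ :: _ :: _ => exact rd_zero g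
  have h' := rd_bk g (LM.id S L.deg) L.co1 i x
  rw [LM.map_id, h] at h'
  exact h'

theorem rd_f2 (L : Sc S B) (i : ℕ) (x : W S B) : rd g (L.f2 i x) = (L.map g).f2 i (rd g x) := by
  have h : L.co2.map g = (L.map g).co2 := by
    refine co_ext (funext (fun v => ?_))
    match v with
    | [] => exact rd_zero g
    | [a] => exact rd_zero g
    | [a, b] =>
      change rd g (sg S (L.deg a) • L.m a b) = sg S' (L.deg a) • rd g (L.m a b)
      rw [rd_smul, map_sg]
    | _ :: _ :: _ :: _ => exact rd_zero g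
  have h' := rd_bk g (LM.id S L.deg) L.co2 i x
  rw [LM.map_id, h] at h'
  exact h'

variable {g} {j : ℕ} {P : ℕ → (W S A →ₗ[S] W S B)} {P' : ℕ → (W S' A →ₗ[S'] W S' B)}
  (hP : ∀ i x, rd g (P i x) = P' i (rd g x))

include hP

theorem rd_Lp (x : W S A) : rd g (Lp j P x) = Lp j P' (rd g x) := by
  refine rd_lin g _ _ (fun w => ?_) x
  rw [rd_sum]
  refine Finset.sum_congr rfl (fun i _ => ?_)
  rw [hP, rd_single, map_one]

theorem rd_Lc (x : W S A) : rd g (Lc dA j P x) = Lc dA j P' (rd g x) := by
  rw [Lc, Lc, LinearMap.add_apply, LinearMap.add_apply, rd_add, rd_Lp hP, LinearMap.sum_apply,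
    LinearMap.sum_apply, rd_sum]
  congr 1
  refine Finset.sum_congr rfl (fun i _ => ?_)
  rw [LinearMap.comp_apply, LinearMap.comp_apply, hP, rd_tt_pow]

theorem rd_kap (x : W S A) : rd g (kap dA j P x) = kap dA j P' (rd g x) := by
  refine rd_lin g _ _ (fun w => ?_) x
  rw [rd_sum]
  refine Finset.sum_congr rfl (fun i _ => ?_)
  rw [hP, rd_nq, rd_single, map_one]

private theorem rd_QQ (x : W S A) : rd g (QQ dA j P x) = QQ dA j P' (rd g x) := by
  rw [QQ, QQ, LinearMap.comp_apply, LinearMap.comp_apply, hP, rd_tt_pow]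

theorem rd_VV {s : S} {s' : S'} (hs : g s = s') (c : ℤ → W S A) :
    (fun q => rd g (VV dA s j P c q)) = VV dA s' j P' (fun q => rd g (c q)) := by
  funext q
  change rd g (if Even q then Lc dA j P (c q) else s • Lp j P (c q)) =
    if Even q then Lc dA j P' (rd g (c q)) else s' • Lp j P' (rd g (c q))
  split_ifs
  · rw [rd_Lc hP]
  · rw [rd_smul, hs, rd_Lp hP]

theorem rd_KK {s : S} {s' : S'} (hs : g s = s') {β : ℕ → (W S B →ₗ[S] W S B)}
    {β' : ℕ → (W S' B →ₗ[S'] W S' B)} (hβ : ∀ i x, rd g (β i x) = β' i (rd g x)) (c : ℤ → W S A) :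
    (fun q => rd g (KK dA s j P β c q)) = KK dA s' j P' β' (fun q => rd g (c q)) := by
  funext q
  change rd g (if Even q then s • QQ dA j P (c (q - 1)) - β 0 (QQ dA j P (c (q - 2)))
      else kap dA j P (c (q - 1))) =
    if Even q then s' • QQ dA j P' (rd g (c (q - 1))) - β' 0 (QQ dA j P' (rd g (c (q - 2))))
      else kap dA j P' (rd g (c (q - 1)))
  split_ifs
  · rw [rd_sub, rd_smul, hs, hβ, rd_QQ hP, rd_QQ hP]
  · rw [rd_kap hP]

omit hP

theorem rd_DD {a1 a2 : ℕ → (W S A →ₗ[S] W S A)} {a1' a2' : ℕ → (W S' A →ₗ[S'] W S' A)}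
    (h1 : ∀ i x, rd g (a1 i x) = a1' i (rd g x)) (h2 : ∀ i x, rd g (a2 i x) = a2' i (rd g x))
    (c : ℤ → W S A) :
    (fun q => rd g (DD dA a1 a2 c q)) = DD dA a1' a2' (fun q => rd g (c q)) := by
  have hB' : ∀ x : W S A, rd g (pB' a1 a2 x) = pB' a1' a2' (rd g x) := by
    intro x
    rw [pB', pB', LinearMap.add_apply, LinearMap.add_apply, rd_add, rd_Lp h1, rd_Lp h2]
  have hB : ∀ x : W S A, rd g (pB dA a1 a2 x) = pB dA a1' a2' (rd g x) := by
    intro x
    rw [pB, pB, LinearMap.add_apply, LinearMap.add_apply, rd_add, hB', LinearMap.comp_apply,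
      LinearMap.comp_apply, h2, rd_tt]
  funext q
  change rd g (if Even q then pB dA a1 a2 (c q) + (c (q + 1) - tt S dA (c (q + 1)))
      else nn S dA (c (q + 1)) - pB' a1 a2 (c q)) =
    if Even q then pB dA a1' a2' (rd g (c q)) + (rd g (c (q + 1)) - tt S' dA (rd g (c (q + 1))))
      else nn S' dA (rd g (c (q + 1))) - pB' a1' a2' (rd g (c q))
  split_ifs
  · rw [rd_add, rd_sub, rd_tt, hB]
  · rw [rd_sub, rd_nn, hB']

end

section

variable {p : ℕ} {k R I : Type} [Field k] [CommRing R] (c : Car p k R)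

theorem red_eq (x : I →₀ R) : red c x = rd c.π x := rfl

include c in
theorem Car.p_zero : (p : k) = 0 := by
  have h := c.flat p c.pp
  rw [map_natCast] at h
  exact h

/-- elements with reduction `0` are divisible by `p` -/
theorem exists_div (x : I →₀ R) (h : rd c.π x = 0) :
    ∃ y : I →₀ R, x = (p : R) • y ∧ ∀ i, x i = 0 → y i = 0 := by
  have h1 : ∀ r : R, ∃ s : R, (c.π r = 0 → r = (p : R) * s) ∧ (r = 0 → s = 0) := by
    intro r
    by_cases hr : r = 0
    · exact ⟨0, fun _ => by rw [hr, mul_zero], fun _ => rfl⟩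
    · by_cases hr' : c.π r = 0
      · obtain ⟨s, hs⟩ := c.ker r hr'
        exact ⟨s, fun _ => hs, fun h0 => absurd h0 hr⟩
      · exact ⟨0, fun h0 => absurd h0 hr', fun _ => rfl⟩
  choose f hf hf' using h1
  refine ⟨x.mapRange f (hf' 0 rfl), ?_, fun i hi => ?_⟩
  · ext i
    rw [Finsupp.smul_apply, Finsupp.mapRange_apply, smul_eq_mul]
    refine hf (x i) ?_
    have h2 := DFunLike.congr_fun h i
    rw [rd_apply] at h2
    exact h2
  · rw [Finsupp.mapRange_apply]
    exact hf' _ hi

theorem rd_eq_zero_of_smul (x : I →₀ R) (h : (p : R) • x = 0) : rd c.π x = 0 := by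
  ext i
  rw [rd_apply]
  refine c.flat (x i) ?_
  have h1 := DFunLike.congr_fun h i
  rw [Finsupp.smul_apply, smul_eq_mul] at h1
  exact h1

theorem smul_eq_zero_of_rd (x : I →₀ R) (h : rd c.π x = 0) : (p : R) • x = 0 := by
  obtain ⟨y, hy, -⟩ := exists_div c x h
  rw [hy, smul_smul, c.pp, zero_smul]

theorem rd_eq_of_smul (x y : I →₀ R) (h : (p : R) • x = (p : R) • y) : rd c.π x = rd c.π y := by
  have h1 := rd_eq_zero_of_smul c (x - y) (by rw [smul_sub, h, sub_self])
  rw [rd_sub] at h1
  exact sub_eq_zero.1 h1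

theorem rd_surj (x : I →₀ k) : ∃ y : I →₀ R, rd c.π y = x ∧ ∀ i, x i = 0 → y i = 0 := by
  have h1 : ∀ r : k, ∃ s : R, c.π s = r ∧ (r = 0 → s = 0) := by
    intro r
    by_cases hr : r = 0
    · exact ⟨0, by rw [hr, map_zero], fun _ => rfl⟩
    · obtain ⟨s, hs⟩ := c.surj r
      exact ⟨s, hs, fun h0 => absurd h0 hr⟩
  choose f hf hf' using h1
  refine ⟨x.mapRange f (hf' 0 rfl), ?_, fun i hi => ?_⟩
  · ext i
    rw [rd_apply, Finsupp.mapRange_apply, hf]
  · rw [Finsupp.mapRange_apply]
    exact hf' _ hi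

end

end BK

end NC
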