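import Mathlib
import Pool.Agent.H94.BK.RedW
import Pool.Agent.H94.PB.Per

/-!
# Block A, module A15: comparison with words in `A`: `b'` and `b`

`L.toWd (single w 1) = L.word w`.  For a nonempty list `w` of basis elements let
`w' = w.map (fun b => (L.sc.deg b, L.e b))`, a list as in `H94/NP/Pub.lean`, with homogeneous
entries; `KPub.thw LinearMap.id w' = L.word w` (see `H94/PB/Wrd.lean`), and
`H94/PB/Ops.lean` (`th_opB'`), `H94/PB/OpsB.lean` (`th_opB`) with the presentation `KPub.presA`
give `bp`, `bb` of a word as the explicit sums of the public file, which have the same terms and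
signs as `pB'`, `pB` (here `sdg` uses `deg - 1` instead of `deg + 1`, same parity).  The letters
`A.D (e b)`, `A.mul (e a) (e b)` are the images of `(L.sc.map π).d b`, `(L.sc.map π).m a b`
(`L.e_D`, `L.e_mul`).  A direct induction on words with `bp_snoc` is also possible.
-/

set_option autoImplicit false

noncomputable section

namespace NC

namespace BK

/-! ### Words of the form `w ++ [b]` -/

section words

variable {S B : Type} [CommRing S]

private theorem bk_snoc {deg : B → ℤ} {j : ℕ} {e : ℤ} (c : Co S deg deg j e) (i : ℕ) (w : List B)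
    (b : B) (h : i + j ≤ w.length) :
    bk (LM.id S deg) c i (Finsupp.single (w ++ [b]) 1) =
      cat (bk (LM.id S deg) c i (Finsupp.single w 1)) (Finsupp.single [b] 1) := by
  obtain ⟨u, v, x, rfl, rfl, hv⟩ : ∃ u v x, w = u ++ (v ++ x) ∧ u.length = i ∧ v.length = j :=
    ⟨w.take i, (w.drop i).take j, (w.drop i).drop j,
      by rw [List.take_append_drop, List.take_append_drop],
      by rw [List.length_take]; omega, by rw [List.length_take, List.length_drop]; omega⟩
  have e1 : u ++ (v ++ x) ++ [b] = u ++ (v ++ (x ++ [b])) := by simp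
  rw [e1, bk_append _ _ _ _ _ hv, bk_append _ _ _ _ _ hv, LM.w_append, map_smul,
    LinearMap.smul_apply, cat_assoc, cat_assoc, LM.id_w [b]]

private theorem Lp_one (j : ℕ) (P : ℕ → (W S B →ₗ[S] W S B)) (w : List B) :
    Lp j P (Finsupp.single w 1) =
      ∑ i ∈ Finset.range (w.length + 1 - j), P i (Finsupp.single w 1) := by
  rw [Lp, lin_single, one_smul]

private theorem pB'_one (L : Sc S B) (w : List B) :
    pB' L.f1 L.f2 (Finsupp.single w 1) =
      ∑ i ∈ Finset.range w.length, L.f1 i (Finsupp.single w 1) +
        ∑ i ∈ Finset.range (w.length - 1), L.f2 i (Finsupp.single w 1) := by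
  rw [pB', LinearMap.add_apply, Lp_one, Lp_one]
  rfl

private theorem pB'_snoc (L : Sc S B) {w : List B} (hw : w ≠ []) (b : B) :
    pB' L.f1 L.f2 (Finsupp.single (w ++ [b]) 1) =
      cat (pB' L.f1 L.f2 (Finsupp.single w 1)) (Finsupp.single [b] 1) +
        L.f1 w.length (Finsupp.single (w ++ [b]) 1) +
        L.f2 (w.length - 1) (Finsupp.single (w ++ [b]) 1) := by
  have hl : 1 ≤ w.length := List.length_pos_iff.2 hw
  have h1 : (w ++ [b]).length = w.length + 1 := by simp
  have h2 : w.length + 1 - 1 = w.length - 1 + 1 := by omega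
  rw [pB'_one, pB'_one, h1, Finset.sum_range_succ, h2, Finset.sum_range_succ, map_add,
    LinearMap.add_apply, map_sum, map_sum, LinearMap.sum_apply, LinearMap.sum_apply]
  have e1 : ∀ i ∈ Finset.range w.length, L.f1 i (Finsupp.single (w ++ [b]) 1) =
      cat (L.f1 i (Finsupp.single w 1)) (Finsupp.single [b] 1) := fun i hi =>
    bk_snoc L.co1 i w b (Finset.mem_range.1 hi)
  have e2 : ∀ i ∈ Finset.range (w.length - 1), L.f2 i (Finsupp.single (w ++ [b]) 1) =
      cat (L.f2 i (Finsupp.single w 1)) (Finsupp.single [b] 1) := fun i hi =>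
    bk_snoc L.co2 i w b (by
      have := Finset.mem_range.1 hi
      omega)
  rw [Finset.sum_congr rfl e1, Finset.sum_congr rfl e2]
  abel

private theorem f1_last (L : Sc S B) (w : List B) (b : B) :
    L.f1 w.length (Finsupp.single (w ++ [b]) 1) =
      sg S (sdg L.deg w) • cat (Finsupp.single w 1) (ltr (L.d b)) := by
  have h := bk_append (LM.id S L.deg) L.co1 w [b] [] rfl
  rw [LM.id_w, LM.id_w, cat_nil_right, one_mul] at h
  exact h

private theorem f2_last (L : Sc S B) (w : List B) (a b : B) :
    L.f2 w.length (Finsupp.single (w ++ [a] ++ [b]) 1) =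
      (sg S (sdg L.deg w) * sg S (L.deg a)) • cat (Finsupp.single w 1) (ltr (L.m a b)) := by
  have h := bk_append (LM.id S L.deg) L.co2 w [a, b] [] rfl
  have h1 : L.co2.φ [a, b] = sg S (L.deg a) • L.m a b := rfl
  rw [LM.id_w, LM.id_w, cat_nil_right, one_mul, h1, map_smul, map_smul, smul_smul] at h
  have h2 : w ++ [a] ++ [b] = w ++ ([a, b] ++ []) := by simp
  rw [h2]
  exact h

private theorem f2_first (L : Sc S B) (w : List B) (a b : B) :
    L.f2 0 (Finsupp.single (b :: a :: w) 1) =
      sg S (L.deg b) • cat (ltr (L.m b a)) (Finsupp.single w 1) := by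
  have h := bk_append (LM.id S L.deg) L.co2 [] [b, a] w rfl
  have h1 : L.co2.φ [b, a] = sg S (L.deg b) • L.m b a := rfl
  rw [LM.id_w, LM.id_w, cat_nil_left, one_mul, sdg_nil, sg_zero, one_smul, h1, map_smul, map_smul,
    LinearMap.smul_apply] at h
  exact h

private theorem f1_nil (L : Sc S B) {m : ℕ} (hm : 1 ≤ m) {x : W S B} (hx : x ∈ Wl S B m) {i : ℕ}
    (hi : i < m) : (L.f1 i x) [] = 0 := by
  have h := (bk_fam (le_refl 1) (LM.id S L.deg) L.co1).len m m x hx rfl i hi
  by_contra h0
  have h1 : ([] : List B).length = m := (Finsupp.mem_supported S _).1 h (Finsupp.mem_support_iff.2 h0)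
  rw [List.length_nil] at h1
  omega

private theorem f2_nil (L : Sc S B) {m : ℕ} {x : W S B} (hx : x ∈ Wl S B m) {i : ℕ}
    (hi : i < m - 1) : (L.f2 i x) [] = 0 := by
  have h := (bk_fam (one_le_two) (LM.id S L.deg) L.co2).len m (m - 1) x hx (by omega) i hi
  by_contra h0
  have h1 : ([] : List B).length = m - 1 :=
    (Finsupp.mem_supported S _).1 h (Finsupp.mem_support_iff.2 h0)
  rw [List.length_nil] at h1
  omega

private theorem pB'_nil (L : Sc S B) (w : List B) :
    (pB' L.f1 L.f2 (Finsupp.single w 1)) [] = 0 := by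
  rw [pB'_one, Finsupp.add_apply, Finsupp.finsetSum_apply, Finsupp.finsetSum_apply,
    Finset.sum_eq_zero, Finset.sum_eq_zero, add_zero]
  · intro i hi
    exact f2_nil L (single_mem_Wl rfl 1) (Finset.mem_range.1 hi)
  · intro i hi
    have := Finset.mem_range.1 hi
    exact f1_nil L (by omega) (single_mem_Wl rfl 1) this

end words

/-! ### Signs -/

private def par (n : ℤ) : Bool := !decide (Even n)

private theorem par_sg {k : Type} [Field k] (n : ℤ) : NC.sg k (par n) = sg k n := by
  unfold par
  by_cases h : Even n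
  · rw [sg, Int.negOnePow_even _ h]
    simp [h]
  · rw [sg, Int.negOnePow_odd _ (Int.not_even_iff_odd.1 h)]
    simp [h]

private theorem par_add (m n : ℤ) : par (m + n) = xor (par m) (par n) := by
  unfold par
  by_cases hm : Even m <;> by_cases hn : Even n <;> simp [hm, hn, Int.even_add]

private theorem even_sub (n : ℤ) : Even (n - 1) ↔ ¬ Even n := by
  rw [Int.even_sub, iff_false_intro Int.not_even_one, iff_false]

private theorem par_sub_one (n : ℤ) : par (n - 1) = !(par n) := by
  unfold par
  simp only [even_sub, decide_not]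

private theorem sg_rot {k : Type} [Field k] (m n : ℤ) :
    sg k (m * (n - 1)) * sg k n = - NC.sg k (!par n && !par m) := by
  have h1 : par (m * (n - 1)) = (par m && !par n) := by
    unfold par
    simp only [Int.even_mul, even_sub]
    by_cases hm : Even m <;> by_cases hn : Even n <;> simp only [hm, hn] <;> decide
  rw [← sg_add, ← par_sg, par_add, h1]
  cases par m <;> cases par n <;> simp

variable {p : ℕ} {k R : Type} [Field k] [CommRing R] {c : Car p k R} {A : ZDGA k}

namespace Lft

variable (L : Lft c A)

/-- the structure constants over `k` -/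
abbrev scK : Sc k L.B := L.sc.map c.π

theorem toWd_single (w : List L.B) (r : k) : L.toWd (Finsupp.single w r) = r • L.word w :=
  lin_single _ _ _

theorem word_snoc {w : List L.B} (hw : w ≠ []) (b : L.B) :
    L.word (w ++ [b]) = Wd.snoc (L.word w) (L.e b) := by
  cases w with
  | nil => exact absurd rfl hw
  | cons a w =>
    change (w ++ [b]).foldl (fun x a => Wd.snoc x (L.e a)) (Wd.nil (L.e a)) = _
    rw [List.foldl_append]
    rfl

theorem toWd_ltr (x : L.B →₀ k) : L.toWd (ltr x) = Wd.nil (L.e.repr.symm x) := by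
  induction x using Finsupp.induction_linear with
  | zero => simp only [map_zero]
  | add x y hx hy => simp only [map_add, hx, hy]
  | single b r =>
    rw [ltr_single, toWd_single, Module.Basis.repr_symm_single, map_smul]
    rfl

/-- insertion of a combination of letters: appended at the end -/
theorem toWd_cat_ltr {x : W k L.B} (hx : x [] = 0) (y : L.B →₀ k) :
    L.toWd (cat x (ltr y)) = Wd.snoc (L.toWd x) (L.e.repr.symm y) := by
  have hx' : x ∈ Finsupp.supported k k {w : List L.B | w ≠ []} := by
    rw [Finsupp.mem_supported]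
    intro w hw h0
    rw [h0] at hw
    exact (Finsupp.mem_support_iff.1 hw) hx
  refine supp_ind (p := fun x => L.toWd (cat x (ltr y)) =
    Wd.snoc (L.toWd x) (L.e.repr.symm y)) ?_ ?_ ?_ ?_ hx'
  · simp only [map_zero, LinearMap.zero_apply]
  · intro a b ha hb
    simp only [map_add, LinearMap.add_apply, ha, hb]
  · intro r a ha
    simp only [map_smul, LinearMap.smul_apply, ha]
  · intro w hw
    induction y using Finsupp.induction_linear with
    | zero => simp only [map_zero]
    | add y z hy hz => simp only [map_add, hy, hz]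
    | single b r =>
      rw [ltr_single, cat_single, toWd_single, one_mul, L.word_snoc hw, toWd_single, one_smul,
        Module.Basis.repr_symm_single, map_smul]

private theorem single_nil {w : List L.B} (hw : w ≠ []) : (Finsupp.single w 1 : W k L.B) [] = 0 :=
  Finsupp.single_eq_of_ne (Ne.symm hw)

private theorem symm_d (b : L.B) : L.e.repr.symm (L.scK.d b) = A.D (L.e b) := by
  change L.e.repr.symm (red c (L.sc.d b)) = _
  rw [← L.e_D, LinearEquiv.symm_apply_apply]

private theorem symm_m (a b : L.B) : L.e.repr.symm (L.scK.m a b) = A.mul (L.e a) (L.e b) := by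
  change L.e.repr.symm (red c (L.sc.m a b)) = _
  rw [← L.e_mul, LinearEquiv.symm_apply_apply]

private theorem word_hs {w : List L.B} (hw : w ≠ []) :
    Wd.Hs A.toSD A.toSD (L.word w) (par (sdg L.sc.deg w)) := by
  induction w using List.reverseRecOn with
  | nil => exact absurd rfl hw
  | append_singleton w b ih =>
    have hb : A.toSD.Hm (L.e b) (par (L.sc.deg b)) := A.toZD.hm_gr (L.e_gr b)
    by_cases h : w = []
    · subst h
      have h1 : par (sdg L.sc.deg ([] ++ [b])) = !(par (L.sc.deg b)) := by
        rw [List.nil_append, sdg_cons, sdg_nil, add_zero, par_sub_one]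
      rw [h1]
      exact Wd.Hs.nil hb
    · rw [L.word_snoc h, sdg_append, sdg_cons, sdg_nil, add_zero, par_add, par_sub_one]
      exact (ih h).snoc hb

private theorem tl_word (w : List L.B) (a b : L.B) :
    Wd.tlA A.toDGA (L.word (w ++ [a])) (L.e b) =
      L.toWd (cat (Finsupp.single w 1) (ltr (L.scK.m a b))) := by
  by_cases h : w = []
  · subst h
    rw [cat_nil_left, L.toWd_ltr, symm_m]
    exact Wd.tl_nil _ _ _ _
  · rw [L.word_snoc h, L.toWd_cat_ltr (L.single_nil h), symm_m, toWd_single, one_smul]
    exact Wd.tl_snoc _ _ _ _ _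

private theorem toWd_B'_one (w : List L.B) :
    L.toWd (pB' L.scK.f1 L.scK.f2 (Finsupp.single w 1)) = Wd.bp A.toDGA (L.word w) := by
  induction w using List.reverseRecOn with
  | nil =>
    rw [pB'_one]
    change L.toWd (0 + 0) = Wd.bp A.toDGA 0
    rw [add_zero, map_zero, map_zero]
  | append_singleton w b ih =>
    by_cases h : w = []
    · subst h
      rw [pB'_one]
      change L.toWd (∑ i ∈ Finset.range 1, L.scK.f1 i (Finsupp.single ([] ++ [b]) 1) + 0) = _
      rw [Finset.sum_range_one, add_zero]
      have h1 := f1_last L.scK [] b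
      rw [List.length_nil] at h1
      rw [h1, sdg_nil, sg_zero, one_smul, cat_nil_left, L.toWd_ltr, symm_d]
      exact (Wd.bp_nil _ _).symm
    · obtain ⟨w', a, rfl⟩ : ∃ w' a, w = w' ++ [a] :=
        ⟨w.dropLast, w.getLast h, (List.dropLast_append_getLast h).symm⟩
      have h2 : (w' ++ [a]).length - 1 = w'.length := by simp
      rw [pB'_snoc L.scK h, f1_last, h2, f2_last, map_add, map_add, map_smul, map_smul]
      have h3 : (Finsupp.single [b] 1 : W k L.B) = ltr (Finsupp.single b 1) :=
        (ltr_single b 1).symm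
      rw [h3, L.toWd_cat_ltr (pB'_nil L.scK _), ih, L.toWd_cat_ltr (L.single_nil h), symm_d,
        toWd_single, one_smul, L.word_snoc h, Wd.bp_snoc_h (L.word_hs h), par_sg, tl_word,
        Module.Basis.repr_symm_single, one_smul]
      have h4 : sg k (sdg L.sc.deg (w' ++ [a])) =
          -(sg k (sdg L.scK.deg w') * sg k (L.scK.deg a)) := by
        rw [sdg_append, sdg_cons, sdg_nil, add_zero, sg_add, sg_sub, sg_one]
        change _ = -(sg k (sdg L.sc.deg w') * sg k (L.sc.deg a))
        ring
      have h5 : sg k (sdg L.scK.deg (w' ++ [a])) = sg k (sdg L.sc.deg (w' ++ [a])) := rfl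
      rw [h5, h4]
      module

theorem toWd_B' (x : W k L.B) :
    L.toWd (pB' L.scK.f1 L.scK.f2 x) = Wd.bp A.toDGA (L.toWd x) := by
  have h : L.toWd ∘ₗ pB' L.scK.f1 L.scK.f2 = Wd.bp A.toDGA ∘ₗ L.toWd := by
    refine lin_ext (fun w => ?_)
    rw [LinearMap.comp_apply, LinearMap.comp_apply, toWd_single, one_smul, toWd_B'_one]
  exact LinearMap.congr_fun h x

private theorem fold_add (w : List L.B) (x y : Wd k A.V A.V) :
    w.foldl (fun x a => Wd.snoc x (L.e a)) (x + y) =
      w.foldl (fun x a => Wd.snoc x (L.e a)) x + w.foldl (fun x a => Wd.snoc x (L.e a)) y := by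
  induction w generalizing x y with
  | nil => rfl
  | cons a w ih =>
    rw [List.foldl_cons, List.foldl_cons, List.foldl_cons, map_add, LinearMap.add_apply, ih]

private theorem fold_smul (w : List L.B) (r : k) (x : Wd k A.V A.V) :
    w.foldl (fun x a => Wd.snoc x (L.e a)) (r • x) =
      r • w.foldl (fun x a => Wd.snoc x (L.e a)) x := by
  induction w generalizing x with
  | nil => rfl
  | cons a w ih =>
    rw [List.foldl_cons, List.foldl_cons, map_smul, LinearMap.smul_apply, ih]

private theorem fold_hd (w : List L.B) (r : A.V) (x : Wd k A.V A.V) :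
    Wd.hd A.toDGA r (w.foldl (fun x a => Wd.snoc x (L.e a)) x) =
      w.foldl (fun x a => Wd.snoc x (L.e a)) (Wd.hd A.toDGA r x) := by
  induction w generalizing x with
  | nil => rfl
  | cons a w ih =>
    rw [List.foldl_cons, List.foldl_cons, ih, Wd.hd_snoc]

private theorem toWd_ltr_cat (y : L.B →₀ k) (w : List L.B) :
    L.toWd (cat (ltr y) (Finsupp.single w 1)) =
      w.foldl (fun x a => Wd.snoc x (L.e a)) (Wd.nil (L.e.repr.symm y)) := by
  induction y using Finsupp.induction_linear with
  | zero =>
    have h := L.fold_smul w 0 0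
    rw [zero_smul, zero_smul] at h
    simp only [map_zero, LinearMap.zero_apply]
    exact h.symm
  | add y z hy hz => simp only [map_add, LinearMap.add_apply, hy, hz, fold_add]
  | single b r =>
    rw [ltr_single, cat_single, mul_one, toWd_single, Module.Basis.repr_symm_single, map_smul,
      fold_smul]
    rfl

private theorem toWd_c_one (w : List L.B) :
    L.toWd (L.scK.f2 0 (tt k L.sc.deg (Finsupp.single w 1))) = Wd.cc A.toDGA (L.word w) := by
  induction w using List.reverseRecOn with
  | nil =>
    rw [tt_nil]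
    have h : L.scK.f2 0 (Finsupp.single [] 1) = 0 :=
      bk_single_van _ _ one_le_two 0 [] (by simp)
    rw [h, map_zero]
    change 0 = Wd.cc A.toDGA 0
    rw [map_zero]
  | append_singleton w b _ =>
    rw [tt_snoc, map_smul, map_smul]
    cases w with
    | nil =>
      have h : L.scK.f2 0 (Finsupp.single [b] 1) = 0 :=
        bk_single_van _ _ one_le_two 0 [b] (by simp)
      rw [h, map_zero, smul_zero]
      exact (Wd.cc_nil _ _).symm
    | cons a w =>
      have hb : A.toSD.Hm (L.e b) (par (L.sc.deg b)) := A.toZD.hm_gr (L.e_gr b)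
      have hne : a :: w ≠ [] := List.cons_ne_nil a w
      rw [f2_first, map_smul, smul_smul, toWd_ltr_cat, symm_m, L.word_snoc hne,
        Wd.cc_snoc_h (L.word_hs hne) hb]
      have h1 : Wd.hd A.toDGA (L.e b) (L.word (a :: w)) =
          w.foldl (fun x a => Wd.snoc x (L.e a)) (Wd.nil (A.mul (L.e b) (L.e a))) := by
        change Wd.hd A.toDGA (L.e b) (w.foldl (fun x a => Wd.snoc x (L.e a)) (Wd.nil (L.e a))) = _
        rw [fold_hd, Wd.hd_nil]
      rw [h1]
      congr 1
      exact sg_rot _ _

theorem toWd_B (x : W k L.B) :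
    L.toWd (pB L.sc.deg L.scK.f1 L.scK.f2 x) = Wd.bb A.toDGA (L.toWd x) := by
  have h : L.toWd ∘ₗ (L.scK.f2 0 ∘ₗ tt k L.sc.deg) = Wd.cc A.toDGA ∘ₗ L.toWd := by
    refine lin_ext (fun w => ?_)
    rw [LinearMap.comp_apply, LinearMap.comp_apply, LinearMap.comp_apply, toWd_single, one_smul,
      toWd_c_one]
  have h1 := LinearMap.congr_fun h x
  rw [pB, LinearMap.add_apply, map_add, toWd_B', Wd.bb_apply]
  congr 1

end Lft

end BK

end NC
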