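import Mathlib
import Pool.Agent.H94.BK.RedW
import Pool.Agent.H94.NC.GCyc

/-!
# Block A, module A17: `toWd` is bijective on nonempty words, degrees; lifts of chains

Inverse of `toWd`: `Wd.recW` with `nil a ↦ ltr (e.repr a)`, `snoc w r ↦ cat w (ltr (e.repr r))`
(induction with `Wd.ext_apply`, and on lists from the right).  Degrees: `word w ∈ wgr (- sdg w - 1)`
(`nil_mem_wgr`, `snoc_mem_wgr`); a word in `wgr m` has an expansion with the degrees `m` only
(`wgr_internal` or `wgr_induction`).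
-/

set_option autoImplicit false

noncomputable section

namespace NC

namespace BK

variable {p : ℕ} {k R : Type} [Field k] [CommRing R] {c : Car p k R} {A : ZDGA k}

section Wn

variable {S A' B C : Type} [CommRing S] {dA : A' → ℤ} {dB : B → ℤ} {dC : C → ℤ}

/-- chains of nonempty words of suspended degree `d` -/
private def Wn (S : Type) {B : Type} [CommRing S] (deg : B → ℤ) (d : ℤ) : Submodule S (W S B) :=
  Finsupp.supported S S {w | w ≠ [] ∧ sdg deg w = d}

private theorem mem_Wn {deg : B → ℤ} {d : ℤ} {x : W S B} :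
    x ∈ Wn S deg d ↔ ∀ w, x w ≠ 0 → w ≠ [] ∧ sdg deg w = d := by
  rw [Wn, Finsupp.mem_supported]
  constructor
  · intro h w hw
    exact h (Finsupp.mem_support_iff.2 hw)
  · intro h w hw
    exact h w (Finsupp.mem_support_iff.1 hw)

private theorem Wn_of_len {deg : B → ℤ} {d : ℤ} {n : ℕ} (hn : 1 ≤ n) {x : W S B}
    (h1 : x ∈ Wl S B n) (h2 : x ∈ Ws S deg d) : x ∈ Wn S deg d := by
  rw [Wn, Finsupp.mem_supported]
  intro w hw
  have h3 : w.length = n := (Finsupp.mem_supported S x).1 h1 hw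
  have h4 : sdg deg w = d := (Finsupp.mem_supported S x).1 h2 hw
  refine ⟨?_, h4⟩
  rintro rfl
  rw [List.length_nil] at h3
  omega

private theorem mem_Per {L : Sc S B} {m : ℤ} {x : ℤ → W S B} :
    x ∈ L.Per m ↔ (∀ q, x q ∈ Wn S L.deg (q - m - 1)) ∧ ∃ q, ∀ p, q < p → x p = 0 := by
  constructor
  · rintro ⟨h1, h2⟩
    refine ⟨fun q => mem_Wn.2 fun w hw => ?_, h2⟩
    have := h1 q w hw
    exact ⟨this.1, by omega⟩
  · rintro ⟨h1, h2⟩
    refine ⟨fun q w hw => ?_, h2⟩
    have := mem_Wn.1 (h1 q) w hw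
    exact ⟨this.1, by omega⟩

/-- operators of degree `e` -/
private def Hd (dA : A' → ℤ) (dB : B → ℤ) (e : ℤ) (F : W S A' →ₗ[S] W S B) : Prop :=
  ∀ d x, x ∈ Wn S dA d → F x ∈ Wn S dB (d + e)

private theorem Hd.of_single {e : ℤ} {F : W S A' →ₗ[S] W S B}
    (h : ∀ w, w ≠ [] → F (Finsupp.single w 1) ∈ Wn S dB (sdg dA w + e)) : Hd dA dB e F := by
  intro d x hx
  refine supp_ind (p := fun x => F x ∈ Wn S dB (d + e)) ?_ ?_ ?_ ?_ hx
  · rw [map_zero]
    exact Submodule.zero_mem _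
  · intro a b ha hb
    rw [map_add]
    exact Submodule.add_mem _ ha hb
  · intro r a ha
    rw [map_smul]
    exact Submodule.smul_mem _ _ ha
  · rintro w ⟨hw, rfl⟩
    exact h w hw

private theorem Hd.comp {e e' : ℤ} {F : W S A' →ₗ[S] W S B} {G : W S B →ₗ[S] W S C}
    (hG : Hd dB dC e' G) (hF : Hd dA dB e F) : Hd dA dC (e + e') (G ∘ₗ F) := by
  intro d x hx
  rw [← add_assoc]
  exact hG _ _ (hF d x hx)

private theorem Hd.id : Hd dA dA 0 (LinearMap.id : W S A' →ₗ[S] W S A') := by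
  intro d x hx
  rw [add_zero]
  exact hx

private theorem single_mem_Wn {w : List A'} (hw : w ≠ []) (r : S) :
    (Finsupp.single w r : W S A') ∈ Wn S dA (sdg dA w) :=
  Finsupp.single_mem_supported S r ⟨hw, rfl⟩

private theorem cat_mem_Wn {d d' : ℤ} {x y : W S A'} (hx : x ∈ Wn S dA d)
    (hy : y ∈ Ws S dA d') : cat x y ∈ Wn S dA (d + d') := by
  refine supp_ind (p := fun x => cat x y ∈ Wn S dA (d + d')) ?_ ?_ ?_ ?_ hx
  · rw [map_zero, LinearMap.zero_apply]
    exact Submodule.zero_mem _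
  · intro a b ha hb
    rw [map_add, LinearMap.add_apply]
    exact Submodule.add_mem _ ha hb
  · intro r a ha
    rw [map_smul, LinearMap.smul_apply]
    exact Submodule.smul_mem _ _ ha
  · rintro u ⟨hu, rfl⟩
    refine supp_ind (p := fun y => cat (Finsupp.single u 1) y ∈ Wn S dA (sdg dA u + d'))
      ?_ ?_ ?_ ?_ hy
    · rw [map_zero]
      exact Submodule.zero_mem _
    · intro a b ha hb
      rw [map_add]
      exact Submodule.add_mem _ ha hb
    · intro r a ha
      rw [map_smul]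
      exact Submodule.smul_mem _ _ ha
    · intro v hv
      rw [cat_single]
      have h : sdg dA v = d' := hv
      have h1 := single_mem_Wn (S := S) (dA := dA) (w := u ++ v) (by simp [hu]) (1 * 1)
      rwa [sdg_append, h] at h1

private theorem hd_tt : Hd dA dA 0 (tt S dA) := by
  refine Hd.of_single (fun w hw => ?_)
  rw [add_zero]
  exact Wn_of_len (List.length_pos_iff.2 hw) (tt_mem_Wl dA (single_mem_Wl rfl _))
    (tt_mem_Ws dA (single_mem_Ws rfl _))

private theorem hd_tt_pow (n : ℕ) : Hd dA dA 0 (tt S dA ^ n) := by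
  induction n with
  | zero =>
    rw [pow_zero]
    exact Hd.id
  | succ n ih =>
    rw [pow_succ]
    exact ih.comp hd_tt

private theorem hd_nn : Hd dA dA 0 (nn S dA) := by
  refine Hd.of_single (fun w hw => ?_)
  rw [add_zero]
  exact Wn_of_len (List.length_pos_iff.2 hw) (nn_mem_Wl dA (single_mem_Wl rfl _))
    (nn_mem_Ws dA (single_mem_Ws rfl _))

private theorem hd_nq (n : ℕ) : Hd dA dA 0 (nq S dA n) := by
  intro d x hx
  rw [nq_apply]
  exact Submodule.sum_mem _ fun r _ => hd_tt_pow r d x hx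

private theorem hd_bk {j : ℕ} (hj : 1 ≤ j) {e : ℤ} (F : LM S dA dB) (φ : Co S dA dB j e) (i : ℕ) :
    Hd dA dB e (bk F φ i) := by
  refine Hd.of_single (fun w _ => ?_)
  by_cases h : i + j ≤ w.length
  · have h1 := (bk_fam hj F φ).len w.length (w.length + 1 - j) (Finsupp.single w 1)
      (single_mem_Wl rfl _) (by omega) i (by omega)
    exact Wn_of_len (by omega) h1 (bk_mem_Ws F φ i (single_mem_Ws rfl _))
  · rw [(bk_fam hj F φ).van w.length _ (single_mem_Wl rfl _) i (by omega)]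
    exact Submodule.zero_mem _

private theorem hd_Wm (F : LM S dA dB) : Hd dA dB 0 F.Wm := by
  refine Hd.of_single (fun w hw => ?_)
  rw [add_zero]
  exact Wn_of_len (List.length_pos_iff.2 hw) (F.Wm_mem_Wl (single_mem_Wl rfl _))
    (F.Wm_mem_Ws (single_mem_Ws rfl _))

private theorem hd_Lp {j : ℕ} {e : ℤ} {P : ℕ → (W S A' →ₗ[S] W S B)} (hP : ∀ i, Hd dA dB e (P i)) :
    Hd dA dB e (Lp j P) := by
  refine Hd.of_single (fun w hw => ?_)
  rw [Lp, lin_single, one_smul]
  exact Submodule.sum_mem _ fun i _ => hP i _ _ (single_mem_Wn hw _)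

private theorem hd_kap {j : ℕ} {e : ℤ} {P : ℕ → (W S A' →ₗ[S] W S B)}
    (hP : ∀ i, Hd dA dB e (P i)) : Hd dA dB e (kap dA j P) := by
  refine Hd.of_single (fun w hw => ?_)
  rw [kap, lin_single, one_smul]
  refine Submodule.sum_mem _ fun i _ => ?_
  have h := hP i _ _ (hd_nq (S := S) (dA := dA) (i + j) _ _ (single_mem_Wn hw (1 : S)))
  rwa [add_zero] at h

private theorem hd_QQ {j : ℕ} {e : ℤ} {P : ℕ → (W S A' →ₗ[S] W S B)}
    (hP : ∀ i, Hd dA dB e (P i)) : Hd dA dB e (QQ dA j P) := by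
  have h := (hP 0).comp (hd_tt_pow (S := S) (dA := dA) j)
  rwa [zero_add] at h

private theorem hd_pB' {e : ℤ} {b1 b2 : ℕ → (W S A' →ₗ[S] W S A')} (h1 : ∀ i, Hd dA dA e (b1 i))
    (h2 : ∀ i, Hd dA dA e (b2 i)) : Hd dA dA e (pB' b1 b2) := by
  intro d x hx
  rw [pB', LinearMap.add_apply]
  exact Submodule.add_mem _ (hd_Lp h1 d x hx) (hd_Lp h2 d x hx)

private theorem hd_pB {e : ℤ} {b1 b2 : ℕ → (W S A' →ₗ[S] W S A')} (h1 : ∀ i, Hd dA dA e (b1 i))
    (h2 : ∀ i, Hd dA dA e (b2 i)) : Hd dA dA e (pB dA b1 b2) := by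
  intro d x hx
  rw [pB, LinearMap.add_apply]
  have h := (h2 0).comp (hd_tt (S := S) (dA := dA))
  rw [zero_add] at h
  exact Submodule.add_mem _ (hd_pB' h1 h2 d x hx) (h d x hx)

private theorem hd_f1 (L : Sc S B) (i : ℕ) : Hd L.deg L.deg 1 (L.f1 i) := hd_bk le_rfl _ _ i

private theorem hd_f2 (L : Sc S B) (i : ℕ) : Hd L.deg L.deg 1 (L.f2 i) := hd_bk (by norm_num) _ _ i

end Wn

namespace Lft

variable (L : Lft c A)

private theorem wd_one (b : L.B) : L.word [b] = Wd.nil (L.e b) := rfl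

private theorem wd_snoc {w : List L.B} (hw : w ≠ []) (b : L.B) :
    L.word (w ++ [b]) = Wd.snoc (L.word w) (L.e b) := by
  cases w with
  | nil => exact absurd rfl hw
  | cons a w =>
    change (w ++ [b]).foldl _ _ = _
    rw [List.foldl_append]
    rfl

private theorem toWd_s (w : List L.B) (r : k) :
    L.toWd (Finsupp.single w r) = r • L.word w := lin_single _ _ _

/-- the inverse map -/
private def inv : Wd k A.V A.V →ₗ[k] W k L.B :=
  Wd.recW (ltr ∘ₗ L.e.repr.toLinearMap) 0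
    ((cat (S := k) (B := L.B)).compl₂ (ltr ∘ₗ L.e.repr.toLinearMap))

private theorem inv_nil (a : A.V) : L.inv (Wd.nil a) = ltr (L.e.repr a) := by
  rw [inv, Wd.recW_nil]
  rfl

private theorem inv_snoc (w : Wd k A.V A.V) (a : A.V) :
    L.inv (Wd.snoc w a) = cat (L.inv w) (ltr (L.e.repr a)) := by
  rw [inv, Wd.recW_snoc, LinearMap.zero_apply, LinearMap.zero_apply, zero_add]
  rfl

private theorem inv_word (w : List L.B) (hw : w ≠ []) :
    L.inv (L.word w) = Finsupp.single w 1 := by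
  induction w using List.reverseRecOn with
  | nil => exact absurd rfl hw
  | append_singleton w b ih =>
    by_cases h : w = []
    · subst h
      rw [List.nil_append, wd_one, inv_nil, L.e.repr_self, ltr_single]
    · rw [L.wd_snoc h, inv_snoc, ih h, L.e.repr_self, ltr_single, cat_single, mul_one]

private theorem inv_toWd {x : W k L.B} (h0 : x [] = 0) : L.inv (L.toWd x) = x := by
  have h1 : x ∈ Finsupp.supported k k {w : List L.B | w ≠ []} := by
    rw [Finsupp.mem_supported]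
    intro w hw
    rintro rfl
    exact (Finsupp.mem_support_iff.1 hw) h0
  refine supp_ind (p := fun x => L.inv (L.toWd x) = x) ?_ ?_ ?_ ?_ h1
  · rw [map_zero, map_zero]
  · intro a b ha hb
    rw [map_add, map_add, ha, hb]
  · intro r a ha
    rw [map_smul, map_smul, ha]
  · intro w hw
    rw [toWd_s, one_smul, L.inv_word w hw]

theorem toWd_inj {x : W k L.B} (h0 : x [] = 0) (h : L.toWd x = 0) : x = 0 := by
  rw [← L.inv_toWd h0, h, map_zero]

private theorem word_gr (w : List L.B) (hw : w ≠ []) :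
    L.word w ∈ A.cyc.gr (- sdg L.sc.deg w - 1) := by
  induction w using List.reverseRecOn with
  | nil => exact absurd rfl hw
  | append_singleton w b ih =>
    by_cases h : w = []
    · subst h
      rw [List.nil_append, wd_one]
      have h1 := Wd.nil_mem_wgr A.gr A.gr (L.e_gr b)
      have e : - sdg L.sc.deg [b] - 1 = - L.sc.deg b := by
        rw [sdg_cons, sdg_nil]
        ring
      rw [e]
      exact h1
    · rw [L.wd_snoc h]
      have h1 := Wd.snoc_mem_wgr A.gr A.gr (ih h) (L.e_gr b)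
      have e : - sdg L.sc.deg (w ++ [b]) - 1 = - sdg L.sc.deg w - 1 + 1 - L.sc.deg b := by
        rw [sdg_append, sdg_cons, sdg_nil]
        ring
      rw [e]
      exact h1

private theorem toWd_Wn {d : ℤ} {x : W k L.B} (h : x ∈ Wn k L.sc.deg d) :
    L.toWd x ∈ A.cyc.gr (- d - 1) := by
  refine supp_ind (p := fun x => L.toWd x ∈ A.cyc.gr (- d - 1)) ?_ ?_ ?_ ?_ h
  · rw [map_zero]
    exact Submodule.zero_mem _
  · intro a b ha hb
    rw [map_add]
    exact Submodule.add_mem _ ha hb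
  · intro r a ha
    rw [map_smul]
    exact Submodule.smul_mem _ _ ha
  · rintro w ⟨hw, rfl⟩
    rw [toWd_s, one_smul]
    exact L.word_gr w hw

theorem toWd_gr {m : ℤ} {x : W k L.B}
    (h : ∀ w, x w ≠ 0 → w ≠ [] ∧ - sdg L.sc.deg w - 1 = m) : L.toWd x ∈ A.cyc.gr m := by
  have h1 : x ∈ Wn k L.sc.deg (- m - 1) := by
    refine mem_Wn.2 fun w hw => ?_
    have := h w hw
    exact ⟨this.1, by omega⟩
  have h2 := L.toWd_Wn h1
  have e : - (- m - 1) - 1 = m := by ring
  rwa [e] at h2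

/-- the coordinates of a homogeneous element -/
private theorem repr_gr {i : ℤ} {a : A.V} (ha : a ∈ A.gr i) (b : L.B) (hb : L.e.repr a b ≠ 0) :
    L.sc.deg b = i := by
  classical
  by_contra hc
  set x := L.e.repr a with hx
  set y := x.filter (fun b => L.sc.deg b = i) with hy
  set z := x.filter (fun b => ¬ L.sc.deg b = i) with hz
  have hxy : y + z = x := Finsupp.filter_add_filter_not x _
  have h1 : L.e.repr.symm y ∈ A.gr i := by
    rw [Module.Basis.repr_symm_apply, Finsupp.linearCombination_apply, Finsupp.sum]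
    refine Submodule.sum_mem _ fun b hb => Submodule.smul_mem _ _ ?_
    have h2 : L.sc.deg b = i := by
      by_contra h3
      exact (Finsupp.mem_support_iff.1 hb) (Finsupp.filter_apply_neg _ _ h3)
    rw [← h2]
    exact L.e_gr b
  have h2 : L.e.repr.symm z ∈ ⨆ j, ⨆ (_ : j ≠ i), A.gr j := by
    rw [Module.Basis.repr_symm_apply, Finsupp.linearCombination_apply, Finsupp.sum]
    refine Submodule.sum_mem _ fun b hb => Submodule.smul_mem _ _ ?_
    have h2 : L.sc.deg b ≠ i := by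
      intro h3
      exact (Finsupp.mem_support_iff.1 hb) (Finsupp.filter_apply_neg _ _ (not_not.2 h3))
    exact Submodule.mem_iSup_of_mem _ (Submodule.mem_iSup_of_mem h2 (L.e_gr b))
  have h3 : L.e.repr.symm z = a - L.e.repr.symm y := by
    rw [eq_sub_iff_add_eq, ← map_add, add_comm, hxy, hx, LinearEquiv.symm_apply_apply]
  have h4 : L.e.repr.symm z ∈ A.gr i := by
    rw [h3]
    exact Submodule.sub_mem _ ha h1
  have h5 : L.e.repr.symm z = 0 :=
    (Submodule.disjoint_def.1 ((iSupIndep_def.1 A.internal.submodule_iSupIndep) i)) _ h4 h2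
  have h6 : z = 0 := by
    have := congrArg L.e.repr h5
    rwa [LinearEquiv.apply_symm_apply, map_zero] at this
  have h7 : z b = x b := Finsupp.filter_apply_pos _ _ hc
  rw [h6] at h7
  exact hb h7.symm

private theorem toWd_ltr' (x : L.B →₀ k) : L.toWd (ltr x) = Wd.nil (L.e.repr.symm x) := by
  induction x using Finsupp.induction_linear with
  | zero => rw [map_zero, map_zero, map_zero, map_zero]
  | add x y hx hy => rw [map_add, map_add, hx, hy, map_add, map_add]
  | single b r =>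
    rw [ltr_single, toWd_s, wd_one, ← map_smul, Module.Basis.repr_symm_single]

private theorem toWd_cat' {x : W k L.B} (hx : x [] = 0) (y : L.B →₀ k) :
    L.toWd (cat x (ltr y)) = Wd.snoc (L.toWd x) (L.e.repr.symm y) := by
  have h1 : x ∈ Finsupp.supported k k {w : List L.B | w ≠ []} := by
    rw [Finsupp.mem_supported]
    intro w hw
    rintro rfl
    exact (Finsupp.mem_support_iff.1 hw) hx
  refine supp_ind (p := fun x => L.toWd (cat x (ltr y)) =
    Wd.snoc (L.toWd x) (L.e.repr.symm y)) ?_ ?_ ?_ ?_ h1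
  · simp only [map_zero, LinearMap.zero_apply]
  · intro a b ha hb
    simp only [map_add, LinearMap.add_apply, ha, hb]
  · intro r a ha
    simp only [map_smul, LinearMap.smul_apply, ha]
  · intro w hw
    induction y using Finsupp.induction_linear with
    | zero => simp only [map_zero]
    | add x y hx hy => simp only [map_add, hx, hy]
    | single b r =>
      rw [ltr_single, cat_single, toWd_s, toWd_s, one_smul, one_mul, L.wd_snoc hw,
        Module.Basis.repr_symm_single, map_smul]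

theorem toWd_surj {m : ℤ} {v : A.cyc.V} (hv : v ∈ A.cyc.gr m) :
    ∃ x : W k L.B, L.toWd x = v ∧ ∀ w, x w ≠ 0 → w ≠ [] ∧ - sdg L.sc.deg w - 1 = m := by
  have h : ∃ x : W k L.B, L.toWd x = v ∧ x ∈ Wn k L.sc.deg (- m - 1) := by
    refine Wd.wgr_induction A.gr A.gr
      (p := fun m v => ∃ x : W k L.B, L.toWd x = v ∧ x ∈ Wn k L.sc.deg (- m - 1)) ?_ ?_ ?_ ?_ ?_ hv
    · intro m
      exact ⟨0, map_zero _, Submodule.zero_mem _⟩
    · rintro m a b ⟨x, rfl, hx⟩ ⟨y, rfl, hy⟩
      exact ⟨x + y, map_add _ _ _, Submodule.add_mem _ hx hy⟩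
    · rintro m r a ⟨x, rfl, hx⟩
      exact ⟨r • x, map_smul _ _ _, Submodule.smul_mem _ _ hx⟩
    · intro i a ha
      refine ⟨ltr (L.e.repr a), by rw [toWd_ltr', LinearEquiv.symm_apply_apply], ?_⟩
      refine Wn_of_len le_rfl (ltr_mem_Wl _) (ltr_mem_Ws fun b hb => ?_)
      rw [L.repr_gr ha b hb]
      ring
    · rintro m j w r _ ⟨x, rfl, hx⟩ hr
      have hx0 : x [] = 0 := by
        by_contra h
        exact (mem_Wn.1 hx [] h).1 rfl
      refine ⟨cat x (ltr (L.e.repr r)), by rw [L.toWd_cat' hx0, LinearEquiv.symm_apply_apply], ?_⟩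
      have h1 : ltr (L.e.repr r) ∈ Ws k L.sc.deg (j - 1) :=
        ltr_mem_Ws fun b hb => by rw [L.repr_gr hr b hb]
      have h2 := cat_mem_Wn hx h1
      have e : - m - 1 + (j - 1) = - (m + 1 - j) - 1 := by ring
      rwa [e] at h2
  obtain ⟨x, hx, hx'⟩ := h
  refine ⟨x, hx, fun w hw => ?_⟩
  have := mem_Wn.1 hx' w hw
  exact ⟨this.1, by omega⟩

private theorem red_Wn {d : ℤ} {x : W R L.B} (hx : x ∈ Wn R L.sc.deg d) :
    red c x ∈ Wn k L.sc.deg d := by
  refine mem_Wn.2 fun w hw => mem_Wn.1 hx w fun h => hw ?_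
  change c.π (x w) = 0
  rw [h, map_zero]

private theorem rd0 {I : Type} : red c (0 : I →₀ R) = 0 := rd_zero c.π

private theorem at_nil {d : ℤ} {S : Type} [CommRing S] {B : Type} {deg : B → ℤ} {x : W S B}
    (hx : x ∈ Wn S deg d) : x [] = 0 := by
  by_contra h
  exact (mem_Wn.1 hx [] h).1 rfl

/-- chains of `A` lift to chains over `R` -/
theorem toA_surj {m : ℤ} {z : ℤ → A.cyc.V} (hz : z ∈ A.cyc.CP Set.univ m) :
    ∃ x ∈ L.sc.Per m, L.toA x = z := by
  classical
  obtain ⟨h1, -, P, h3⟩ := hz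
  have h4 : ∀ q, ∃ x : W R L.B, L.toWd (red c x) = z q ∧ x ∈ Wn R L.sc.deg (q - m - 1) := by
    intro q
    obtain ⟨y, hy, hy'⟩ := L.toWd_surj (h1 q)
    obtain ⟨x, hx, hx'⟩ := rd_surj c y
    refine ⟨x, by rw [red_eq, hx, hy], mem_Wn.2 fun w hw => ?_⟩
    have := hy' w (fun h => hw (hx' w h))
    exact ⟨this.1, by omega⟩
  choose x hx hx' using h4
  refine ⟨fun q => if P < q then 0 else x q, mem_Per.2 ⟨fun q => ?_, P, fun q hq => if_pos hq⟩, ?_⟩
  · change (if P < q then 0 else x q) ∈ _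
    split_ifs
    · exact Submodule.zero_mem _
    · exact hx' q
  · funext q
    change L.toWd (red c (if P < q then 0 else x q)) = z q
    split_ifs with h
    · rw [rd0, map_zero, h3 q h]
      rfl
    · exact hx q

theorem toA_CP {m : ℤ} {x : ℤ → W R L.B} (hx : x ∈ L.sc.Per m) :
    L.toA x ∈ A.cyc.CP Set.univ m := by
  obtain ⟨h1, P, h2⟩ := mem_Per.1 hx
  refine ⟨fun q => ?_, fun q hq => absurd (Set.mem_univ q) hq, P, fun q hq => ?_⟩
  · have h := L.toWd_Wn (L.red_Wn (h1 q))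
    have e : - (q - m - 1) - 1 = m - q := by ring
    rw [e] at h
    exact h
  · change L.toWd (red c (x q)) = 0
    rw [h2 q hq, rd0, map_zero]

/-- a chain over `R` with image `0` is divisible by `p` -/
theorem toA_zero {m : ℤ} {x : ℤ → W R L.B} (hx : x ∈ L.sc.Per m) (h : L.toA x = 0) :
    ∃ y ∈ L.sc.Per m, x = (p : R) • y := by
  obtain ⟨h1, P, h2⟩ := mem_Per.1 hx
  have h3 : ∀ q, ∃ y : W R L.B, x q = (p : R) • y ∧ ∀ w, x q w = 0 → y w = 0 := by
    intro q
    refine exists_div c (x q) ?_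
    have h4 := L.red_Wn (h1 q)
    exact L.toWd_inj (at_nil h4) (congrFun h q)
  choose y hy hy' using h3
  refine ⟨y, mem_Per.2 ⟨fun q => mem_Wn.2 fun w hw => mem_Wn.1 (h1 q) w fun h => hw (hy' q w h),
    P, fun q hq => ?_⟩, funext fun q => hy q⟩
  ext w
  rw [hy' q w (by rw [h2 q hq]; rfl)]
  rfl

theorem toA_p {x y : ℤ → W R L.B} (h : (p : R) • x = (p : R) • y) : L.toA x = L.toA y := by
  funext q
  change L.toWd (red c (x q)) = L.toWd (red c (y q))
  rw [red_eq, red_eq, rd_eq_of_smul c (x q) (y q) (congrFun h q)]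

theorem toA_add (x y : ℤ → W R L.B) : L.toA (x + y) = L.toA x + L.toA y := by
  funext q
  change L.toWd (red c (x q + y q)) = L.toWd (red c (x q)) + L.toWd (red c (y q))
  rw [red_eq, red_eq, red_eq, rd_add, map_add]

theorem toA_smul (r : R) (x : ℤ → W R L.B) : L.toA (r • x) = c.π r • L.toA x := by
  funext q
  change L.toWd (red c (r • x q)) = c.π r • L.toWd (red c (x q))
  rw [red_eq, red_eq, rd_smul, map_smul]

end Lft

/-- all operators respect degrees: the differential -/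
theorem DD_Per {S B : Type} [CommRing S] (L : Sc S B) {m : ℤ} {x : ℤ → W S B} (hx : x ∈ L.Per m) :
    DD L.deg L.f1 L.f2 x ∈ L.Per (m - 1) := by
  obtain ⟨h1, P, h2⟩ := mem_Per.1 hx
  refine mem_Per.2 ⟨fun q => ?_, P, fun q hq => ?_⟩
  · have h3 := hd_pB (hd_f1 L) (hd_f2 L) _ _ (h1 q)
    have h4 := hd_pB' (hd_f1 L) (hd_f2 L) _ _ (h1 q)
    have h5 := hd_tt _ _ (h1 (q + 1))
    have h6 := hd_nn _ _ (h1 (q + 1))
    have h7 := h1 (q + 1)
    have e1 : q - m - 1 + 1 = q - (m - 1) - 1 := by ring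
    have e2 : q + 1 - m - 1 + 0 = q - (m - 1) - 1 := by ring
    have e3 : q + 1 - m - 1 = q - (m - 1) - 1 := by ring
    rw [e1] at h3 h4
    rw [e2] at h5 h6
    rw [e3] at h7
    change (if Even q then pB L.deg L.f1 L.f2 (x q) + (x (q + 1) - tt S L.deg (x (q + 1)))
      else nn S L.deg (x (q + 1)) - pB' L.f1 L.f2 (x q)) ∈ _
    split_ifs
    · exact Submodule.add_mem _ h3 (Submodule.sub_mem _ h7 h5)
    · exact Submodule.sub_mem _ h6 h4
  · change (if Even q then pB L.deg L.f1 L.f2 (x q) + (x (q + 1) - tt S L.deg (x (q + 1)))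
      else nn S L.deg (x (q + 1)) - pB' L.f1 L.f2 (x q)) = 0
    rw [h2 q hq, h2 (q + 1) (by omega)]
    simp only [map_zero, sub_self, add_zero, ite_self]

/-- letter maps respect degrees -/
theorem Wm_Per {S A B : Type} [CommRing S] (L : Sc S A) (M : Sc S B) (F : LM S L.deg M.deg) {m : ℤ}
    {x : ℤ → W S A} (hx : x ∈ L.Per m) : (fun q => F.Wm (x q)) ∈ M.Per m := by
  obtain ⟨h1, P, h2⟩ := mem_Per.1 hx
  refine mem_Per.2 ⟨fun q => ?_, P, fun q hq => ?_⟩
  · have h := hd_Wm F _ _ (h1 q)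
    rwa [add_zero] at h
  · rw [h2 q hq, map_zero]

/-- the homotopy of a cochain of degree `e` has degree `1 - e` -/
theorem KK_Per {S A B : Type} [CommRing S] (L : Sc S A) (M : Sc S B) (F : LM S L.deg M.deg)
    {j : ℕ} (hj : 1 ≤ j) {e : ℤ} (φ : Co S L.deg M.deg j e) (s : S) {m : ℤ} {x : ℤ → W S A}
    (hx : x ∈ L.Per m) : KK L.deg s j (bk F φ) M.f2 x ∈ M.Per (m + (1 - e)) := by
  obtain ⟨h1, P, h2⟩ := mem_Per.1 hx
  have hP : ∀ i, Hd L.deg M.deg e (bk F φ i) := fun i => hd_bk hj F φ i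
  refine mem_Per.2 ⟨fun q => ?_, P + 2, fun q hq => ?_⟩
  · have h3 := hd_QQ (j := j) hP _ _ (h1 (q - 1))
    have h4 := hd_f2 M 0 _ _ (hd_QQ (j := j) hP _ _ (h1 (q - 2)))
    have h5 := hd_kap (j := j) hP _ _ (h1 (q - 1))
    have e1 : q - 1 - m - 1 + e = q - (m + (1 - e)) - 1 := by ring
    have e2 : q - 2 - m - 1 + e + 1 = q - (m + (1 - e)) - 1 := by ring
    rw [e1] at h3 h5
    rw [e2] at h4
    change (if Even q then s • QQ L.deg j (bk F φ) (x (q - 1)) -
      M.f2 0 (QQ L.deg j (bk F φ) (x (q - 2))) else kap L.deg j (bk F φ) (x (q - 1))) ∈ _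
    split_ifs
    · exact Submodule.sub_mem _ (Submodule.smul_mem _ _ h3) h4
    · exact h5
  · change (if Even q then s • QQ L.deg j (bk F φ) (x (q - 1)) -
      M.f2 0 (QQ L.deg j (bk F φ) (x (q - 2))) else kap L.deg j (bk F φ) (x (q - 1))) = 0
    rw [h2 (q - 1) (by omega), h2 (q - 2) (by omega)]
    simp only [map_zero, smul_zero, sub_self, ite_self]

end BK

end NC
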