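import Mathlib
import Pool.Agent.H94.BK.Blk

/-!
# Block A, module A03: composition and commutation of block operators

On a basis word cut into the pieces `u`, block, `u'`, block, `x` both sides are explicit
(`bk_append`, `LM.w_append`, `cat_assoc`), the ratio of the signs is `(-1)^(e f)`.
If the blocks do not fit both sides are zero.  `bk_bk`: nested blocks.
-/

set_option autoImplicit false

noncomputable section

namespace NC

namespace BK

section

variable {S A B B' C : Type} [CommRing S] {dA : A → ℤ} {dB : B → ℤ} {dB' : B' → ℤ} {dC : C → ℤ}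

/-- `G ∘ φ` -/
def Co.post {j : ℕ} {e : ℤ} (G : LM S dB dC) (c : Co S dA dB j e) : Co S dA dC j e where
  φ v := Finsupp.linearCombination S G.f (c.φ v)
  ar v h := by rw [c.ar v h, map_zero]
  dg v x h := by
    by_contra hc
    apply h
    rw [Finsupp.linearCombination_apply, Finsupp.sum_apply, Finsupp.sum]
    refine Finset.sum_eq_zero (fun b hb => ?_)
    rw [Finsupp.smul_apply]
    by_cases h1 : G.f b x = 0
    · rw [h1, smul_zero]
    · have h2 := G.dg b x h1
      have h3 := c.dg v b (Finsupp.mem_support_iff.1 hb)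
      rw [← h2] at h3
      exact absurd h3 hc

/-- two linear maps which agree on the words of `X` agree on `X` -/
private theorem lin_on {M : Type} [AddCommGroup M] [Module S M] (f g : W S A →ₗ[S] M) (X : W S A)
    (h : ∀ w, X w ≠ 0 → f (Finsupp.single w 1) = g (Finsupp.single w 1)) : f X = g X := by
  have hX : X = ∑ w ∈ X.support, X w • (Finsupp.single w 1 : W S A) := by
    conv_lhs => rw [← Finsupp.sum_single X]
    rw [Finsupp.sum]
    refine Finset.sum_congr rfl (fun w _ => ?_)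
    rw [Finsupp.smul_single, smul_eq_mul, mul_one]
  rw [hX, map_sum, map_sum]
  refine Finset.sum_congr rfl (fun w hw => ?_)
  rw [map_smul, map_smul, h w (Finsupp.mem_support_iff.1 hw)]

private theorem Wl_len {m : ℕ} {X : W S A} (hX : X ∈ Wl S A m) (w : List A) (hw : X w ≠ 0) :
    w.length = m := by
  have h := (Finsupp.mem_supported S X).1 hX
  exact h (Finset.mem_coe.2 (Finsupp.mem_support_iff.2 hw))

private theorem Ws_deg {d : ℤ} {X : W S A} (hX : X ∈ Ws S dA d) (w : List A) (hw : X w ≠ 0) :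
    sdg dA w = d := by
  have h := (Finsupp.mem_supported S X).1 hX
  exact h (Finset.mem_coe.2 (Finsupp.mem_support_iff.2 hw))

/-- the value of `lin` at a basis element `x` is nonzero only if some word contributes -/
private theorem lin_ne {φ : List B → (C →₀ S)} {X : W S B} {x : C} (h : lin φ X x ≠ 0) :
    ∃ w, X w ≠ 0 ∧ φ w x ≠ 0 := by
  by_contra hc
  push Not at hc
  apply h
  rw [lin, Finsupp.linearCombination_apply, Finsupp.sum_apply, Finsupp.sum]
  refine Finset.sum_eq_zero (fun w hw => ?_)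
  rw [Finsupp.smul_apply, hc w (Finsupp.mem_support_iff.1 hw), smul_zero]

/-- `ψ ∘ F` -/
def Co.pre {j : ℕ} {e : ℤ} (c : Co S dB dC j e) (F : LM S dA dB) : Co S dA dC j e where
  φ v := lin c.φ (F.w v)
  ar v h := by
    have h1 : lin c.φ (F.w v) = (0 : W S B →ₗ[S] (C →₀ S)) (F.w v) := by
      refine lin_on _ _ _ (fun w hw => ?_)
      rw [lin_single, one_smul, LinearMap.zero_apply]
      exact c.ar w (by rw [Wl_len (F.w_mem_Wl v) w hw]; exact h)
    rw [h1, LinearMap.zero_apply]
  dg v x h := by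
    obtain ⟨w, hw, hx⟩ := lin_ne h
    rw [c.dg w x hx, Ws_deg (F.w_mem_Ws v) w hw]

/-- nested composition: `φ` on the block starting at the letter `i` of the block of `ψ` -/
def Co.nest {j l : ℕ} {e f : ℤ} (ψ : Co S dB dC l f) (F : LM S dA dB) (φ : Co S dA dB j e)
    (i : ℕ) : Co S dA dC (j + l - 1) (e + f) where
  φ v := if v.length = j + l - 1 then lin ψ.φ (bk F φ i (Finsupp.single v 1)) else 0
  ar v h := if_neg h
  dg v x h := by
    by_cases hv : v.length = j + l - 1
    · rw [if_pos hv] at h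
      obtain ⟨w, hw, hx⟩ := lin_ne h
      rw [ψ.dg w x hx, Ws_deg (bk_mem_Ws F φ i (single_mem_Ws rfl 1)) w hw, add_assoc]
    · rw [if_neg hv] at h
      exact absurd rfl h

/-- a block operator on a word which is cut into three pieces, the middle one is the block -/
private theorem bk_cut {j : ℕ} {e : ℤ} (F : LM S dA dB) (c : Co S dA dB j e) (i : ℕ)
    (u v x : List A) (hu : u.length = i ∨ (u.length ≤ i ∧ v = [] ∧ x = []))
    (hv : v.length = j ∨ (v.length ≤ j ∧ x = [])) :
    bk F c i (Finsupp.single (u ++ (v ++ x)) 1) =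
      sg S (e * sdg dA u) • cat (F.w u) (cat (ltr (c.φ v)) (F.w x)) := by
  have h1 : (u ++ (v ++ x)).take i = u := by
    rcases hu with h | ⟨h, rfl, rfl⟩
    · rw [← h, List.take_left]
    · rw [List.append_nil, List.append_nil, List.take_of_length_le h]
  have h2 : (u ++ (v ++ x)).drop i = v ++ x := by
    rcases hu with h | ⟨h, rfl, rfl⟩
    · rw [← h, List.drop_left]
    · rw [List.append_nil, List.append_nil, List.drop_eq_nil_of_le h]
  have h3 : (v ++ x).take j = v := by
    rcases hv with h | ⟨h, rfl⟩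
    · rw [← h, List.take_left]
    · rw [List.append_nil, List.take_of_length_le h]
  have h4 : (u ++ (v ++ x)).drop (i + j) = x := by
    rw [← List.drop_drop, h2]
    rcases hv with h | ⟨h, rfl⟩
    · rw [← h, List.drop_left]
    · rw [List.append_nil, List.drop_eq_nil_of_le h]
  rw [bk, lin_single, one_smul, h1, h2, h3, h4]

/-- a block operator on a concatenation of three chains; the lengths fit to the block -/
private theorem bk_cat {j : ℕ} {e : ℤ} (F : LM S dA dB) (c : Co S dA dB j e) (i : ℕ)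
    {a b r : ℕ} {d : ℤ} {X Y Z : W S A} (hX : X ∈ Wl S A a) (hXd : X ∈ Ws S dA d)
    (hY : Y ∈ Wl S A b) (hZ : Z ∈ Wl S A r) (ha : a = i ∨ (a ≤ i ∧ b = 0 ∧ r = 0))
    (hb : b = j ∨ (b ≤ j ∧ r = 0)) :
    bk F c i (cat X (cat Y Z)) =
      sg S (e * d) • cat (F.Wm X) (cat (ltr (lin c.φ Y)) (F.Wm Z)) := by
  have key : ∀ u v x : List A, X u ≠ 0 → Y v ≠ 0 → Z x ≠ 0 →
      bk F c i (cat (Finsupp.single u 1) (cat (Finsupp.single v 1) (Finsupp.single x 1))) =
        sg S (e * d) • cat (F.Wm (Finsupp.single u (1 : S)))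
          (cat (ltr (lin c.φ (Finsupp.single v (1 : S)))) (F.Wm (Finsupp.single x (1 : S)))) := by
    intro u v x hu hv hx
    have lu := Wl_len hX u hu
    have lv := Wl_len hY v hv
    have lx := Wl_len hZ x hx
    have du := Ws_deg hXd u hu
    rw [cat_single, cat_single, mul_one, mul_one, LM.Wm_single, LM.Wm_single, lin_single,
      one_smul, one_smul, one_smul, ← du]
    refine bk_cut F c i u v x ?_ ?_
    · rcases ha with h | ⟨h, h', h''⟩
      · exact Or.inl (lu.trans h)
      · exact Or.inr ⟨lu ▸ h, List.length_eq_zero_iff.1 (lv.trans h'),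
          List.length_eq_zero_iff.1 (lx.trans h'')⟩
    · rcases hb with h | ⟨h, h'⟩
      · exact Or.inl (lv.trans h)
      · exact Or.inr ⟨lv ▸ h, List.length_eq_zero_iff.1 (lx.trans h')⟩
  refine lin_on (bk F c i ∘ₗ cat.flip (cat Y Z))
    (sg S (e * d) • (cat.flip (cat (ltr (lin c.φ Y)) (F.Wm Z)) ∘ₗ F.Wm)) X (fun u hu => ?_)
  change bk F c i (cat (Finsupp.single u 1) (cat Y Z)) =
    sg S (e * d) • cat (F.Wm (Finsupp.single u 1)) (cat (ltr (lin c.φ Y)) (F.Wm Z))
  refine lin_on (bk F c i ∘ₗ cat (Finsupp.single u 1) ∘ₗ cat.flip Z)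
    (sg S (e * d) • (cat (F.Wm (Finsupp.single u 1)) ∘ₗ cat.flip (F.Wm Z) ∘ₗ ltr ∘ₗ lin c.φ)) Y
    (fun v hv => ?_)
  change bk F c i (cat (Finsupp.single u 1) (cat (Finsupp.single v 1) Z)) =
    sg S (e * d) • cat (F.Wm (Finsupp.single u (1 : S)))
      (cat (ltr (lin c.φ (Finsupp.single v (1 : S)))) (F.Wm Z))
  refine lin_on (bk F c i ∘ₗ cat (Finsupp.single u 1) ∘ₗ cat (Finsupp.single v 1))
    (sg S (e * d) • (cat (F.Wm (Finsupp.single u 1)) ∘ₗ
      cat (ltr (lin c.φ (Finsupp.single v (1 : S)))) ∘ₗ F.Wm)) Z (fun x hx => ?_)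
  exact key u v x hu hv hx

private theorem comp_w (G : LM S dB dC) (F : LM S dA dB) (w : List A) :
    (G.comp F).w w = G.Wm (F.w w) := by
  have h := LM.Wm_comp G F (Finsupp.single w 1)
  rw [LM.Wm_single, LM.Wm_single, one_smul, one_smul] at h
  exact h

private theorem w_congr {F F' : LM S dA dB} (h : F.f = F'.f) (w : List A) : F.w w = F'.w w := by
  cases F
  cases F'
  cases h
  rfl

theorem bk_Wm {j : ℕ} {e : ℤ} (G : LM S dB dC) (c : Co S dB dC j e) (F : LM S dA dB) (i : ℕ)
    (x : W S A) : bk G c i (F.Wm x) = bk (G.comp F) (c.pre F) i x := by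
  have h : bk G c i ∘ₗ F.Wm = bk (G.comp F) (c.pre F) i := by
    refine lin_ext (fun w => ?_)
    obtain ⟨u, v, y, hw, hu, hv⟩ : ∃ u v y : List A, w = u ++ (v ++ y) ∧
        (u.length = i ∨ (u.length ≤ i ∧ v = [] ∧ y = [])) ∧
        (v.length = j ∨ (v.length ≤ j ∧ y = [])) := by
      refine ⟨w.take i, (w.drop i).take j, (w.drop i).drop j, ?_, ?_, ?_⟩
      · rw [List.take_append_drop, List.take_append_drop]
      · by_cases h : i ≤ w.length
        · exact Or.inl (List.length_take_of_le h)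
        · have hd : w.drop i = [] := List.drop_eq_nil_of_le (by omega)
          refine Or.inr ⟨List.length_take_le i w, ?_, ?_⟩
          · rw [hd, List.take_nil]
          · rw [hd, List.drop_nil]
      · by_cases h : j ≤ (w.drop i).length
        · exact Or.inl (List.length_take_of_le h)
        · exact Or.inr ⟨List.length_take_le j _, List.drop_eq_nil_of_le (by omega)⟩
    rw [LinearMap.comp_apply, LM.Wm_single, one_smul, hw, bk_cut (G.comp F) (c.pre F) i u v y hu hv,
      LM.w_append, LM.w_append, comp_w, comp_w]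
    refine bk_cat G c i (F.w_mem_Wl u) (F.w_mem_Ws u) (F.w_mem_Wl v) (F.w_mem_Wl y) ?_ ?_
    · rcases hu with h | ⟨h, h', h''⟩
      · exact Or.inl h
      · exact Or.inr ⟨h, by rw [h']; rfl, by rw [h'']; rfl⟩
    · rcases hv with h | ⟨h, h'⟩
      · exact Or.inl h
      · exact Or.inr ⟨h, by rw [h']; rfl⟩
  exact LinearMap.congr_fun h x

theorem Wm_bk {j : ℕ} {e : ℤ} (G : LM S dB dC) (F : LM S dA dB) (c : Co S dA dB j e) (i : ℕ)
    (x : W S A) : G.Wm (bk F c i x) = bk (G.comp F) (c.post G) i x := by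
  have h : G.Wm ∘ₗ bk F c i = bk (G.comp F) (c.post G) i := by
    refine lin_ext (fun w => ?_)
    rw [LinearMap.comp_apply, bk, bk, lin_single, lin_single, one_smul, one_smul, map_smul,
      LM.Wm_cat, LM.Wm_cat, LM.Wm_ltr, comp_w, comp_w]
    rfl
  exact LinearMap.congr_fun h x

/-- a word of length `≥ a + b` is cut into three pieces -/
private theorem cut3 (w : List A) (a b : ℕ) (h : a + b ≤ w.length) :
    ∃ u v x : List A, w = u ++ (v ++ x) ∧ u.length = a ∧ v.length = b := by
  refine ⟨w.take a, (w.drop a).take b, (w.drop a).drop b, ?_, ?_, ?_⟩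
  · rw [List.take_append_drop, List.take_append_drop]
  · exact List.length_take_of_le (by omega)
  · exact List.length_take_of_le (by rw [List.length_drop]; omega)

theorem bk_bk {j l : ℕ} {e f : ℤ} (hj : 1 ≤ j) (hl : 1 ≤ l) (G : LM S dB dC) (ψ : Co S dB dC l f)
    (F : LM S dA dB) (φ : Co S dA dB j e) (i c : ℕ) (hc : c < l) (x : W S A) :
    bk G ψ i (bk F φ (i + c) x) = bk (G.comp F) (ψ.nest F φ c) i x := by
  have h : bk G ψ i ∘ₗ bk F φ (i + c) = bk (G.comp F) (ψ.nest F φ c) i := by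
    refine lin_ext (fun w => ?_)
    rw [LinearMap.comp_apply]
    by_cases hw : i + (j + l - 1) ≤ w.length
    · obtain ⟨u, v, y, rfl, hu, hv⟩ := cut3 w i (j + l - 1) hw
      obtain ⟨v1, v2, v3, rfl, hv1, hv2⟩ := cut3 v c j (by omega)
      have hv3 : v3.length = l - 1 - c := by
        simp only [List.length_append] at hv
        omega
      have e1 : u ++ ((v1 ++ (v2 ++ v3)) ++ y) = (u ++ v1) ++ (v2 ++ (v3 ++ y)) := by
        simp only [List.append_assoc]
      have e2 : bk F φ (i + c) (Finsupp.single (u ++ ((v1 ++ (v2 ++ v3)) ++ y)) 1) =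
          sg S (e * sdg dA (u ++ v1)) • cat (F.w (u ++ v1)) (cat (ltr (φ.φ v2))
            (F.w (v3 ++ y))) := by
        rw [e1]
        exact bk_cut F φ (i + c) (u ++ v1) v2 (v3 ++ y)
          (Or.inl (by rw [List.length_append, hu, hv1])) (Or.inl hv2)
      have e3 : cat (F.w (u ++ v1)) (cat (ltr (φ.φ v2)) (F.w (v3 ++ y))) =
          cat (F.w u) (cat (cat (F.w v1) (cat (ltr (φ.φ v2)) (F.w v3))) (F.w y)) := by
        rw [LM.w_append, LM.w_append, cat_assoc, cat_assoc, cat_assoc]
      have e4 : (ψ.nest F φ c).φ (v1 ++ (v2 ++ v3)) =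
          sg S (e * sdg dA v1) • lin ψ.φ (cat (F.w v1) (cat (ltr (φ.φ v2)) (F.w v3))) := by
        change (if (v1 ++ (v2 ++ v3)).length = j + l - 1 then
          lin ψ.φ (bk F φ c (Finsupp.single (v1 ++ (v2 ++ v3)) 1)) else 0) = _
        rw [if_pos hv, bk_cut F φ c v1 v2 v3 (Or.inl hv1) (Or.inl hv2), map_smul]
      have hY : cat (F.w v1) (cat (ltr (φ.φ v2)) (F.w v3)) ∈ Wl S B l := by
        have := cat_mem_Wl (F.w_mem_Wl v1) (cat_mem_Wl (ltr_mem_Wl (φ.φ v2)) (F.w_mem_Wl v3))
        have hl' : v1.length + (1 + v3.length) = l := by omega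
        rwa [hl'] at this
      rw [e2, e3, map_smul, bk_cat G ψ i (F.w_mem_Wl u) (F.w_mem_Ws u) hY (F.w_mem_Wl y)
        (Or.inl hu) (Or.inl rfl), bk_cut (G.comp F) (ψ.nest F φ c) i u (v1 ++ (v2 ++ v3)) y
        (Or.inl hu) (Or.inl hv), e4, comp_w, comp_w, map_smul, map_smul, LinearMap.smul_apply,
        map_smul, smul_smul, smul_smul, sdg_append, mul_add, add_mul, sg_add, sg_add]
      congr 1
      ring
    · have hw' : w.length < i + (j + l - 1) := by omega
      rw [bk_single_van (G.comp F) (ψ.nest F φ c) (by omega) i w hw']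
      by_cases h1 : w.length < i + c + j
      · rw [bk_single_van F φ hj (i + c) w h1, map_zero]
      · have h2 := (bk_fam hj F φ).len w.length (w.length + 1 - j) (Finsupp.single w 1)
          (single_mem_Wl rfl 1) (by omega) (i + c) (by omega)
        exact (bk_fam hl G ψ).van _ _ h2 i (by omega)
  exact LinearMap.congr_fun h x

theorem bk_comm_right {j l : ℕ} {e f : ℤ} (hj : 1 ≤ j) (hl : 1 ≤ l) (F : LM S dA dB)
    (G : LM S dB dC) (F' : LM S dA dB') (G' : LM S dB' dC) (φ : Co S dA dB j e)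
    (ψ : Co S dB dC l f) (φ' : Co S dB' dC j e) (ψ' : Co S dA dB' l f)
    (h1 : (G.comp F).f = (G'.comp F').f) (h2 : (φ.post G).φ = (φ'.pre F').φ)
    (h3 : (ψ.pre F).φ = (ψ'.post G').φ) (i c : ℕ) (hc : i < c) (x : W S A) :
    bk G ψ c (bk F φ i x) = sg S (e * f) • bk G' φ' i (bk F' ψ' (c + j - 1) x) := by
  have h : bk G ψ c ∘ₗ bk F φ i = sg S (e * f) • (bk G' φ' i ∘ₗ bk F' ψ' (c + j - 1)) := by
    refine lin_ext (fun w => ?_)
    rw [LinearMap.smul_apply, LinearMap.comp_apply, LinearMap.comp_apply]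
    by_cases hw : c + j - 1 + l ≤ w.length
    · obtain ⟨u, v, w1, rfl, hu, hv⟩ := cut3 w i j (by omega)
      obtain ⟨y, z, r, rfl, hy, hz⟩ := cut3 w1 (c - i - 1) l (by
        simp only [List.length_append] at hw
        omega)
      have hh1 : ∀ q : List A, G.Wm (F.w q) = G'.Wm (F'.w q) := fun q => by
        rw [← comp_w, ← comp_w, w_congr h1]
      have hh2 : Finsupp.linearCombination S G.f (φ.φ v) = lin φ'.φ (F'.w v) := congrFun h2 v
      have hh3 : lin ψ.φ (F.w z) = Finsupp.linearCombination S G'.f (ψ'.φ z) := congrFun h3 z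
      have e1 : u ++ (v ++ (y ++ (z ++ r))) = (u ++ (v ++ y)) ++ (z ++ r) := by
        simp only [List.append_assoc]
      have hX : cat (F.w u) (cat (ltr (φ.φ v)) (F.w y)) ∈ Wl S B c := by
        have := cat_mem_Wl (F.w_mem_Wl u) (cat_mem_Wl (ltr_mem_Wl (φ.φ v)) (F.w_mem_Wl y))
        have hl' : u.length + (1 + y.length) = c := by omega
        rwa [hl'] at this
      have hXd : cat (F.w u) (cat (ltr (φ.φ v)) (F.w y)) ∈
          Ws S dB (sdg dA u + (sdg dA v + e + sdg dA y)) :=
        cat_mem_Ws (F.w_mem_Ws u) (cat_mem_Ws (ltr_mem_Ws (fun b hb => φ.dg v b hb))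
          (F.w_mem_Ws y))
      have hZ : cat (F'.w y) (cat (ltr (ψ'.φ z)) (F'.w r)) ∈
          Wl S B' (y.length + (1 + r.length)) :=
        cat_mem_Wl (F'.w_mem_Wl y) (cat_mem_Wl (ltr_mem_Wl _) (F'.w_mem_Wl r))
      have eL : bk F φ i (Finsupp.single (u ++ (v ++ (y ++ (z ++ r)))) 1) =
          sg S (e * sdg dA u) • cat (cat (F.w u) (cat (ltr (φ.φ v)) (F.w y)))
            (cat (F.w z) (F.w r)) := by
        rw [bk_cut F φ i u v (y ++ (z ++ r)) (Or.inl hu) (Or.inl hv), LM.w_append, LM.w_append,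
          cat_assoc, cat_assoc]
      have eR : bk F' ψ' (c + j - 1) (Finsupp.single (u ++ (v ++ (y ++ (z ++ r)))) 1) =
          sg S (f * sdg dA (u ++ (v ++ y))) • cat (F'.w u) (cat (F'.w v)
            (cat (F'.w y) (cat (ltr (ψ'.φ z)) (F'.w r)))) := by
        rw [e1, bk_cut F' ψ' (c + j - 1) (u ++ (v ++ y)) z r
          (Or.inl (by simp only [List.length_append]; omega)) (Or.inl hz), LM.w_append,
          LM.w_append, cat_assoc, cat_assoc]
      rw [eL, eR, map_smul, map_smul, bk_cat G ψ c hX hXd (F.w_mem_Wl z) (F.w_mem_Wl r)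
        (Or.inl rfl) (Or.inl hz), bk_cat G' φ' i (F'.w_mem_Wl u) (F'.w_mem_Ws u) (F'.w_mem_Wl v)
        hZ (Or.inl hu) (Or.inl hv), LM.Wm_cat, LM.Wm_cat, LM.Wm_cat, LM.Wm_cat, LM.Wm_ltr,
        LM.Wm_ltr, hh1, hh1, hh1, hh2, hh3, cat_assoc, cat_assoc, smul_smul, smul_smul,
        smul_smul, sdg_append, sdg_append]
      congr 1
      rw [← sg_add, ← sg_add, ← sg_add]
      exact sg_congr ⟨0, by ring⟩
    · have hw' : w.length < c + j - 1 + l := by omega
      rw [bk_single_van F' ψ' hl (c + j - 1) w hw', map_zero, smul_zero]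
      by_cases h1 : w.length < i + j
      · rw [bk_single_van F φ hj i w h1, map_zero]
      · have h2 := (bk_fam hj F φ).len w.length (w.length + 1 - j) (Finsupp.single w 1)
          (single_mem_Wl rfl 1) (by omega) i (by omega)
        exact (bk_fam hl G ψ).van _ _ h2 c (by omega)
  exact LinearMap.congr_fun h x

theorem bk_comm_left {j l : ℕ} {e f : ℤ} (hj : 1 ≤ j) (hl : 1 ≤ l) (F : LM S dA dB)
    (G : LM S dB dC) (F' : LM S dA dB') (G' : LM S dB' dC) (φ : Co S dA dB j e)
    (ψ : Co S dB dC l f) (φ' : Co S dB' dC j e) (ψ' : Co S dA dB' l f)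
    (h1 : (G.comp F).f = (G'.comp F').f) (h2 : (φ.post G).φ = (φ'.pre F').φ)
    (h3 : (ψ.pre F).φ = (ψ'.post G').φ) (i c : ℕ) (hc : c + l ≤ i) (x : W S A) :
    bk G ψ c (bk F φ i x) = sg S (e * f) • bk G' φ' (i + 1 - l) (bk F' ψ' c x) := by
  have h : bk G ψ c ∘ₗ bk F φ i = sg S (e * f) • (bk G' φ' (i + 1 - l) ∘ₗ bk F' ψ' c) := by
    refine lin_ext (fun w => ?_)
    rw [LinearMap.smul_apply, LinearMap.comp_apply, LinearMap.comp_apply]
    by_cases hw : i + j ≤ w.length
    · obtain ⟨u, z, w1, rfl, hu, hz⟩ := cut3 w c l (by omega)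
      obtain ⟨y, v, r, rfl, hy, hv⟩ := cut3 w1 (i - c - l) j (by
        simp only [List.length_append] at hw
        omega)
      have hh1 : ∀ q : List A, G.Wm (F.w q) = G'.Wm (F'.w q) := fun q => by
        rw [← comp_w, ← comp_w, w_congr h1]
      have hh2 : Finsupp.linearCombination S G.f (φ.φ v) = lin φ'.φ (F'.w v) := congrFun h2 v
      have hh3 : lin ψ.φ (F.w z) = Finsupp.linearCombination S G'.f (ψ'.φ z) := congrFun h3 z
      have e1 : u ++ (z ++ (y ++ (v ++ r))) = (u ++ (z ++ y)) ++ (v ++ r) := by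
        simp only [List.append_assoc]
      have hX : cat (F'.w u) (cat (ltr (ψ'.φ z)) (F'.w y)) ∈ Wl S B' (i + 1 - l) := by
        have := cat_mem_Wl (F'.w_mem_Wl u) (cat_mem_Wl (ltr_mem_Wl (ψ'.φ z)) (F'.w_mem_Wl y))
        have hl' : u.length + (1 + y.length) = i + 1 - l := by omega
        rwa [hl'] at this
      have hXd : cat (F'.w u) (cat (ltr (ψ'.φ z)) (F'.w y)) ∈
          Ws S dB' (sdg dA u + (sdg dA z + f + sdg dA y)) :=
        cat_mem_Ws (F'.w_mem_Ws u) (cat_mem_Ws (ltr_mem_Ws (fun b hb => ψ'.dg z b hb))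
          (F'.w_mem_Ws y))
      have hZ : cat (F.w y) (cat (ltr (φ.φ v)) (F.w r)) ∈
          Wl S B (y.length + (1 + r.length)) :=
        cat_mem_Wl (F.w_mem_Wl y) (cat_mem_Wl (ltr_mem_Wl _) (F.w_mem_Wl r))
      have eR : bk F' ψ' c (Finsupp.single (u ++ (z ++ (y ++ (v ++ r)))) 1) =
          sg S (f * sdg dA u) • cat (cat (F'.w u) (cat (ltr (ψ'.φ z)) (F'.w y)))
            (cat (F'.w v) (F'.w r)) := by
        rw [bk_cut F' ψ' c u z (y ++ (v ++ r)) (Or.inl hu) (Or.inl hz), LM.w_append, LM.w_append,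
          cat_assoc, cat_assoc]
      have eL : bk F φ i (Finsupp.single (u ++ (z ++ (y ++ (v ++ r)))) 1) =
          sg S (e * sdg dA (u ++ (z ++ y))) • cat (F.w u) (cat (F.w z)
            (cat (F.w y) (cat (ltr (φ.φ v)) (F.w r)))) := by
        rw [e1, bk_cut F φ i (u ++ (z ++ y)) v r
          (Or.inl (by simp only [List.length_append]; omega)) (Or.inl hv), LM.w_append,
          LM.w_append, cat_assoc, cat_assoc]
      rw [eL, eR, map_smul, map_smul, bk_cat G' φ' (i + 1 - l) hX hXd (F'.w_mem_Wl v)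
        (F'.w_mem_Wl r) (Or.inl rfl) (Or.inl hv), bk_cat G ψ c (F.w_mem_Wl u) (F.w_mem_Ws u)
        (F.w_mem_Wl z) hZ (Or.inl hu) (Or.inl hz), LM.Wm_cat, LM.Wm_cat, LM.Wm_cat, LM.Wm_cat,
        LM.Wm_ltr, LM.Wm_ltr, hh1, hh1, hh1, hh2, hh3, cat_assoc, cat_assoc, smul_smul,
        smul_smul, smul_smul, sdg_append, sdg_append]
      congr 1
      rw [← sg_add, ← sg_add, ← sg_add]
      exact sg_congr ⟨- (e * f), by ring⟩
    · have hw' : w.length < i + j := by omega
      rw [bk_single_van F φ hj i w hw', map_zero]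
      by_cases h1 : w.length < c + l
      · rw [bk_single_van F' ψ' hl c w h1, map_zero, smul_zero]
      · have h2 := (bk_fam hl F' ψ').len w.length (w.length + 1 - l) (Finsupp.single w 1)
          (single_mem_Wl rfl 1) (by omega) c (by omega)
        rw [(bk_fam hj G' φ').van _ _ h2 (i + 1 - l) (by omega), smul_zero]
  exact LinearMap.congr_fun h x

private theorem lc_id (x : A →₀ S) : Finsupp.linearCombination S (LM.id S dA).f x = x := by
  rw [Finsupp.linearCombination_apply]
  conv_rhs => rw [← Finsupp.sum_single x]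
  refine Finsupp.sum_congr (fun a _ => ?_)
  change x a • Finsupp.single a 1 = _
  rw [Finsupp.smul_single, smul_eq_mul, mul_one]

/-- the case used for the Cartan formula: `F` commutes with `a`, `b` -/
theorem comm_of {j l : ℕ} {e : ℤ} (hj : 1 ≤ j) (hl : 1 ≤ l) (F : LM S dA dB)
    (φ : Co S dA dB j e) (b : Co S dB dB l 1) (a : Co S dA dA l 1)
    (h : ∀ v, lin b.φ (F.w v) = Finsupp.linearCombination S F.f (a.φ v)) :
    Comm (sg S e) l j (bk (LM.id S dB) b) (bk (LM.id S dA) a) (bk F φ) := by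
  have h1 : ((LM.id S dB).comp F).f = (F.comp (LM.id S dA)).f := by
    funext q
    change Finsupp.linearCombination S (LM.id S dB).f (F.f q) =
      Finsupp.linearCombination S F.f (Finsupp.single q 1)
    rw [lc_id, Finsupp.linearCombination_single, one_smul]
  have h2 : (φ.post (LM.id S dB)).φ = (φ.pre (LM.id S dA)).φ := by
    funext v
    change Finsupp.linearCombination S (LM.id S dB).f (φ.φ v) = lin φ.φ ((LM.id S dA).w v)
    rw [lc_id, LM.id_w, lin_single, one_smul]
  have h3 : (b.pre F).φ = (a.post F).φ := by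
    funext v
    exact h v
  constructor
  · intro i c x hc
    have := bk_comm_right hj hl F (LM.id S dB) (LM.id S dA) F φ b φ a h1 h2 h3 i c hc x
    rwa [mul_one] at this
  · intro i c x hc
    have := bk_comm_left hj hl F (LM.id S dB) (LM.id S dA) F φ b φ a h1 h2 h3 i c hc x
    rwa [mul_one] at this

/-- blocks of cochains with the same source and target -/
theorem comm_self {j l : ℕ} {e : ℤ} (hj : 1 ≤ j) (hl : 1 ≤ l)
    (φ : Co S dA dA j e) (b : Co S dA dA l 1) :
    Comm (sg S e) l j (bk (LM.id S dA) b) (bk (LM.id S dA) b) (bk (LM.id S dA) φ) :=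
  comm_of hj hl (LM.id S dA) φ b b (fun v => by rw [LM.id_w, lin_single, one_smul, lc_id])

end

end BK

end NC
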