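import Mathlib
import Pool.Agent.H94.BK.Sgn

/-!
# Block A, module A04: families of operators, relations with `1 - t` and `N`

`x ∈ Wl m`, `n = m + 1 - j` the new length.  From the rules: `t P_i = P_(i+1) t` for `i + 1 < n`,
`t P_(n-1) = P_0 t^j`.
`T_Lp`: `(1 - t) Σ P_i = Σ_(i<n) P_i - Σ_(1≤i<n) P_i t - P_0 t^j` and
`(Σ_(i<n) P_i + Σ_(1≤i<j) P_0 t^i)(1 - t) = Σ_(i<n) P_i - Σ_(i<n) P_i t + P_0 t - P_0 t^j`.
`N_Lc`: `N_n P_i = Σ_r t^r P_i`; `t^r P_i = P_(i+r) t^r` for `i + r < n` and
`t^r P_i = P_(i+r-n) t^(r+j-1)` for `i + r ≥ n` (`tpow_P`), and `t^m = 1`.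
-/

set_option autoImplicit false

noncomputable section

namespace NC

namespace BK

section

variable {S A B C : Type} [CommRing S] {dA : A → ℤ} {dB : B → ℤ} {j : ℕ}
  {P : ℕ → (W S A →ₗ[S] W S B)}

theorem Lp_apply {m : ℕ} {x : W S A} (hx : x ∈ Wl S A m) :
    Lp j P x = ∑ i ∈ Finset.range (m + 1 - j), P i x := by
  refine Wl_ind (p := fun x => Lp j P x = ∑ i ∈ Finset.range (m + 1 - j), P i x) ?_ ?_ ?_ ?_ hx
  · simp
  · intro a b ha hb
    rw [map_add, ha, hb, ← Finset.sum_add_distrib]
    exact Finset.sum_congr rfl (fun i _ => (map_add _ _ _).symm)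
  · intro r a ha
    rw [map_smul, ha, Finset.smul_sum]
    exact Finset.sum_congr rfl (fun i _ => (map_smul _ _ _).symm)
  · intro w hw
    rw [Lp, lin_single, one_smul, hw]

theorem Lc_apply {m : ℕ} {x : W S A} (hx : x ∈ Wl S A m) :
    Lc dA j P x = ∑ i ∈ Finset.range (m + 1 - j), P i x +
      ∑ i ∈ Finset.range (j - 1), P 0 ((tt S dA ^ (i + 1)) x) := by
  rw [Lc, LinearMap.add_apply, Lp_apply hx, LinearMap.sum_apply]
  rfl

theorem kap_apply {m : ℕ} {x : W S A} (hx : x ∈ Wl S A m) :
    kap dA j P x = ∑ i ∈ Finset.range (m + 1 - j), P i (nq S dA (i + j) x) := by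
  refine Wl_ind (p := fun x => kap dA j P x =
    ∑ i ∈ Finset.range (m + 1 - j), P i (nq S dA (i + j) x)) ?_ ?_ ?_ ?_ hx
  · simp
  · intro a b ha hb
    rw [map_add, ha, hb, ← Finset.sum_add_distrib]
    exact Finset.sum_congr rfl (fun i _ => by rw [map_add, map_add])
  · intro r a ha
    rw [map_smul, ha, Finset.smul_sum]
    exact Finset.sum_congr rfl (fun i _ => by rw [map_smul, map_smul])
  · intro w hw
    rw [kap, lin_single, one_smul, hw]

theorem QQ_apply (x : W S A) : QQ dA j P x = P 0 ((tt S dA ^ j) x) := rfl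

theorem tpow_P (hP : IsFam dA dB j P) {m n : ℕ} {x : W S A} (hx : x ∈ Wl S A m)
    (hn : m + 1 = n + j) (i r : ℕ) (h : i + r < n) :
    (tt S dB ^ r) (P i x) = P (i + r) ((tt S dA ^ r) x) := by
  induction r with
  | zero => rfl
  | succ r ih =>
    rw [pow_succ', Module.End.mul_apply, ih (by omega),
      hP.tP m n _ (tt_pow_mem_Wl dA hx r) hn (i + r) (by omega), pow_succ' (tt S dA),
      Module.End.mul_apply]
    rfl

theorem tpow_P' (hP : IsFam dA dB j P) (hj : 1 ≤ j) {m n : ℕ} {x : W S A} (hx : x ∈ Wl S A m)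
    (hn : m + 1 = n + j) (i r : ℕ) (hi : i < n) (hr : r ≤ n) (h : n ≤ i + r) :
    (tt S dB ^ r) (P i x) = P (i + r - n) ((tt S dA ^ (r + j - 1)) x) := by
  have h1 : r = (i + r - n) + (1 + (n - 1 - i)) := by omega
  have h2 : r + j - 1 = (i + r - n) + (j + (n - 1 - i)) := by omega
  have h3 : i + (n - 1 - i) = n - 1 := by omega
  have h4 : 0 + (i + r - n) = i + r - n := by omega
  conv_lhs => rw [h1]
  rw [h2, pow_add, pow_add, Module.End.mul_apply, Module.End.mul_apply,
    tpow_P hP hx hn i (n - 1 - i) (by omega), h3, pow_one,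
    hP.tL m (n - 1) _ (tt_pow_mem_Wl dA hx _) (by omega),
    tpow_P hP (tt_pow_mem_Wl dA (tt_pow_mem_Wl dA hx _) _) hn 0 (i + r - n) (by omega), h4,
    pow_add, pow_add, Module.End.mul_apply, Module.End.mul_apply]

theorem T_Lp (hP : IsFam dA dB j P) (hj : 1 ≤ j) (x : W S A) :
    Lp j P x - tt S dB (Lp j P x) = Lc dA j P (x - tt S dA x) := by
  refine W_ind_len (p := fun x =>
    Lp j P x - tt S dB (Lp j P x) = Lc dA j P (x - tt S dA x)) ?_ ?_ x
  · intro a b ha hb
    have h1 : a + b - tt S dA (a + b) = (a - tt S dA a) + (b - tt S dA b) := by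
      rw [map_add]
      abel
    rw [h1, map_add (Lc dA j P), ← ha, ← hb, map_add, map_add]
    abel
  · intro m x hx
    have htx := tt_mem_Wl dA hx
    rw [map_sub, Lc_apply hx, Lc_apply htx, Lp_apply hx]
    have hpow : ∀ i, (tt S dA ^ (i + 1)) (tt S dA x) = (tt S dA ^ (i + 1 + 1)) x := fun i => by
      rw [pow_succ (tt S dA) (i + 1), Module.End.mul_apply]
    simp only [hpow]
    have htel : ∑ i ∈ Finset.range (j - 1), P 0 ((tt S dA ^ (i + 1)) x) -
        ∑ i ∈ Finset.range (j - 1), P 0 ((tt S dA ^ (i + 1 + 1)) x) =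
        P 0 (tt S dA x) - P 0 ((tt S dA ^ j) x) := by
      have h := Finset.sum_range_sub' (fun i => P 0 ((tt S dA ^ (i + 1)) x)) (j - 1)
      rw [Finset.sum_sub_distrib] at h
      rw [h, zero_add, pow_one, Nat.sub_add_cancel hj]
    by_cases hjm : m + 1 - j = 0
    · have hz : ∀ y, y ∈ Wl S A m → P 0 y = 0 := fun y hy => hP.van m y hy 0 (by omega)
      have e1 : ∀ i, P 0 ((tt S dA ^ (i + 1)) x) = 0 := fun i => hz _ (tt_pow_mem_Wl dA hx _)
      simp only [hjm, Finset.range_zero, Finset.sum_empty, map_zero, e1,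
        Finset.sum_const_zero, add_zero, sub_zero]
    · obtain ⟨n, hn⟩ : ∃ n, m + 1 - j = n + 1 := ⟨m - j, by omega⟩
      have hmn : m + 1 = (n + 1) + j := by omega
      rw [hn, map_sum, Finset.sum_range_succ (fun i => tt S dB (P i x)) n,
        hP.tL m n x hx (by omega), Finset.sum_range_succ' (fun i => P i (tt S dA x)) n]
      have h3 : ∑ i ∈ Finset.range n, tt S dB (P i x) =
          ∑ i ∈ Finset.range n, P (i + 1) (tt S dA x) :=
        Finset.sum_congr rfl (fun i hi => hP.tP m (n + 1) x hx hmn i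
          (by have := Finset.mem_range.1 hi; omega))
      rw [h3]
      have h4 : ∀ a b c d e f : W S B, c - d = e - f →
          a - (b + f) = a + c - (b + e + d) := fun a b c d e f h => by
        have h5 : c = e - f + d := by rw [← h]; abel
        rw [h5]
        abel
      exact h4 _ _ _ _ _ _ htel

theorem N_Lc (hP : IsFam dA dB j P) (hj : 1 ≤ j) (x : W S A) :
    nn S dB (Lc dA j P x) = Lp j P (nn S dA x) := by
  refine W_ind_len (p := fun x => nn S dB (Lc dA j P x) = Lp j P (nn S dA x)) ?_ ?_ x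
  · intro a b ha hb
    rw [map_add, map_add, ha, hb, map_add, map_add]
  · intro m x hx
    rw [Lp_apply (nn_mem_Wl dA hx)]
    by_cases hjm : m + 1 - j = 0
    · have hz : ∀ y, y ∈ Wl S A m → P 0 y = 0 := fun y hy => hP.van m y hy 0 (by omega)
      have e1 : ∀ i, P 0 ((tt S dA ^ (i + 1)) x) = 0 := fun i => hz _ (tt_pow_mem_Wl dA hx _)
      rw [Lc_apply hx, hjm]
      simp only [Finset.range_zero, Finset.sum_empty, e1, Finset.sum_const_zero, add_zero,
        map_zero]
    · obtain ⟨n, hn⟩ : ∃ n, m + 1 - j = n := ⟨_, rfl⟩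
      have hmn : m + 1 = n + j := by omega
      have hn1 : 1 ≤ n := by omega
      rw [hn]
      have hmem : Lc dA j P x ∈ Wl S B n := by
        rw [Lc_apply hx, hn]
        refine Submodule.add_mem _ (Submodule.sum_mem _ (fun i hi => ?_))
          (Submodule.sum_mem _ (fun i hi => ?_))
        · exact hP.len m n x hx hmn i (Finset.mem_range.1 hi)
        · exact hP.len m n _ (tt_pow_mem_Wl dA hx _) hmn 0 (by omega)
      rw [nn_eq dB hmem, nq_apply, nn_eq dA hx, nq_apply, Lc_apply hx, hn]
      have h1 : ∀ r ∈ Finset.range n, (tt S dB ^ r) (∑ i ∈ Finset.range n, P i x +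
          ∑ i ∈ Finset.range (j - 1), P 0 ((tt S dA ^ (i + 1)) x)) =
          ∑ k ∈ Finset.range n, P k ((tt S dA ^ (if r ≤ k then r else r + j - 1)) x) +
          ∑ s ∈ Finset.range (j - 1), P r ((tt S dA ^ (r + (s + 1))) x) := by
        intro r hr
        have hr' := Finset.mem_range.1 hr
        rw [map_add, map_sum, map_sum]
        congr 1
        · have hs1 : n = (n - r) + r := by omega
          have hs2 : n = r + (n - r) := by omega
          have e1 : ∑ i ∈ Finset.range n, (tt S dB ^ r) (P i x) =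
              ∑ i ∈ Finset.range (n - r), P (r + i) ((tt S dA ^ r) x) +
              ∑ i ∈ Finset.range r, P i ((tt S dA ^ (r + j - 1)) x) := by
            conv_lhs => rw [hs1]
            rw [Finset.sum_range_add]
            congr 1
            · refine Finset.sum_congr rfl (fun i hi => ?_)
              have := Finset.mem_range.1 hi
              rw [tpow_P hP hx hmn i r (by omega), add_comm]
            · refine Finset.sum_congr rfl (fun i hi => ?_)
              have := Finset.mem_range.1 hi
              rw [tpow_P' hP hj hx hmn (n - r + i) r (by omega) (by omega) (by omega)]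
              congr 2
              omega
          have e2 : ∑ k ∈ Finset.range n, P k ((tt S dA ^ (if r ≤ k then r else r + j - 1)) x) =
              ∑ i ∈ Finset.range r, P i ((tt S dA ^ (r + j - 1)) x) +
              ∑ i ∈ Finset.range (n - r), P (r + i) ((tt S dA ^ r) x) := by
            conv_lhs => rw [hs2]
            rw [Finset.sum_range_add]
            congr 1
            · refine Finset.sum_congr rfl (fun i hi => ?_)
              have := Finset.mem_range.1 hi
              rw [if_neg (by omega)]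
            · refine Finset.sum_congr rfl (fun i hi => ?_)
              rw [if_pos (by omega)]
          rw [e1, e2, add_comm]
        · refine Finset.sum_congr rfl (fun s _ => ?_)
          rw [tpow_P hP (tt_pow_mem_Wl dA hx _) hmn 0 r (by omega), zero_add,
            pow_add (tt S dA) r (s + 1), Module.End.mul_apply]
      rw [Finset.sum_congr rfl h1, Finset.sum_add_distrib, Finset.sum_comm,
        ← Finset.sum_add_distrib]
      refine Finset.sum_congr rfl (fun k hk => ?_)
      have hk' := Finset.mem_range.1 hk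
      rw [map_sum]
      have hs3 : n = (k + 1) + (n - k - 1) := by omega
      have hs4 : m = (k + 1) + ((j - 1) + (n - k - 1)) := by omega
      have e3 : ∑ r ∈ Finset.range n, P k ((tt S dA ^ (if r ≤ k then r else r + j - 1)) x) =
          ∑ r ∈ Finset.range (k + 1), P k ((tt S dA ^ r) x) +
          ∑ r ∈ Finset.range (n - k - 1), P k ((tt S dA ^ (k + 1 + ((j - 1) + r))) x) := by
        conv_lhs => rw [hs3]
        rw [Finset.sum_range_add]
        congr 1
        · refine Finset.sum_congr rfl (fun i hi => ?_)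
          have := Finset.mem_range.1 hi
          rw [if_pos (by omega)]
        · refine Finset.sum_congr rfl (fun i hi => ?_)
          rw [if_neg (by omega)]
          congr 3
          omega
      have e4 : ∑ r ∈ Finset.range m, P k ((tt S dA ^ r) x) =
          ∑ r ∈ Finset.range (k + 1), P k ((tt S dA ^ r) x) +
          (∑ r ∈ Finset.range (j - 1), P k ((tt S dA ^ (k + 1 + r)) x) +
          ∑ r ∈ Finset.range (n - k - 1), P k ((tt S dA ^ (k + 1 + ((j - 1) + r))) x)) := by
        conv_lhs => rw [hs4]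
        rw [Finset.sum_range_add _ (k + 1) _, Finset.sum_range_add _ (j - 1) _]
      have e5 : ∑ s ∈ Finset.range (j - 1), P k ((tt S dA ^ (k + (s + 1))) x) =
          ∑ r ∈ Finset.range (j - 1), P k ((tt S dA ^ (k + 1 + r)) x) := by
        refine Finset.sum_congr rfl (fun s _ => ?_)
        rw [show k + (s + 1) = k + 1 + s by omega]
      rw [e3, e4, e5]
      abel

end

end BK

end NC
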