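import Mathlib
import Pool.Agent.H94.BK.Fm

/-!
# Block A, module A11: the square of the differential

`b1`, `b2` families of arities 1, 2 whose disjoint blocks anticommute (`Cur`; neither Leibniz nor
associativity), `r A_n` = the parts of the square of arity `n` (`Sqr`).
Even columns: `b b = r (L'_A + wrapping blocks)`: `b = b' + b2_0 t`; `b' b'`: only nested blocks
survive (`right`, `left`), `b' b2_0 t`, `b2_0 t b'` (`tP`, `tL`), `b2_0 t b2_0 t = b2_0 b2_1 t^2`.
The result: `r A1`, `r A2` (with `A2_0 t`), `r A3` (with `A3_0 (t + t^2)`).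
Odd columns: `b' b' = r L'_A`.  Mixed terms vanish by `T_Lp`, `N_Lc` (`b = Lc 1 b1 + Lc 2 b2`) and
`(1 - t) N = N (1 - t) = 0`.
-/

set_option autoImplicit false

noncomputable section

namespace NC

namespace BK

section

variable {S A B C : Type} [CommRing S] {dA : A → ℤ} {b1 b2 : ℕ → (W S A →ₗ[S] W S A)}
  {A1 A2 A3 : ℕ → (W S A →ₗ[S] W S A)} {r : S}

/-- families of arities 1, 2, disjoint blocks anticommute -/
structure Cur (dA : A → ℤ) (b1 b2 : ℕ → (W S A →ₗ[S] W S A)) : Prop where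
  f1 : IsFam dA dA 1 b1
  f2 : IsFam dA dA 2 b2
  c11 : Comm (-1) 1 1 b1 b1 b1
  c12 : Comm (-1) 1 2 b1 b1 b2
  c21 : Comm (-1) 2 1 b2 b2 b1
  c22 : Comm (-1) 2 2 b2 b2 b2

/-- `r A_n` are the parts of the square of `b1 + b2` -/
structure Sqr (r : S) (b1 b2 A1 A2 A3 : ℕ → (W S A →ₗ[S] W S A)) : Prop where
  h1 : ∀ i x, r • A1 i x = b1 i (b1 i x)
  h2 : ∀ i x, r • A2 i x = b1 i (b2 i x) + b2 i (b1 i x) + b2 i (b1 (i + 1) x)
  h3 : ∀ i x, r • A3 i x = b2 i (b2 i x) + b2 i (b2 (i + 1) x)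

theorem pB_eq (x : W S A) : pB dA b1 b2 x = Lc dA 1 b1 x + Lc dA 2 b2 x := by
  simp only [pB, pB', Lc, LinearMap.add_apply, Nat.sub_self, Finset.range_zero, Finset.sum_empty,
    add_zero, LinearMap.zero_apply, Nat.reduceSub, Finset.sum_range_one, zero_add, pow_one]
  abel

private theorem sq_mem {l : ℕ} {a : ℕ → (W S A →ₗ[S] W S A)} (h : IsFam dA dA l a) {m : ℕ}
    (c : ℕ) {v : W S A} (hv : v ∈ Wl S A m) : a c v ∈ Wl S A (m + 1 - l) := by
  by_cases hc : c + l ≤ m
  · exact h.len m (m + 1 - l) v hv (by omega) c (by omega)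
  · rw [h.van m v hv c (by omega)]
    exact Submodule.zero_mem _

private theorem sq_Lp_mem {l : ℕ} {a : ℕ → (W S A →ₗ[S] W S A)} (h : IsFam dA dA l a) {m : ℕ}
    {v : W S A} (hv : v ∈ Wl S A m) : Lp l a v ∈ Wl S A (m + 1 - l) := by
  rw [Lp_apply hv]
  exact Submodule.sum_mem _ (fun i _ => sq_mem h i hv)

private theorem sq_anti {M : Type} [AddCommGroup M] (F : ℕ → ℕ → M)
    (h : ∀ c i, c < i → F c i = - F i c) (n : ℕ) :
    ∑ c ∈ Finset.range n, ∑ i ∈ Finset.range n, F c i = ∑ i ∈ Finset.range n, F i i := by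
  induction n with
  | zero => simp
  | succ n ih =>
    rw [Finset.sum_range_succ, Finset.sum_range_succ (fun i => F i i), Finset.sum_range_succ (F n)]
    have h1 : ∑ c ∈ Finset.range n, ∑ i ∈ Finset.range (n + 1), F c i =
        ∑ i ∈ Finset.range n, F i i + ∑ c ∈ Finset.range n, F c n := by
      rw [← ih, ← Finset.sum_add_distrib]
      exact Finset.sum_congr rfl (fun c _ => Finset.sum_range_succ _ _)
    have h2 : ∑ c ∈ Finset.range n, F c n = - ∑ c ∈ Finset.range n, F n c := by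
      rw [← Finset.sum_neg_distrib]
      exact Finset.sum_congr rfl (fun c hc => h c n (Finset.mem_range.1 hc))
    rw [h1, h2]
    abel

private theorem sq_mix {M : Type} [AddCommGroup M] (G H : ℕ → M) (i n : ℕ) (hi : i < n)
    (h1 : ∀ c, c < i → G c = - H c) (h2 : ∀ c, i < c → G c = - H (c + 1)) :
    ∑ c ∈ Finset.range n, G c + ∑ c ∈ Finset.range (n + 1), H c = G i + H i + H (i + 1) := by
  obtain ⟨k, rfl⟩ : ∃ k, n = i + (1 + k) := ⟨n - i - 1, by omega⟩
  rw [show i + (1 + k) + 1 = i + (1 + (1 + k)) by omega, Finset.sum_range_add, Finset.sum_range_add,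
    Finset.sum_range_add, Finset.sum_range_add, Finset.sum_range_add, Finset.sum_range_one,
    Finset.sum_range_one, Finset.sum_range_one]
  have e1 : ∑ c ∈ Finset.range i, G c = - ∑ c ∈ Finset.range i, H c := by
    rw [← Finset.sum_neg_distrib]
    exact Finset.sum_congr rfl (fun c hc => h1 c (Finset.mem_range.1 hc))
  have e2 : ∑ c ∈ Finset.range k, G (i + (1 + c)) = - ∑ c ∈ Finset.range k, H (i + (1 + (1 + c))) := by
    rw [← Finset.sum_neg_distrib]
    refine Finset.sum_congr rfl (fun c _ => ?_)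
    rw [h2 (i + (1 + c)) (by omega)]
    congr 2
    omega
  rw [e1, e2, add_zero, add_zero]
  abel

private theorem sq_two {M : Type} [AddCommGroup M] (F : ℕ → ℕ → M)
    (h : ∀ c i, i < c → F c i = - F i (c + 1)) (n : ℕ) :
    ∑ c ∈ Finset.range n, ∑ i ∈ Finset.range (n + 1), F c i =
      ∑ c ∈ Finset.range n, (F c c + F c (c + 1)) := by
  induction n with
  | zero => simp
  | succ n ih =>
    rw [Finset.sum_range_succ, Finset.sum_range_succ (fun c => F c c + F c (c + 1)),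
      Finset.sum_range_succ (F n), Finset.sum_range_succ (F n)]
    have h1 : ∑ c ∈ Finset.range n, ∑ i ∈ Finset.range (n + 1 + 1), F c i =
        ∑ c ∈ Finset.range n, (F c c + F c (c + 1)) + ∑ c ∈ Finset.range n, F c (n + 1) := by
      rw [← ih, ← Finset.sum_add_distrib]
      exact Finset.sum_congr rfl (fun c _ => Finset.sum_range_succ _ _)
    have h2 : ∑ c ∈ Finset.range n, F n c = - ∑ c ∈ Finset.range n, F c (n + 1) := by
      rw [← Finset.sum_neg_distrib]
      exact Finset.sum_congr rfl (fun c hc => h n c (Finset.mem_range.1 hc))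
    rw [h1, h2]
    abel

private theorem sq_row (hb : Cur dA b1 b2) (h : Sqr r b1 b2 A1 A2 A3) {m : ℕ} {y : W S A}
    (hy : y ∈ Wl S A m) (i : ℕ) (hi : i + 1 < m) :
    ∑ c ∈ Finset.range (m - 1), b1 c (b2 i y) + ∑ c ∈ Finset.range m, b2 i (b1 c y) =
      r • A2 i y := by
  have h1 := sq_mix (fun c => b1 c (b2 i y)) (fun c => b2 i (b1 c y)) i (m - 1) (by omega)
    (fun c hc => by
      have := hb.c12.left i c y (by omega)
      rw [this, neg_one_smul, show i + 1 - 1 = i by omega])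
    (fun c hc => by
      have := hb.c12.right i c y hc
      rw [this, neg_one_smul, show c + 2 - 1 = c + 1 by omega])
  rw [show m - 1 + 1 = m by omega] at h1
  rw [h1, h.h2]

theorem pB'_pB' (hb : Cur dA b1 b2) (h : Sqr r b1 b2 A1 A2 A3) (x : W S A) :
    pB' b1 b2 (pB' b1 b2 x) = r • (Lp 1 A1 x + Lp 2 A2 x + Lp 3 A3 x) := by
  refine W_ind_len (p := fun x => pB' b1 b2 (pB' b1 b2 x) =
    r • (Lp 1 A1 x + Lp 2 A2 x + Lp 3 A3 x)) ?_ ?_ x
  · intro a b ha hb'
    simp only [map_add, ha, hb', smul_add]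
    abel
  · intro m x hx
    have e11 : Lp 1 b1 (Lp 1 b1 x) = r • Lp 1 A1 x := by
      have hm : Lp 1 b1 x ∈ Wl S A m := sq_Lp_mem hb.f1 hx
      rw [Lp_apply hm, Lp_apply hx, Lp_apply hx, Nat.add_sub_cancel, Finset.smul_sum]
      simp only [map_sum]
      rw [sq_anti (fun c i => b1 c (b1 i x)) (fun c i hci => by
        have := hb.c11.left i c x (by omega)
        rw [this, neg_one_smul, show i + 1 - 1 = i by omega])]
      exact Finset.sum_congr rfl (fun i _ => (h.h1 i x).symm)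
    have e12 : Lp 1 b1 (Lp 2 b2 x) + Lp 2 b2 (Lp 1 b1 x) = r • Lp 2 A2 x := by
      have hm1 : Lp 1 b1 x ∈ Wl S A m := sq_Lp_mem hb.f1 hx
      have hm2 : Lp 2 b2 x ∈ Wl S A (m - 1) := sq_Lp_mem hb.f2 hx
      rw [Lp_apply hm1, Lp_apply hm2, Lp_apply hx, Lp_apply hx, Lp_apply hx,
        show m - 1 + 1 - 1 = m - 1 by omega, show m + 1 - 2 = m - 1 by omega,
        Nat.add_sub_cancel, Finset.smul_sum]
      simp only [map_sum]
      rw [Finset.sum_comm, ← Finset.sum_add_distrib]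
      exact Finset.sum_congr rfl (fun i hi => sq_row hb h hx i
        (by have := Finset.mem_range.1 hi; omega))
    have e22 : Lp 2 b2 (Lp 2 b2 x) = r • Lp 3 A3 x := by
      have hm2 : Lp 2 b2 x ∈ Wl S A (m - 1) := sq_Lp_mem hb.f2 hx
      rw [Lp_apply hm2, Lp_apply hx, Lp_apply hx, Finset.smul_sum]
      simp only [map_sum]
      by_cases hm : m ≤ 2
      · rw [show m - 1 + 1 - 2 = 0 by omega, show m + 1 - 3 = 0 by omega, Finset.sum_range_zero,
          Finset.sum_range_zero]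
      · obtain ⟨n, rfl⟩ : ∃ n, m = n + 2 := ⟨m - 2, by omega⟩
        rw [show n + 2 - 1 + 1 - 2 = n by omega, show n + 2 + 1 - 3 = n by omega,
          show n + 2 + 1 - 2 = n + 1 by omega,
          sq_two (fun c i => b2 c (b2 i x)) (fun c i hci => by
            have := hb.c22.right i c x hci
            rw [this, neg_one_smul, show c + 2 - 1 = c + 1 by omega])]
        exact Finset.sum_congr rfl (fun i _ => (h.h3 i x).symm)
    simp only [pB', LinearMap.add_apply, map_add, smul_add]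
    rw [← e11, ← e12, ← e22]
    abel

private theorem sq_zero2 (hb : Cur dA b1 b2) {m : ℕ} {v : W S A} (hv : v ∈ Wl S A m)
    (hm : m < 2) (i : ℕ) : b2 i v = 0 := hb.f2.van m v hv i (by omega)

private theorem sq_wrap (hb : Cur dA b1 b2) (h : Sqr r b1 b2 A1 A2 A3) {m : ℕ} {x : W S A}
    (hx : x ∈ Wl S A m) :
    pB' b1 b2 (b2 0 (tt S dA x)) + b2 0 (tt S dA (pB' b1 b2 x)) +
      b2 0 (tt S dA (b2 0 (tt S dA x))) =
    r • (A2 0 (tt S dA x) + A3 0 (tt S dA x) + A3 0 (tt S dA (tt S dA x))) := by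
  have hy := tt_mem_Wl dA hx
  have hty := tt_mem_Wl dA hy
  have hb1x : ∀ i, b1 i x ∈ Wl S A m := fun i => sq_mem hb.f1 i hx
  have hb1y : ∀ i, b1 i (tt S dA x) ∈ Wl S A m := fun i => sq_mem hb.f1 i hy
  have hb2x : ∀ i, b2 i x ∈ Wl S A (m - 1) := fun i => sq_mem hb.f2 i hx
  have hb2y : ∀ i, b2 i (tt S dA x) ∈ Wl S A (m - 1) := fun i => sq_mem hb.f2 i hy
  have hb2ty : ∀ i, b2 i (tt S dA (tt S dA x)) ∈ Wl S A (m - 1) := fun i => sq_mem hb.f2 i hty
  rw [smul_add, smul_add, h.h2, h.h3, h.h3]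
  simp only [pB', LinearMap.add_apply, map_add]
  rw [Lp_apply (hb2y 0), Lp_apply (hb2y 0), Lp_apply hx, Lp_apply hx]
  simp only [map_sum]
  have et1 : ∑ i ∈ Finset.range (m + 1 - 1), b2 0 (tt S dA (b1 i x)) =
      ∑ i ∈ Finset.range m, b2 0 (b1 i (tt S dA x)) := by
    rw [Nat.add_sub_cancel]
    cases m with
    | zero => rfl
    | succ n =>
      rw [Finset.sum_range_succ, Finset.sum_range_succ', hb.f1.tL (n + 1) n x hx rfl, pow_one]
      congr 1
      refine Finset.sum_congr rfl (fun i hi => ?_)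
      rw [hb.f1.tP (n + 1) (n + 1) x hx rfl i (by have := Finset.mem_range.1 hi; omega)]
  rw [et1]
  rcases Nat.lt_or_ge m 3 with hm | hm
  · have z1 : ∀ i v, v ∈ Wl S A (m - 1) → b2 i v = 0 := fun i v hv =>
      sq_zero2 hb hv (by omega) i
    have z2 : ∀ v, v ∈ Wl S A (m - 1) → b2 0 (tt S dA v) = 0 := fun v hv =>
      z1 0 _ (tt_mem_Wl dA hv)
    simp only [z1 _ _ (hb2y _), z1 _ _ (hb2ty _), z2 _ (hb2x _), z2 _ (hb2y _),
      Finset.sum_const_zero, add_zero]
    rw [show m - 1 + 1 - 1 = m - 1 by omega]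
    rcases Nat.lt_or_ge m 2 with hm2 | hm2
    · have z3 : ∀ i v, v ∈ Wl S A m → b2 i v = 0 := fun i v hv => sq_zero2 hb hv hm2 i
      simp only [z3 _ _ hy, z3 _ _ (hb1y _), map_zero, Finset.sum_const_zero, add_zero]
    · rw [sq_row hb h hy 0 (by omega), h.h2]
  · obtain ⟨n, rfl⟩ : ∃ n, m = n + 3 := ⟨m - 3, by omega⟩
    have et2 : ∑ i ∈ Finset.range (n + 3 + 1 - 2), b2 0 (tt S dA (b2 i x)) =
        ∑ i ∈ Finset.range (n + 1), b2 0 (b2 (i + 1) (tt S dA x)) +
          b2 0 (b2 0 (tt S dA (tt S dA x))) := by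
      rw [show n + 3 + 1 - 2 = n + 1 + 1 by omega, Finset.sum_range_succ,
        hb.f2.tL (n + 3) (n + 1) x hx (by omega), pow_two, Module.End.mul_apply]
      congr 1
      refine Finset.sum_congr rfl (fun i hi => ?_)
      rw [hb.f2.tP (n + 3) (n + 2) x hx (by omega) i (by have := Finset.mem_range.1 hi; omega)]
    have et3 : tt S dA (b2 0 (tt S dA x)) = b2 1 (tt S dA (tt S dA x)) :=
      hb.f2.tP (n + 3) (n + 2) _ hy (by omega) 0 (by omega)
    have et4 : ∑ c ∈ Finset.range (n + 3 - 1 + 1 - 2), b2 c (b2 0 (tt S dA x)) +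
        ∑ i ∈ Finset.range (n + 1), b2 0 (b2 (i + 1) (tt S dA x)) =
        b2 0 (b2 0 (tt S dA x)) + b2 0 (b2 1 (tt S dA x)) := by
      rw [show n + 3 - 1 + 1 - 2 = n + 1 by omega, Finset.sum_range_succ',
        Finset.sum_range_succ' (fun i => b2 0 (b2 (i + 1) (tt S dA x)))]
      have : ∑ c ∈ Finset.range n, b2 (c + 1) (b2 0 (tt S dA x)) =
          - ∑ c ∈ Finset.range n, b2 0 (b2 (c + 1 + 1) (tt S dA x)) := by
        rw [← Finset.sum_neg_distrib]
        refine Finset.sum_congr rfl (fun c _ => ?_)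
        have h1 := hb.c22.right 0 (c + 1) (tt S dA x) (by omega)
        rw [h1, neg_one_smul, show c + 1 + 2 - 1 = c + 1 + 1 by omega]
      rw [this, zero_add]
      abel
    have et5 := sq_row hb h hy 0 (by omega)
    rw [h.h2] at et5
    rw [et2, et3, show n + 3 - 1 + 1 - 1 = n + 3 - 1 by omega]
    have h6 : ∀ a b c d e f g k : W S A, a + c = e → b + d = f →
        a + b + (c + (d + g)) + k = e + f + (g + k) := fun a b c d e f g k h1 h2 => by
      rw [← h1, ← h2]
      abel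
    have h7 := h6 _ _ _ _ _ _ (b2 0 (b2 0 (tt S dA (tt S dA x))))
      (b2 0 (b2 1 (tt S dA (tt S dA x)))) et5 et4
    rw [h7]

theorem pB_pB (hb : Cur dA b1 b2) (h : Sqr r b1 b2 A1 A2 A3) (x : W S A) :
    pB dA b1 b2 (pB dA b1 b2 x) = r • (Lc dA 1 A1 x + Lc dA 2 A2 x + Lc dA 3 A3 x) := by
  refine W_ind_len (p := fun x => pB dA b1 b2 (pB dA b1 b2 x) =
    r • (Lc dA 1 A1 x + Lc dA 2 A2 x + Lc dA 3 A3 x)) ?_ ?_ x
  · intro a b ha hb'
    simp only [map_add, ha, hb', smul_add]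
    abel
  · intro m x hx
    have h1 := pB'_pB' hb h x
    have h2 := sq_wrap hb h hx
    have h3 : pB dA b1 b2 (pB dA b1 b2 x) = pB' b1 b2 (pB' b1 b2 x) +
        (pB' b1 b2 (b2 0 (tt S dA x)) + b2 0 (tt S dA (pB' b1 b2 x)) +
          b2 0 (tt S dA (b2 0 (tt S dA x)))) := by
      simp only [pB, LinearMap.add_apply, LinearMap.comp_apply, map_add]
      abel
    rw [h3, h1, h2, ← smul_add]
    congr 1
    simp only [Lc, LinearMap.add_apply, Nat.sub_self, Finset.range_zero, Finset.sum_empty,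
      add_zero, LinearMap.zero_apply, Nat.reduceSub, Finset.sum_range_succ, zero_add, pow_one,
      LinearMap.comp_apply, Nat.reduceAdd, pow_two, Module.End.mul_apply]
    abel

theorem DD_DD (hb : Cur dA b1 b2) (h : Sqr r b1 b2 A1 A2 A3) (c : ℤ → W S A) :
    DD dA b1 b2 (DD dA b1 b2 c) =
      r • (VV dA 1 1 A1 c + VV dA 1 2 A2 c + VV dA 1 3 A3 c) := by
  have hT : ∀ x, pB' b1 b2 x - tt S dA (pB' b1 b2 x) = pB dA b1 b2 (x - tt S dA x) := fun x => by
    have h1 := T_Lp hb.f1 le_rfl x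
    have h2 := T_Lp hb.f2 (by norm_num) x
    rw [pB_eq, ← h1, ← h2, pB', LinearMap.add_apply, map_add]
    abel
  have hN : ∀ x, nn S dA (pB dA b1 b2 x) = pB' b1 b2 (nn S dA x) := fun x => by
    rw [pB_eq, map_add, N_Lc hb.f1 le_rfl, N_Lc hb.f2 (by norm_num), pB', LinearMap.add_apply]
  funext p
  change (if Even p then pB dA b1 b2 ((DD dA b1 b2 c) p) +
      ((DD dA b1 b2 c) (p + 1) - tt S dA ((DD dA b1 b2 c) (p + 1)))
    else nn S dA ((DD dA b1 b2 c) (p + 1)) - pB' b1 b2 ((DD dA b1 b2 c) p)) =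
    r • ((if Even p then Lc dA 1 A1 (c p) else (1 : S) • Lp 1 A1 (c p)) +
      (if Even p then Lc dA 2 A2 (c p) else (1 : S) • Lp 2 A2 (c p)) +
      (if Even p then Lc dA 3 A3 (c p) else (1 : S) • Lp 3 A3 (c p)))
  by_cases hp : Even p
  · have hp1 : ¬ Even (p + 1) := by
      rw [Int.even_add_one]
      exact not_not.2 hp
    have e1 : (DD dA b1 b2 c) p = pB dA b1 b2 (c p) + (c (p + 1) - tt S dA (c (p + 1))) := by
      change (if Even p then _ else _) = _
      rw [if_pos hp]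
    have e2 : (DD dA b1 b2 c) (p + 1) = nn S dA (c (p + 1 + 1)) - pB' b1 b2 (c (p + 1)) := by
      change (if Even (p + 1) then _ else _) = _
      rw [if_neg hp1]
    rw [if_pos hp, if_pos hp, if_pos hp, if_pos hp, e1, e2, map_add, pB_pB hb h, ← hT, map_sub,
      tt_nn]
    abel
  · have hp1 : Even (p + 1) := by
      rw [Int.even_add_one]
      exact hp
    have e1 : (DD dA b1 b2 c) p = nn S dA (c (p + 1)) - pB' b1 b2 (c p) := by
      change (if Even p then _ else _) = _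
      rw [if_neg hp]
    have e2 : (DD dA b1 b2 c) (p + 1) = pB dA b1 b2 (c (p + 1)) +
        (c (p + 1 + 1) - tt S dA (c (p + 1 + 1))) := by
      change (if Even (p + 1) then _ else _) = _
      rw [if_pos hp1]
    rw [if_neg hp, if_neg hp, if_neg hp, if_neg hp, e1, e2, map_add, map_sub, map_sub, nn_tt, hN,
      pB'_pB' hb h, one_smul, one_smul, one_smul]
    abel

end

end BK

end NC
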