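import Mathlib
import Pool.Agent.H94.BK.Sq
import Pool.Agent.H94.BK.Blk

/-!
# Block A, module A13: a letter map which does not commute with the structures

`r E1 = b1 F - F a1`, `r E2 = b2 F - F a2`.  `DD_nat`: compare columns (`LM.Wm_tt`, `LM.Wm_nn`).
`brk_nat1..3`: multiply out with `NatE` and `Sqr`; no commutation is needed.
-/

set_option autoImplicit false

noncomputable section

namespace NC

namespace BK

section

variable {S A B C : Type} [CommRing S] {dA : A → ℤ} {dB : B → ℤ}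
  {a1 a2 A1 A2 A3 : ℕ → (W S A →ₗ[S] W S A)} {b1 b2 B1 B2 B3 : ℕ → (W S B →ₗ[S] W S B)}
  {E1 E2 : ℕ → (W S A →ₗ[S] W S B)} {r : S}

/-- `r E1 = b1 F - F a1`, `r E2 = b2 F - F a2` -/
structure NatE (r : S) (F : LM S dA dB) (a1 a2 : ℕ → (W S A →ₗ[S] W S A))
    (b1 b2 : ℕ → (W S B →ₗ[S] W S B)) (E1 E2 : ℕ → (W S A →ₗ[S] W S B)) : Prop where
  h1 : ∀ i x, r • E1 i x = b1 i (F.Wm x) - F.Wm (a1 i x)
  h2 : ∀ i x, r • E2 i x = b2 i (F.Wm x) - F.Wm (a2 i x)

private theorem n1_pow (F : LM S dA dB) (r : ℕ) : ∀ x : W S A,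
    F.Wm ((tt S dA ^ r) x) = (tt S dB ^ r) (F.Wm x) := by
  induction r with
  | zero =>
    intro x
    rw [pow_zero, pow_zero]
    rfl
  | succ r ih =>
    intro x
    rw [pow_succ, pow_succ, Module.End.mul_apply, Module.End.mul_apply, ih, LM.Wm_tt]

private theorem n1_nq (F : LM S dA dB) (q : ℕ) (x : W S A) :
    F.Wm (nq S dA q x) = nq S dB q (F.Wm x) := by
  rw [nq, nq, LinearMap.sum_apply, LinearMap.sum_apply, map_sum]
  exact Finset.sum_congr rfl (fun i _ => n1_pow F i x)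

private theorem n1_Lp (F : LM S dA dB) (j : ℕ) {P : ℕ → (W S B →ₗ[S] W S B)}
    {Q : ℕ → (W S A →ₗ[S] W S A)} {E : ℕ → (W S A →ₗ[S] W S B)}
    (h : ∀ i x, r • E i x = P i (F.Wm x) - F.Wm (Q i x)) (x : W S A) :
    Lp j P (F.Wm x) - F.Wm (Lp j Q x) = r • Lp j E x := by
  refine W_ind_len (p := fun x => Lp j P (F.Wm x) - F.Wm (Lp j Q x) = r • Lp j E x) ?_ ?_ x
  · intro x y hx hy
    simp only [map_add, smul_add]
    rw [← hx, ← hy]
    abel
  · intro m x hx
    rw [Lp_apply (F.Wm_mem_Wl hx), Lp_apply hx, Lp_apply hx, map_sum, ← Finset.sum_sub_distrib,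
      Finset.smul_sum]
    exact Finset.sum_congr rfl (fun i _ => (h i x).symm)

theorem DD_nat {F : LM S dA dB} (h : NatE r F a1 a2 b1 b2 E1 E2) (c : ℤ → W S A) :
    DD dB b1 b2 (fun q => F.Wm (c q)) - (fun q => F.Wm (DD dA a1 a2 c q)) =
      r • (VV dA (-1) 1 E1 c + VV dA (-1) 2 E2 c) := by
  funext p
  have e1 := n1_Lp F 1 h.h1 (c p)
  have e2 := n1_Lp F 2 h.h2 (c p)
  have e3 : r • E2 0 (tt S dA (c p)) =
      b2 0 (tt S dB (F.Wm (c p))) - F.Wm (a2 0 (tt S dA (c p))) := by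
    rw [h.h2, LM.Wm_tt]
  simp only [DD, VV, LinearMap.coe_mk, AddHom.coe_mk, Pi.sub_apply, Pi.smul_apply, Pi.add_apply]
  split_ifs with hp
  · have l1 : Lc dA 1 E1 (c p) = Lp 1 E1 (c p) := by
      rw [Lc, LinearMap.add_apply]
      simp
    have l2 : Lc dA 2 E2 (c p) = Lp 2 E2 (c p) + E2 0 (tt S dA (c p)) := by
      rw [Lc, LinearMap.add_apply]
      simp
    rw [l1, l2]
    simp only [pB, pB', LinearMap.add_apply, LinearMap.comp_apply, map_add, map_sub, smul_add]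
    rw [← e1, ← e2, e3, LM.Wm_tt]
    abel
  · simp only [pB', LinearMap.add_apply, map_add, map_sub, smul_add, neg_smul, one_smul, smul_neg]
    rw [← e1, ← e2, LM.Wm_nn]
    abel

theorem brk_nat1 {F : LM S dA dB} (h : NatE r F a1 a2 b1 b2 E1 E2) (hA : Sqr r a1 a2 A1 A2 A3)
    (hB : Sqr r b1 b2 B1 B2 B3) (i : ℕ) (x : W S A) :
    r • brk (-1) 1 1 b1 a1 E1 i x = r • (B1 i (F.Wm x) - F.Wm (A1 i x)) := by
  have e : brk (-1) 1 1 b1 a1 E1 i x = b1 i (E1 i x) + E1 i (a1 i x) := by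
    simp only [brk, LinearMap.sub_apply, LinearMap.smul_apply,
      LinearMap.comp_apply, Finset.sum_range_one, neg_smul, one_smul, sub_neg_eq_add, add_zero]
  rw [e, smul_add, ← map_smul, h.h1, h.h1, smul_sub, hB.h1, ← map_smul, hA.h1, map_sub]
  abel

theorem brk_nat2 {F : LM S dA dB} (h : NatE r F a1 a2 b1 b2 E1 E2) (hA : Sqr r a1 a2 A1 A2 A3)
    (hB : Sqr r b1 b2 B1 B2 B3) (i : ℕ) (x : W S A) :
    r • (brk (-1) 1 2 b1 a1 E2 i x + brk (-1) 2 1 b2 a2 E1 i x) =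
      r • (B2 i (F.Wm x) - F.Wm (A2 i x)) := by
  have e1 : brk (-1) 1 2 b1 a1 E2 i x =
      b1 i (E2 i x) + (E2 i (a1 i x) + E2 i (a1 (i + 1) x)) := by
    simp only [brk, LinearMap.sub_apply, LinearMap.smul_apply, LinearMap.add_apply,
      LinearMap.comp_apply, Finset.sum_range_succ, Finset.sum_range_zero,
      neg_smul, one_smul, sub_neg_eq_add, add_zero, zero_add]
  have e2 : brk (-1) 2 1 b2 a2 E1 i x =
      b2 i (E1 i x) + b2 i (E1 (i + 1) x) + E1 i (a2 i x) := by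
    simp only [brk, LinearMap.sub_apply, LinearMap.smul_apply, LinearMap.add_apply,
      LinearMap.comp_apply, Finset.sum_range_succ, Finset.sum_range_zero,
      neg_smul, one_smul, sub_neg_eq_add, add_zero, zero_add]
  rw [e1, e2]
  simp only [smul_add, smul_sub, ← map_smul, h.h1, h.h2, hB.h2, hA.h2, map_add, map_sub]
  abel

theorem brk_nat3 {F : LM S dA dB} (h : NatE r F a1 a2 b1 b2 E1 E2) (hA : Sqr r a1 a2 A1 A2 A3)
    (hB : Sqr r b1 b2 B1 B2 B3) (i : ℕ) (x : W S A) :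
    r • brk (-1) 2 2 b2 a2 E2 i x = r • (B3 i (F.Wm x) - F.Wm (A3 i x)) := by
  have e : brk (-1) 2 2 b2 a2 E2 i x =
      b2 i (E2 i x) + b2 i (E2 (i + 1) x) + (E2 i (a2 i x) + E2 i (a2 (i + 1) x)) := by
    simp only [brk, LinearMap.sub_apply, LinearMap.smul_apply, LinearMap.add_apply,
      LinearMap.comp_apply, Finset.sum_range_succ, Finset.sum_range_zero,
      neg_smul, one_smul, sub_neg_eq_add, add_zero, zero_add]
  rw [e]
  simp only [smul_add, smul_sub, ← map_smul, h.h2, hB.h3, hA.h3, map_add, map_sub]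
  abel

/-- the homotopy of `P ∘ F` -/
theorem KK_comp_W (F : LM S dA dB) (s : S) (j : ℕ) (P : ℕ → (W S B →ₗ[S] W S B))
    (Q : ℕ → (W S A →ₗ[S] W S B)) (hQ : ∀ i x, Q i x = P i (F.Wm x))
    (β : ℕ → (W S B →ₗ[S] W S B)) (c : ℤ → W S A) :
    KK dA s j Q β c = KK dB s j P β (fun q => F.Wm (c q)) := by
  have hq : ∀ x, QQ dA j Q x = QQ dB j P (F.Wm x) := fun x => by
    rw [QQ_apply, QQ_apply, hQ, n1_pow]
  have hk : ∀ x, kap dA j Q x = kap dB j P (F.Wm x) := fun x => by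
    refine W_ind_len (p := fun x => kap dA j Q x = kap dB j P (F.Wm x)) ?_ ?_ x
    · intro x y hx hy
      simp only [map_add]
      rw [hx, hy]
    · intro m x hx
      rw [kap_apply hx, kap_apply (F.Wm_mem_Wl hx)]
      refine Finset.sum_congr rfl (fun i _ => ?_)
      rw [hQ, n1_nq]
  funext p
  simp only [KK, LinearMap.coe_mk, AddHom.coe_mk, hq, hk]

/-- the homotopy of `F ∘ P`, if `F` commutes with the products `α`, `β` -/
theorem KK_W_comp (F : LM S dA dB) (s : S) (j : ℕ) (P : ℕ → (W S A →ₗ[S] W S A))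
    (Q : ℕ → (W S A →ₗ[S] W S B)) (hQ : ∀ i x, Q i x = F.Wm (P i x))
    (α : ℕ → (W S A →ₗ[S] W S A)) (β : ℕ → (W S B →ₗ[S] W S B))
    (hαβ : ∀ x, β 0 (F.Wm x) = F.Wm (α 0 x)) (c : ℤ → W S A) :
    KK dA s j Q β c = fun q => F.Wm (KK dA s j P α c q) := by
  have hq : ∀ x, QQ dA j Q x = F.Wm (QQ dA j P x) := fun x => by
    rw [QQ_apply, QQ_apply, hQ]
  have hk : ∀ x, kap dA j Q x = F.Wm (kap dA j P x) := fun x => by
    refine W_ind_len (p := fun x => kap dA j Q x = F.Wm (kap dA j P x)) ?_ ?_ x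
    · intro x y hx hy
      simp only [map_add]
      rw [hx, hy]
    · intro m x hx
      rw [kap_apply hx, kap_apply hx, map_sum]
      exact Finset.sum_congr rfl (fun i _ => hQ _ _)
  funext p
  simp only [KK, LinearMap.coe_mk, AddHom.coe_mk, hq, hk, hαβ]
  split_ifs
  · rw [map_sub, map_smul]
  · rfl

/-- `KK` is additive in the family -/
theorem KK_sub (s : S) (j : ℕ) (P Q : ℕ → (W S A →ₗ[S] W S B)) (β : ℕ → (W S B →ₗ[S] W S B))
    (c : ℤ → W S A) : KK dA s j (fun i => P i - Q i) β c = KK dA s j P β c - KK dA s j Q β c := by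
  have hk : ∀ x, kap dA j (fun i => P i - Q i) x = kap dA j P x - kap dA j Q x := fun x => by
    refine W_ind_len
      (p := fun x => kap dA j (fun i => P i - Q i) x = kap dA j P x - kap dA j Q x) ?_ ?_ x
    · intro x y hx hy
      simp only [map_add]
      rw [hx, hy]
      abel
    · intro m x hx
      rw [kap_apply hx, kap_apply hx, kap_apply hx, ← Finset.sum_sub_distrib]
      rfl
  funext p
  simp only [KK, LinearMap.coe_mk, AddHom.coe_mk, Pi.sub_apply, hk]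
  split_ifs
  · simp only [QQ, LinearMap.comp_apply, LinearMap.sub_apply, map_sub, smul_sub]
    abel
  · rfl

end

end BK

end NC
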