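import Mathlib
import Pool.Agent.H94.BK.Fm

/-!
# Block A, module A06: the key formula `N_q L`

`x ∈ Wl m`, `n = m + 1 - l`, `q ≤ n`.  `N_q L x = Σ_(r<q) t^r (Σ_(c<n) a_c + Σ_(1≤i<l) a_0 t^i) x`.
With `tpow_P`, `tpow_P'`: `t^r a_c = a_(c+r) t^r` for `c + r < n`, `t^r a_c = a_(c+r-n) t^(r+l-1)`
for `c + r ≥ n`.  The terms with new index `c'`: `t^r` for `r ≤ c'`, `t^(r+l-1)` for `r > c'`, and
for `r = c'` also `t^(c'+1), …, t^(c'+l-1)`.  For `c' < q` the sum is `N_(q+l-1)`, for `c' ≥ q` it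
is `N_q`.
-/

set_option autoImplicit false

noncomputable section

namespace NC

namespace BK

section

variable {S A B C : Type} [CommRing S] {dA : A → ℤ} {l : ℕ}
  {a : ℕ → (W S A →ₗ[S] W S A)}

private theorem tpow_Lp_aux (ha : IsFam dA dA l a) (hl : 1 ≤ l) {m n j : ℕ} {x : W S A} (hx : x ∈ Wl S A m)
    (hn : m + 1 = n + l) (hj : j ≤ n) :
    ∑ c ∈ Finset.range n, (tt S dA ^ j) (a c x) = ∑ c ∈ Finset.Ico j n, a c ((tt S dA ^ j) x) +
      ∑ c ∈ Finset.range j, a c ((tt S dA ^ (j + l - 1)) x) := by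
  obtain ⟨n', rfl⟩ : ∃ n', n = n' + j := ⟨n - j, by omega⟩
  rw [Finset.sum_range_add, Finset.sum_Ico_eq_sum_range, Nat.add_sub_cancel]
  congr 1
  · refine Finset.sum_congr rfl fun c hc => ?_
    rw [Finset.mem_range] at hc
    rw [tpow_P ha hx hn c j (by omega), add_comm c j]
  · refine Finset.sum_congr rfl fun c hc => ?_
    rw [Finset.mem_range] at hc
    rw [tpow_P' ha hl hx hn (n' + c) j (by omega) (by omega) (by omega)]
    have h : n' + c + j - (n' + j) = c := by omega
    rw [h]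

theorem key (ha : IsFam dA dA l a) (hl : 1 ≤ l) {m n q : ℕ} {x : W S A} (hx : x ∈ Wl S A m)
    (hn : m + 1 = n + l) (hq : q ≤ n) :
    nq S dA q (Lc dA l a x) = ∑ c ∈ Finset.range q, a c (nq S dA (q + l - 1) x) +
      ∑ c ∈ Finset.Ico q n, a c (nq S dA q x) := by
  rw [Lc_apply hx, show m + 1 - l = n by omega]
  induction q with
  | zero =>
    simp only [nq, Finset.range_zero, Finset.sum_empty, LinearMap.zero_apply, map_zero, Finset.sum_const_zero,
      add_zero]
  | succ q ih =>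
    have ih := ih (by omega)
    obtain ⟨k, rfl⟩ : ∃ k, l = k + 1 := ⟨l - 1, by omega⟩
    have hnq : ∀ (r : ℕ) (y : W S A), nq S dA (r + 1) y = nq S dA r y + (tt S dA ^ r) y := by
      intro r y
      unfold nq
      rw [Finset.sum_range_succ, LinearMap.add_apply]
    have hnk : ∀ (k r : ℕ) (y : W S A), nq S dA (r + k) y = nq S dA r y + ∑ i ∈ Finset.range k, (tt S dA ^ (r + i)) y := by
      intro k r y
      induction k with
      | zero => rw [add_zero, Finset.range_zero, Finset.sum_empty, add_zero]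
      | succ k ihk => rw [← add_assoc, hnq, ihk, Finset.sum_range_succ, add_assoc]
    rw [hnq, ih, map_add, map_sum, map_sum, tpow_Lp_aux ha hl hx hn (show q ≤ n by omega)]
    have h1 : ∀ i ∈ Finset.range (k + 1 - 1), (tt S dA ^ q) (a 0 ((tt S dA ^ (i + 1)) x)) = a q ((tt S dA ^ (q + (i + 1))) x) := by
      intro i _
      rw [tpow_P ha (tt_pow_mem_Wl dA hx (i + 1)) hn 0 q (by omega), zero_add, pow_add _ q (i + 1), Module.End.mul_apply]
    rw [Finset.sum_congr rfl h1]
    have e1 : q + (k + 1) - 1 = q + k := by omega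
    have e2 : q + 1 + (k + 1) - 1 = q + k + 1 := by omega
    have e3 : k + 1 - 1 = k := by omega
    rw [e1, e2, e3, Finset.sum_range_succ, Finset.sum_eq_sum_Ico_succ_bot (show q < n by omega),
      Finset.sum_eq_sum_Ico_succ_bot (show q < n by omega)]
    simp only [hnq (q + k), hnq q, map_add, Finset.sum_add_distrib]
    have e4 : (a q) (nq S dA (q + k) x) + (a q) ((tt S dA ^ (q + k)) x) =
        (a q) (nq S dA q x) + ((a q) ((tt S dA ^ q) x) + ∑ i ∈ Finset.range k, (a q) ((tt S dA ^ (q + (i + 1))) x)) := by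
      rw [← map_add, ← hnq (q + k) x, show q + k + 1 = q + (k + 1) by omega, hnk (k + 1) q x, map_add, map_sum,
        Finset.sum_range_succ', add_zero]
      abel
    rw [e4]
    abel

/-- the rotation by `j` of the sum over all blocks (used in the odd columns) -/
theorem tpow_Lp (ha : IsFam dA dA l a) (hl : 1 ≤ l) {m n j : ℕ} {x : W S A} (hx : x ∈ Wl S A m)
    (hn : m + 1 = n + l) (hj : j ≤ n) :
    (tt S dA ^ j) (Lp l a x) = ∑ c ∈ Finset.Ico j n, a c ((tt S dA ^ j) x) +
      ∑ c ∈ Finset.range j, a c ((tt S dA ^ (j + l - 1)) x) := by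
  rw [Lp_apply hx, show m + 1 - l = n by omega, map_sum, tpow_Lp_aux ha hl hx hn hj]

end

end BK

end NC
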