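import Mathlib
import Pool.Agent.H94.BK.Key

/-!
# Block A, module A09: Cartan formula, shift 2

`b ι + s ι b = - ι_brk`, `ι x = b2_0 P_0 t^j x`.  `t^j b x` by `tpow_Lp` and
`t^j a2_0 t x = a2_j t^(j+1) x`.  For `c ≥ j + 1` the term `b2_0 P_0 a_c t^j x` of `ι b` is
`± b_(c-j) b2_0 P_0 t^j x` (`Comm.right` twice) and cancels with the terms `c ≥ 1` of `b ι`;
`c = j`: `s b2_0 b_1 P_0 t^j x` and for `l = 2` `s b2_0 b2_1 P_0 t^(j+1) x`; `c < j`: second half of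
`ι_brk`.  What is left vanishes by `leib` and `assoc`:
`t^j`-terms: `(b1_0 b2_0 + b2_0 b1_1 + b2_0 b1_0) P_0 t^j x` and `(b2_0 b2_0 + b2_0 b2_1) P_0 t^j x`,
`t^(j+1)`-terms: `(b2_0 b2_0 + b2_0 b2_1)(P_0 + P_1) t^(j+1) x`.
-/

set_option autoImplicit false

noncomputable section

namespace NC

namespace BK

section

variable {S A B C : Type} [CommRing S] {dA : A → ℤ} {dB : B → ℤ} {s : S} {j : ℕ}
  {P : ℕ → (W S A →ₗ[S] W S B)} {a1 a2 : ℕ → (W S A →ₗ[S] W S A)}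
  {b1 b2 : ℕ → (W S B →ₗ[S] W S B)}

/-- the axioms of a dg algebra in terms of the families of the differential and the product -/
structure DGf (dB : B → ℤ) (b1 b2 : ℕ → (W S B →ₗ[S] W S B)) : Prop where
  f1 : IsFam dB dB 1 b1
  f2 : IsFam dB dB 2 b2
  c11 : Comm (-1) 1 1 b1 b1 b1
  c12 : Comm (-1) 1 2 b1 b1 b2
  c21 : Comm (-1) 2 1 b2 b2 b1
  c22 : Comm (-1) 2 2 b2 b2 b2
  dd : ∀ i y, b1 i (b1 i y) = 0
  leib : ∀ i y, b1 i (b2 i y) + b2 i (b1 i y) + b2 i (b1 (i + 1) y) = 0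
  assoc : ∀ i y, b2 i (b2 i y) + b2 i (b2 (i + 1) y) = 0

theorem S2_mem {l : ℕ} {a : ℕ → (W S A →ₗ[S] W S B)} (h : IsFam dA dB l a) {m : ℕ} (c : ℕ)
    {v : W S A} (hv : v ∈ Wl S A m) : a c v ∈ Wl S B (m + 1 - l) := by
  by_cases hc : c + l ≤ m
  · exact h.len m (m + 1 - l) v hv (by omega) c (by omega)
  · rw [h.van m v hv c (by omega)]
    exact zero_mem _

theorem S2_zero1 (hP : IsFam dA dB j P) (h2 : IsFam dB dB 2 b2) {r : ℕ} {v : W S A}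
    (hv : v ∈ Wl S A r) (hr : r ≤ j) : b2 0 (P 0 v) = 0 :=
  h2.van (r + 1 - j) _ (S2_mem hP 0 hv) 0 (by omega)

theorem S2_zero2 (hP : IsFam dA dB j P) (h2 : IsFam dB dB 2 b2) {r : ℕ} {v : W S A} (i : ℕ)
    (hv : v ∈ Wl S A r) (hr : r ≤ j + 1) : b2 0 (b2 0 (P i v)) = 0 :=
  h2.van (r + 1 - j + 1 - 2) _ (S2_mem h2 0 (S2_mem hP i hv)) 0 (by omega)

theorem S2_Lp_mem {l : ℕ} {a : ℕ → (W S A →ₗ[S] W S B)} (h : IsFam dA dB l a) {m : ℕ}
    {v : W S A} (hv : v ∈ Wl S A m) : Lp l a v ∈ Wl S B (m + 1 - l) := by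
  rw [Lp_apply hv]
  exact sum_mem (fun i _ => S2_mem h i hv)

theorem S2_R1 (y : W S A) : b2 0 (brk s 1 j b1 a1 P 0 y) =
    b2 0 (b1 0 (P 0 y)) - s • ∑ c ∈ Finset.range j, b2 0 (P 0 (a1 c y)) := by
  simp only [brk, Finset.sum_range_one, LinearMap.sub_apply, LinearMap.smul_apply,
    LinearMap.comp_apply, LinearMap.sum_apply, map_sub, map_smul, map_sum, zero_add]

theorem S2_R2 (y : W S A) : b2 0 (brk s 2 j b2 a2 P 0 y) =
    b2 0 (b2 0 (P 0 y)) + b2 0 (b2 0 (P 1 y)) -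
      s • ∑ c ∈ Finset.range j, b2 0 (P 0 (a2 c y)) := by
  simp only [brk, Finset.sum_range_succ, Finset.sum_range_zero, LinearMap.sub_apply,
    LinearMap.smul_apply, LinearMap.add_apply,
    LinearMap.comp_apply, LinearMap.sum_apply, map_sub, map_add, map_smul, map_sum, zero_add,
    add_zero]

theorem S2_ico (k : ℕ) (f : ℕ → W S B) :
    ∑ c ∈ Finset.Ico j (j + (k + 1)), f c = f j + ∑ i ∈ Finset.range k, f (j + (i + 1)) := by
  rw [Finset.sum_Ico_eq_sum_range, show j + (k + 1) - j = k + 1 by omega,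
    Finset.sum_range_succ', add_comm]
  rfl

/-- the case of long words -/
theorem S2_long (hj : 1 ≤ j) (hP : IsFam dA dB j P) (ha1 : IsFam dA dA 1 a1)
    (ha2 : IsFam dA dA 2 a2)
    (hb : DGf dB b1 b2) (c1 : Comm s 1 j b1 a1 P)
    (c2 : Comm s 2 j b2 a2 P) (k : ℕ) (x : W S A) (hx : x ∈ Wl S A (j + 2 + k)) :
    pB dB b1 b2 (b2 0 (QQ dA j P x)) + s • b2 0 (QQ dA j P (pB dA a1 a2 x)) =
      - b2 0 (QQ dA j (brk s 1 j b1 a1 P) x) - b2 0 (QQ dA (j + 1) (brk s 2 j b2 a2 P) x) := by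
  have hy : (tt S dA ^ j) x ∈ Wl S A (j + 2 + k) := tt_pow_mem_Wl dA hx j
  have hu : (tt S dA ^ (j + 1)) x ∈ Wl S A (j + 2 + k) := tt_pow_mem_Wl dA hx (j + 1)
  have huy : tt S dA ((tt S dA ^ j) x) = (tt S dA ^ (j + 1)) x := by
    rw [pow_succ', Module.End.mul_apply]
  have huy2 : (tt S dA ^ j) (tt S dA x) = (tt S dA ^ (j + 1)) x := by
    rw [pow_succ, Module.End.mul_apply]
  simp only [QQ_apply]
  generalize hyd : (tt S dA ^ j) x = y at *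
  generalize hud : (tt S dA ^ (j + 1)) x = u at *
  have hz : P 0 y ∈ Wl S B (k + 3) := by
    have := S2_mem hP 0 hy
    rwa [show j + 2 + k + 1 - j = k + 3 by omega] at this
  have hw : b2 0 (P 0 y) ∈ Wl S B (k + 2) := S2_mem hb.f2 0 hz
  have h1 : Lp 1 b1 (b2 0 (P 0 y)) = b1 0 (b2 0 (P 0 y)) -
      s • ∑ i ∈ Finset.range (k + 1), b2 0 (P 0 (a1 (j + (i + 1)) y)) := by
    rw [Lp_apply hw, show k + 2 + 1 - 1 = (k + 1) + 1 by omega, Finset.sum_range_succ',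
      add_comm, sub_eq_add_neg, Finset.smul_sum, ← Finset.sum_neg_distrib]
    congr 1
    refine Finset.sum_congr rfl (fun i _ => ?_)
    rw [hb.c12.right 0 (i + 1) _ (by omega), show i + 1 + 2 - 1 = i + 2 by omega,
      c1.right 0 (i + 2) _ (by omega), show i + 2 + j - 1 = j + (i + 1) by omega, map_smul,
      neg_smul, one_smul]
  have h2 : Lp 2 b2 (b2 0 (P 0 y)) = b2 0 (b2 0 (P 0 y)) -
      s • ∑ i ∈ Finset.range k, b2 0 (P 0 (a2 (j + (i + 1)) y)) := by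
    rw [Lp_apply hw, show k + 2 + 1 - 2 = k + 1 by omega, Finset.sum_range_succ',
      add_comm, sub_eq_add_neg, Finset.smul_sum, ← Finset.sum_neg_distrib]
    congr 1
    refine Finset.sum_congr rfl (fun i _ => ?_)
    rw [hb.c22.right 0 (i + 1) _ (by omega), show i + 1 + 2 - 1 = i + 2 by omega,
      c2.right 0 (i + 2) _ (by omega), show i + 2 + j - 1 = j + (i + 1) by omega, map_smul,
      neg_smul, one_smul]
  have h3 : b2 0 (tt S dB (b2 0 (P 0 y))) = b2 0 (b2 1 (P 1 u)) := by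
    rw [hb.f2.tP (k + 3) (k + 2) _ hz (by omega) 0 (by omega),
      hP.tP (j + 2 + k) (k + 3) _ hy (by omega) 0 (by omega), huy]
  have h4 : b2 0 (P 0 ((tt S dA ^ j) (Lp 1 a1 x))) = b2 0 (P 0 (a1 j y)) +
      ∑ i ∈ Finset.range (k + 1), b2 0 (P 0 (a1 (j + (i + 1)) y)) +
      ∑ c ∈ Finset.range j, b2 0 (P 0 (a1 c y)) := by
    rw [tpow_Lp ha1 le_rfl hx (n := j + 2 + k) (j := j) (by omega) (by omega),
      show j + 1 - 1 = j by omega, hyd, show j + 2 + k = j + (k + 1 + 1) by omega,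
      S2_ico (k + 1) (fun c => a1 c y)]
    simp only [map_add, map_sum]
  have h5 : b2 0 (P 0 ((tt S dA ^ j) (Lp 2 a2 x))) = b2 0 (P 0 (a2 j y)) +
      ∑ i ∈ Finset.range k, b2 0 (P 0 (a2 (j + (i + 1)) y)) +
      ∑ c ∈ Finset.range j, b2 0 (P 0 (a2 c u)) := by
    rw [tpow_Lp ha2 (by omega) hx (n := j + (k + 1)) (j := j) (by omega) (by omega),
      show j + 2 - 1 = j + 1 by omega, hyd, hud,
      S2_ico k (fun c => a2 c y)]
    simp only [map_add, map_sum]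
  have h6 : (tt S dA ^ j) (a2 0 (tt S dA x)) = a2 j u := by
    rw [tpow_P ha2 (tt_mem_Wl dA hx) (n := j + (k + 1)) (by omega) 0 j (by omega), zero_add, huy2]
  have r1 : s • b2 0 (P 0 (a1 j y)) = b2 0 (b1 1 (P 0 y)) := by
    rw [c1.right 0 1 _ (by omega), show 1 + j - 1 = j by omega, map_smul]
  have r2 : s • b2 0 (P 0 (a2 j y)) = b2 0 (b2 1 (P 0 y)) := by
    rw [c2.right 0 1 _ (by omega), show 1 + j - 1 = j by omega, map_smul]
  have r3 : s • b2 0 (P 0 (a2 j u)) = b2 0 (b2 1 (P 0 u)) := by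
    rw [c2.right 0 1 _ (by omega), show 1 + j - 1 = j by omega, map_smul]
  have l1 := hb.leib 0 (P 0 y)
  have l2 := hb.assoc 0 (P 0 y)
  have l3 := hb.assoc 0 (P 0 u)
  have l4 := hb.assoc 0 (P 1 u)
  rw [zero_add] at l1 l2 l3 l4
  rw [S2_R1, S2_R2]
  simp only [pB, pB', LinearMap.add_apply, LinearMap.comp_apply, map_add, smul_add]
  rw [h1, h2, h3, h4, h5, h6]
  simp only [smul_add]
  rw [r1, r2, r3]
  generalize ∑ i ∈ Finset.range (k + 1), b2 0 (P 0 (a1 (j + (i + 1)) y)) = s1 at *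
  generalize ∑ i ∈ Finset.range k, b2 0 (P 0 (a2 (j + (i + 1)) y)) = s2 at *
  generalize ∑ c ∈ Finset.range j, b2 0 (P 0 (a1 c y)) = s3 at *
  generalize ∑ c ∈ Finset.range j, b2 0 (P 0 (a2 c u)) = s4 at *
  linear_combination (norm := module) l1 + l2 + l3 + l4

/-- the case of words of length `j + 1` -/
theorem S2_mid (hj : 1 ≤ j) (hP : IsFam dA dB j P) (ha1 : IsFam dA dA 1 a1)
    (ha2 : IsFam dA dA 2 a2)
    (hb : DGf dB b1 b2) (c1 : Comm s 1 j b1 a1 P) (x : W S A) (hx : x ∈ Wl S A (j + 1)) :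
    pB dB b1 b2 (b2 0 (QQ dA j P x)) + s • b2 0 (QQ dA j P (pB dA a1 a2 x)) =
      - b2 0 (QQ dA j (brk s 1 j b1 a1 P) x) - b2 0 (QQ dA (j + 1) (brk s 2 j b2 a2 P) x) := by
  have hy : (tt S dA ^ j) x ∈ Wl S A (j + 1) := tt_pow_mem_Wl dA hx j
  have hu : (tt S dA ^ (j + 1)) x ∈ Wl S A (j + 1) := tt_pow_mem_Wl dA hx (j + 1)
  simp only [QQ_apply]
  have h5 : b2 0 (P 0 ((tt S dA ^ j) (Lp 2 a2 x))) = 0 :=
    S2_zero1 hP hb.f2 (tt_pow_mem_Wl dA (S2_Lp_mem ha2 hx) j) (by omega)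
  have h6 : b2 0 (P 0 ((tt S dA ^ j) (a2 0 (tt S dA x)))) = 0 :=
    S2_zero1 hP hb.f2 (tt_pow_mem_Wl dA (S2_mem ha2 0 (tt_mem_Wl dA hx)) j) (by omega)
  generalize hyd : (tt S dA ^ j) x = y at *
  generalize hud : (tt S dA ^ (j + 1)) x = u at *
  have hz : P 0 y ∈ Wl S B 2 := by
    have := S2_mem hP 0 hy
    rwa [show j + 1 + 1 - j = 2 by omega] at this
  have hw : b2 0 (P 0 y) ∈ Wl S B 1 := S2_mem hb.f2 0 hz
  have h1 : Lp 1 b1 (b2 0 (P 0 y)) = b1 0 (b2 0 (P 0 y)) := by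
    rw [Lp_apply hw, show 1 + 1 - 1 = 1 by omega, Finset.sum_range_one]
  have h2 : Lp 2 b2 (b2 0 (P 0 y)) = 0 := by
    rw [Lp_apply hw, show 1 + 1 - 2 = 0 by omega, Finset.sum_range_zero]
  have h3 : b2 0 (tt S dB (b2 0 (P 0 y))) = 0 :=
    hb.f2.van 1 _ (tt_mem_Wl dB hw) 0 (by omega)
  have h4 : b2 0 (P 0 ((tt S dA ^ j) (Lp 1 a1 x))) = b2 0 (P 0 (a1 j y)) +
      ∑ c ∈ Finset.range j, b2 0 (P 0 (a1 c y)) := by
    rw [tpow_Lp ha1 le_rfl hx (n := j + 1) (j := j) (by omega) (by omega),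
      show j + 1 - 1 = j by omega, hyd,
      S2_ico 0 (fun c => a1 c y), Finset.sum_range_zero, add_zero]
    simp only [map_add, map_sum]
  have r1 : s • b2 0 (P 0 (a1 j y)) = b2 0 (b1 1 (P 0 y)) := by
    rw [c1.right 0 1 _ (by omega), show 1 + j - 1 = j by omega, map_smul]
  have l1 := hb.leib 0 (P 0 y)
  have z1 : b2 0 (b2 0 (P 0 u)) = 0 := S2_zero2 hP hb.f2 0 hu le_rfl
  have z2 : b2 0 (b2 0 (P 1 u)) = 0 := S2_zero2 hP hb.f2 1 hu le_rfl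
  have z3 : ∑ c ∈ Finset.range j, b2 0 (P 0 (a2 c u)) = 0 :=
    Finset.sum_eq_zero (fun c _ => S2_zero1 hP hb.f2 (S2_mem ha2 c hu) (by omega))
  rw [zero_add] at l1
  rw [S2_R1, S2_R2]
  simp only [pB, pB', LinearMap.add_apply, LinearMap.comp_apply, map_add, smul_add]
  rw [h1, h2, h3, h4, h5, h6, z1, z2, z3]
  simp only [smul_add]
  rw [r1]
  generalize ∑ c ∈ Finset.range j, b2 0 (P 0 (a1 c y)) = s3 at *
  linear_combination (norm := module) l1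

/-- the case of short words -/
theorem S2_short (hP : IsFam dA dB j P) (ha1 : IsFam dA dA 1 a1)
    (ha2 : IsFam dA dA 2 a2)
    (hb : DGf dB b1 b2) (m : ℕ) (hm : m ≤ j) (x : W S A) (hx : x ∈ Wl S A m) :
    pB dB b1 b2 (b2 0 (QQ dA j P x)) + s • b2 0 (QQ dA j P (pB dA a1 a2 x)) =
      - b2 0 (QQ dA j (brk s 1 j b1 a1 P) x) - b2 0 (QQ dA (j + 1) (brk s 2 j b2 a2 P) x) := by
  have hy : (tt S dA ^ j) x ∈ Wl S A m := tt_pow_mem_Wl dA hx j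
  have hu : (tt S dA ^ (j + 1)) x ∈ Wl S A m := tt_pow_mem_Wl dA hx (j + 1)
  simp only [QQ_apply]
  rw [S2_R1, S2_R2, S2_zero1 hP hb.f2 hy hm, S2_zero2 hP hb.f2 0 hu (by omega),
    S2_zero2 hP hb.f2 1 hu (by omega),
    Finset.sum_eq_zero (fun c _ => S2_zero1 hP hb.f2 (S2_mem ha1 c hy) (by omega)),
    Finset.sum_eq_zero (fun c _ => S2_zero1 hP hb.f2 (S2_mem ha2 c hu) (by omega)),
    hb.f2.van _ _ (S2_mem hb.f1 0 (S2_mem hP 0 hy)) 0 (by omega)]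
  simp only [pB, pB', LinearMap.add_apply, LinearMap.comp_apply, map_add]
  rw [S2_zero1 hP hb.f2 (tt_pow_mem_Wl dA (S2_Lp_mem ha1 hx) j) (by omega),
    S2_zero1 hP hb.f2 (tt_pow_mem_Wl dA (S2_Lp_mem ha2 hx) j) (by omega),
    S2_zero1 hP hb.f2 (tt_pow_mem_Wl dA (S2_mem ha2 0 (tt_mem_Wl dA hx)) j) (by omega)]
  simp

theorem s2 (hj : 1 ≤ j) (hP : IsFam dA dB j P) (ha1 : IsFam dA dA 1 a1) (ha2 : IsFam dA dA 2 a2)
    (hb : DGf dB b1 b2) (hs : s * s = 1) (c1 : Comm s 1 j b1 a1 P)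
    (c2 : Comm s 2 j b2 a2 P) (x : W S A) :
    pB dB b1 b2 (b2 0 (QQ dA j P x)) + s • b2 0 (QQ dA j P (pB dA a1 a2 x)) =
      - b2 0 (QQ dA j (brk s 1 j b1 a1 P) x) - b2 0 (QQ dA (j + 1) (brk s 2 j b2 a2 P) x) := by
  have key : ∀ m, ∀ x ∈ Wl S A m,
      pB dB b1 b2 (b2 0 (QQ dA j P x)) + s • b2 0 (QQ dA j P (pB dA a1 a2 x)) =
      - b2 0 (QQ dA j (brk s 1 j b1 a1 P) x) - b2 0 (QQ dA (j + 1) (brk s 2 j b2 a2 P) x) := by
    intro m x hx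
    rcases Nat.lt_or_ge j m with h | h
    · rcases Nat.lt_or_ge (j + 1) m with h' | h'
      · obtain ⟨k, rfl⟩ : ∃ k, m = j + 2 + k := ⟨m - (j + 2), by omega⟩
        exact S2_long hj hP ha1 ha2 hb c1 c2 k x hx
      · obtain rfl : m = j + 1 := by omega
        exact S2_mid hj hP ha1 ha2 hb c1 x hx
    · exact S2_short hP ha1 ha2 hb m h x hx
  refine W_ind_len (p := fun x =>
      pB dB b1 b2 (b2 0 (QQ dA j P x)) + s • b2 0 (QQ dA j P (pB dA a1 a2 x)) =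
      - b2 0 (QQ dA j (brk s 1 j b1 a1 P) x) - b2 0 (QQ dA (j + 1) (brk s 2 j b2 a2 P) x))
    (fun x y hx hy => ?_) key x
  simp only [map_add, smul_add]
  linear_combination (norm := module) hx + hy


end

end BK

end NC
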