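import Mathlib
import Pool.Agent.H94.BK.CmpA
import Pool.Agent.H94.BK.CmpC
import Pool.Agent.H94.BK.Com
import Pool.Agent.H94.BK.Sq
import Pool.Agent.H94.BK.Nat1
import Pool.Agent.H94.BK.S2

/-!
# Block A, module A18: existence of lifts, axioms over `k`; structures for the next modules

* `exists_lft`: `A.internal.collectedBasis` of bases of the homogeneous parts, coefficients lifted
  with a section of `π` which maps `0` to `0` (`rd_surj`, degree supports because zero
  coefficients are lifted to zero).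
* `Sc.cur`: `bk_fam` and `comm_self` (`sg 1 = -1`).
* `Lft.dgf`: the axioms of `A` (`D D = 0`, Leibniz, associativity) in the basis, at the level of
  cochains, then for all `i` with `bk_bk` (the sums of nested cochains are zero, `bk` is additive
  in the cochain).
-/

set_option autoImplicit false

noncomputable section

namespace NC

namespace BK

variable {p : ℕ} {k R : Type} [Field k] [CommRing R] (c : Car p k R)

theorem exists_lft (A : ZDGA k) : Nonempty (Lft c A) := by
  classical
  let v : ∀ i, Module.Basis (Module.Basis.ofVectorSpaceIndex k (A.gr i)) k (A.gr i) :=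
    fun i => Module.Basis.ofVectorSpace k (A.gr i)
  let e := A.internal.collectedBasis v
  have hmem : ∀ b, e b ∈ A.gr b.1 := A.internal.collectedBasis_mem v
  have hne : ∀ (n : ℤ) (x : A.V), x ∈ A.gr n → ∀ b, e.repr x b ≠ 0 → b.1 = n := by
    intro n x hx b hb
    by_contra hn
    exact hb (A.internal.collectedBasis_repr_of_mem_ne v (Ne.symm hn) hx)
  choose d hd1 hd2 using fun a => rd_surj c (e.repr (A.D (e a)))
  choose m hm1 hm2 using fun a b => rd_surj c (e.repr (A.mul (e a) (e b)))
  refine ⟨{ B := Σ i, Module.Basis.ofVectorSpaceIndex k (A.gr i)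
            e := e
            sc := { deg := Sigma.fst
                    d := d
                    m := m
                    d_deg := fun a b h => hne _ _ (A.D_gr _ _ (hmem a)) b (fun h0 => h (hd2 a b h0))
                    m_deg := fun a b x h =>
                      hne _ _ (A.mul_gr _ _ _ (hmem a) _ (hmem b)) x (fun h0 => h (hm2 a b x h0)) }
            e_gr := hmem
            e_D := fun a => (hd1 a).symm
            e_mul := fun a b => (hm1 a b).symm }⟩

variable {c} {A B : ZDGA k} (L : Lft c A) (M : Lft c B)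

theorem Sc.cur {S B : Type} [CommRing S] (L : Sc S B) : Cur L.deg L.f1 L.f2 where
  f1 := bk_fam le_rfl _ _
  f2 := bk_fam one_le_two _ _
  c11 := by
    have h := comm_self (le_refl 1) (le_refl 1) L.co1 L.co1
    rwa [sg_one] at h
  c12 := by
    have h := comm_self one_le_two (le_refl 1) L.co2 L.co1
    rwa [sg_one] at h
  c21 := by
    have h := comm_self (le_refl 1) one_le_two L.co1 L.co2
    rwa [sg_one] at h
  c22 := by
    have h := comm_self one_le_two one_le_two L.co2 L.co2
    rwa [sg_one] at h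

private theorem bk_s {S A B : Type} [CommRing S] {dA : A → ℤ} {dB : B → ℤ} {j : ℕ} {e : ℤ}
    (F : LM S dA dB) (c : Co S dA dB j e) (i : ℕ) (w : List A) :
    bk F c i (Finsupp.single w 1) = sg S (e * sdg dA (w.take i)) •
      cat (F.w (w.take i)) (cat (ltr (c.φ ((w.drop i).take j))) (F.w (w.drop (i + j)))) := by
  rw [bk, lin_single, one_smul]

private theorem bk_sum3 {S A B : Type} [CommRing S] {dA : A → ℤ} {dB : B → ℤ} {j : ℕ} {e : ℤ}
    (F : LM S dA dB) (c1 c2 c3 : Co S dA dB j e)
    (h : ∀ v, v.length = j → c1.φ v + c2.φ v + c3.φ v = 0) (i : ℕ) (x : W S A) :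
    bk F c1 i x + bk F c2 i x + bk F c3 i x = 0 := by
  have h' : ∀ v, c1.φ v + c2.φ v + c3.φ v = 0 := by
    intro v
    by_cases hv : v.length = j
    · exact h v hv
    · rw [c1.ar v hv, c2.ar v hv, c3.ar v hv, add_zero, add_zero]
  have h2 : bk F c1 i + bk F c2 i + bk F c3 i = 0 := by
    refine lin_ext (fun w => ?_)
    rw [LinearMap.add_apply, LinearMap.add_apply, bk_s, bk_s, bk_s, ← smul_add, ← smul_add,
      ← map_add, ← map_add, ← LinearMap.add_apply, ← LinearMap.add_apply, ← map_add, ← map_add,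
      ← map_add, ← map_add, h', map_zero, map_zero, LinearMap.zero_apply, map_zero, smul_zero,
      LinearMap.zero_apply]
  have h3 := LinearMap.congr_fun h2 x
  rwa [LinearMap.add_apply, LinearMap.add_apply, LinearMap.zero_apply] at h3

private def co0 (S : Type) {A B : Type} [CommRing S] (dA : A → ℤ) (dB : B → ℤ) (j : ℕ) (e : ℤ) :
    Co S dA dB j e where
  φ _ := 0
  ar _ _ := rfl
  dg _ _ h := absurd rfl h

private theorem bk_co0 {S A B : Type} [CommRing S] {dA : A → ℤ} {dB : B → ℤ} {j : ℕ} {e : ℤ}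
    (F : LM S dA dB) (i : ℕ) (x : W S A) : bk F (co0 S dA dB j e) i x = 0 := by
  have h2 : bk F (co0 S dA dB j e) i = 0 := by
    refine lin_ext (fun w => ?_)
    rw [bk_s]
    change _ • cat _ (cat (ltr 0) _) = _
    rw [map_zero, map_zero, LinearMap.zero_apply, map_zero, smul_zero, LinearMap.zero_apply]
  rw [h2, LinearMap.zero_apply]

private theorem H1 (y : L.B →₀ k) :
    lin L.scK.c1 (ltr y) = L.e.repr (A.D (L.e.repr.symm y)) := by
  induction y using Finsupp.induction_linear with
  | zero => simp only [map_zero]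
  | add x y hx hy => simp only [map_add, hx, hy]
  | single b r =>
    rw [ltr_single, lin_single, Module.Basis.repr_symm_single, map_smul, map_smul, L.e_D]
    rfl

private theorem E_e (a : L.B) : A.E (L.e a) = sg k (L.sc.deg a) • L.e a := by
  rw [SD.E_apply, A.P_gr _ _ (L.e_gr a)]
  by_cases h : Even (L.sc.deg a)
  · rw [if_pos h, sg_congr (n := 0) (by rwa [sub_zero]), sg_zero, one_smul]
    abel
  · rw [if_neg h, sg_congr (n := 1) (by
      rw [Int.not_even_iff_odd] at h
      exact h.sub_odd odd_one), sg_one]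
    module

private theorem H2 (x y : L.B →₀ k) :
    lin L.scK.c2 (cat (ltr x) (ltr y)) =
      L.e.repr (A.mul (A.E (L.e.repr.symm x)) (L.e.repr.symm y)) := by
  induction x using Finsupp.induction_linear with
  | zero => simp only [map_zero, LinearMap.zero_apply]
  | add x x' hx hx' => simp only [map_add, LinearMap.add_apply, hx, hx']
  | single a r =>
    induction y using Finsupp.induction_linear with
    | zero => simp only [map_zero]
    | add y y' hy hy' => simp only [map_add, hy, hy']
    | single b t =>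
      rw [ltr_single, ltr_single, cat_single, lin_single, Module.Basis.repr_symm_single,
        Module.Basis.repr_symm_single, map_smul A.E, E_e, map_smul, map_smul, map_smul, map_smul,
        LinearMap.smul_apply, LinearMap.smul_apply, map_smul, map_smul, L.e_mul]
      change (r * t) • (sg k (L.sc.deg a) • (L.scK.m a b)) = _
      rw [mul_smul, smul_comm r t]
      rfl

private theorem n0 {S A : Type} [CommRing S] {dA : A → ℤ} {j l : ℕ} {e f : ℤ}
    (ψ : Co S dA dA l f) (φ : Co S dA dA j e) (c : ℕ) (v : List A) (hv : v.length = j + l - 1) :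
    (ψ.nest (LM.id S dA) φ c).φ v = sg S (e * sdg dA (v.take c)) •
      lin ψ.φ (cat (Finsupp.single (v.take c) 1) (cat (ltr (φ.φ ((v.drop c).take j)))
        (Finsupp.single (v.drop (c + j)) 1))) := by
  change (if v.length = j + l - 1 then _ else _) = _
  rw [if_pos hv, bk_s, map_smul, LM.id_w, LM.id_w]

private theorem ls (a : L.B) : (Finsupp.single [a] 1 : W k L.B) = ltr (Finsupp.single a 1) :=
  (ltr_single a 1).symm

private theorem sym1 (a : L.B) : L.e.repr.symm (Finsupp.single a 1) = L.e a := by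
  rw [Module.Basis.repr_symm_single, one_smul]

private theorem v1 (a : L.B) : L.scK.co1.φ [a] = L.e.repr (A.D (L.e a)) := (L.e_D a).symm

private theorem v2 (a b : L.B) :
    L.scK.co2.φ [a, b] = L.e.repr (A.mul (A.E (L.e a)) (L.e b)) := by
  rw [E_e, map_smul, LinearMap.smul_apply, map_smul, L.e_mul]
  rfl

private theorem d1 (a : L.B) :
    (L.scK.co1.nest (LM.id k L.scK.deg) L.scK.co1 0).φ [a] = 0 := by
  rw [n0 _ _ 0 [a] rfl]
  change _ • lin L.scK.c1 (cat (Finsupp.single [] 1) (cat (ltr (L.scK.co1.φ [a]))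
    (Finsupp.single [] 1))) = _
  rw [cat_nil_left, cat_nil_right, v1, H1, LinearEquiv.symm_apply_apply, A.DD, map_zero, smul_zero]

private theorem l1 (a b : L.B) :
    (L.scK.co1.nest (LM.id k L.scK.deg) L.scK.co2 0).φ [a, b] =
      L.e.repr (A.D (A.mul (A.E (L.e a)) (L.e b))) := by
  rw [n0 _ _ 0 [a, b] rfl]
  change sg k (1 * sdg L.scK.deg []) • lin L.scK.c1 (cat (Finsupp.single [] 1)
    (cat (ltr (L.scK.co2.φ [a, b])) (Finsupp.single [] 1))) = _
  rw [cat_nil_left, cat_nil_right, v2, H1, LinearEquiv.symm_apply_apply, sdg_nil, mul_zero, sg_zero,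
    one_smul]

private theorem l2 (a b : L.B) :
    (L.scK.co2.nest (LM.id k L.scK.deg) L.scK.co1 0).φ [a, b] =
      L.e.repr (A.mul (A.E (A.D (L.e a))) (L.e b)) := by
  rw [n0 _ _ 0 [a, b] rfl]
  change sg k (1 * sdg L.scK.deg []) • lin L.scK.c2 (cat (Finsupp.single [] 1)
    (cat (ltr (L.scK.co1.φ [a])) (Finsupp.single [b] 1))) = _
  rw [cat_nil_left, ls, v1, H2, LinearEquiv.symm_apply_apply, sym1, sdg_nil, mul_zero, sg_zero,
    one_smul]

private theorem sgE (a : L.B) (y : A.V) :
    sg k (1 * sdg L.scK.deg [a]) • A.mul (A.E (L.e a)) y = - A.mul (L.e a) y := by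
  have h : sg k (1 * sdg L.scK.deg [a]) = - sg k (L.sc.deg a) := by
    rw [sdg_cons, sdg_nil, add_zero, one_mul, sg_sub, sg_one]
    change sg k (L.sc.deg a) * -1 = _
    ring
  rw [h, E_e, map_smul, LinearMap.smul_apply, smul_smul, neg_mul, sg_sq, neg_smul, one_smul]

private theorem l3 (a b : L.B) :
    (L.scK.co2.nest (LM.id k L.scK.deg) L.scK.co1 1).φ [a, b] =
      - L.e.repr (A.mul (L.e a) (A.D (L.e b))) := by
  rw [n0 _ _ 1 [a, b] rfl]
  change sg k (1 * sdg L.scK.deg [a]) • lin L.scK.c2 (cat (Finsupp.single [a] 1)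
    (cat (ltr (L.scK.co1.φ [b])) (Finsupp.single [] 1))) = _
  rw [cat_nil_right, ls, v1, H2, LinearEquiv.symm_apply_apply, sym1, ← map_smul, sgE, map_neg]

private theorem a1 (a b x : L.B) :
    (L.scK.co2.nest (LM.id k L.scK.deg) L.scK.co2 0).φ [a, b, x] =
      L.e.repr (A.mul (A.E (A.mul (A.E (L.e a)) (L.e b))) (L.e x)) := by
  rw [n0 _ _ 0 [a, b, x] rfl]
  change sg k (1 * sdg L.scK.deg []) • lin L.scK.c2 (cat (Finsupp.single [] 1)
    (cat (ltr (L.scK.co2.φ [a, b])) (Finsupp.single [x] 1))) = _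
  rw [cat_nil_left, ls, v2, H2, LinearEquiv.symm_apply_apply, sym1, sdg_nil, mul_zero, sg_zero,
    one_smul]

private theorem a2 (a b x : L.B) :
    (L.scK.co2.nest (LM.id k L.scK.deg) L.scK.co2 1).φ [a, b, x] =
      - L.e.repr (A.mul (L.e a) (A.mul (A.E (L.e b)) (L.e x))) := by
  rw [n0 _ _ 1 [a, b, x] rfl]
  change sg k (1 * sdg L.scK.deg [a]) • lin L.scK.c2 (cat (Finsupp.single [a] 1)
    (cat (ltr (L.scK.co2.φ [b, x])) (Finsupp.single [] 1))) = _
  rw [cat_nil_right, ls, v2, H2, LinearEquiv.symm_apply_apply, sym1, ← map_smul, sgE, map_neg]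

theorem Lft.dgf : DGf L.sc.deg L.scK.f1 L.scK.f2 where
  f1 := L.scK.cur.f1
  f2 := L.scK.cur.f2
  c11 := L.scK.cur.c11
  c12 := L.scK.cur.c12
  c21 := L.scK.cur.c21
  c22 := L.scK.cur.c22
  dd i y := by
    have h := bk_bk (le_refl 1) (le_refl 1) (LM.id k L.scK.deg) L.scK.co1 (LM.id k L.scK.deg)
      L.scK.co1 i 0 Nat.one_pos y
    have h3 := bk_sum3 ((LM.id k L.scK.deg).comp (LM.id k L.scK.deg))
      (L.scK.co1.nest (LM.id k L.scK.deg) L.scK.co1 0) (co0 k L.scK.deg L.scK.deg _ _)
      (co0 k L.scK.deg L.scK.deg _ _) (fun v hv => by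
        obtain ⟨a, rfl⟩ := List.length_eq_one_iff.1 hv
        rw [d1]
        exact (add_zero _).trans (add_zero _)) i y
    rw [bk_co0, add_zero, add_zero, ← h] at h3
    exact h3
  leib i y := by
    have h1 := bk_bk one_le_two (le_refl 1) (LM.id k L.scK.deg) L.scK.co1 (LM.id k L.scK.deg)
      L.scK.co2 i 0 Nat.one_pos y
    have h2 := bk_bk (le_refl 1) one_le_two (LM.id k L.scK.deg) L.scK.co2 (LM.id k L.scK.deg)
      L.scK.co1 i 0 Nat.two_pos y
    have h3 := bk_bk (le_refl 1) one_le_two (LM.id k L.scK.deg) L.scK.co2 (LM.id k L.scK.deg)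
      L.scK.co1 i 1 Nat.one_lt_two y
    have h4 := bk_sum3 (j := 2) (e := 2) ((LM.id k L.scK.deg).comp (LM.id k L.scK.deg))
      (L.scK.co1.nest (LM.id k L.scK.deg) L.scK.co2 0)
      (L.scK.co2.nest (LM.id k L.scK.deg) L.scK.co1 0)
      (L.scK.co2.nest (LM.id k L.scK.deg) L.scK.co1 1) (fun v hv => by
        obtain ⟨a, b, rfl⟩ := List.length_eq_two.1 hv
        rw [l1, l2, l3, ← map_neg, ← map_add, ← map_add, A.D_mul, A.EE, A.ED, map_neg,
          LinearMap.neg_apply]
        rw [← map_zero L.e.repr]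
        congr 1
        abel) i y
    exact (congrArg₂ (· + ·) (congrArg₂ (· + ·) h1 h2) h3).trans h4
  assoc i y := by
    have h1 := bk_bk one_le_two one_le_two (LM.id k L.scK.deg) L.scK.co2 (LM.id k L.scK.deg)
      L.scK.co2 i 0 Nat.two_pos y
    have h2 := bk_bk one_le_two one_le_two (LM.id k L.scK.deg) L.scK.co2 (LM.id k L.scK.deg)
      L.scK.co2 i 1 Nat.one_lt_two y
    have h4 := bk_sum3 (j := 3) (e := 2) ((LM.id k L.scK.deg).comp (LM.id k L.scK.deg))
      (L.scK.co2.nest (LM.id k L.scK.deg) L.scK.co2 0)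
      (L.scK.co2.nest (LM.id k L.scK.deg) L.scK.co2 1)
      (co0 k L.scK.deg L.scK.deg _ _) (fun v hv => by
        obtain ⟨a, b, x, rfl⟩ := List.length_eq_three.1 hv
        rw [a1, a2]
        refine (add_zero _).trans ?_
        rw [← map_neg, ← map_add, ← map_zero L.e.repr]
        congr 1
        have h5 := A.E_mul (A.E (L.e a)) (L.e b)
        rw [DGA.mul_def, DGA.mul_def, A.EE] at h5
        rw [h5, A.mul_assoc']
        abel) i y
    rw [bk_co0, add_zero] at h4
    exact (congrArg₂ (· + ·) h1 h2).trans h4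

/-- the obstruction cochains of a lift -/
structure Lft.Alp where
  α1 : Co R L.sc.deg L.sc.deg 1 2
  α2 : Co R L.sc.deg L.sc.deg 2 2
  α3 : Co R L.sc.deg L.sc.deg 3 2
  sqr : Sqr (p : R) L.sc.f1 L.sc.f2 (bk (LM.id R L.sc.deg) α1) (bk (LM.id R L.sc.deg) α2)
    (bk (LM.id R L.sc.deg) α3)

/-- a lift of a morphism of dg algebras to a letter map and the corresponding defects -/
structure LftHom (f : ZHom A B) where
  F : LM R L.sc.deg M.sc.deg
  red : ∀ a, M.e.repr (f.f (L.e a)) = rd c.π (F.f a)
  η1 : Co R L.sc.deg M.sc.deg 1 1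
  η2 : Co R L.sc.deg M.sc.deg 2 1
  nat : NatE (p : R) F L.sc.f1 L.sc.f2 M.sc.f1 M.sc.f2 (bk F η1) (bk F η2)

end BK

end NC
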