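import Mathlib
import Pool.Agent.H94.BK.LftE

/-!
# Block A, module A19: existence of the obstruction cochains

For a list `v` of length `n` let `sq_n v` be the sum of the nested cochains over `R`
(`Co.nest`: `c1 c1`; `c1 c2 + c2 c1 + c2 c1`; `c2 c2 + c2 c2`).  Its reduction is zero by the axioms
of `A` (`Lft.dgf` evaluated on `single v 1`, or directly `e_D`, `e_mul`), hence
`sq_n v = p α_n v` (`exists_div`, zero coefficients stay zero, so the degree supports are kept).
`bk_bk` gives `Sqr`.  In a strict lift `sq_n v = 0` and one may take `α_n = 0`.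
-/

set_option autoImplicit false

noncomputable section

namespace NC

namespace BK

section

variable {S A B : Type} [CommRing S] {dA : A → ℤ} {dB : B → ℤ}

private theorem al_id : (LM.id S dA).comp (LM.id S dA) = LM.id S dA := by
  have h : ((LM.id S dA).comp (LM.id S dA)).f = (LM.id S dA).f := by
    funext a
    change Finsupp.linearCombination S (fun a => Finsupp.single a (1 : S)) (Finsupp.single a 1) = Finsupp.single a 1
    rw [Finsupp.linearCombination_single, one_smul]
  generalize (LM.id S dA).comp (LM.id S dA) = F at h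
  cases F
  change _ = (LM.id S dA).f at h
  subst h
  rfl

private theorem al_nest {j l : ℕ} {e f : ℤ} (hj : 1 ≤ j) (hl : 1 ≤ l) (ψ : Co S dA dA l f) (φ : Co S dA dA j e) (i c : ℕ)
    (hc : c < l) (x : W S A) : bk (LM.id S dA) ψ i (bk (LM.id S dA) φ (i + c) x) =
      bk (LM.id S dA) (ψ.nest (LM.id S dA) φ c) i x := by
  rw [bk_bk hj hl (LM.id S dA) ψ (LM.id S dA) φ i c hc, al_id]

private theorem al_bk {j : ℕ} {e : ℤ} (F : LM S dA dB) (c : Co S dA dB j e) (i : ℕ)
    (w : List A) : bk F c i (Finsupp.single w 1) = sg S (e * sdg dA (w.take i)) •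
      cat (F.w (w.take i)) (cat (ltr (c.φ ((w.drop i).take j))) (F.w (w.drop (i + j)))) := by
  rw [bk, lin_single, one_smul]

private theorem al_lin1 {j j1 : ℕ} {e e1 : ℤ} (F : LM S dA dB) (α : Co S dA dB j e) (ψ : Co S dA dB j1 e1)
    (hj : j1 = j) (he : e1 = e) (r : S) (h : ∀ v, r • α.φ v = ψ.φ v) (i : ℕ) (x : W S A) :
    r • bk F α i x = bk F ψ i x := by
  subst hj he
  have key : r • bk F α i = bk F ψ i := by
    refine lin_ext fun w => ?_
    rw [LinearMap.smul_apply, al_bk, al_bk, ← h, map_smul, map_smul, LinearMap.smul_apply, map_smul, smul_comm]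
  exact LinearMap.congr_fun key x

private theorem al_pull (r s : S) (U X : W S B) (y : B →₀ S) :
    r • (s • cat U (cat (ltr y) X)) = s • cat U (cat (ltr (r • y)) X) := by
  rw [map_smul, map_smul, LinearMap.smul_apply, map_smul, smul_comm]

private theorem al_lin2 {j j1 j2 : ℕ} {e e1 e2 : ℤ} (F : LM S dA dB) (α : Co S dA dB j e) (ψ1 : Co S dA dB j1 e1)
    (ψ2 : Co S dA dB j2 e2) (hj1 : j1 = j) (he1 : e1 = e) (hj2 : j2 = j) (he2 : e2 = e) (r : S)
    (h : ∀ v, r • α.φ v = ψ1.φ v + ψ2.φ v) (i : ℕ) (x : W S A) :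
    r • bk F α i x = bk F ψ1 i x + bk F ψ2 i x := by
  subst hj1 he1
  subst hj2 he2
  have key : r • bk F α i = bk F ψ1 i + bk F ψ2 i := by
    refine lin_ext fun w => ?_
    rw [LinearMap.smul_apply, LinearMap.add_apply, al_bk, al_bk, al_bk, al_pull, h, map_add, map_add,
      LinearMap.add_apply, map_add, smul_add]
  exact LinearMap.congr_fun key x

private theorem al_lin3 {j j1 j2 j3 : ℕ} {e e1 e2 e3 : ℤ} (F : LM S dA dB) (α : Co S dA dB j e) (ψ1 : Co S dA dB j1 e1)
    (ψ2 : Co S dA dB j2 e2) (ψ3 : Co S dA dB j3 e3) (hj1 : j1 = j) (he1 : e1 = e) (hj2 : j2 = j) (he2 : e2 = e)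
    (hj3 : j3 = j) (he3 : e3 = e) (r : S)
    (h : ∀ v, r • α.φ v = ψ1.φ v + ψ2.φ v + ψ3.φ v) (i : ℕ) (x : W S A) :
    r • bk F α i x = bk F ψ1 i x + bk F ψ2 i x + bk F ψ3 i x := by
  subst hj1 he1
  subst hj2 he2
  subst hj3 he3
  have key : r • bk F α i = bk F ψ1 i + bk F ψ2 i + bk F ψ3 i := by
    refine lin_ext fun w => ?_
    rw [LinearMap.smul_apply, LinearMap.add_apply, LinearMap.add_apply, al_bk, al_bk, al_bk, al_bk, al_pull, h,
      map_add, map_add, map_add, map_add, LinearMap.add_apply, LinearMap.add_apply, map_add, map_add, smul_add,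
      smul_add]
  exact LinearMap.congr_fun key x

private theorem al_zero {j : ℕ} {e : ℤ} (φ : Co S dA dA j e) (v : List A) (hv : v.length = j) :
    bk (LM.id S dA) φ 0 (Finsupp.single v 1) = ltr (φ.φ v) := by
  have h1 : (v.drop 0).take j = v := by rw [List.drop_zero, ← hv, List.take_length]
  have h2 : v.drop (0 + j) = [] := by rw [zero_add, ← hv, List.drop_length]
  rw [al_bk, h1, h2, List.take_zero, LM.id_w, cat_nil_right, cat_nil_left, sdg_nil, mul_zero, sg_zero, one_smul]

private theorem al_nest_phi {j l : ℕ} {e f : ℤ} (ψ : Co S dA dA l f) (φ : Co S dA dA j e) (i : ℕ) (v : List A)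
    (hv : v.length = j + l - 1) : (ψ.nest (LM.id S dA) φ i).φ v =
      lin ψ.φ (bk (LM.id S dA) φ i (Finsupp.single v 1)) := if_pos hv

/-- the zero cochain -/
private def al_co (S : Type) [CommRing S] (dA : A → ℤ) (dB : B → ℤ) (j : ℕ) (e : ℤ) : Co S dA dB j e where
  φ _ := 0
  ar _ _ := rfl
  dg _ _ h := absurd rfl h

end

section

variable {S B : Type} [CommRing S] (L : Sc S B)

private theorem al_f11 (i : ℕ) (x : W S B) : L.f1 i (L.f1 i x) =
    bk (LM.id S L.deg) (L.co1.nest (LM.id S L.deg) L.co1 0) i x := al_nest le_rfl le_rfl L.co1 L.co1 i 0 one_pos x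

private theorem al_f12 (i : ℕ) (x : W S B) : L.f1 i (L.f2 i x) =
    bk (LM.id S L.deg) (L.co1.nest (LM.id S L.deg) L.co2 0) i x :=
  al_nest (by norm_num) le_rfl L.co1 L.co2 i 0 one_pos x

private theorem al_f21 (i : ℕ) (x : W S B) : L.f2 i (L.f1 i x) =
    bk (LM.id S L.deg) (L.co2.nest (LM.id S L.deg) L.co1 0) i x :=
  al_nest le_rfl (by norm_num) L.co2 L.co1 i 0 (by norm_num) x

private theorem al_f21' (i : ℕ) (x : W S B) : L.f2 i (L.f1 (i + 1) x) =
    bk (LM.id S L.deg) (L.co2.nest (LM.id S L.deg) L.co1 1) i x :=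
  al_nest le_rfl (by norm_num) L.co2 L.co1 i 1 (by norm_num) x

private theorem al_f22 (i : ℕ) (x : W S B) : L.f2 i (L.f2 i x) =
    bk (LM.id S L.deg) (L.co2.nest (LM.id S L.deg) L.co2 0) i x :=
  al_nest (by norm_num) (by norm_num) L.co2 L.co2 i 0 (by norm_num) x

private theorem al_f22' (i : ℕ) (x : W S B) : L.f2 i (L.f2 (i + 1) x) =
    bk (LM.id S L.deg) (L.co2.nest (LM.id S L.deg) L.co2 1) i x :=
  al_nest (by norm_num) (by norm_num) L.co2 L.co2 i 1 (by norm_num) x

/-- the parts of the square -/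
private def al_s1 (v : List B) : B →₀ S := (L.co1.nest (LM.id S L.deg) L.co1 0).φ v

private def al_s2 (v : List B) : B →₀ S := (L.co1.nest (LM.id S L.deg) L.co2 0).φ v +
  (L.co2.nest (LM.id S L.deg) L.co1 0).φ v + (L.co2.nest (LM.id S L.deg) L.co1 1).φ v

private def al_s3 (v : List B) : B →₀ S := (L.co2.nest (LM.id S L.deg) L.co2 0).φ v +
  (L.co2.nest (LM.id S L.deg) L.co2 1).φ v

private theorem al_s1_ar {v : List B} (h : v.length ≠ 1) : al_s1 L v = 0 := Co.ar _ v h

private theorem al_s2_ar {v : List B} (h : v.length ≠ 2) : al_s2 L v = 0 := by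
  unfold al_s2
  rw [Co.ar _ v h, Co.ar _ v h, Co.ar _ v h, add_zero, add_zero]

private theorem al_s3_ar {v : List B} (h : v.length ≠ 3) : al_s3 L v = 0 := by
  unfold al_s3
  rw [Co.ar _ v h, Co.ar _ v h, add_zero]

private theorem al_s1_dg {v : List B} {b : B} (h : al_s1 L v b ≠ 0) : L.deg b - 1 = sdg L.deg v + 2 :=
  Co.dg _ v b h

private theorem al_s2_dg {v : List B} {b : B} (h : al_s2 L v b ≠ 0) : L.deg b - 1 = sdg L.deg v + 2 := by
  by_contra hc
  apply h
  unfold al_s2
  rw [Finsupp.add_apply, Finsupp.add_apply]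
  have h1 : ∀ (j : ℕ) (e : ℤ) (ψ : Co S L.deg L.deg j e), e = 2 → ψ.φ v b = 0 := by
    intro j e ψ he
    by_contra hc'
    have := ψ.dg v b hc'
    rw [he] at this
    exact hc this
  rw [h1 _ _ _ (by norm_num), h1 _ _ _ (by norm_num), h1 _ _ _ (by norm_num), add_zero, add_zero]

private theorem al_s3_dg {v : List B} {b : B} (h : al_s3 L v b ≠ 0) : L.deg b - 1 = sdg L.deg v + 2 := by
  by_contra hc
  apply h
  unfold al_s3
  rw [Finsupp.add_apply]
  have h1 : ∀ (j : ℕ) (e : ℤ) (ψ : Co S L.deg L.deg j e), e = 2 → ψ.φ v b = 0 := by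
    intro j e ψ he
    by_contra hc'
    have := ψ.dg v b hc'
    rw [he] at this
    exact hc this
  rw [h1 _ _ _ (by norm_num), h1 _ _ _ (by norm_num), add_zero]

private theorem al_sqr (r : S) (α1 : Co S L.deg L.deg 1 2) (α2 : Co S L.deg L.deg 2 2) (α3 : Co S L.deg L.deg 3 2)
    (h1 : ∀ v, r • α1.φ v = al_s1 L v) (h2 : ∀ v, r • α2.φ v = al_s2 L v) (h3 : ∀ v, r • α3.φ v = al_s3 L v) :
    Sqr r L.f1 L.f2 (bk (LM.id S L.deg) α1) (bk (LM.id S L.deg) α2) (bk (LM.id S L.deg) α3) where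
  h1 i x := by
    rw [al_f11]
    exact al_lin1 _ _ _ rfl (by norm_num) r h1 i x
  h2 i x := by
    rw [al_f12, al_f21, al_f21']
    exact al_lin3 _ _ _ _ _ rfl (by norm_num) rfl (by norm_num) rfl (by norm_num) r h2 i x
  h3 i x := by
    rw [al_f22, al_f22']
    exact al_lin2 _ _ _ _ rfl (by norm_num) rfl (by norm_num) r h3 i x

private theorem al_s1_eq {v : List B} (hv : v.length = 1) : ltr (al_s1 L v) = L.f1 0 (L.f1 0 (Finsupp.single v 1)) := by
  rw [al_f11, al_zero _ v hv]
  rfl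

private theorem al_s2_eq {v : List B} (hv : v.length = 2) : ltr (al_s2 L v) = L.f1 0 (L.f2 0 (Finsupp.single v 1)) +
    L.f2 0 (L.f1 0 (Finsupp.single v 1)) + L.f2 0 (L.f1 (0 + 1) (Finsupp.single v 1)) := by
  rw [al_f12, al_f21, al_f21', al_zero _ v hv, al_zero _ v hv, al_zero _ v hv, ← map_add, ← map_add]
  rfl

private theorem al_s3_eq {v : List B} (hv : v.length = 3) : ltr (al_s3 L v) = L.f2 0 (L.f2 0 (Finsupp.single v 1)) +
    L.f2 0 (L.f2 (0 + 1) (Finsupp.single v 1)) := by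
  rw [al_f22, al_f22', al_zero _ v hv, al_zero _ v hv, ← map_add]
  rfl

end

section

variable {S B : Type} [CommRing S] (L : Sc S B)

private theorem al_c1 (x : B →₀ S) : lin L.c1 (ltr x) = L.dL x := by
  induction x using Finsupp.induction_linear with
  | zero => rw [map_zero, map_zero, map_zero]
  | add x y hx hy => rw [map_add, map_add, map_add, hx, hy]
  | single b r =>
    rw [ltr_single, lin_single, Sc.dL, Finsupp.linearCombination_single]
    rfl

private theorem al_c2r (a : B) (x : B →₀ S) : lin L.c2 (cat (Finsupp.single [a] 1) (ltr x)) =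
    sg S (L.deg a) • L.mL (Finsupp.single a 1) x := by
  induction x using Finsupp.induction_linear with
  | zero => simp
  | add x y hx hy => rw [map_add, map_add, map_add, hx, hy, map_add, smul_add]
  | single b r =>
    rw [ltr_single, cat_single, one_mul, lin_single]
    have h : L.mL (Finsupp.single a 1) (Finsupp.single b r) = r • L.m a b := by
      rw [Sc.mL, Finsupp.lsum_single]
      simp
    rw [h]
    change r • (sg S (L.deg a) • L.m a b) = _
    rw [smul_comm]

private theorem al_c2l (D : ℤ) (b : B) (x : B →₀ S) (hx : ∀ y, x y ≠ 0 → L.deg y = D) :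
    lin L.c2 (cat (ltr x) (Finsupp.single [b] 1)) = sg S D • L.mL x (Finsupp.single b 1) := by
  have hX : x = ∑ y ∈ x.support, x y • (Finsupp.single y 1 : B →₀ S) := by
    conv_lhs => rw [← Finsupp.sum_single x]
    rw [Finsupp.sum]
    refine Finset.sum_congr rfl (fun w _ => ?_)
    rw [Finsupp.smul_single, smul_eq_mul, mul_one]
  have e1 : lin L.c2 (cat (ltr x) (Finsupp.single [b] 1)) =
      (lin L.c2 ∘ₗ (cat.flip (Finsupp.single [b] 1)) ∘ₗ ltr) x := rfl
  have e2 : L.mL x (Finsupp.single b 1) = (L.mL.flip (Finsupp.single b 1)) x := rfl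
  rw [e1, e2, hX, map_sum, map_sum, Finset.smul_sum]
  refine Finset.sum_congr rfl fun y hy => ?_
  rw [map_smul, map_smul]
  have h3 : (lin L.c2 ∘ₗ (cat.flip (Finsupp.single [b] 1)) ∘ₗ ltr) (Finsupp.single y (1 : S)) =
      sg S (L.deg y) • L.m y b := by
    change lin L.c2 (cat (ltr (Finsupp.single y (1 : S))) (Finsupp.single [b] 1)) = _
    rw [ltr_single, cat_single, one_mul, lin_single, one_smul]
    rfl
  have h4 : (L.mL.flip (Finsupp.single b 1)) (Finsupp.single y (1 : S)) = L.m y b := by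
    change L.mL (Finsupp.single y 1) (Finsupp.single b 1) = _
    rw [Sc.mL, Finsupp.lsum_single]
    simp
  rw [h3, h4, hx y (Finsupp.mem_support_iff.1 hy), smul_comm]

private theorem al_st1 (h : L.Strict) (v : List B) : al_s1 L v = 0 := by
  by_cases hv : v.length = 1
  · obtain ⟨a, rfl⟩ := List.length_eq_one_iff.1 hv
    have e : al_s1 L [a] = lin L.c1 (bk (LM.id S L.deg) L.co1 0 (Finsupp.single [a] 1)) :=
      al_nest_phi _ _ _ _ rfl
    rw [e, al_zero L.co1 [a] rfl, al_c1]
    exact h.dd a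
  · exact al_s1_ar L hv

private theorem al_st2 (h : L.Strict) (v : List B) : al_s2 L v = 0 := by
  by_cases hv : v.length = 2
  · obtain ⟨a, b, rfl⟩ := List.length_eq_two.1 hv
    have e1 : (L.co1.nest (LM.id S L.deg) L.co2 0).φ [a, b] =
        lin L.c1 (bk (LM.id S L.deg) L.co2 0 (Finsupp.single [a, b] 1)) := al_nest_phi _ _ _ _ rfl
    have e2 : (L.co2.nest (LM.id S L.deg) L.co1 0).φ [a, b] =
        lin L.c2 (bk (LM.id S L.deg) L.co1 0 (Finsupp.single [a, b] 1)) := al_nest_phi _ _ _ _ rfl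
    have e3 : (L.co2.nest (LM.id S L.deg) L.co1 1).φ [a, b] =
        lin L.c2 (bk (LM.id S L.deg) L.co1 1 (Finsupp.single [a, b] 1)) := al_nest_phi _ _ _ _ rfl
    have f1 : (L.co2.φ [a, b]) = sg S (L.deg a) • L.m a b := rfl
    have f2 : bk (LM.id S L.deg) L.co1 0 (Finsupp.single [a, b] 1) = cat (ltr (L.d a)) (Finsupp.single [b] 1) := by
      rw [al_bk]
      change sg S (1 * sdg L.deg []) • cat ((LM.id S L.deg).w []) (cat (ltr (L.d a)) ((LM.id S L.deg).w [b])) = _
      rw [LM.id_w, LM.id_w, cat_nil_left, sdg_nil, mul_zero, sg_zero, one_smul]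
    have f3 : bk (LM.id S L.deg) L.co1 1 (Finsupp.single [a, b] 1) =
        sg S (L.deg a - 1) • cat (Finsupp.single [a] 1) (ltr (L.d b)) := by
      rw [al_bk]
      change sg S (1 * sdg L.deg [a]) • cat ((LM.id S L.deg).w [a]) (cat (ltr (L.d b)) ((LM.id S L.deg).w [])) = _
      rw [LM.id_w, LM.id_w, cat_nil_right, one_mul, sdg_cons, sdg_nil, add_zero]
    unfold al_s2
    rw [e1, e2, e3, al_zero L.co2 [a, b] rfl, al_c1, f1, f2, f3, map_smul, map_smul, al_c2r,
      al_c2l L (L.deg a + 1) b (L.d a) (fun y hy => L.d_deg a y hy), h.leib a b, smul_add, smul_smul, smul_smul,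
      sg_add, sg_sub, sg_one]
    have g1 : sg S (L.deg a) * -1 * sg S (L.deg a) = - 1 := by
      have := sg_sq (S := S) (L.deg a)
      linear_combination (-1 : S) * this
    rw [g1, sg_sq]
    module
  · exact al_s2_ar L hv

private theorem al_st3 (h : L.Strict) (v : List B) : al_s3 L v = 0 := by
  by_cases hv : v.length = 3
  · obtain ⟨a, b, c, rfl⟩ := List.length_eq_three.1 hv
    have e1 : (L.co2.nest (LM.id S L.deg) L.co2 0).φ [a, b, c] =
        lin L.c2 (bk (LM.id S L.deg) L.co2 0 (Finsupp.single [a, b, c] 1)) := al_nest_phi _ _ _ _ rfl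
    have e2 : (L.co2.nest (LM.id S L.deg) L.co2 1).φ [a, b, c] =
        lin L.c2 (bk (LM.id S L.deg) L.co2 1 (Finsupp.single [a, b, c] 1)) := al_nest_phi _ _ _ _ rfl
    have f2 : bk (LM.id S L.deg) L.co2 0 (Finsupp.single [a, b, c] 1) =
        cat (ltr (sg S (L.deg a) • L.m a b)) (Finsupp.single [c] 1) := by
      rw [al_bk]
      change sg S (1 * sdg L.deg []) • cat ((LM.id S L.deg).w []) (cat (ltr (sg S (L.deg a) • L.m a b))
        ((LM.id S L.deg).w [c])) = _
      rw [LM.id_w, LM.id_w, cat_nil_left, sdg_nil, mul_zero, sg_zero, one_smul]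
    have f3 : bk (LM.id S L.deg) L.co2 1 (Finsupp.single [a, b, c] 1) =
        sg S (L.deg a - 1) • cat (Finsupp.single [a] 1) (ltr (sg S (L.deg b) • L.m b c)) := by
      rw [al_bk]
      change sg S (1 * sdg L.deg [a]) • cat ((LM.id S L.deg).w [a]) (cat (ltr (sg S (L.deg b) • L.m b c))
        ((LM.id S L.deg).w [])) = _
      rw [LM.id_w, LM.id_w, cat_nil_right, one_mul, sdg_cons, sdg_nil, add_zero]
    have f4 : ∀ y, (sg S (L.deg a) • L.m a b) y ≠ 0 → L.deg y = L.deg a + L.deg b := by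
      intro y hy
      refine L.m_deg a b y fun h0 => hy ?_
      rw [Finsupp.smul_apply, h0, smul_zero]
    unfold al_s3
    rw [e1, e2, f2, f3, map_smul (lin L.c2), al_c2r, al_c2l L (L.deg a + L.deg b) c _ f4, map_smul, map_smul,
      LinearMap.smul_apply, h.assoc a b c, smul_smul, smul_smul, smul_smul, sg_add, sg_sub, sg_one]
    have h1 := sg_sq (S := S) (L.deg a)
    have g1 : sg S (L.deg a) * sg S (L.deg b) * sg S (L.deg a) = sg S (L.deg b) := by
      linear_combination (sg S (L.deg b)) * h1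
    have g2 : sg S (L.deg a) * -1 * sg S (L.deg a) * sg S (L.deg b) = - sg S (L.deg b) := by
      linear_combination (-sg S (L.deg b)) * h1
    rw [g1, g2]
    module
  · exact al_s3_ar L hv

end

variable {p : ℕ} {k R : Type} [Field k] [CommRing R] {c : Car p k R}
  {A B : ZDGA k} (L : Lft c A) (M : Lft c B)

private theorem al_rd1 (v : List L.B) : rd c.π (al_s1 L.sc v) = 0 := by
  by_cases hv : v.length = 1
  · have h1 := al_s1_eq L.sc hv
    have h2 := congrArg (rd c.π) h1
    rw [rd_ltr, rd_f1, rd_f1] at h2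
    have h3 := L.dgf.dd 0 (rd c.π (Finsupp.single v 1))
    have h4 : ltr (rd c.π (al_s1 L.sc v)) = (0 : W k L.B) := h2.trans h3
    rw [← unl_ltr (rd c.π (al_s1 L.sc v)), h4, map_zero]
  · rw [al_s1_ar L.sc hv, rd_zero]

private theorem al_rd2 (v : List L.B) : rd c.π (al_s2 L.sc v) = 0 := by
  by_cases hv : v.length = 2
  · have h1 := al_s2_eq L.sc hv
    have h2 := congrArg (rd c.π) h1
    rw [rd_ltr, rd_add, rd_add, rd_f1, rd_f2, rd_f2, rd_f1, rd_f2, rd_f1] at h2
    have h3 := L.dgf.leib 0 (rd c.π (Finsupp.single v 1))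
    have h4 : ltr (rd c.π (al_s2 L.sc v)) = (0 : W k L.B) := h2.trans h3
    rw [← unl_ltr (rd c.π (al_s2 L.sc v)), h4, map_zero]
  · rw [al_s2_ar L.sc hv, rd_zero]

private theorem al_rd3 (v : List L.B) : rd c.π (al_s3 L.sc v) = 0 := by
  by_cases hv : v.length = 3
  · have h1 := al_s3_eq L.sc hv
    have h2 := congrArg (rd c.π) h1
    rw [rd_ltr, rd_add, rd_f2, rd_f2, rd_f2, rd_f2] at h2
    have h3 := L.dgf.assoc 0 (rd c.π (Finsupp.single v 1))
    have h4 : ltr (rd c.π (al_s3 L.sc v)) = (0 : W k L.B) := h2.trans h3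
    rw [← unl_ltr (rd c.π (al_s3 L.sc v)), h4, map_zero]
  · rw [al_s3_ar L.sc hv, rd_zero]

theorem Lft.exists_alp : Nonempty L.Alp := by
  choose y1 hy1 hz1 using fun v => exists_div c (al_s1 L.sc v) (al_rd1 L v)
  choose y2 hy2 hz2 using fun v => exists_div c (al_s2 L.sc v) (al_rd2 L v)
  choose y3 hy3 hz3 using fun v => exists_div c (al_s3 L.sc v) (al_rd3 L v)
  let α1 : Co R L.sc.deg L.sc.deg 1 2 :=
    { φ := y1
      ar := fun v h => by
        ext b
        exact hz1 v b (by rw [al_s1_ar L.sc h]; rfl)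
      dg := fun v b h => al_s1_dg L.sc (fun h0 => h (hz1 v b h0)) }
  let α2 : Co R L.sc.deg L.sc.deg 2 2 :=
    { φ := y2
      ar := fun v h => by
        ext b
        exact hz2 v b (by rw [al_s2_ar L.sc h]; rfl)
      dg := fun v b h => al_s2_dg L.sc (fun h0 => h (hz2 v b h0)) }
  let α3 : Co R L.sc.deg L.sc.deg 3 2 :=
    { φ := y3
      ar := fun v h => by
        ext b
        exact hz3 v b (by rw [al_s3_ar L.sc h]; rfl)
      dg := fun v b h => al_s3_dg L.sc (fun h0 => h (hz3 v b h0)) }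
  exact ⟨⟨α1, α2, α3, al_sqr L.sc (p : R) α1 α2 α3 (fun v => (hy1 v).symm) (fun v => (hy2 v).symm)
    (fun v => (hy3 v).symm)⟩⟩

theorem Lft.exists_alp_strict (h : L.sc.Strict) : ∃ a : L.Alp,
    (∀ v, a.α1.φ v = 0) ∧ (∀ v, a.α2.φ v = 0) ∧ (∀ v, a.α3.φ v = 0) := by
  refine ⟨⟨al_co R L.sc.deg L.sc.deg 1 2, al_co R L.sc.deg L.sc.deg 2 2, al_co R L.sc.deg L.sc.deg 3 2,
    al_sqr L.sc (p : R) _ _ _ (fun v => ?_) (fun v => ?_) (fun v => ?_)⟩, fun _ => rfl, fun _ => rfl, fun _ => rfl⟩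
  · rw [al_st1 L.sc h v]
    exact smul_zero _
  · rw [al_st2 L.sc h v]
    exact smul_zero _
  · rw [al_st3 L.sc h v]
    exact smul_zero _

end BK

end NC
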