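import Mathlib
import Pool.Agent.H94.BK.Sq

/-!
# Block A, module A12: the commutator of the square with the differential

Each identity: multiply out with `Sqr`, cancel, and use `right` of `Cur` for the disjoint blocks
inside an outer `b2`: `b1_(i+1) b1_i = - b1_i b1_(i+1)`, `b1_(i+1) b2_i = - b2_i b1_(i+2)`,
`b2_(i+1) b1_i = - b1_i b2_(i+1)`, `b2_(i+1) b2_i = - b2_i b2_(i+2)`.
-/

set_option autoImplicit false

noncomputable section

namespace NC

namespace BK

section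

variable {S A B C : Type} [CommRing S] {dA : A → ℤ} {b1 b2 : ℕ → (W S A →ₗ[S] W S A)}
  {A1 A2 A3 : ℕ → (W S A →ₗ[S] W S A)} {r : S}

private theorem r_A1 (h : Sqr r b1 b2 A1 A2 A3) (f : W S A →ₗ[S] W S A) (i : ℕ) (x : W S A) :
    r • f (A1 i x) = f (b1 i (b1 i x)) := by
  rw [← map_smul, h.h1]

private theorem r_A2 (h : Sqr r b1 b2 A1 A2 A3) (f : W S A →ₗ[S] W S A) (i : ℕ) (x : W S A) :
    r • f (A2 i x) = f (b1 i (b2 i x)) + f (b2 i (b1 i x)) + f (b2 i (b1 (i + 1) x)) := by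
  rw [← map_smul, h.h2, map_add, map_add]

private theorem r_A3 (h : Sqr r b1 b2 A1 A2 A3) (f : W S A →ₗ[S] W S A) (i : ℕ) (x : W S A) :
    r • f (A3 i x) = f (b2 i (b2 i x)) + f (b2 i (b2 (i + 1) x)) := by
  rw [← map_smul, h.h3, map_add]

private theorem b11 (hb : Cur dA b1 b2) (i : ℕ) (x : W S A) :
    b1 (i + 1) (b1 i x) = - b1 i (b1 (i + 1) x) := by
  have := hb.c11.right i (i + 1) x (Nat.lt_succ_self i)
  rw [this]
  simp

private theorem b12 (hb : Cur dA b1 b2) (i : ℕ) (x : W S A) :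
    b1 (i + 1) (b2 i x) = - b2 i (b1 (i + 2) x) := by
  have := hb.c12.right i (i + 1) x (Nat.lt_succ_self i)
  rw [this]
  simp

private theorem b21 (hb : Cur dA b1 b2) (i : ℕ) (x : W S A) :
    b2 (i + 1) (b1 i x) = - b1 i (b2 (i + 1) x) := by
  have := hb.c21.right i (i + 1) x (Nat.lt_succ_self i)
  rw [this]
  simp

private theorem b22 (hb : Cur dA b1 b2) (i : ℕ) (x : W S A) :
    b2 (i + 1) (b2 i x) = - b2 i (b2 (i + 2) x) := by
  have := hb.c22.right i (i + 1) x (Nat.lt_succ_self i)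
  rw [this]
  simp

theorem brk_sq1 (hb : Cur dA b1 b2) (h : Sqr r b1 b2 A1 A2 A3) (i : ℕ) (x : W S A) :
    r • brk 1 1 1 b1 b1 A1 i x = 0 := by
  simp only [brk, Finset.sum_range_one, add_zero, one_smul, LinearMap.sub_apply,
    LinearMap.comp_apply, smul_sub]
  rw [r_A1 h, h.h1, sub_self]

theorem brk_sq2 (hb : Cur dA b1 b2) (h : Sqr r b1 b2 A1 A2 A3) (i : ℕ) (x : W S A) :
    r • (brk 1 1 2 b1 b1 A2 i x + brk 1 2 1 b2 b2 A1 i x) = 0 := by
  simp only [brk, Finset.sum_range_succ, Finset.sum_range_zero, zero_add,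
    add_zero, one_smul, LinearMap.sub_apply, LinearMap.add_apply, LinearMap.comp_apply, smul_sub,
    smul_add, r_A1 h, r_A2 h, h.h1, h.h2, b11 hb, map_neg]
  abel

theorem brk_sq3 (hb : Cur dA b1 b2) (h : Sqr r b1 b2 A1 A2 A3) (i : ℕ) (x : W S A) :
    r • (brk 1 1 3 b1 b1 A3 i x + brk 1 2 2 b2 b2 A2 i x) = 0 := by
  simp only [brk, Finset.sum_range_succ, Finset.sum_range_zero, zero_add,
    add_zero, one_smul, LinearMap.sub_apply, LinearMap.add_apply, LinearMap.comp_apply, smul_sub,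
    smul_add, r_A2 h, r_A3 h, h.h2, h.h3, b12 hb, b21 hb, map_neg, add_assoc i 1 1,
    show 1 + 1 = 2 from rfl]
  abel

theorem brk_sq4 (hb : Cur dA b1 b2) (h : Sqr r b1 b2 A1 A2 A3) (i : ℕ) (x : W S A) :
    r • brk 1 2 3 b2 b2 A3 i x = 0 := by
  simp only [brk, Finset.sum_range_succ, Finset.sum_range_zero, zero_add,
    add_zero, one_smul, LinearMap.sub_apply, LinearMap.add_apply, LinearMap.comp_apply, smul_sub,
    smul_add, r_A3 h, h.h3, b22 hb, map_neg, add_assoc i 1 1, show 1 + 1 = 2 from rfl]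
  abel

end

end BK

end NC
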