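import Mathlib
import Pool.Agent.H94.BK.Fm

/-!
# Block A, module A05: the horizontal part of the Cartan formula

`x ∈ Wl m`, `n = m + 1 - j` (if `m < j` everything is zero).
`hor_even`: `(1 - t) Σ_(i<n) P_i N_(i+j) = Σ_(i<n) P_i N_(i+j) - Σ_(1≤i<n) P_i t N_(i-1+j) - P_0 t^j N_m`
and `N_(i+j) = 1 + t N_(i+j-1)`, so it is `P_0 N_j + Σ_(1≤i<n) P_i - P_0 N_m` (`t N_m = N_m`), and
`QQ N_m = P_0 t^j N_m = P_0 N_m`.
`hor_odd`: `N_n P_0 t^j = Σ_(i<n) P_i t^(i+j)` and `P_i N_(i+j) (1 - t) = P_i (1 - t^(i+j))`.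
-/

set_option autoImplicit false

noncomputable section

namespace NC

namespace BK

section

variable {S A B C : Type} [CommRing S] {dA : A → ℤ} {dB : B → ℤ} {j : ℕ}
  {P : ℕ → (W S A →ₗ[S] W S B)}

theorem nq_succ_left (q : ℕ) (x : W S A) :
    nq S dA (q + 1) x = x + tt S dA (nq S dA q x) := by
  rw [nq_apply, nq_apply, Finset.sum_range_succ', pow_zero, Module.End.one_apply, map_sum, add_comm]
  congr 1
  refine Finset.sum_congr rfl (fun r _ => ?_)
  rw [pow_succ', Module.End.mul_apply]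

theorem nq_sub_tt (q : ℕ) (x : W S A) :
    nq S dA q (x - tt S dA x) = x - (tt S dA ^ q) x := by
  rw [nq_apply]
  have h : ∀ r, (tt S dA ^ r) (x - tt S dA x) = (tt S dA ^ r) x - (tt S dA ^ (r + 1)) x := by
    intro r
    rw [map_sub, pow_succ (tt S dA) r, Module.End.mul_apply]
  rw [Finset.sum_congr rfl (fun r _ => h r), Finset.sum_range_sub', pow_zero, Module.End.one_apply]

theorem hor_even (hP : IsFam dA dB j P) (hj : 1 ≤ j) (x : W S A) :
    kap dA j P x - tt S dB (kap dA j P x) + QQ dA j P (nn S dA x) = Lc dA j P x := by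
  refine W_ind_len (p := fun x => kap dA j P x - tt S dB (kap dA j P x) +
    QQ dA j P (nn S dA x) = Lc dA j P x) ?_ ?_ x
  · intro a b ha hb
    simp only [map_add]
    rw [← ha, ← hb]
    abel
  · intro m x hx
    change kap dA j P x - tt S dB (kap dA j P x) + QQ dA j P (nn S dA x) = Lc dA j P x
    rw [kap_apply hx, Lc_apply hx, QQ_apply]
    rcases Nat.lt_or_ge m j with hmj | hmj
    · have h0 : m + 1 - j = 0 := by omega
      rw [h0, Finset.sum_range_zero, map_zero, Finset.sum_range_zero, sub_zero, zero_add, zero_add,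
        hP.van m _ (tt_pow_mem_Wl dA (nn_mem_Wl dA hx) j) 0 (by omega)]
      symm
      exact Finset.sum_eq_zero (fun i _ => hP.van m _ (tt_pow_mem_Wl dA hx (i + 1)) 0 (by omega))
    · obtain ⟨n, hn⟩ : ∃ n, m = n + j := ⟨m - j, by omega⟩
      obtain ⟨j', rfl⟩ : ∃ j', j = j' + 1 := ⟨j - 1, by omega⟩
      have h0 : m + 1 - (j' + 1) = n + 1 := by omega
      rw [h0, map_sum]
      have h1 : ∑ i ∈ Finset.range (n + 1), P i (nq S dA (i + (j' + 1)) x) =
          (∑ i ∈ Finset.range n, P (i + 1) x +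
            ∑ i ∈ Finset.range n, P (i + 1) (tt S dA (nq S dA (i + (j' + 1)) x))) +
          P 0 (nq S dA (j' + 1) x) := by
        rw [Finset.sum_range_succ', zero_add, ← Finset.sum_add_distrib]
        congr 1
        refine Finset.sum_congr rfl (fun i _ => ?_)
        rw [show i + 1 + (j' + 1) = (i + (j' + 1)) + 1 by omega, nq_succ_left, map_add]
      have h2 : ∑ i ∈ Finset.range (n + 1), tt S dB (P i (nq S dA (i + (j' + 1)) x)) =
          ∑ i ∈ Finset.range n, P (i + 1) (tt S dA (nq S dA (i + (j' + 1)) x)) +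
          P 0 ((tt S dA ^ (j' + 1)) (nn S dA x)) := by
        rw [Finset.sum_range_succ]
        congr 1
        · refine Finset.sum_congr rfl (fun i hi => ?_)
          exact hP.tP m (n + 1) _ (nq_mem_Wl dA hx _) (by omega) i
            (by have := Finset.mem_range.1 hi; omega)
        · rw [hP.tL m n _ (nq_mem_Wl dA hx _) hn, nn_eq dA hx, ← hn]
      have h3 : P 0 (nq S dA (j' + 1) x) =
          P 0 x + ∑ i ∈ Finset.range j', P 0 ((tt S dA ^ (i + 1)) x) := by
        rw [nq_apply, Finset.sum_range_succ', pow_zero, Module.End.one_apply, map_add, map_sum,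
          add_comm]
      rw [h1, h2, h3, Finset.sum_range_succ' (fun i => P i x), Nat.add_sub_cancel]
      abel

theorem hor_odd (hP : IsFam dA dB j P) (hj : 1 ≤ j) (x : W S A) :
    nn S dB (QQ dA j P x) + kap dA j P (x - tt S dA x) = Lp j P x := by
  refine W_ind_len (p := fun x => nn S dB (QQ dA j P x) + kap dA j P (x - tt S dA x) =
    Lp j P x) ?_ ?_ x
  · intro a b ha hb
    have h : a + b - tt S dA (a + b) = (a - tt S dA a) + (b - tt S dA b) := by
      rw [map_add]
      abel
    rw [h, map_add, map_add, map_add, map_add, ← ha, ← hb]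
    abel
  · intro m x hx
    change nn S dB (QQ dA j P x) + kap dA j P (x - tt S dA x) = Lp j P x
    have hx' : x - tt S dA x ∈ Wl S A m := Submodule.sub_mem _ hx (tt_mem_Wl dA hx)
    rw [kap_apply hx', Lp_apply hx, QQ_apply]
    rcases Nat.lt_or_ge m j with hmj | hmj
    · have h0 : m + 1 - j = 0 := by omega
      rw [h0, Finset.sum_range_zero, Finset.sum_range_zero, add_zero,
        hP.van m _ (tt_pow_mem_Wl dA hx j) 0 (by omega), map_zero]
    · obtain ⟨n, hn⟩ : ∃ n, m + 1 = n + j := ⟨m + 1 - j, by omega⟩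
      have h0 : m + 1 - j = n := by omega
      have hQ : P 0 ((tt S dA ^ j) x) ∈ Wl S B n :=
        hP.len m n _ (tt_pow_mem_Wl dA hx j) hn 0 (by omega)
      rw [h0, nn_eq dB hQ, nq_apply, ← Finset.sum_add_distrib]
      refine Finset.sum_congr rfl (fun i hi => ?_)
      have hi' := Finset.mem_range.1 hi
      rw [tpow_P hP (tt_pow_mem_Wl dA hx j) hn 0 i (by omega), zero_add, nq_sub_tt, map_sub,
        ← Module.End.mul_apply, ← pow_add]
      abel

end

end BK

end NC
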