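import Mathlib
import Pool.Agent.H94.BK.Key

/-!
# Block A, module A07: Cartan formula, shift 1, even columns

`b' κ + N ι = s κ b + κ_brk`.  `x ∈ Wl m`.  `b' κ x = Σ_c Σ_i b_c P_i N_(i+j) x` for `b` of arity
`l ∈ {1, 2}`.  Nested terms `c ≤ i < c + l`: they are `Σ_c b_c P_(c+d) N_(c+d+j)`, `d < l`; they
differ from the first half of `κ_brk` only for `l = 2`, `d = 0`: there `N_(c+j)` instead of
`N_(c+j+1)`, the difference is `- Σ_c b2_c P_c t^(c+j) x = - Σ_c t^c b2_0 P_0 t^j x = - N ι x`.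
`κ b = Σ_i P_i N_(i+j) b` with `key` (`q = i + j`): `Σ_(c<i+j) P_i a_c N_(i+j+l-1) + Σ_(c≥i+j) P_i a_c N_(i+j)`;
the terms `i ≤ c < i + j` are the second half of `κ_brk`; the terms `c < i` cancel with the terms
`c + l ≤ i` of `b' κ` (`Comm.left`), the terms `c ≥ i + j` with the terms `c > i` of `b' κ`
(`Comm.right`).
-/

set_option autoImplicit false

noncomputable section

namespace NC

namespace BK

section

variable {S A B C : Type} [CommRing S] {dA : A → ℤ} {dB : B → ℤ} {s : S} {j : ℕ}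
  {P : ℕ → (W S A →ₗ[S] W S B)} {a1 a2 : ℕ → (W S A →ₗ[S] W S A)}
  {b1 b2 : ℕ → (W S B →ₗ[S] W S B)}

/-- the sum over `i` of the terms of `b_c κ` for a fixed `c`, split at `c` and `c + l` -/
theorem s1e_split {M : Type} [AddCommMonoid M] (f : ℕ → M) (c l k : ℕ) (h : c + l ≤ k) :
    ∑ i ∈ Finset.range k, f i = ∑ i ∈ Finset.range c, f i + ∑ d ∈ Finset.range l, f (c + d) +
      ∑ i ∈ Finset.Ico (c + l) k, f i := by
  rw [← Finset.sum_range_add_sum_Ico f h, Finset.sum_range_add]

theorem s1e_Lc_mem {l : ℕ} {a : ℕ → (W S A →ₗ[S] W S A)} (hl : 1 ≤ l) (ha : IsFam dA dA l a)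
    {m n : ℕ} {x : W S A} (hx : x ∈ Wl S A m) (hn : m + 1 = n + l) :
    Lc dA l a x ∈ Wl S A n := by
  rw [Lc_apply hx, show m + 1 - l = n by omega]
  refine Submodule.add_mem _ (Submodule.sum_mem _ (fun i hi => ?_))
    (Submodule.sum_mem _ (fun i hi => ?_))
  · exact ha.len m n x hx hn i (Finset.mem_range.1 hi)
  · rcases Nat.eq_zero_or_pos n with h0 | h0
    · have h1 := Finset.mem_range.1 hi
      rw [ha.van m _ (tt_pow_mem_Wl dA hx _) 0 (by omega)]
      exact Submodule.zero_mem _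
    · exact ha.len m n _ (tt_pow_mem_Wl dA hx _) hn 0 h0

/-- one arity: the nested terms are kept -/
theorem s1e_l {l : ℕ} (hl : 1 ≤ l) {a : ℕ → (W S A →ₗ[S] W S A)} {b : ℕ → (W S B →ₗ[S] W S B)}
    (hj : 1 ≤ j) (hP : IsFam dA dB j P) (ha : IsFam dA dA l a) (hb : IsFam dB dB l b)
    (hs : s * s = 1) (hc : Comm s l j b a P) {m : ℕ} {x : W S A} (hx : x ∈ Wl S A m) :
    Lp l b (kap dA j P x) = s • kap dA j P (Lc dA l a x) +
      ∑ c ∈ Finset.range (m + 1 - (j + l - 1)),
        (∑ d ∈ Finset.range l, b c (P (c + d) (nq S dA (c + d + j) x)) -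
          s • ∑ d ∈ Finset.range j, P c (a (c + d) (nq S dA (c + j + l - 1) x))) := by
  have hkm : kap dA j P x ∈ Wl S B (m + 1 - j) := by
    rw [kap_apply hx]
    refine Submodule.sum_mem _ (fun i hi => ?_)
    have hi' := Finset.mem_range.1 hi
    exact hP.len m (m + 1 - j) _ (nq_mem_Wl dA hx _) (by omega) i hi'
  rw [Lp_apply hkm, show m + 1 - j + 1 - l = m + 1 - (j + l - 1) by omega]
  by_cases hl' : m + 1 < l
  · have h0 : Lc dA l a x = 0 := by
      rw [Lc_apply hx, show m + 1 - l = 0 by omega, Finset.sum_range_zero, zero_add]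
      refine Finset.sum_eq_zero (fun i _ => ?_)
      exact ha.van m _ (tt_pow_mem_Wl dA hx _) 0 (by omega)
    rw [h0, map_zero, smul_zero, zero_add, show m + 1 - (j + l - 1) = 0 by omega,
      Finset.sum_range_zero, Finset.sum_range_zero]
  · obtain ⟨n, hn⟩ : ∃ n, m + 1 = n + l := ⟨m + 1 - l, by omega⟩
    have hLm : Lc dA l a x ∈ Wl S A n := s1e_Lc_mem hl ha hx hn
    rw [kap_apply hLm, show n + 1 - j = m + 1 - (j + l - 1) by omega, kap_apply hx]
    generalize hM : m + 1 - (j + l - 1) = M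
    -- the left side
    have hL : ∀ c ∈ Finset.range M,
        b c (∑ i ∈ Finset.range (m + 1 - j), P i (nq S dA (i + j) x)) =
          s • ∑ i ∈ Finset.range c, P i (a (c + (j - 1)) (nq S dA (i + j) x)) +
          ∑ d ∈ Finset.range l, b c (P (c + d) (nq S dA (c + d + j) x)) +
          s • ∑ i ∈ Finset.Ico (c + 1) M, P i (a c (nq S dA (i + j + l - 1) x)) := by
      intro c hcM
      have hcM' := Finset.mem_range.1 hcM
      rw [map_sum, s1e_split _ c l (m + 1 - j) (by omega), Finset.smul_sum, Finset.smul_sum]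
      congr 1
      · congr 1
        refine Finset.sum_congr rfl (fun i hi => ?_)
        rw [hc.right i c _ (Finset.mem_range.1 hi), show c + j - 1 = c + (j - 1) by omega]
      · have e : Finset.Ico (c + l) (m + 1 - j) = Finset.Ico (c + 1 + (l - 1)) (M + (l - 1)) := by
          congr 1 <;> omega
        rw [e, ← Finset.sum_Ico_add']
        refine Finset.sum_congr rfl (fun i hi => ?_)
        have hi' := Finset.mem_Ico.1 hi
        rw [hc.left (i + (l - 1)) c _ (by omega), show i + (l - 1) + 1 - l = i by omega,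
          show i + (l - 1) + j = i + j + l - 1 by omega]
    -- the right side
    have hR : ∀ i ∈ Finset.range M, P i (nq S dA (i + j) (Lc dA l a x)) =
        ∑ c ∈ Finset.range i, P i (a c (nq S dA (i + j + l - 1) x)) +
        ∑ d ∈ Finset.range j, P i (a (i + d) (nq S dA (i + j + l - 1) x)) +
        ∑ c ∈ Finset.Ico (i + 1) M, P i (a (c + (j - 1)) (nq S dA (i + j) x)) := by
      intro i hi
      have hi' := Finset.mem_range.1 hi
      rw [key ha hl hx hn (show i + j ≤ n by omega), map_add, map_sum, map_sum,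
        Finset.sum_range_add]
      congr 1
      have e : Finset.Ico (i + j) n = Finset.Ico (i + 1 + (j - 1)) (M + (j - 1)) := by
        congr 1 <;> omega
      rw [e, ← Finset.sum_Ico_add']
    rw [Finset.sum_congr rfl hL, Finset.sum_congr rfl hR]
    simp only [Finset.sum_add_distrib, Finset.sum_sub_distrib, ← Finset.smul_sum]
    have s1 : ∑ c ∈ Finset.range M, ∑ i ∈ Finset.range c,
        P i (a (c + (j - 1)) (nq S dA (i + j) x)) =
        ∑ i ∈ Finset.range M, ∑ c ∈ Finset.Ico (i + 1) M,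
          P i (a (c + (j - 1)) (nq S dA (i + j) x)) := by
      simp only [Finset.range_eq_Ico]
      rw [Finset.sum_Ico_Ico_comm']
    have s2 : ∑ c ∈ Finset.range M, ∑ i ∈ Finset.Ico (c + 1) M,
        P i (a c (nq S dA (i + j + l - 1) x)) =
        ∑ i ∈ Finset.range M, ∑ c ∈ Finset.range i,
          P i (a c (nq S dA (i + j + l - 1) x)) := by
      simp only [Finset.range_eq_Ico]
      rw [Finset.sum_Ico_Ico_comm']
    rw [s1, s2]
    simp only [smul_add]
    abel

theorem s1e_nested (hj : 1 ≤ j) (hP : IsFam dA dB j P) (hb2 : IsFam dB dB 2 b2) {m : ℕ}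
    {x : W S A} (hx : x ∈ Wl S A m) :
    nn S dB (b2 0 (QQ dA j P x)) =
      ∑ c ∈ Finset.range (m - j), b2 c (P c ((tt S dA ^ (c + j)) x)) := by
  rw [QQ_apply]
  have htx : (tt S dA ^ j) x ∈ Wl S A m := tt_pow_mem_Wl dA hx j
  by_cases hm : m < j + 1
  · have h0 : b2 0 (P 0 ((tt S dA ^ j) x)) = 0 := by
      by_cases hm' : m < j
      · rw [hP.van m _ htx 0 (by omega), map_zero]
      · have h1 : P 0 ((tt S dA ^ j) x) ∈ Wl S B 1 := hP.len m 1 _ htx (by omega) 0 (by omega)
        exact hb2.van 1 _ h1 0 (by omega)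
    rw [h0, map_zero, show m - j = 0 by omega, Finset.sum_range_zero]
  · have h1 : P 0 ((tt S dA ^ j) x) ∈ Wl S B (m - j + 1) :=
      hP.len m (m - j + 1) _ htx (by omega) 0 (by omega)
    have h2 : b2 0 (P 0 ((tt S dA ^ j) x)) ∈ Wl S B (m - j) :=
      hb2.len (m - j + 1) (m - j) _ h1 (by omega) 0 (by omega)
    rw [nn_eq dB h2, nq_apply]
    refine Finset.sum_congr rfl (fun c hc => ?_)
    have hc' := Finset.mem_range.1 hc
    rw [tpow_P hb2 h1 (show m - j + 1 + 1 = (m - j) + 2 by omega) 0 c (by omega),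
      tpow_P hP htx (show m + 1 = (m - j + 1) + j by omega) 0 c (by omega), zero_add,
      pow_add]
    rfl

theorem s1e (hj : 1 ≤ j) (hP : IsFam dA dB j P) (ha1 : IsFam dA dA 1 a1) (ha2 : IsFam dA dA 2 a2)
    (hb1 : IsFam dB dB 1 b1) (hb2 : IsFam dB dB 2 b2) (hs : s * s = 1) (c1 : Comm s 1 j b1 a1 P)
    (c2 : Comm s 2 j b2 a2 P) (x : W S A) :
    pB' b1 b2 (kap dA j P x) + nn S dB (b2 0 (QQ dA j P x)) =
      s • kap dA j P (pB dA a1 a2 x) + kap dA j (brk s 1 j b1 a1 P) x +
        kap dA (j + 1) (brk s 2 j b2 a2 P) x := by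
  revert x
  refine W_ind_len (fun x y h1 h2 => ?_) (fun m x hx => ?_)
  · simp only [map_add, smul_add] at h1 h2 ⊢
    have h3 := congrArg₂ (· + ·) h1 h2
    refine Eq.trans ?_ (h3.trans ?_)
    · abel
    · abel
  · have e1 := s1e_l (l := 1) le_rfl hj hP ha1 hb1 hs c1 hx
    have e2 := s1e_l (l := 2) (by norm_num) hj hP ha2 hb2 hs c2 hx
    have hpB : pB dA a1 a2 x = Lc dA 1 a1 x + Lc dA 2 a2 x := by
      simp only [pB, pB', Lc, LinearMap.add_apply, Nat.sub_self, Finset.sum_range_zero, add_zero, Nat.add_one_sub_one, Finset.sum_range_one, zero_add, pow_one,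
        add_assoc]
    rw [hpB, map_add, smul_add]
    have hpB' : pB' b1 b2 (kap dA j P x) = Lp 1 b1 (kap dA j P x) + Lp 2 b2 (kap dA j P x) := rfl
    rw [hpB', e1, e2, s1e_nested hj hP hb2 hx, kap_apply hx, kap_apply hx]
    rw [show m + 1 - (j + 1 - 1) = m + 1 - j by omega, show m + 1 - (j + 2 - 1) = m - j by omega,
      show m + 1 - (j + 1) = m - j by omega]
    have f1 : ∀ i ∈ Finset.range (m + 1 - j), brk s 1 j b1 a1 P i (nq S dA (i + j) x) =
        ∑ d ∈ Finset.range 1, b1 i (P (i + d) (nq S dA (i + d + j) x)) -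
          s • ∑ d ∈ Finset.range j, P i (a1 (i + d) (nq S dA (i + j + 1 - 1) x)) := by
      intro i _
      simp only [brk, LinearMap.sub_apply, LinearMap.sum_apply, LinearMap.smul_apply,
        LinearMap.comp_apply, Finset.sum_range_one, add_zero, Nat.add_one_sub_one]
    have f2 : ∀ i ∈ Finset.range (m - j), brk s 2 j b2 a2 P i (nq S dA (i + (j + 1)) x) =
        ∑ d ∈ Finset.range 2, b2 i (P (i + d) (nq S dA (i + d + j) x)) -
          s • ∑ d ∈ Finset.range j, P i (a2 (i + d) (nq S dA (i + j + 2 - 1) x)) +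
          b2 i (P i ((tt S dA ^ (i + j)) x)) := by
      intro i _
      have e3 : nq S dA (i + (j + 1)) x = nq S dA (i + j) x + (tt S dA ^ (i + j)) x := by
        rw [nq_apply, nq_apply, show i + (j + 1) = i + j + 1 by omega, Finset.sum_range_succ]
      simp only [brk, LinearMap.sub_apply, LinearMap.add_apply, LinearMap.sum_apply,
        LinearMap.smul_apply, LinearMap.comp_apply, Finset.sum_range_succ, Finset.sum_range_zero,
        zero_add, add_zero, show i + j + 2 - 1 = i + (j + 1) by omega,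
        show i + 1 + j = i + (j + 1) by omega]
      have e4 : b2 i (P i (nq S dA (i + (j + 1)) x)) =
          b2 i (P i (nq S dA (i + j) x)) + b2 i (P i ((tt S dA ^ (i + j)) x)) := by
        rw [e3, map_add, map_add]
      rw [e4]
      abel
    rw [Finset.sum_congr rfl f1, Finset.sum_congr rfl f2, Finset.sum_add_distrib]
    abel

end

end BK

end NC
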