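import Mathlib
import Pool.Agent.H94.BK.Key

/-!
# Block A, module A08: Cartan formula, shift 1, odd columns

`x ∈ Wl m`.  By `tpow_Lp` (if `j + l ≤ m + 1`):
`P_0 t^j b' x = Σ_(c≥j) P_0 a_c t^j x + Σ_(c<j) P_0 a_c t^(j+l-1) x`, the second sum is the second
half of `QQ_brk`.  `b P_0 t^j x = Σ_(c≥0) b_c P_0 t^j x (+ b2_0 t P_0 t^j x)`: `c = 0` and, for
`l = 2`, `b2_0 t P_0 t^j x = b2_0 P_1 t^(j+1) x`; `c ≥ 1` cancels with the first sum
(`Comm.right` with `i = 0`).  For `l = 2` the term `b2_0 P_0 t^j x` is `ι x` and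
`- ι (1 - t) x = - ι x + b2_0 P_0 t^(j+1) x`.
-/

set_option autoImplicit false

noncomputable section

namespace NC

namespace BK

section

variable {S A B C : Type} [CommRing S] {dA : A → ℤ} {dB : B → ℤ} {s : S} {j : ℕ}
  {P : ℕ → (W S A →ₗ[S] W S B)} {a1 a2 : ℕ → (W S A →ₗ[S] W S A)}
  {b1 b2 : ℕ → (W S B →ₗ[S] W S B)}

private theorem fam1_mem {a : ℕ → (W S A →ₗ[S] W S A)} (ha : IsFam dA dA 1 a) {m : ℕ} {x : W S A}
    (hx : x ∈ Wl S A m) (c : ℕ) : a c x ∈ Wl S A m := by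
  by_cases h : c < m
  · exact ha.len m m x hx rfl c h
  · rw [ha.van m x hx c (by omega)]
    exact Submodule.zero_mem _

private theorem fam2_mem {a : ℕ → (W S A →ₗ[S] W S A)} (ha : IsFam dA dA 2 a) {m : ℕ} {x : W S A}
    (hx : x ∈ Wl S A (m + 1)) (c : ℕ) : a c x ∈ Wl S A m := by
  by_cases h : c < m
  · exact ha.len (m + 1) m x hx (by omega) c h
  · rw [ha.van (m + 1) x hx c (by omega)]
    exact Submodule.zero_mem _

private theorem fam2_van {a : ℕ → (W S A →ₗ[S] W S A)} (hP : IsFam dA dB j P)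
    (ha : IsFam dA dA 2 a) {m : ℕ} {x : W S A} (hx : x ∈ Wl S A m) (hm : m ≤ j)
    (c : ℕ) (r : ℕ) : P 0 ((tt S dA ^ r) (a c x)) = 0 := by
  rcases m with _ | m
  · rw [ha.van 0 x hx c (by omega), map_zero, map_zero]
  · exact hP.van m _ (tt_pow_mem_Wl dA (fam2_mem ha hx c) r) 0 (by omega)

theorem s1o (hj : 1 ≤ j) (hP : IsFam dA dB j P) (ha1 : IsFam dA dA 1 a1) (ha2 : IsFam dA dA 2 a2)
    (hb1 : IsFam dB dB 1 b1) (hb2 : IsFam dB dB 2 b2) (hs : s * s = 1) (c1 : Comm s 1 j b1 a1 P)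
    (c2 : Comm s 2 j b2 a2 P) (x : W S A) :
    s • pB dB b1 b2 (QQ dA j P x) - QQ dA j P (pB' a1 a2 x) -
        s • b2 0 (QQ dA j P (x - tt S dA x)) =
      s • QQ dA j (brk s 1 j b1 a1 P) x + s • QQ dA (j + 1) (brk s 2 j b2 a2 P) x := by
  refine W_ind_len (p := fun x => s • pB dB b1 b2 (QQ dA j P x) - QQ dA j P (pB' a1 a2 x) -
        s • b2 0 (QQ dA j P (x - tt S dA x)) =
      s • QQ dA j (brk s 1 j b1 a1 P) x + s • QQ dA (j + 1) (brk s 2 j b2 a2 P) x) ?_ ?_ x
  · intro x y hx hy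
    simp only [map_add, map_sub, smul_sub, smul_add] at hx hy ⊢
    linear_combination (norm := module) hx + hy
  intro m x hx
  have hy : (tt S dA ^ j) x ∈ Wl S A m := tt_pow_mem_Wl dA hx j
  have hy1 : (tt S dA ^ (j + 1)) x ∈ Wl S A m := tt_pow_mem_Wl dA hx (j + 1)
  have htx : (tt S dA ^ j) (tt S dA x) = (tt S dA ^ (j + 1)) x := by
    rw [pow_succ, Module.End.mul_apply]
  have htx' : tt S dA ((tt S dA ^ j) x) = (tt S dA ^ (j + 1)) x := by
    rw [pow_succ', Module.End.mul_apply]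
  -- the commutators
  have hR1 : s • QQ dA j (brk s 1 j b1 a1 P) x = s • b1 0 (P 0 ((tt S dA ^ j) x)) -
      ∑ c ∈ Finset.range j, P 0 (a1 c ((tt S dA ^ j) x)) := by
    rw [QQ_apply]
    simp only [brk, Finset.range_one, Finset.sum_singleton, LinearMap.sub_apply,
      LinearMap.comp_apply, LinearMap.smul_apply, LinearMap.sum_apply, smul_sub, smul_smul, hs,
      one_smul, zero_add, add_zero]
  have hR2 : s • QQ dA (j + 1) (brk s 2 j b2 a2 P) x = s • b2 0 (P 0 ((tt S dA ^ (j + 1)) x)) +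
      s • b2 0 (P 1 ((tt S dA ^ (j + 1)) x)) -
      ∑ c ∈ Finset.range j, P 0 (a2 c ((tt S dA ^ (j + 1)) x)) := by
    rw [QQ_apply]
    simp only [brk, Finset.sum_range_succ, Finset.range_zero, Finset.sum_empty,
      LinearMap.sub_apply, LinearMap.add_apply, LinearMap.zero_apply,
      LinearMap.comp_apply, LinearMap.smul_apply, LinearMap.sum_apply, smul_sub, smul_add,
      smul_smul, hs, one_smul, zero_add, add_zero]
  rw [hR1, hR2]
  simp only [pB, pB', LinearMap.add_apply, LinearMap.comp_apply, map_add, map_sub, QQ_apply, htx]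
  rcases Nat.lt_or_ge m j with hmj | hmj
  · -- everything vanishes
    have v0 : ∀ y ∈ Wl S A m, P 0 y = 0 := fun y hy => hP.van m y hy 0 (by omega)
    have e1 : P 0 ((tt S dA ^ j) (Lp 1 a1 x)) = 0 := by
      rw [Lp_apply hx, map_sum, map_sum]
      exact Finset.sum_eq_zero fun c _ => v0 _ (tt_pow_mem_Wl dA (fam1_mem ha1 hx c) j)
    have e2 : P 0 ((tt S dA ^ j) (Lp 2 a2 x)) = 0 := by
      rw [Lp_apply hx, map_sum, map_sum]
      exact Finset.sum_eq_zero fun c _ => fam2_van hP ha2 hx hmj.le c j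
    have e3 : ∑ c ∈ Finset.range j, P 0 (a1 c ((tt S dA ^ j) x)) = 0 :=
      Finset.sum_eq_zero fun c _ => v0 _ (fam1_mem ha1 hy c)
    have e4 : ∑ c ∈ Finset.range j, P 0 (a2 c ((tt S dA ^ (j + 1)) x)) = 0 := by
      refine Finset.sum_eq_zero fun c _ => ?_
      have := fam2_van hP ha2 hy1 hmj.le c 0
      rwa [pow_zero, Module.End.one_apply] at this
    have e5 : P 1 ((tt S dA ^ (j + 1)) x) = 0 := hP.van m _ hy1 1 (by omega)
    rw [e1, e2, e3, e4, e5, v0 _ hy, v0 _ hy1]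
    simp only [map_zero, smul_zero, add_zero, sub_zero]
  · obtain ⟨n, hn⟩ : ∃ n, m = n + j := ⟨m - j, by omega⟩
    subst hn
    have hz : P 0 ((tt S dA ^ j) x) ∈ Wl S B (n + 1) := hP.len (n + j) (n + 1) _ hy (by omega) 0 (by omega)
    have hz1 : P 0 ((tt S dA ^ (j + 1)) x) ∈ Wl S B (n + 1) :=
      hP.len (n + j) (n + 1) _ hy1 (by omega) 0 (by omega)
    have cc1 : ∀ c, s • b1 (c + 1) (P 0 ((tt S dA ^ j) x)) = P 0 (a1 (j + c) ((tt S dA ^ j) x)) := by
      intro c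
      rw [c1.right 0 (c + 1) _ (by omega), smul_smul, hs, one_smul,
        show c + 1 + j - 1 = j + c by omega]
    have cc2 : ∀ c, s • b2 (c + 1) (P 0 ((tt S dA ^ j) x)) = P 0 (a2 (j + c) ((tt S dA ^ j) x)) := by
      intro c
      rw [c2.right 0 (c + 1) _ (by omega), smul_smul, hs, one_smul,
        show c + 1 + j - 1 = j + c by omega]
    have e1 : P 0 ((tt S dA ^ j) (Lp 1 a1 x)) =
        ∑ c ∈ Finset.range n, P 0 (a1 (j + c) ((tt S dA ^ j) x)) +
          ∑ c ∈ Finset.range j, P 0 (a1 c ((tt S dA ^ j) x)) := by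
      rw [tpow_Lp ha1 le_rfl hx rfl (by omega), map_add, map_sum, map_sum,
        Finset.sum_Ico_eq_sum_range, show n + j - j = n by omega, show j + 1 - 1 = j by omega]
    have f1 : s • Lp 1 b1 (P 0 ((tt S dA ^ j) x)) = s • b1 0 (P 0 ((tt S dA ^ j) x)) +
        ∑ c ∈ Finset.range n, P 0 (a1 (j + c) ((tt S dA ^ j) x)) := by
      rw [Lp_apply hz, show n + 1 + 1 - 1 = n + 1 by omega, Finset.sum_range_succ', smul_add,
        Finset.smul_sum, add_comm]
      congr 1
      exact Finset.sum_congr rfl fun c _ => cc1 c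
    rcases n with _ | n
    · -- `m = j`
      have g1 : Lp 2 b2 (P 0 ((tt S dA ^ j) x)) = 0 := by
        rw [Lp_apply hz]
        exact Finset.sum_eq_zero fun c hc => absurd (Finset.mem_range.1 hc) (by omega)
      have g2 : b2 0 (P 0 ((tt S dA ^ j) x)) = 0 := hb2.van 1 _ hz 0 (by omega)
      have g3 : b2 0 (P 0 ((tt S dA ^ (j + 1)) x)) = 0 := hb2.van 1 _ hz1 0 (by omega)
      have g4 : b2 0 (tt S dB (P 0 ((tt S dA ^ j) x))) = 0 :=
        hb2.van 1 _ (tt_mem_Wl dB hz) 0 (by omega)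
      have g5 : P 1 ((tt S dA ^ (j + 1)) x) = 0 := hP.van (0 + j) _ hy1 1 (by omega)
      have g6 : P 0 ((tt S dA ^ j) (Lp 2 a2 x)) = 0 := by
        rw [Lp_apply hx, map_sum, map_sum]
        exact Finset.sum_eq_zero fun c _ => fam2_van hP ha2 hx (by omega) c j
      have g7 : ∑ c ∈ Finset.range j, P 0 (a2 c ((tt S dA ^ (j + 1)) x)) = 0 := by
        refine Finset.sum_eq_zero fun c _ => ?_
        have := fam2_van hP ha2 hy1 (by omega) c 0
        rwa [pow_zero, Module.End.one_apply] at this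
      rw [e1, g1, g2, g3, g4, g5, g6, g7]
      simp only [smul_add, f1, map_zero, smul_zero, add_zero, sub_zero]
      abel
    · have g4 : tt S dB (P 0 ((tt S dA ^ j) x)) = P 1 ((tt S dA ^ (j + 1)) x) := by
        rw [hP.tP (n + 1 + j) (n + 1 + 1) _ hy (by omega) 0 (by omega), htx']
      have f2 : s • Lp 2 b2 (P 0 ((tt S dA ^ j) x)) = s • b2 0 (P 0 ((tt S dA ^ j) x)) +
          ∑ c ∈ Finset.range n, P 0 (a2 (j + c) ((tt S dA ^ j) x)) := by
        rw [Lp_apply hz, show n + 1 + 1 + 1 - 2 = n + 1 by omega, Finset.sum_range_succ', smul_add,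
          Finset.smul_sum, add_comm]
        congr 1
        exact Finset.sum_congr rfl fun c _ => cc2 c
      have e2 : P 0 ((tt S dA ^ j) (Lp 2 a2 x)) =
          ∑ c ∈ Finset.range n, P 0 (a2 (j + c) ((tt S dA ^ j) x)) +
            ∑ c ∈ Finset.range j, P 0 (a2 c ((tt S dA ^ (j + 1)) x)) := by
        rw [tpow_Lp (n := n + j) ha2 (by omega) hx (by omega) (by omega), map_add, map_sum, map_sum,
          Finset.sum_Ico_eq_sum_range, show n + j - j = n by omega, show j + 2 - 1 = j + 1 by omega]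
      rw [e1, e2, g4]
      simp only [smul_add, smul_sub, f1, f2]
      abel

end

end BK

end NC
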