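import Mathlib
import Pool.Agent.H94.BK.Hor
import Pool.Agent.H94.BK.S1e
import Pool.Agent.H94.BK.S1o
import Pool.Agent.H94.BK.S2

/-!
# Block A, module A10: the Cartan formula

Compare the columns (`funext p`, `Even p` or not): at an even column `p` the terms with `c p` are
`hor_even`, with `c (p - 1)` `s1o`, with `c (p - 2)` `s2`; at an odd column `c p` is `hor_odd`
(times `s`), `c (p - 1)` is `s1e`.
-/

set_option autoImplicit false

noncomputable section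

namespace NC

namespace BK

private theorem kap_add' {S A B : Type} [CommRing S] {dA : A → ℤ} {j : ℕ}
    {P Q R : ℕ → (W S A →ₗ[S] W S B)} (h : ∀ i x, P i x + Q i x = R i x) (x : W S A) :
    kap dA j P x + kap dA j Q x = kap dA j R x := by
  have : kap dA j P + kap dA j Q = kap dA j R := by
    refine Finsupp.lhom_ext' fun w => LinearMap.ext_ring ?_
    simp only [kap, lin, LinearMap.comp_apply, LinearMap.add_apply, Finsupp.lsingle_apply,
      Finsupp.linearCombination_single, one_smul, ← Finset.sum_add_distrib, h]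
  rw [← this, LinearMap.add_apply]

private theorem KK_add' {S A B : Type} [CommRing S] {dA : A → ℤ} {s : S} {j : ℕ}
    {P Q R : ℕ → (W S A →ₗ[S] W S B)} {b2 : ℕ → (W S B →ₗ[S] W S B)}
    (h : ∀ i x, P i x + Q i x = R i x) (c : ℤ → W S A) :
    KK dA s j P b2 c + KK dA s j Q b2 c = KK dA s j R b2 c := by
  funext p
  simp only [KK, LinearMap.coe_mk, AddHom.coe_mk, Pi.add_apply]
  split_ifs
  · simp only [QQ, LinearMap.comp_apply, ← h, map_add, smul_add]
    abel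
  · exact kap_add' h _

private theorem KK_congr' {S A B : Type} [CommRing S] {dA : A → ℤ} {s : S} {j : ℕ}
    {P Q : ℕ → (W S A →ₗ[S] W S B)} {b2 : ℕ → (W S B →ₗ[S] W S B)}
    (h : ∀ i x, P i x = Q i x) (c : ℤ → W S A) :
    KK dA s j P b2 c = KK dA s j Q b2 c := by
  have : P = Q := funext fun i => LinearMap.ext (h i)
  rw [this]

private theorem KK_zero' {S A B : Type} [CommRing S] {dA : A → ℤ} {s : S} {j : ℕ}
    {P : ℕ → (W S A →ₗ[S] W S B)} {b2 : ℕ → (W S B →ₗ[S] W S B)}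
    (h : ∀ i x, P i x = 0) (c : ℤ → W S A) :
    KK dA s j P b2 c = 0 := by
  have h1 := KK_add' (s := s) (dA := dA) (j := j) (b2 := b2) (P := P) (Q := P) (R := P)
    (fun i x => by rw [h i x, add_zero]) c
  exact add_eq_left.1 h1

section

variable {S A B C : Type} [CommRing S] {dA : A → ℤ} {dB : B → ℤ} {s : S} {j : ℕ}
  {P : ℕ → (W S A →ₗ[S] W S B)} {a1 a2 : ℕ → (W S A →ₗ[S] W S A)}
  {b1 b2 : ℕ → (W S B →ₗ[S] W S B)}

theorem cartan (hj : 1 ≤ j) (hP : IsFam dA dB j P) (ha1 : IsFam dA dA 1 a1)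
    (ha2 : IsFam dA dA 2 a2) (hb : DGf dB b1 b2) (hs : s * s = 1) (c1 : Comm s 1 j b1 a1 P)
    (c2 : Comm s 2 j b2 a2 P) (c : ℤ → W S A) :
    DD dB b1 b2 (KK dA s j P b2 c) + s • KK dA s j P b2 (DD dA a1 a2 c) =
      VV dA s j P c - KK dA (-s) j (brk s 1 j b1 a1 P) b2 c -
        KK dA (-s) (j + 1) (brk s 2 j b2 a2 P) b2 c := by
  funext p
  by_cases hp : Even p
  · have h1 : ¬ Even (p + 1) := by
      rw [Int.not_even_iff_odd]
      exact hp.add_one
    have h2 : ¬ Even (p - 1) := by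
      rw [Int.not_even_iff_odd]
      exact hp.sub_odd odd_one
    have h3 : Even (p - 2) := hp.sub even_two
    have e1 : p - 1 + 1 = p := by ring
    have e2 : p - 2 + 1 = p - 1 := by ring
    have e3 : p + 1 - 1 = p := by ring
    simp only [DD, KK, VV, LinearMap.coe_mk, AddHom.coe_mk, Pi.add_apply, Pi.sub_apply,
      Pi.smul_apply, if_pos hp, if_neg h1, if_neg h2, if_pos h3, e1, e2, e3]
    have k1 := hor_even hP hj (c p)
    have k2 := s1o hj hP ha1 ha2 hb.f1 hb.f2 hs c1 c2 (c (p - 1))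
    have k3 := s2 hj hP ha1 ha2 hb hs c1 c2 (c (p - 2))
    have k4 : ∀ y : W S B, s • s • y = y := fun y => by rw [smul_smul, hs, one_smul]
    simp only [map_add, map_sub, map_smul, smul_add, smul_sub, k4, neg_smul] at k1 k2 k3 ⊢
    rw [← k1]
    linear_combination (norm := module) k2 - k3
  · have h1 : Even (p + 1) := by
      rw [Int.not_even_iff_odd] at hp
      exact hp.add_one
    have h2 : Even (p - 1) := by
      rw [Int.not_even_iff_odd] at hp
      exact hp.sub_odd odd_one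
    have e1 : p - 1 + 1 = p := by ring
    have e2 : p + 1 - 2 = p - 1 := by ring
    have e3 : p + 1 - 1 = p := by ring
    simp only [DD, KK, VV, LinearMap.coe_mk, AddHom.coe_mk, Pi.add_apply, Pi.sub_apply,
      Pi.smul_apply, if_neg hp, if_pos h1, if_pos h2, e1, e2, e3]
    have k1 := congrArg (fun y => s • y) (hor_odd hP hj (c p))
    have k2 := s1e hj hP ha1 ha2 hb.f1 hb.f2 hs c1 c2 (c (p - 1))
    simp only [map_add, map_sub, map_smul, smul_add, smul_sub] at k1 k2 ⊢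
    rw [← k1]
    linear_combination (norm := module) -k2

/-- the formula for a sum of cochains of arities 1, 2, 3 whose commutator with `b` vanishes
(`s = 1`) -/
theorem cartan3 (hb : DGf dB b1 b2) {A1 A2 A3 : ℕ → (W S B →ₗ[S] W S B)}
    (h1 : IsFam dB dB 1 A1) (h2 : IsFam dB dB 2 A2) (h3 : IsFam dB dB 3 A3)
    (c11 : Comm 1 1 1 b1 b1 A1) (c21 : Comm 1 2 1 b2 b2 A1)
    (c12 : Comm 1 1 2 b1 b1 A2) (c22 : Comm 1 2 2 b2 b2 A2)
    (c13 : Comm 1 1 3 b1 b1 A3) (c23 : Comm 1 2 3 b2 b2 A3)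
    (e1 : ∀ i x, brk 1 1 1 b1 b1 A1 i x = 0)
    (e2 : ∀ i x, brk 1 1 2 b1 b1 A2 i x + brk 1 2 1 b2 b2 A1 i x = 0)
    (e3 : ∀ i x, brk 1 1 3 b1 b1 A3 i x + brk 1 2 2 b2 b2 A2 i x = 0)
    (e4 : ∀ i x, brk 1 2 3 b2 b2 A3 i x = 0) (c : ℤ → W S B) :
    DD dB b1 b2 (KK dB 1 1 A1 b2 c + KK dB 1 2 A2 b2 c + KK dB 1 3 A3 b2 c) +
        (KK dB 1 1 A1 b2 (DD dB b1 b2 c) + KK dB 1 2 A2 b2 (DD dB b1 b2 c) +
          KK dB 1 3 A3 b2 (DD dB b1 b2 c)) =
      VV dB 1 1 A1 c + VV dB 1 2 A2 c + VV dB 1 3 A3 c := by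
  have k1 := cartan le_rfl h1 hb.f1 hb.f2 hb (one_mul 1) c11 c21 c
  have k2 := cartan one_le_two h2 hb.f1 hb.f2 hb (one_mul 1) c12 c22 c
  have k3 := cartan (by norm_num) h3 hb.f1 hb.f2 hb (one_mul 1) c13 c23 c
  have z1 := KK_zero' (dA := dB) (s := (-1 : S)) (j := 1) (b2 := b2) e1 c
  have z2 := KK_add' (dA := dB) (s := (-1 : S)) (j := 2) (b2 := b2) (R := fun _ => 0) e2 c
  have z3 := KK_add' (dA := dB) (s := (-1 : S)) (j := 3) (b2 := b2) (R := fun _ => 0) e3 c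
  have z4 := KK_zero' (dA := dB) (s := (-1 : S)) (j := 4) (b2 := b2) e4 c
  rw [KK_zero' (P := fun _ => 0) (fun _ _ => rfl)] at z2 z3
  rw [one_smul] at k1 k2 k3
  rw [map_add, map_add]
  simp only [Nat.reduceAdd] at k1 k2 k3
  linear_combination (norm := module) k1 + k2 + k3 - z1 - z2 - z3 - z4

/-- the formula for a sum of cochains of arities 1, 2 of odd degree (`s = -1`) whose commutator
with `b` is `U₁ + U₂ + U₃` -/
theorem cartan2 (ha1 : IsFam dA dA 1 a1) (ha2 : IsFam dA dA 2 a2) (hb : DGf dB b1 b2)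
    {E1 E2 : ℕ → (W S A →ₗ[S] W S B)} (h1 : IsFam dA dB 1 E1) (h2 : IsFam dA dB 2 E2)
    (c11 : Comm (-1) 1 1 b1 a1 E1) (c21 : Comm (-1) 2 1 b2 a2 E1)
    (c12 : Comm (-1) 1 2 b1 a1 E2) (c22 : Comm (-1) 2 2 b2 a2 E2)
    {U1 U2 U3 : ℕ → (W S A →ₗ[S] W S B)}
    (e1 : ∀ i x, brk (-1) 1 1 b1 a1 E1 i x = U1 i x)
    (e2 : ∀ i x, brk (-1) 1 2 b1 a1 E2 i x + brk (-1) 2 1 b2 a2 E1 i x = U2 i x)
    (e3 : ∀ i x, brk (-1) 2 2 b2 a2 E2 i x = U3 i x) (c : ℤ → W S A) :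
    DD dB b1 b2 (KK dA (-1) 1 E1 b2 c + KK dA (-1) 2 E2 b2 c) -
        (KK dA (-1) 1 E1 b2 (DD dA a1 a2 c) + KK dA (-1) 2 E2 b2 (DD dA a1 a2 c)) =
      VV dA (-1) 1 E1 c + VV dA (-1) 2 E2 c -
        (KK dA 1 1 U1 b2 c + KK dA 1 2 U2 b2 c + KK dA 1 3 U3 b2 c) := by
  have hs : (-1 : S) * -1 = 1 := by ring
  have k1 := cartan le_rfl h1 ha1 ha2 hb hs c11 c21 c
  have k2 := cartan one_le_two h2 ha1 ha2 hb hs c12 c22 c
  have z1 := KK_congr' (dA := dA) (s := (1 : S)) (j := 1) (b2 := b2) e1 c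
  have z2 := KK_add' (dA := dA) (s := (1 : S)) (j := 2) (b2 := b2) e2 c
  have z3 := KK_congr' (dA := dA) (s := (1 : S)) (j := 3) (b2 := b2) e3 c
  rw [map_add]
  simp only [Nat.reduceAdd, neg_neg, neg_smul, one_smul] at k1 k2
  linear_combination (norm := module) k1 + k2 - z1 - z2 - z3

end

end BK

end NC
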