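import Mathlib
import Pool.Agent.H94.BK.CmpA
import Pool.Agent.H8.MC.Brd

/-!
# Block A, module A16: comparison with words in `A`: rotation and norm

See `H94/PB/OpsB.lean` (`th_opT`, `th_opN`) or use `Wd.rot_snoc`, `Wd.cfl_h`, `Wd.nrm_apply`
directly.  `toWd_DD` collects everything (`CycMod.per_apply`).
-/

set_option autoImplicit false

noncomputable section

namespace NC

namespace BK

variable {p : ℕ} {k R : Type} [Field k] [CommRing R] {c : Car p k R} {A : ZDGA k}

namespace Lft

variable (L : Lft c A)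

theorem toWd_tt (x : W k L.B) : L.toWd (tt k L.sc.deg x) = Wd.rot A.toSD (L.toWd x) := by
  have h : L.toWd ∘ₗ tt k L.sc.deg = Wd.rot A.toSD ∘ₗ L.toWd := by
    refine lin_ext (fun w => ?_)
    rw [LinearMap.comp_apply, LinearMap.comp_apply, toWd_single, one_smul]
    by_cases hw : w = []
    · subst hw
      rw [tt_nil]
      have h1 : L.word [] = 0 := rfl
      rw [h1, map_zero, toWd_single, h1, smul_zero]
    · exact H8.Brd.toWd_tt L hw
  exact LinearMap.congr_fun h x

theorem toWd_nn (x : W k L.B) : L.toWd (nn k L.sc.deg x) = Wd.nrm A.toSD (L.toWd x) := by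
  have h : L.toWd ∘ₗ nn k L.sc.deg = Wd.nrm A.toSD ∘ₗ L.toWd := by
    refine lin_ext (fun w => ?_)
    rw [LinearMap.comp_apply, LinearMap.comp_apply, toWd_single, one_smul]
    by_cases hw : w = []
    · subst hw
      have h1 : L.word [] = 0 := rfl
      have h2 : nn k L.sc.deg (Finsupp.single [] 1) = (0 : W k L.B) := by
        rw [nn, lin_single, one_smul]
        rfl
      rw [h1, h2, map_zero, map_zero]
    · exact H8.Brd.toWd_nn L hw
  exact LinearMap.congr_fun h x

theorem toWd_DD (x : ℤ → W k L.B) :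
    (fun q => L.toWd (DD L.sc.deg L.scK.f1 L.scK.f2 x q)) = A.cyc.per (fun q => L.toWd (x q)) := by
  funext q
  change L.toWd (DD L.sc.deg L.scK.f1 L.scK.f2 x q) =
    A.cyc.col q (L.toWd (x q)) + A.cyc.hor (q + 1) (L.toWd (x (q + 1)))
  by_cases hq : Even q
  · have hq1 : ¬ Even (q + 1) := by
      rw [Int.even_add_one, not_not]
      exact hq
    have hc : A.cyc.col q = A.cyc.b := if_pos hq
    have hh : A.cyc.hor (q + 1) = A.cyc.T := if_neg hq1
    have h1 : DD L.sc.deg L.scK.f1 L.scK.f2 x q =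
        pB L.sc.deg L.scK.f1 L.scK.f2 (x q) + (x (q + 1) - tt k L.sc.deg (x (q + 1))) := if_pos hq
    rw [hc, hh, h1, map_add, map_sub, L.toWd_B, L.toWd_tt]
    rfl
  · have hq1 : Even (q + 1) := by
      rw [Int.even_add_one]
      exact hq
    have hc : A.cyc.col q = - A.cyc.b' := if_neg hq
    have hh : A.cyc.hor (q + 1) = A.cyc.N := if_pos hq1
    have h1 : DD L.sc.deg L.scK.f1 L.scK.f2 x q =
        nn k L.sc.deg (x (q + 1)) - pB' L.scK.f1 L.scK.f2 (x q) := if_neg hq
    rw [hc, hh, h1, map_sub, L.toWd_B', L.toWd_nn, sub_eq_neg_add]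
    rfl

end Lft

end BK

end NC
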