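import Mathlib
import Pool.Agent.H94.BK.LftE

/-!
# Block A, module A20: lifts of morphisms

`F.f a` is a lift of `M.e.repr (f (L.e a))` with the same support (degrees: `f.gr`).  The defects
`c1 F - F c1`, `c2 F F - F c2` reduce to zero (`f.D`, `f.mul`), so they are divisible by `p`
(`exists_div`); on words use `bk_Wm`, `Wm_bk` (both sides are `bk F _`).
-/

set_option autoImplicit false

noncomputable section

namespace NC

namespace BK

variable {p : ℕ} {k R : Type} [Field k] [CommRing R] {c : Car p k R}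
  {A B : ZDGA k} (L : Lft c A) (M : Lft c B)

section aux

private theorem fin_on {S I N : Type} [CommRing S] [AddCommGroup N] [Module S N]
    (f g : (I →₀ S) →ₗ[S] N) (X : I →₀ S)
    (h : ∀ w, X w ≠ 0 → f (Finsupp.single w 1) = g (Finsupp.single w 1)) : f X = g X := by
  have hX : X = ∑ w ∈ X.support, X w • (Finsupp.single w 1 : I →₀ S) := by
    conv_lhs => rw [← Finsupp.sum_single X]
    rw [Finsupp.sum]
    refine Finset.sum_congr rfl (fun w _ => ?_)
    rw [Finsupp.smul_single, smul_eq_mul, mul_one]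
  rw [hX, map_sum, map_sum]
  refine Finset.sum_congr rfl (fun w hw => ?_)
  rw [map_smul, map_smul, h w (Finsupp.mem_support_iff.1 hw)]

/-- homogeneous elements have homogeneous coordinates -/
private theorem repr_gr (M : Lft c B) {n : ℤ} {x : B.V} (hx : x ∈ B.gr n) (b : M.B)
    (h : M.e.repr x b ≠ 0) : M.sc.deg b = n := by
  classical
  by_contra hb
  have hind := B.internal.submodule_iSupIndep
  have m1 : M.e.repr.symm ((M.e.repr x).filter (fun b => M.sc.deg b = n)) ∈ B.gr n := by
    rw [Module.Basis.repr_symm_apply, Finsupp.linearCombination_apply, Finsupp.sum]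
    refine Submodule.sum_mem _ (fun a ha => Submodule.smul_mem _ _ ?_)
    have h1 := (Finsupp.mem_support_iff.1 ha)
    by_cases h2 : M.sc.deg a = n
    · rw [← h2]
      exact M.e_gr a
    · exact absurd (Finsupp.filter_apply_neg (fun b => M.sc.deg b = n) _ h2) h1
  have m2 : M.e.repr.symm ((M.e.repr x).filter (fun b => ¬ M.sc.deg b = n)) ∈
      ⨆ j, ⨆ (_ : j ≠ n), B.gr j := by
    rw [Module.Basis.repr_symm_apply, Finsupp.linearCombination_apply, Finsupp.sum]
    refine Submodule.sum_mem _ (fun a ha => Submodule.smul_mem _ _ ?_)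
    have h1 := (Finsupp.mem_support_iff.1 ha)
    by_cases h2 : M.sc.deg a = n
    · exact absurd (Finsupp.filter_apply_neg (fun b => ¬ M.sc.deg b = n) _ (not_not.2 h2)) h1
    · exact Submodule.mem_iSup_of_mem (M.sc.deg a) (Submodule.mem_iSup_of_mem h2 (M.e_gr a))
  have h12 : M.e.repr.symm ((M.e.repr x).filter (fun b => ¬ M.sc.deg b = n)) =
      x - M.e.repr.symm ((M.e.repr x).filter (fun b => M.sc.deg b = n)) := by
    rw [eq_sub_iff_add_eq, ← map_add, add_comm, Finsupp.filter_add_filter_not,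
      LinearEquiv.symm_apply_apply]
  have m3 : M.e.repr.symm ((M.e.repr x).filter (fun b => ¬ M.sc.deg b = n)) ∈ B.gr n := by
    rw [h12]
    exact Submodule.sub_mem _ hx m1
  have h0 : M.e.repr.symm ((M.e.repr x).filter (fun b => ¬ M.sc.deg b = n)) = 0 :=
    Submodule.disjoint_def.1 (hind n) _ m3 m2
  have h00 : (M.e.repr x).filter (fun b => ¬ M.sc.deg b = n) = 0 := by
    rwa [LinearEquiv.map_eq_zero_iff] at h0
  apply h
  have h3 := DFunLike.congr_fun h00 b
  rw [Finsupp.filter_apply, if_pos hb] at h3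
  exact h3

variable {L M} {f : ZHom A B} (F : LM R L.sc.deg M.sc.deg)
  (hF : ∀ a, M.e.repr (f.f (L.e a)) = rd c.π (F.f a))

include hF in
private theorem lc_map (y : L.B →₀ k) :
    Finsupp.linearCombination k (F.map c.π).f y = M.e.repr (f.f (L.e.repr.symm y)) := by
  refine fin_on (Finsupp.linearCombination k (F.map c.π).f)
    (M.e.repr.toLinearMap ∘ₗ f.f ∘ₗ L.e.repr.symm.toLinearMap) y (fun a _ => ?_)
  rw [Finsupp.linearCombination_single, one_smul]
  change rd c.π (F.f a) = M.e.repr (f.f (L.e.repr.symm (Finsupp.single a 1)))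
  rw [Module.Basis.repr_symm_single_one, hF]

private theorem co1_ltr (x : M.B →₀ k) :
    lin M.scK.co1.φ (ltr x) = M.e.repr (B.D (M.e.repr.symm x)) := by
  refine fin_on (lin M.scK.co1.φ ∘ₗ ltr)
    (M.e.repr.toLinearMap ∘ₗ B.D ∘ₗ M.e.repr.symm.toLinearMap) x (fun a _ => ?_)
  change lin M.scK.co1.φ (ltr (Finsupp.single a 1)) =
    M.e.repr (B.D (M.e.repr.symm (Finsupp.single a 1)))
  rw [Module.Basis.repr_symm_single_one, ltr_single, lin_single, one_smul, M.e_D]
  rfl

private theorem co2_ltr (x y : M.B →₀ k) (n : ℤ) (hx : ∀ b, x b ≠ 0 → M.sc.deg b = n) :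
    lin M.scK.co2.φ (cat (ltr x) (ltr y)) =
      sg k n • M.e.repr (B.mul (M.e.repr.symm x) (M.e.repr.symm y)) := by
  refine fin_on (lin M.scK.co2.φ ∘ₗ cat.flip (ltr y) ∘ₗ ltr)
    (sg k n • (M.e.repr.toLinearMap ∘ₗ (B.mul.flip (M.e.repr.symm y)) ∘ₗ
      M.e.repr.symm.toLinearMap)) x (fun a ha => ?_)
  change lin M.scK.co2.φ (cat (ltr (Finsupp.single a 1)) (ltr y)) =
    sg k n • M.e.repr (B.mul (M.e.repr.symm (Finsupp.single a 1)) (M.e.repr.symm y))
  rw [← hx a ha]
  refine fin_on (lin M.scK.co2.φ ∘ₗ cat (ltr (Finsupp.single a 1)) ∘ₗ ltr)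
    (sg k (M.sc.deg a) • (M.e.repr.toLinearMap ∘ₗ (B.mul (M.e.repr.symm (Finsupp.single a 1))) ∘ₗ
      M.e.repr.symm.toLinearMap)) y (fun b _ => ?_)
  change lin M.scK.co2.φ (cat (ltr (Finsupp.single a 1)) (ltr (Finsupp.single b 1))) =
    sg k (M.sc.deg a) • M.e.repr (B.mul (M.e.repr.symm (Finsupp.single a 1))
      (M.e.repr.symm (Finsupp.single b 1)))
  rw [Module.Basis.repr_symm_single_one, Module.Basis.repr_symm_single_one, ltr_single,
    ltr_single, cat_single, lin_single, mul_one, one_smul, M.e_mul]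
  rfl

include hF in
private theorem comm1_aux (v : List L.B) : lin M.scK.co1.φ ((F.map c.π).w v) =
    Finsupp.linearCombination k (F.map c.π).f (L.scK.co1.φ v) := by
  by_cases hv : v.length = 1
  · obtain ⟨a, rfl⟩ := List.length_eq_one_iff.1 hv
    have h1 : (F.map c.π).w [a] = ltr (M.e.repr (f.f (L.e a))) := by
      change cat (ltr (rd c.π (F.f a))) (Finsupp.single [] 1) = _
      rw [cat_nil_right, hF]
    have h2 : L.scK.co1.φ [a] = L.e.repr (A.D (L.e a)) := (L.e_D a).symm
    rw [h1, co1_ltr, lc_map F hF, h2, LinearEquiv.symm_apply_apply, LinearEquiv.symm_apply_apply,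
      f.D]
  · rw [L.scK.co1.ar v hv, map_zero]
    exact (M.scK.co1.pre (F.map c.π)).ar v hv

include hF in
private theorem comm2_aux (v : List L.B) : lin M.scK.co2.φ ((F.map c.π).w v) =
    Finsupp.linearCombination k (F.map c.π).f (L.scK.co2.φ v) := by
  by_cases hv : v.length = 2
  · obtain ⟨a, b, rfl⟩ := List.length_eq_two.1 hv
    have h1 : (F.map c.π).w [a, b] =
        cat (ltr (M.e.repr (f.f (L.e a)))) (ltr (M.e.repr (f.f (L.e b)))) := by
      change cat (ltr (rd c.π (F.f a))) (cat (ltr (rd c.π (F.f b))) (Finsupp.single [] 1)) = _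
      rw [cat_nil_right, hF, hF]
    have h2 : L.scK.co2.φ [a, b] = sg k (L.sc.deg a) • L.e.repr (A.mul (L.e a) (L.e b)) := by
      rw [L.e_mul]
      rfl
    rw [h1, co2_ltr _ _ (L.sc.deg a) (repr_gr M (f.gr _ _ (L.e_gr a))), h2, map_smul,
      lc_map F hF, LinearEquiv.symm_apply_apply, LinearEquiv.symm_apply_apply,
      LinearEquiv.symm_apply_apply, f.mul]
  · rw [L.scK.co2.ar v hv, map_zero]
    exact (M.scK.co2.pre (F.map c.π)).ar v hv

omit hF

private theorem rd_lin {S S' I J : Type} [CommRing S] [CommRing S'] (g : S →+* S')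
    (φ : I → (J →₀ S)) (φ' : I → (J →₀ S')) (h : ∀ i, rd g (φ i) = φ' i) (x : I →₀ S) :
    rd g (Finsupp.linearCombination S φ x) = Finsupp.linearCombination S' φ' (rd g x) := by
  induction x using Finsupp.induction_linear with
  | zero => rw [map_zero, rd_zero, rd_zero, map_zero]
  | add x y hx hy => rw [map_add, rd_add, rd_add, map_add, hx, hy]
  | single i r =>
    rw [Finsupp.linearCombination_single, rd_smul, rd_single, Finsupp.linearCombination_single, h]

private theorem rd_w (v : List L.B) : rd c.π (F.w v) = (F.map c.π).w v := by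
  have h := rd_Wm c.π F (Finsupp.single v 1)
  rwa [rd_single, map_one, LM.Wm_single, LM.Wm_single, one_smul, one_smul] at h

private theorem rd_co1 (M : Lft c B) (v : List M.B) : rd c.π (M.sc.co1.φ v) = M.scK.co1.φ v := by
  match v with
  | [] => exact rd_zero _
  | [a] => rfl
  | _ :: _ :: _ => exact rd_zero _

private theorem rd_co2 (M : Lft c B) (v : List M.B) : rd c.π (M.sc.co2.φ v) = M.scK.co2.φ v := by
  match v with
  | [] => exact rd_zero _
  | [a] => exact rd_zero _
  | [a, b] =>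
    change rd c.π (sg R (M.sc.deg a) • M.sc.m a b) = sg k (M.sc.deg a) • rd c.π (M.sc.m a b)
    rw [rd_smul, map_sg]
  | _ :: _ :: _ :: _ => exact rd_zero _

private theorem exists_eta {I J : Type} {dA : I → ℤ} {dB : J → ℤ} {j : ℕ} {e : ℤ}
    (c : Car p k R) (c1 c2 : Co R dA dB j e)
    (h : ∀ v, rd c.π (c1.φ v) = rd c.π (c2.φ v)) :
    ∃ η : Co R dA dB j e, ∀ v, (p : R) • η.φ v = c1.φ v - c2.φ v := by
  choose z hz hz0 using fun v => exists_div c (c1.φ v - c2.φ v) (by rw [rd_sub, h, sub_self])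
  refine ⟨⟨z, fun v hv => ?_, fun v b hb => ?_⟩, fun v => (hz v).symm⟩
  · ext i
    rw [hz0 v i (by rw [c1.ar v hv, c2.ar v hv, sub_zero, Finsupp.zero_apply]),
      Finsupp.zero_apply]
  · by_contra hd
    have h1 : c1.φ v b = 0 := by
      by_contra h'
      exact hd (c1.dg v b h')
    have h2 : c2.φ v b = 0 := by
      by_contra h'
      exact hd (c2.dg v b h')
    exact hb (hz0 v b (by rw [Finsupp.sub_apply, h1, h2, sub_zero]))

private theorem lm_ext {S I J : Type} [CommRing S] {dA : I → ℤ} {dB : J → ℤ}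
    {F G : LM S dA dB} (h : F.f = G.f) : F = G := by
  cases F
  cases G
  cases h
  rfl

private theorem co_ext {S I J : Type} [CommRing S] {dA : I → ℤ} {dB : J → ℤ} {j : ℕ} {e : ℤ}
    {F G : Co S dA dB j e} (h : ∀ v, F.φ v = G.φ v) : F = G := by
  cases F
  cases G
  cases (funext h : _ = _)
  rfl

private theorem comp_id {S I J : Type} [CommRing S] {dA : I → ℤ} {dB : J → ℤ}
    (F : LM S dA dB) : F.comp (LM.id S dA) = F := by
  refine lm_ext (funext (fun a => ?_))
  change Finsupp.linearCombination S F.f (Finsupp.single a 1) = _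
  rw [Finsupp.linearCombination_single, one_smul]

private theorem id_comp {S I J : Type} [CommRing S] {dA : I → ℤ} {dB : J → ℤ}
    (F : LM S dA dB) : (LM.id S dB).comp F = F := by
  refine lm_ext (funext (fun a => ?_))
  change Finsupp.linearCombination S (fun b => Finsupp.single b 1) (F.f a) = _
  refine fin_on (Finsupp.linearCombination S (fun b => Finsupp.single b 1)) LinearMap.id (F.f a)
    (fun b _ => ?_)
  rw [Finsupp.linearCombination_single, one_smul, LinearMap.id_apply]

private theorem bk_lin {S I J : Type} [CommRing S] {dA : I → ℤ} {dB : J → ℤ} {j : ℕ} {e : ℤ}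
    (r : S) (F : LM S dA dB) (c c1 c2 : Co S dA dB j e)
    (h : ∀ v, r • c.φ v = c1.φ v - c2.φ v) (i : ℕ) (x : W S I) :
    r • bk F c i x = bk F c1 i x - bk F c2 i x := by
  have h1 : r • bk F c i = bk F c1 i - bk F c2 i := by
    refine lin_ext (fun w => ?_)
    rw [LinearMap.smul_apply, LinearMap.sub_apply, bk, bk, bk, lin_single, lin_single, lin_single,
      one_smul, one_smul, one_smul, smul_comm, ← smul_sub]
    congr 1
    have h2 : ∀ (u : W S J) (v : List I) (y : W S J), r • cat u (cat (ltr (c.φ v)) y) =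
        cat u (cat (ltr (c1.φ v)) y) - cat u (cat (ltr (c2.φ v)) y) := by
      intro u v y
      calc r • cat u (cat (ltr (c.φ v)) y) = cat u (cat (ltr (r • c.φ v)) y) := by
            rw [map_smul, map_smul, LinearMap.smul_apply, map_smul]
        _ = cat u (cat (ltr (c1.φ v)) y) - cat u (cat (ltr (c2.φ v)) y) := by
            rw [h, map_sub, map_sub, LinearMap.sub_apply, map_sub]
    exact h2 _ _ _
  exact LinearMap.congr_fun h1 x

private theorem bk_comm {S I J : Type} [CommRing S] {dA : I → ℤ} {dB : J → ℤ} {j : ℕ} {e : ℤ}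
    (F : LM S dA dB) (b : Co S dB dB j e) (a : Co S dA dA j e)
    (h : ∀ v, lin b.φ (F.w v) = Finsupp.linearCombination S F.f (a.φ v)) (i : ℕ) (x : W S I) :
    bk (LM.id S dB) b i (F.Wm x) = F.Wm (bk (LM.id S dA) a i x) := by
  have h' : b.pre F = a.post F := co_ext h
  rw [bk_Wm, Wm_bk, id_comp, comp_id, h']

end aux

theorem exists_lftHom (f : ZHom A B) : Nonempty (LftHom L M f) := by
  choose y hy hy0 using fun a => rd_surj c (M.e.repr (f.f (L.e a)))
  let F : LM R L.sc.deg M.sc.deg :=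
    ⟨y, fun a b h => repr_gr M (f.gr _ _ (L.e_gr a)) b (fun h0 => h (hy0 a b h0))⟩
  have hF : ∀ a, M.e.repr (f.f (L.e a)) = rd c.π (F.f a) := fun a => (hy a).symm
  obtain ⟨η1, h1⟩ := exists_eta c (M.sc.co1.pre F) (L.sc.co1.post F) (fun v => by
    change rd c.π (lin M.sc.co1.φ (F.w v)) =
      rd c.π (Finsupp.linearCombination R F.f (L.sc.co1.φ v))
    rw [lin, rd_lin c.π _ _ (rd_co1 M), rd_w, rd_lin c.π F.f (F.map c.π).f (fun _ => rfl),
      rd_co1 L]
    exact comm1_aux F hF v)
  obtain ⟨η2, h2⟩ := exists_eta c (M.sc.co2.pre F) (L.sc.co2.post F) (fun v => by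
    change rd c.π (lin M.sc.co2.φ (F.w v)) =
      rd c.π (Finsupp.linearCombination R F.f (L.sc.co2.φ v))
    rw [lin, rd_lin c.π _ _ (rd_co2 M), rd_w, rd_lin c.π F.f (F.map c.π).f (fun _ => rfl),
      rd_co2 L]
    exact comm2_aux F hF v)
  refine ⟨⟨F, hF, η1, η2, ⟨fun i x => ?_, fun i x => ?_⟩⟩⟩
  · rw [Sc.f1, Sc.f1, bk_Wm, Wm_bk, comp_id, id_comp]
    exact bk_lin _ F _ _ _ h1 i x
  · rw [Sc.f2, Sc.f2, bk_Wm, Wm_bk, comp_id, id_comp]
    exact bk_lin _ F _ _ _ h2 i x

variable {L M}

/-- the letter map induces `f` on words -/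
theorem LftHom.toWd_Wm {f : ZHom A B} (H : LftHom L M f) (x : W R L.B) :
    M.toWd (rd c.π (H.F.Wm x)) = f.cyc.f (L.toWd (rd c.π x)) := by
  rw [rd_Wm]
  suffices h : ∀ w, M.toWd ((H.F.map c.π).w w) = Wd.map f.f f.f (L.word w) by
    refine fin_on (M.toWd ∘ₗ (H.F.map c.π).Wm) (Wd.map f.f f.f ∘ₗ L.toWd) (rd c.π x)
      (fun w _ => ?_)
    rw [LinearMap.comp_apply, LinearMap.comp_apply, LM.Wm_single, one_smul, Lft.toWd_single,
      one_smul]
    exact h w
  intro w
  have hs : ∀ a, (H.F.map c.π).w [a] = ltr (M.e.repr (f.f (L.e a))) := fun a => by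
    change cat (ltr (rd c.π (H.F.f a))) (Finsupp.single [] 1) = _
    rw [cat_nil_right, H.red]
  induction w using List.reverseRecOn with
  | nil =>
    change M.toWd (Finsupp.single [] 1) = Wd.map f.f f.f 0
    rw [Lft.toWd_single, one_smul, map_zero]
    rfl
  | append_singleton w a ih =>
    by_cases hw : w = []
    · subst hw
      rw [List.nil_append, hs, Lft.toWd_ltr, LinearEquiv.symm_apply_apply]
      change _ = Wd.map f.f f.f (Wd.nil (L.e a))
      rw [Wd.map_nil]
    · have h0 : (H.F.map c.π).w w [] = 0 := by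
        by_contra h
        have h1 := (Finsupp.mem_supported k _).1 ((H.F.map c.π).w_mem_Wl w)
          (Finset.mem_coe.2 (Finsupp.mem_support_iff.2 h))
        exact hw (List.length_eq_zero_iff.1 (show (0 : ℕ) = w.length from h1).symm)
      rw [LM.w_append, hs, Lft.toWd_cat_ltr M h0, LinearEquiv.symm_apply_apply, Lft.word_snoc L hw,
        ih, Wd.map_snoc]

/-- over `k` the letter map commutes with the differential and the product (cochain form, the
input of `comm_of`) -/
theorem LftHom.comm1' {f : ZHom A B} (H : LftHom L M f) (v : List L.B) :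
    lin M.scK.co1.φ ((H.F.map c.π).w v) =
      Finsupp.linearCombination k (H.F.map c.π).f (L.scK.co1.φ v) := comm1_aux H.F H.red v

theorem LftHom.comm2' {f : ZHom A B} (H : LftHom L M f) (v : List L.B) :
    lin M.scK.co2.φ ((H.F.map c.π).w v) =
      Finsupp.linearCombination k (H.F.map c.π).f (L.scK.co2.φ v) := comm2_aux H.F H.red v

/-- operator form -/
theorem LftHom.comm1 {f : ZHom A B} (H : LftHom L M f) (i : ℕ) (x : W k L.B) :
    M.scK.f1 i ((H.F.map c.π).Wm x) = (H.F.map c.π).Wm (L.scK.f1 i x) :=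
  bk_comm (H.F.map c.π) M.scK.co1 L.scK.co1 (comm1_aux H.F H.red) i x

theorem LftHom.comm2 {f : ZHom A B} (H : LftHom L M f) (i : ℕ) (x : W k L.B) :
    M.scK.f2 i ((H.F.map c.π).Wm x) = (H.F.map c.π).Wm (L.scK.f2 i x) :=
  bk_comm (H.F.map c.π) M.scK.co2 L.scK.co2 (comm2_aux H.F H.red) i x

end BK

end NC
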