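import Mathlib
import Pool.Agent.H94.BK.Cart
import Pool.Agent.H94.BK.Brk0
import Pool.Agent.H94.BK.CmpB
import Pool.Agent.H94.BK.Alp

/-!
# Block A, module A21: the Bockstein relation on cycles

`L.KA a x` = the homotopy of the obstruction cochains.  `L.Rel a m z z'`: `z = x mod p`,
`D x = p y`, `z' = (y - K_α x) mod p`.
* `toA_DD`: `toA (D x) = per (toA x)` (`rd_DD`, `rd_f1`, `rd_f2`, `toWd_DD`).
* `cartan_alp`: `cartan3` over `k` (`brk_sq1..4` reduced modulo `p`: `rd_eq_zero_of_smul`,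
  `rd_bk`), transported with `rd_KK`, `rd_VV`.
* `rel_exists`: `toA_surj`, `toA (D x) = 0`, `toA_zero`.
* `rel_Z`: `p D y = D D x = p V_α x` (`DD_DD`), so `toA (D y) = toA (V_α x)` (`toA_p`), and
  `toA (D K_α x) = toA (V_α x)` by `cartan_alp` because `toA (D x) = 0`; degrees `DD_Per`, `KK_Per`.
-/

set_option autoImplicit false

noncomputable section

namespace NC

namespace BK

variable {p : ℕ} {k R : Type} [Field k] [CommRing R] {c : Car p k R}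
  {A B : ZDGA k} (L : Lft c A)

namespace Lft

/-- the differential over `R` -/
abbrev DR : (ℤ → W R L.B) →ₗ[R] (ℤ → W R L.B) := DD L.sc.deg L.sc.f1 L.sc.f2

/-- the homotopy of the obstruction cochains -/
def KA (a : L.Alp) : (ℤ → W R L.B) →ₗ[R] (ℤ → W R L.B) :=
  KK L.sc.deg 1 1 (bk (LM.id R L.sc.deg) a.α1) L.sc.f2 +
    KK L.sc.deg 1 2 (bk (LM.id R L.sc.deg) a.α2) L.sc.f2 +
    KK L.sc.deg 1 3 (bk (LM.id R L.sc.deg) a.α3) L.sc.f2

/-- the Lie derivative of the obstruction cochains -/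
def VA (a : L.Alp) : (ℤ → W R L.B) →ₗ[R] (ℤ → W R L.B) :=
  VV L.sc.deg 1 1 (bk (LM.id R L.sc.deg) a.α1) +
    VV L.sc.deg 1 2 (bk (LM.id R L.sc.deg) a.α2) +
    VV L.sc.deg 1 3 (bk (LM.id R L.sc.deg) a.α3)

/-- the Bockstein relation -/
def Rel (a : L.Alp) (m : ℤ) (z z' : ℤ → A.cyc.V) : Prop :=
  ∃ x ∈ L.sc.Per m, ∃ y ∈ L.sc.Per (m - 1), L.DR x = (p : R) • y ∧ L.toA x = z ∧
    z' = L.toA (y - L.KA a x)

theorem toA_DD (x : ℤ → W R L.B) : L.toA (L.DR x) = A.cyc.per (L.toA x) := by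
  have h1 := rd_DD (g := c.π) (dA := L.sc.deg) (a1 := L.sc.f1) (a2 := L.sc.f2)
    (a1' := L.scK.f1) (a2' := L.scK.f2) (fun i x => rd_f1 c.π L.sc i x)
    (fun i x => rd_f2 c.π L.sc i x) x
  have h2 := L.toWd_DD (fun q => rd c.π (x q))
  rw [← h1] at h2
  exact h2

/-- the reduction of a family of chains -/
private def rdc (x : ℤ → W R L.B) : ℤ → W k L.B := fun q => rd c.π (x q)

private theorem toA_eq (x : ℤ → W R L.B) : L.toA x = fun q => L.toWd (L.rdc x q) := rfl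

private theorem rdc_add (x y : ℤ → W R L.B) : L.rdc (x + y) = L.rdc x + L.rdc y := by
  funext q
  exact rd_add c.π (x q) (y q)

/-- the homotopy over `k` -/
private def KAk (a : L.Alp) : (ℤ → W k L.B) →ₗ[k] (ℤ → W k L.B) :=
  KK L.sc.deg 1 1 (bk (LM.id k L.sc.deg) (a.α1.map c.π)) L.scK.f2 +
    KK L.sc.deg 1 2 (bk (LM.id k L.sc.deg) (a.α2.map c.π)) L.scK.f2 +
    KK L.sc.deg 1 3 (bk (LM.id k L.sc.deg) (a.α3.map c.π)) L.scK.f2

/-- the Lie derivative over `k` -/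
private def VAk (a : L.Alp) : (ℤ → W k L.B) →ₗ[k] (ℤ → W k L.B) :=
  VV L.sc.deg 1 1 (bk (LM.id k L.sc.deg) (a.α1.map c.π)) +
    VV L.sc.deg 1 2 (bk (LM.id k L.sc.deg) (a.α2.map c.π)) +
    VV L.sc.deg 1 3 (bk (LM.id k L.sc.deg) (a.α3.map c.π))

private theorem rd_bk_id {j : ℕ} {e : ℤ} (φ : Co R L.sc.deg L.sc.deg j e) (i : ℕ) (x : W R L.B) :
    rd c.π (bk (LM.id R L.sc.deg) φ i x) =
      bk (LM.id k L.sc.deg) (φ.map c.π) i (rd c.π x) := by
  rw [rd_bk, LM.map_id]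

private theorem rdc_KA (a : L.Alp) (x : ℤ → W R L.B) : L.rdc (L.KA a x) = L.KAk a (L.rdc x) := by
  have h : ∀ {j : ℕ} (φ : Co R L.sc.deg L.sc.deg j 2),
      L.rdc (KK L.sc.deg 1 j (bk (LM.id R L.sc.deg) φ) L.sc.f2 x) =
        KK L.sc.deg 1 j (bk (LM.id k L.sc.deg) (φ.map c.π)) L.scK.f2 (L.rdc x) := by
    intro j φ
    exact rd_KK (g := c.π) (fun i x => L.rd_bk_id φ i x) (map_one c.π)
      (fun i x => rd_f2 c.π L.sc i x) x
  rw [KA, KAk, LinearMap.add_apply, LinearMap.add_apply, LinearMap.add_apply,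
    LinearMap.add_apply, rdc_add, rdc_add, h, h, h]

private theorem rdc_VA (a : L.Alp) (x : ℤ → W R L.B) : L.rdc (L.VA a x) = L.VAk a (L.rdc x) := by
  have h : ∀ {j : ℕ} (φ : Co R L.sc.deg L.sc.deg j 2),
      L.rdc (VV L.sc.deg 1 j (bk (LM.id R L.sc.deg) φ) x) =
        VV L.sc.deg 1 j (bk (LM.id k L.sc.deg) (φ.map c.π)) (L.rdc x) := by
    intro j φ
    exact rd_VV (g := c.π) (fun i x => L.rd_bk_id φ i x) (map_one c.π) x
  rw [VA, VAk, LinearMap.add_apply, LinearMap.add_apply, LinearMap.add_apply,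
    LinearMap.add_apply, rdc_add, rdc_add, h, h, h]

private theorem rdc_DR (x : ℤ → W R L.B) :
    L.rdc (L.DR x) = DD L.sc.deg L.scK.f1 L.scK.f2 (L.rdc x) :=
  rd_DD (g := c.π) (fun i x => rd_f1 c.π L.sc i x) (fun i x => rd_f2 c.π L.sc i x) x

private theorem rd_brk {s : R} {s' : k} (hs : c.π s = s') (l j : ℕ)
    {b a : ℕ → (W R L.B →ₗ[R] W R L.B)} {b' a' : ℕ → (W k L.B →ₗ[k] W k L.B)}
    {P : ℕ → (W R L.B →ₗ[R] W R L.B)} {P' : ℕ → (W k L.B →ₗ[k] W k L.B)}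
    (hb : ∀ i x, rd c.π (b i x) = b' i (rd c.π x)) (ha : ∀ i x, rd c.π (a i x) = a' i (rd c.π x))
    (hP : ∀ i x, rd c.π (P i x) = P' i (rd c.π x)) (i : ℕ) (x : W R L.B) :
    rd c.π (brk s l j b a P i x) = brk s' l j b' a' P' i (rd c.π x) := by
  simp only [brk, LinearMap.sub_apply, LinearMap.sum_apply, LinearMap.smul_apply,
    LinearMap.comp_apply, rd_sub, rd_smul, rd_sum, hb, ha, hP, hs]

private theorem sg_two : sg k 2 = 1 := by
  have h := sg_add (S := k) 1 1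
  rw [sg_one] at h
  rw [show (2 : ℤ) = 1 + 1 by norm_num, h]
  ring

private theorem comm_k {j l : ℕ} (hj : 1 ≤ j) (hl : 1 ≤ l) (φ : Co k L.sc.deg L.sc.deg j 2)
    (b : Co k L.sc.deg L.sc.deg l 1) :
    Comm 1 l j (bk (LM.id k L.sc.deg) b) (bk (LM.id k L.sc.deg) b)
      (bk (LM.id k L.sc.deg) φ) := by
  have h := comm_self hj hl φ b
  rwa [sg_two] at h

private theorem cartan_k (a : L.Alp) (x : ℤ → W k L.B) :
    DD L.sc.deg L.scK.f1 L.scK.f2 (L.KAk a x) + L.KAk a (DD L.sc.deg L.scK.f1 L.scK.f2 x) =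
      L.VAk a x := by
  have hf1 : ∀ i (x : W R L.B), rd c.π (L.sc.f1 i x) = L.scK.f1 i (rd c.π x) :=
    fun i x => rd_f1 c.π L.sc i x
  have hf2 : ∀ i (x : W R L.B), rd c.π (L.sc.f2 i x) = L.scK.f2 i (rd c.π x) :=
    fun i x => rd_f2 c.π L.sc i x
  have h1 : ∀ i (x : W R L.B), rd c.π (bk (LM.id R L.sc.deg) a.α1 i x) =
      bk (LM.id k L.sc.deg) (a.α1.map c.π) i (rd c.π x) := fun i x => L.rd_bk_id a.α1 i x
  have h2 : ∀ i (x : W R L.B), rd c.π (bk (LM.id R L.sc.deg) a.α2 i x) =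
      bk (LM.id k L.sc.deg) (a.α2.map c.π) i (rd c.π x) := fun i x => L.rd_bk_id a.α2 i x
  have h3 : ∀ i (x : W R L.B), rd c.π (bk (LM.id R L.sc.deg) a.α3 i x) =
      bk (LM.id k L.sc.deg) (a.α3.map c.π) i (rd c.π x) := fun i x => L.rd_bk_id a.α3 i x
  have e1 : ∀ i (x : W k L.B), brk 1 1 1 L.scK.f1 L.scK.f1
      (bk (LM.id k L.sc.deg) (a.α1.map c.π)) i x = 0 := by
    intro i x
    obtain ⟨y, rfl, -⟩ := rd_surj c x
    rw [← L.rd_brk (map_one c.π) 1 1 hf1 hf1 h1 i y]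
    exact rd_eq_zero_of_smul c _ (brk_sq1 L.sc.cur a.sqr i y)
  have e2 : ∀ i (x : W k L.B), brk 1 1 2 L.scK.f1 L.scK.f1
      (bk (LM.id k L.sc.deg) (a.α2.map c.π)) i x + brk 1 2 1 L.scK.f2 L.scK.f2
      (bk (LM.id k L.sc.deg) (a.α1.map c.π)) i x = 0 := by
    intro i x
    obtain ⟨y, rfl, -⟩ := rd_surj c x
    rw [← L.rd_brk (map_one c.π) 1 2 hf1 hf1 h2 i y, ← L.rd_brk (map_one c.π) 2 1 hf2 hf2 h1 i y,
      ← rd_add]
    exact rd_eq_zero_of_smul c _ (brk_sq2 L.sc.cur a.sqr i y)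
  have e3 : ∀ i (x : W k L.B), brk 1 1 3 L.scK.f1 L.scK.f1
      (bk (LM.id k L.sc.deg) (a.α3.map c.π)) i x + brk 1 2 2 L.scK.f2 L.scK.f2
      (bk (LM.id k L.sc.deg) (a.α2.map c.π)) i x = 0 := by
    intro i x
    obtain ⟨y, rfl, -⟩ := rd_surj c x
    rw [← L.rd_brk (map_one c.π) 1 3 hf1 hf1 h3 i y, ← L.rd_brk (map_one c.π) 2 2 hf2 hf2 h2 i y,
      ← rd_add]
    exact rd_eq_zero_of_smul c _ (brk_sq3 L.sc.cur a.sqr i y)
  have e4 : ∀ i (x : W k L.B), brk 1 2 3 L.scK.f2 L.scK.f2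
      (bk (LM.id k L.sc.deg) (a.α3.map c.π)) i x = 0 := by
    intro i x
    obtain ⟨y, rfl, -⟩ := rd_surj c x
    rw [← L.rd_brk (map_one c.π) 2 3 hf2 hf2 h3 i y]
    exact rd_eq_zero_of_smul c _ (brk_sq4 L.sc.cur a.sqr i y)
  have key := cartan3 L.dgf (bk_fam le_rfl (LM.id k L.sc.deg) (a.α1.map c.π))
    (bk_fam one_le_two (LM.id k L.sc.deg) (a.α2.map c.π))
    (bk_fam (by norm_num) (LM.id k L.sc.deg) (a.α3.map c.π))
    (L.comm_k le_rfl le_rfl (a.α1.map c.π) L.scK.co1)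
    (L.comm_k le_rfl one_le_two (a.α1.map c.π) L.scK.co2)
    (L.comm_k one_le_two le_rfl (a.α2.map c.π) L.scK.co1)
    (L.comm_k one_le_two one_le_two (a.α2.map c.π) L.scK.co2)
    (L.comm_k (by norm_num) le_rfl (a.α3.map c.π) L.scK.co1)
    (L.comm_k (by norm_num) one_le_two (a.α3.map c.π) L.scK.co2) e1 e2 e3 e4 x
  exact key

private theorem toA_sub (x y : ℤ → W R L.B) : L.toA (x - y) = L.toA x - L.toA y := by
  refine eq_sub_of_add_eq ?_
  rw [← L.toA_add, sub_add_cancel]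

private theorem toA_psmul (x : ℤ → W R L.B) : L.toA ((p : R) • x) = 0 := by
  have h0 : c.π (p : R) = 0 := by
    have h1 := congrArg c.π c.pp
    rw [map_mul, map_zero] at h1
    exact mul_self_eq_zero.1 h1
  rw [L.toA_smul, h0, zero_smul]

private theorem wD_univ (z : ℤ → A.cyc.V) : A.cyc.wD Set.univ z = A.cyc.per z := by
  funext q
  exact A.cyc.cut_mem (A.cyc.per z) (Set.mem_univ q)

/-- chains over `R` with the same reduction have homotopies with the same reduction -/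
theorem toA_KA (a : L.Alp) {x y : ℤ → W R L.B} (h : ∀ q, rd c.π (x q) = rd c.π (y q)) :
    L.toA (L.KA a x) = L.toA (L.KA a y) := by
  have h' : L.rdc x = L.rdc y := funext h
  rw [toA_eq, toA_eq, rdc_KA, rdc_KA, h']

theorem DR_DR (a : L.Alp) (x : ℤ → W R L.B) : L.DR (L.DR x) = (p : R) • L.VA a x :=
  DD_DD L.sc.cur a.sqr x

/-- the Cartan formula modulo `p` -/
theorem cartan_alp (a : L.Alp) (x : ℤ → W R L.B) :
    L.toA (L.DR (L.KA a x) + L.KA a (L.DR x)) = L.toA (L.VA a x) := by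
  rw [toA_eq, toA_eq, rdc_add, rdc_DR, rdc_KA, rdc_KA, rdc_DR, rdc_VA, cartan_k]

theorem KA_Per (a : L.Alp) {m : ℤ} {x : ℤ → W R L.B} (hx : x ∈ L.sc.Per m) :
    L.KA a x ∈ L.sc.Per (m - 1) := by
  have h : ∀ {j : ℕ} (hj : 1 ≤ j) (φ : Co R L.sc.deg L.sc.deg j 2),
      KK L.sc.deg 1 j (bk (LM.id R L.sc.deg) φ) L.sc.f2 x ∈ L.sc.Per (m - 1) := by
    intro j hj φ
    have h := KK_Per L.sc L.sc (LM.id R L.sc.deg) hj φ 1 hx
    rwa [show m + (1 - 2) = m - 1 by ring] at h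
  exact Submodule.add_mem _ (Submodule.add_mem _ (h le_rfl _) (h one_le_two _))
    (h (by norm_num) _)

theorem rel_exists (a : L.Alp) {m : ℤ} {z : ℤ → A.cyc.V} (hz : z ∈ A.cyc.Z Set.univ m) :
    ∃ z', L.Rel a m z z' := by
  obtain ⟨h1, h2⟩ := A.cyc.mem_Z.1 hz
  obtain ⟨x, hx, rfl⟩ := L.toA_surj h2
  rw [wD_univ] at h1
  obtain ⟨y, hy, hxy⟩ := L.toA_zero (DD_Per L.sc hx) (by rw [L.toA_DD x, h1])
  exact ⟨_, x, hx, y, hy, hxy, rfl, rfl⟩

theorem rel_Z (a : L.Alp) {m : ℤ} {z z' : ℤ → A.cyc.V} (hz : z ∈ A.cyc.Z Set.univ m)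
    (h : L.Rel a m z z') : z' ∈ A.cyc.Z Set.univ (m - 1) := by
  obtain ⟨x, hx, y, hy, hxy, rfl, rfl⟩ := h
  refine A.cyc.mem_Z.2 ⟨?_, L.toA_CP (Submodule.sub_mem _ hy (L.KA_Per a hx))⟩
  rw [wD_univ, ← L.toA_DD, map_sub, toA_sub]
  have h1 : L.toA (L.DR y) = L.toA (L.VA a x) := by
    refine L.toA_p ?_
    rw [← L.DR_DR a x, hxy, map_smul]
  have h2 := L.cartan_alp a x
  rw [L.toA_add, hxy, map_smul, toA_psmul, add_zero] at h2
  rw [h1, h2, sub_self]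

theorem rel_add (a : L.Alp) {m : ℤ} {z z' w w' : ℤ → A.cyc.V} (h : L.Rel a m z z')
    (h' : L.Rel a m w w') : L.Rel a m (z + w) (z' + w') := by
  obtain ⟨x, hx, y, hy, hxy, rfl, rfl⟩ := h
  obtain ⟨x', hx', y', hy', hxy', rfl, rfl⟩ := h'
  refine ⟨x + x', Submodule.add_mem _ hx hx', y + y', Submodule.add_mem _ hy hy', ?_, ?_, ?_⟩
  · rw [map_add, hxy, hxy', smul_add]
  · exact L.toA_add x x'
  · rw [← L.toA_add, map_add]
    congr 1
    abel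

theorem rel_smul (a : L.Alp) {m : ℤ} {z z' : ℤ → A.cyc.V} (r : k) (h : L.Rel a m z z') :
    L.Rel a m (r • z) (r • z') := by
  obtain ⟨x, hx, y, hy, hxy, rfl, rfl⟩ := h
  obtain ⟨s, rfl⟩ := c.surj r
  refine ⟨s • x, Submodule.smul_mem _ s hx, s • y, Submodule.smul_mem _ s hy, ?_, ?_, ?_⟩
  · rw [map_smul, hxy, smul_comm]
  · exact L.toA_smul s x
  · rw [← L.toA_smul, map_smul, smul_sub]

/-- the relation in a strict lift -/
theorem rel_strict (h : L.sc.Strict) : ∃ a : L.Alp, ∀ (m : ℤ) (x y : ℤ → W R L.B),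
    x ∈ L.sc.Per m → y ∈ L.sc.Per (m - 1) → L.sc.D x = (p : R) • y →
      L.Rel a m (L.toA x) (L.toA y) := by
  obtain ⟨a, h1, h2, h3⟩ := L.exists_alp_strict h
  refine ⟨a, fun m x y hx hy hxy => ⟨x, hx, y, hy, ?_, rfl, ?_⟩⟩
  · rw [DR, ← Sc.D_eq]
    exact hxy
  · have hb : ∀ {j : ℕ} (φ : Co R L.sc.deg L.sc.deg j 2) (_ : ∀ v, φ.φ v = 0) (i : ℕ),
        bk (LM.id R L.sc.deg) φ i = 0 := by
      intro j φ hφ i
      refine lin_ext (fun w => ?_)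
      rw [bk, lin_single, hφ, map_zero, map_zero, LinearMap.zero_apply, map_zero, smul_zero,
        smul_zero, LinearMap.zero_apply]
    have hK : ∀ {j : ℕ} (φ : Co R L.sc.deg L.sc.deg j 2) (_ : ∀ v, φ.φ v = 0),
        KK L.sc.deg 1 j (bk (LM.id R L.sc.deg) φ) L.sc.f2 x = 0 := by
      intro j φ hφ
      have h0 : bk (LM.id R L.sc.deg) φ = fun i => bk (LM.id R L.sc.deg) φ i -
          bk (LM.id R L.sc.deg) φ i := by
        funext i
        refine LinearMap.ext (fun x => ?_)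
        rw [LinearMap.sub_apply, hb φ hφ i, LinearMap.zero_apply, sub_zero]
      have h5 := KK_sub (dA := L.sc.deg) 1 j (bk (LM.id R L.sc.deg) φ)
        (bk (LM.id R L.sc.deg) φ) L.sc.f2 x
      rw [← h0, sub_self] at h5
      exact h5
    have hKA : L.KA a x = 0 := by
      rw [KA, LinearMap.add_apply, LinearMap.add_apply, hK _ h1, hK _ h2, hK _ h3, add_zero,
        add_zero]
    rw [hKA, sub_zero]

/-- cycles from chains over `R` -/
theorem toA_Z {m : ℤ} {x : ℤ → W R L.B} (hx : x ∈ L.sc.Per m)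
    (h : ∀ q, red c (L.sc.D x q) = 0) : L.toA x ∈ A.cyc.Z Set.univ m := by
  refine A.cyc.mem_Z.2 ⟨?_, L.toA_CP hx⟩
  rw [wD_univ, ← L.toA_DD, DR, ← Sc.D_eq]
  funext q
  change L.toWd (red c (L.sc.D x q)) = 0
  rw [h q, map_zero]

end Lft

end BK

end NC
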