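import Mathlib
import Pool.Agent.H94.BK.Rel
import Pool.Agent.H94.BK.LftH

/-!
# Block A, module A22: naturality of the Bockstein relation

`x, y` for `(z, z')`, `x', y'` for `(w, w')`, `u ∈ Per (m + 1)` a lift of the bounding chain.
`x' - F x - D u` has reduction `0`, so it is `p r`, `r ∈ Per m`.  Then
`p y' = D x' = D F x + D D u + p D r = F D x + p V_η x + p V_α u + p D r` (`DD_nat`, `DR_DR`), so modulo
`p`: `y' = F y + V_η x + V_α u + D r`, and `K_α x' = K_α F x + K_α D u`.  Hence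
`w' - f z' = (V_η x - K_α F x + F K_α x) + (V_α u - K_α D u) + D r`.  The second bracket is `D K_α u`
(`cartan_alp`), the first one is `D K_η x` by `cartan2` over `k` (`D x = 0` there;
`U_i = B_i F - F A_i` by `brk_nat1..3`, `rd_eq_of_smul`; `KK_comp_W`, `KK_W_comp`, `KK_sub`;
`comm_of` with `LftHom.comm1'`, `comm2'`).  So the bounding chain is
`toA (K_η x + K_α u + r)`.
-/

set_option autoImplicit false

noncomputable section

namespace NC

namespace BK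

variable {p : ℕ} {k R : Type} [Field k] [CommRing R] {c : Car p k R}
  {A B : ZDGA k} {L : Lft c A} {M : Lft c B}

/-- the homotopy of the defect of a lifted morphism -/
def LftHom.KE {f : ZHom A B} (H : LftHom L M f) : (ℤ → W R L.B) →ₗ[R] (ℤ → W R M.B) :=
  KK L.sc.deg (-1) 1 (bk H.F H.η1) M.sc.f2 + KK L.sc.deg (-1) 2 (bk H.F H.η2) M.sc.f2

/-- the Lie derivative of the defect of a lifted morphism -/
def LftHom.VE {f : ZHom A B} (H : LftHom L M f) : (ℤ → W R L.B) →ₗ[R] (ℤ → W R M.B) :=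
  VV L.sc.deg (-1) 1 (bk H.F H.η1) + VV L.sc.deg (-1) 2 (bk H.F H.η2)

/-- the letter map on families of chains -/
def LftHom.FF {f : ZHom A B} (H : LftHom L M f) (x : ℤ → W R L.B) : ℤ → W R M.B :=
  fun q => H.F.Wm (x q)

theorem LftHom.toA_FF {f : ZHom A B} (H : LftHom L M f) (x : ℤ → W R L.B) :
    M.toA (H.FF x) = fun q => f.cyc.f (L.toA x q) := by
  funext q
  exact H.toWd_Wm (x q)

/-- the reduction of a family of chains -/
private def rdn (c : Car p k R) {I : Type} (x : ℤ → I →₀ R) : ℤ → I →₀ k := fun q => rd c.π (x q)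

private theorem toA_rdn (L : Lft c A) (x : ℤ → W R L.B) :
    L.toA x = fun q => L.toWd (rdn c x q) := rfl

private theorem rdn_add {I : Type} (x y : ℤ → I →₀ R) : rdn c (x + y) = rdn c x + rdn c y := by
  funext q
  exact rd_add c.π (x q) (y q)

private theorem rdn_sub {I : Type} (x y : ℤ → I →₀ R) : rdn c (x - y) = rdn c x - rdn c y := by
  funext q
  exact rd_sub c.π (x q) (y q)

private theorem rdn_DR (L : Lft c A) (x : ℤ → W R L.B) :
    rdn c (L.DR x) = DD L.sc.deg L.scK.f1 L.scK.f2 (rdn c x) :=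
  rd_DD (g := c.π) (fun i x => rd_f1 c.π L.sc i x) (fun i x => rd_f2 c.π L.sc i x) x

/-- the homotopy of the obstruction cochains over `k` -/
private def KAn (L : Lft c A) (a : L.Alp) : (ℤ → W k L.B) →ₗ[k] (ℤ → W k L.B) :=
  KK L.sc.deg 1 1 (bk (LM.id k L.sc.deg) (a.α1.map c.π)) L.scK.f2 +
    KK L.sc.deg 1 2 (bk (LM.id k L.sc.deg) (a.α2.map c.π)) L.scK.f2 +
    KK L.sc.deg 1 3 (bk (LM.id k L.sc.deg) (a.α3.map c.π)) L.scK.f2

private theorem rd_bk_idn (L : Lft c A) {j : ℕ} {e : ℤ} (φ : Co R L.sc.deg L.sc.deg j e) (i : ℕ)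
    (x : W R L.B) : rd c.π (bk (LM.id R L.sc.deg) φ i x) =
      bk (LM.id k L.sc.deg) (φ.map c.π) i (rd c.π x) := by
  rw [rd_bk, LM.map_id]

private theorem rdn_KA (L : Lft c A) (a : L.Alp) (x : ℤ → W R L.B) :
    rdn c (L.KA a x) = KAn L a (rdn c x) := by
  have h : ∀ {j : ℕ} (φ : Co R L.sc.deg L.sc.deg j 2),
      rdn c (KK L.sc.deg 1 j (bk (LM.id R L.sc.deg) φ) L.sc.f2 x) =
        KK L.sc.deg 1 j (bk (LM.id k L.sc.deg) (φ.map c.π)) L.scK.f2 (rdn c x) := by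
    intro j φ
    exact rd_KK (g := c.π) (fun i x => rd_bk_idn L φ i x) (map_one c.π)
      (fun i x => rd_f2 c.π L.sc i x) x
  rw [Lft.KA, KAn, LinearMap.add_apply, LinearMap.add_apply, LinearMap.add_apply,
    LinearMap.add_apply, rdn_add, rdn_add, h, h, h]

/-- the homotopy of the defect over `k` -/
private def KEn {f : ZHom A B} (H : LftHom L M f) : (ℤ → W k L.B) →ₗ[k] (ℤ → W k M.B) :=
  KK L.sc.deg (-1) 1 (bk (H.F.map c.π) (H.η1.map c.π)) M.scK.f2 +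
    KK L.sc.deg (-1) 2 (bk (H.F.map c.π) (H.η2.map c.π)) M.scK.f2

/-- the Lie derivative of the defect over `k` -/
private def VEn {f : ZHom A B} (H : LftHom L M f) : (ℤ → W k L.B) →ₗ[k] (ℤ → W k M.B) :=
  VV L.sc.deg (-1) 1 (bk (H.F.map c.π) (H.η1.map c.π)) +
    VV L.sc.deg (-1) 2 (bk (H.F.map c.π) (H.η2.map c.π))

private theorem map_neg_one : c.π (-1) = -1 := by rw [map_neg, map_one]

private theorem rdn_KE {f : ZHom A B} (H : LftHom L M f) (x : ℤ → W R L.B) :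
    rdn c (H.KE x) = KEn H (rdn c x) := by
  have h : ∀ {j : ℕ} (φ : Co R L.sc.deg M.sc.deg j 1),
      rdn c (KK L.sc.deg (-1) j (bk H.F φ) M.sc.f2 x) =
        KK L.sc.deg (-1) j (bk (H.F.map c.π) (φ.map c.π)) M.scK.f2 (rdn c x) := by
    intro j φ
    exact rd_KK (g := c.π) (fun i x => rd_bk c.π H.F φ i x) map_neg_one
      (fun i x => rd_f2 c.π M.sc i x) x
  rw [LftHom.KE, KEn, LinearMap.add_apply, LinearMap.add_apply, rdn_add, h, h]

private theorem rdn_VE {f : ZHom A B} (H : LftHom L M f) (x : ℤ → W R L.B) :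
    rdn c (H.VE x) = VEn H (rdn c x) := by
  have h : ∀ {j : ℕ} (φ : Co R L.sc.deg M.sc.deg j 1),
      rdn c (VV L.sc.deg (-1) j (bk H.F φ) x) =
        VV L.sc.deg (-1) j (bk (H.F.map c.π) (φ.map c.π)) (rdn c x) := by
    intro j φ
    exact rd_VV (g := c.π) (fun i x => rd_bk c.π H.F φ i x) map_neg_one x
  rw [LftHom.VE, VEn, LinearMap.add_apply, LinearMap.add_apply, rdn_add, h, h]

private theorem rd_brkn {X Y : Type} {s : R} {s' : k} (hs : c.π s = s') (l j : ℕ)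
    {b : ℕ → (W R Y →ₗ[R] W R Y)} {b' : ℕ → (W k Y →ₗ[k] W k Y)}
    {a : ℕ → (W R X →ₗ[R] W R X)} {a' : ℕ → (W k X →ₗ[k] W k X)}
    {P : ℕ → (W R X →ₗ[R] W R Y)} {P' : ℕ → (W k X →ₗ[k] W k Y)}
    (hb : ∀ i x, rd c.π (b i x) = b' i (rd c.π x)) (ha : ∀ i x, rd c.π (a i x) = a' i (rd c.π x))
    (hP : ∀ i x, rd c.π (P i x) = P' i (rd c.π x)) (i : ℕ) (x : W R X) :
    rd c.π (brk s l j b a P i x) = brk s' l j b' a' P' i (rd c.π x) := by
  simp only [brk, LinearMap.sub_apply, LinearMap.sum_apply, LinearMap.smul_apply,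
    LinearMap.comp_apply, rd_sub, rd_smul, rd_sum, hb, ha, hP, hs]

private theorem comm_n1 {f : ZHom A B} (H : LftHom L M f) {j : ℕ} (hj : 1 ≤ j)
    (φ : Co k L.sc.deg M.sc.deg j 1) :
    Comm (-1) 1 j M.scK.f1 L.scK.f1 (bk (H.F.map c.π) φ) := by
  have h := comm_of hj le_rfl (H.F.map c.π) φ M.scK.co1 L.scK.co1 H.comm1'
  rw [sg_one] at h
  exact h

private theorem comm_n2 {f : ZHom A B} (H : LftHom L M f) {j : ℕ} (hj : 1 ≤ j)
    (φ : Co k L.sc.deg M.sc.deg j 1) :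
    Comm (-1) 2 j M.scK.f2 L.scK.f2 (bk (H.F.map c.π) φ) := by
  have h := comm_of hj one_le_two (H.F.map c.π) φ M.scK.co2 L.scK.co2 H.comm2'
  rw [sg_one] at h
  exact h

/-- the commutator of an obstruction family with the letter map -/
private def Un {f : ZHom A B} (H : LftHom L M f) {j : ℕ} (α : Co R L.sc.deg L.sc.deg j 2)
    (β : Co R M.sc.deg M.sc.deg j 2) (i : ℕ) : W k L.B →ₗ[k] W k M.B :=
  bk (LM.id k M.sc.deg) (β.map c.π) i ∘ₗ (H.F.map c.π).Wm -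
    (H.F.map c.π).Wm ∘ₗ bk (LM.id k L.sc.deg) (α.map c.π) i

private theorem Un_rd {f : ZHom A B} (H : LftHom L M f) {j : ℕ} (α : Co R L.sc.deg L.sc.deg j 2)
    (β : Co R M.sc.deg M.sc.deg j 2) (i : ℕ) (y : W R L.B) :
    rd c.π (bk (LM.id R M.sc.deg) β i (H.F.Wm y) - H.F.Wm (bk (LM.id R L.sc.deg) α i y)) =
      Un H α β i (rd c.π y) := by
  rw [Un, LinearMap.sub_apply, LinearMap.comp_apply, LinearMap.comp_apply, rd_sub, rd_bk_idn,
    rd_Wm, rd_Wm, rd_bk_idn]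

private theorem KK_Un {f : ZHom A B} (H : LftHom L M f) {j : ℕ} (α : Co R L.sc.deg L.sc.deg j 2)
    (β : Co R M.sc.deg M.sc.deg j 2) (x : ℤ → W k L.B) :
    KK L.sc.deg 1 j (Un H α β) M.scK.f2 x =
      KK M.sc.deg 1 j (bk (LM.id k M.sc.deg) (β.map c.π)) M.scK.f2
        (fun q => (H.F.map c.π).Wm (x q)) -
      fun q => (H.F.map c.π).Wm
        (KK L.sc.deg 1 j (bk (LM.id k L.sc.deg) (α.map c.π)) L.scK.f2 x q) := by
  have h1 := KK_sub (dA := L.sc.deg) (1 : k) j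
    (fun i => bk (LM.id k M.sc.deg) (β.map c.π) i ∘ₗ (H.F.map c.π).Wm)
    (fun i => (H.F.map c.π).Wm ∘ₗ bk (LM.id k L.sc.deg) (α.map c.π) i) M.scK.f2 x
  have h2 := KK_comp_W (H.F.map c.π) (1 : k) j (bk (LM.id k M.sc.deg) (β.map c.π))
    (fun i => bk (LM.id k M.sc.deg) (β.map c.π) i ∘ₗ (H.F.map c.π).Wm) (fun i x => rfl)
    M.scK.f2 x
  have h3 := KK_W_comp (H.F.map c.π) (1 : k) j (bk (LM.id k L.sc.deg) (α.map c.π))
    (fun i => (H.F.map c.π).Wm ∘ₗ bk (LM.id k L.sc.deg) (α.map c.π) i) (fun i x => rfl)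
    L.scK.f2 M.scK.f2 (fun x => H.comm2 0 x) x
  rw [h2, h3] at h1
  exact h1

/-- the twisted Cartan formula over `k` -/
private theorem cartan_n {f : ZHom A B} (H : LftHom L M f) (a : L.Alp) (b : M.Alp)
    (x : ℤ → W k L.B) :
    DD M.sc.deg M.scK.f1 M.scK.f2 (KEn H x) - KEn H (DD L.sc.deg L.scK.f1 L.scK.f2 x) =
      VEn H x - (KAn M b (fun q => (H.F.map c.π).Wm (x q)) -
        fun q => (H.F.map c.π).Wm (KAn L a x q)) := by
  have hb1 : ∀ i (x : W R M.B), rd c.π (M.sc.f1 i x) = M.scK.f1 i (rd c.π x) :=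
    fun i x => rd_f1 c.π M.sc i x
  have hb2 : ∀ i (x : W R M.B), rd c.π (M.sc.f2 i x) = M.scK.f2 i (rd c.π x) :=
    fun i x => rd_f2 c.π M.sc i x
  have ha1 : ∀ i (x : W R L.B), rd c.π (L.sc.f1 i x) = L.scK.f1 i (rd c.π x) :=
    fun i x => rd_f1 c.π L.sc i x
  have ha2 : ∀ i (x : W R L.B), rd c.π (L.sc.f2 i x) = L.scK.f2 i (rd c.π x) :=
    fun i x => rd_f2 c.π L.sc i x
  have h1 : ∀ i (x : W R L.B), rd c.π (bk H.F H.η1 i x) =
      bk (H.F.map c.π) (H.η1.map c.π) i (rd c.π x) := fun i x => rd_bk c.π H.F H.η1 i x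
  have h2 : ∀ i (x : W R L.B), rd c.π (bk H.F H.η2 i x) =
      bk (H.F.map c.π) (H.η2.map c.π) i (rd c.π x) := fun i x => rd_bk c.π H.F H.η2 i x
  have e1 : ∀ i (x : W k L.B), brk (-1) 1 1 M.scK.f1 L.scK.f1
      (bk (H.F.map c.π) (H.η1.map c.π)) i x = Un H a.α1 b.α1 i x := by
    intro i x
    obtain ⟨y, rfl, -⟩ := rd_surj c x
    rw [← rd_brkn map_neg_one 1 1 hb1 ha1 h1 i y, ← Un_rd]
    exact rd_eq_of_smul c _ _ (brk_nat1 H.nat a.sqr b.sqr i y)
  have e2 : ∀ i (x : W k L.B), brk (-1) 1 2 M.scK.f1 L.scK.f1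
      (bk (H.F.map c.π) (H.η2.map c.π)) i x + brk (-1) 2 1 M.scK.f2 L.scK.f2
      (bk (H.F.map c.π) (H.η1.map c.π)) i x = Un H a.α2 b.α2 i x := by
    intro i x
    obtain ⟨y, rfl, -⟩ := rd_surj c x
    rw [← rd_brkn map_neg_one 1 2 hb1 ha1 h2 i y, ← rd_brkn map_neg_one 2 1 hb2 ha2 h1 i y,
      ← rd_add, ← Un_rd]
    exact rd_eq_of_smul c _ _ (brk_nat2 H.nat a.sqr b.sqr i y)
  have e3 : ∀ i (x : W k L.B), brk (-1) 2 2 M.scK.f2 L.scK.f2
      (bk (H.F.map c.π) (H.η2.map c.π)) i x = Un H a.α3 b.α3 i x := by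
    intro i x
    obtain ⟨y, rfl, -⟩ := rd_surj c x
    rw [← rd_brkn map_neg_one 2 2 hb2 ha2 h2 i y, ← Un_rd]
    exact rd_eq_of_smul c _ _ (brk_nat3 H.nat a.sqr b.sqr i y)
  have key := cartan2 L.scK.cur.f1 L.scK.cur.f2 M.dgf
    (bk_fam le_rfl (H.F.map c.π) (H.η1.map c.π))
    (bk_fam one_le_two (H.F.map c.π) (H.η2.map c.π))
    (comm_n1 H le_rfl (H.η1.map c.π)) (comm_n2 H le_rfl (H.η1.map c.π))
    (comm_n1 H one_le_two (H.η2.map c.π)) (comm_n2 H one_le_two (H.η2.map c.π)) e1 e2 e3 x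
  refine key.trans ?_
  refine congrArg (fun y => VEn H x - y) ?_
  refine (congrArg₂ (· + ·) (congrArg₂ (· + ·) (KK_Un H a.α1 b.α1 x) (KK_Un H a.α2 b.α2 x))
    (KK_Un H a.α3 b.α3 x)).trans ?_
  funext q
  simp only [KAn, LinearMap.add_apply, Pi.add_apply, Pi.sub_apply, map_add]
  abel

/-- the twisted Cartan formula modulo `p`, with the commutator of the defect -/
theorem LftHom.cartan_eta {f : ZHom A B} (H : LftHom L M f) (a : L.Alp) (b : M.Alp)
    (x : ℤ → W R L.B) :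
    M.toA (M.DR (H.KE x) - H.KE (L.DR x)) =
      M.toA (H.VE x - (M.KA b (H.FF x) - H.FF (L.KA a x))) := by
  have hF : ∀ y : ℤ → W R L.B, rdn c (H.FF y) = fun q => (H.F.map c.π).Wm (rdn c y q) := by
    intro y
    funext q
    exact rd_Wm c.π H.F (y q)
  rw [toA_rdn, toA_rdn, rdn_sub, rdn_sub, rdn_sub, rdn_DR, rdn_KE, rdn_KE, rdn_DR, rdn_VE,
    rdn_KA, hF, hF, rdn_KA, cartan_n H a b]

private theorem toA_subn (L : Lft c A) (x y : ℤ → W R L.B) :
    L.toA (x - y) = L.toA x - L.toA y := by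
  refine eq_sub_of_add_eq ?_
  rw [← L.toA_add, sub_add_cancel]

private theorem toA_psmuln (L : Lft c A) (x : ℤ → W R L.B) : L.toA ((p : R) • x) = 0 := by
  have h0 : c.π (p : R) = 0 := by
    have h1 := congrArg c.π c.pp
    rw [map_mul, map_zero] at h1
    exact mul_self_eq_zero.1 h1
  rw [L.toA_smul, h0, zero_smul]

theorem rel_nat (f : ZHom A B) (a : L.Alp) (b : M.Alp) {m : ℤ} {z z' : ℤ → A.cyc.V}
    {w w' : ℤ → B.cyc.V} (hz : z ∈ A.cyc.Z Set.univ m) (h : L.Rel a m z z')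
    (h' : M.Rel b m w w')
    (hb : ∃ v ∈ B.cyc.CP Set.univ (m + 1), B.cyc.per v = w - fun q => f.cyc.f (z q)) :
    ∃ v ∈ B.cyc.CP Set.univ m, B.cyc.per v = w' - fun q => f.cyc.f (z' q) := by
  obtain ⟨H⟩ := exists_lftHom L M f
  obtain ⟨x, hx, y, hy, hxy, rfl, rfl⟩ := h
  obtain ⟨x', hx', y', hy', hxy', rfl, rfl⟩ := h'
  obtain ⟨v, hv, hvp⟩ := hb
  obtain ⟨u, hu, rfl⟩ := M.toA_surj hv
  have hFx : H.FF x ∈ M.sc.Per m := Wm_Per L.sc M.sc H.F hx
  have hDu : M.DR u ∈ M.sc.Per m := by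
    have h := DD_Per M.sc hu
    rwa [add_sub_cancel_right] at h
  obtain ⟨r, hr, hxr⟩ := M.toA_zero
    (Submodule.sub_mem _ (Submodule.sub_mem _ hx' hFx) hDu) (by
      rw [toA_subn, toA_subn, H.toA_FF, M.toA_DD, hvp, sub_self])
  have hx'' : x' = H.FF x + M.DR u + (p : R) • r := by
    rw [← hxr]
    abel
  -- the reduction of `y'`
  have hDF : M.DR (H.FF x) = H.FF (L.DR x) + (p : R) • H.VE x := by
    have h := DD_nat H.nat x
    refine eq_add_of_sub_eq' ?_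
    exact h
  have hFp : ∀ t : ℤ → W R L.B, H.FF ((p : R) • t) = (p : R) • H.FF t := by
    intro t
    funext q
    exact map_smul H.F.Wm (p : R) (t q)
  have hFs : ∀ s t : ℤ → W R L.B, H.FF (s - t) = H.FF s - H.FF t := by
    intro s t
    funext q
    exact map_sub H.F.Wm (s q) (t q)
  have hy'' : M.toA y' = M.toA (H.FF y + H.VE x + M.VA b u + M.DR r) := by
    refine M.toA_p ?_
    rw [← hxy', hx'', map_add, map_add, hDF, hxy, hFp, M.DR_DR b u, map_smul, smul_add, smul_add,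
      smul_add]
  have hK' : M.toA (M.KA b x') = M.toA (M.KA b (H.FF x)) + M.toA (M.KA b (M.DR u)) := by
    rw [hx'', map_add, map_add, map_smul, M.toA_add, M.toA_add, toA_psmuln, add_zero]
  refine ⟨M.toA (H.KE x + M.KA b u + r), ?_, ?_⟩
  · refine M.toA_CP (Submodule.add_mem _ (Submodule.add_mem _ ?_ ?_) hr)
    · refine Submodule.add_mem _ ?_ ?_
      · have h := KK_Per L.sc M.sc H.F le_rfl H.η1 (-1) hx
        rwa [show m + (1 - 1) = m by ring] at h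
      · have h := KK_Per L.sc M.sc H.F one_le_two H.η2 (-1) hx
        rwa [show m + (1 - 1) = m by ring] at h
    · have h := M.KA_Per b hu
      rwa [add_sub_cancel_right] at h
  · have hc := H.cartan_eta a b x
    have hc2 := M.cartan_alp b u
    have hKp : H.KE (L.DR x) = (p : R) • H.KE y := by rw [hxy, map_smul]
    rw [toA_subn, hKp, toA_psmuln, sub_zero, toA_subn, toA_subn] at hc
    rw [M.toA_add] at hc2
    have e1 : (fun q => f.cyc.f (L.toA (y - L.KA a x) q)) =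
        M.toA (H.FF y) - M.toA (H.FF (L.KA a x)) := by
      rw [← H.toA_FF, hFs, toA_subn]
    rw [← M.toA_DD, e1, map_add, map_add, M.toA_add, M.toA_add, hc, toA_subn, hy'', hK',
      M.toA_add, M.toA_add, M.toA_add, ← hc2]
    abel

end BK

end NC
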