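import Mathlib
import Pool.Agent.H94.BK.RelN

/-!
# Block A, module A23: the Bockstein operator

`β_A m x`: choose a lift, a representative `z` of `x` (`CycMod.cls_surj`) and `z'` with
`Rel z z'` (`rel_exists`, `rel_Z`); well defined, linear, natural by `rel_nat` (with the identity
morphism for the first two, `rel_add`, `rel_smul`); `CycMod.cls_eq_zero`.  `strict`: `rel_strict` and
`rel_nat` with the identity and two different lifts.
-/

set_option autoImplicit false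

noncomputable section

namespace NC

namespace BK

variable {p : ℕ} {k R : Type} [Field k] [CommRing R]

private theorem fm_eq {A B : ZDGA k} (f : ZHom A B) (z : ℤ → A.cyc.V) :
    f.cyc.fm z = fun q => f.cyc.f (z q) := rfl

private theorem mkey {c : Car p k R} {A B : ZDGA k} (f : ZHom A B) {L : Lft c A} {M : Lft c B}
    (a : L.Alp) (b : M.Alp) {m : ℤ} {z z' : ℤ → A.cyc.V} {w w' : ℤ → B.cyc.V}
    (hz : z ∈ A.cyc.Z Set.univ m) (hz' : z' ∈ A.cyc.Z Set.univ (m - 1))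
    (hw : w ∈ B.cyc.Z Set.univ m) (hw' : w' ∈ B.cyc.Z Set.univ (m - 1))
    (h : L.Rel a m z z') (h' : M.Rel b m w w')
    (e : B.cyc.cls w hw = f.HP m (A.cyc.cls z hz)) :
    B.cyc.cls w' hw' = f.HP (m - 1) (A.cyc.cls z' hz') := by
  have e1 : B.cyc.cls w hw = B.cyc.cls (f.cyc.fm z) (f.cyc.Z hz) := e
  have hu : ∀ v, B.cyc.wD Set.univ v = B.cyc.per v := fun v =>
    funext fun q => B.cyc.cut_mem (B.cyc.per v) (Set.mem_univ q)
  have e2 : B.cyc.cls (w - f.cyc.fm z) (Submodule.sub_mem _ hw (f.cyc.Z hz)) = 0 := by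
    rw [B.cyc.cls_sub w _ hw (f.cyc.Z hz), e1, sub_self]
  obtain ⟨v, hv, hvw⟩ := (B.cyc.cls_eq_zero _ _).1 e2
  obtain ⟨v', hv', hvw'⟩ := rel_nat f a b hz h h' ⟨v, hv, by rw [← hu, hvw]; rfl⟩
  have e3 : B.cyc.cls (w' - f.cyc.fm z') (Submodule.sub_mem _ hw' (f.cyc.Z hz')) = 0 := by
    refine (B.cyc.cls_eq_zero _ _).2 ⟨v', ?_, ?_⟩
    · rw [sub_add_cancel]
      exact hv'
    · rw [hu, hvw']
      rfl
  rw [B.cyc.cls_sub w' _ hw' (f.cyc.Z hz')] at e3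
  exact sub_eq_zero.1 e3

private theorem id_fm (A : ZDGA k) (z : ℤ → A.cyc.V) : (ZHom.id A).cyc.fm z = z := by
  funext q
  have h2 : ∀ w : Wd k A.V A.V, Wd.wm (A := A.toSD) (B := A.toSD)
      (LinearMap.id : A.V →ₗ[k] A.V) w = w := by
    intro w
    induction w using Wd.induction with
    | hadd a b ha hb => rw [map_add, ha, hb]
    | hnil a => rw [Wd.wm_nil]; rfl
    | hsnoc w hw r => rw [Wd.wm_snoc, hw]; rfl
  exact h2 (z q)

private theorem hp_id (A : ZDGA k) {m : ℤ} {z w : ℤ → A.cyc.V} (hz : z ∈ A.cyc.Z Set.univ m)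
    (hw : w ∈ A.cyc.Z Set.univ m) (h : A.cyc.cls w hw = A.cyc.cls z hz) :
    A.cyc.cls w hw = (ZHom.id A).HP m (A.cyc.cls z hz) := by
  have h1 : (ZHom.id A).HP m (A.cyc.cls z hz) =
      A.cyc.cls ((ZHom.id A).cyc.fm z) ((ZHom.id A).cyc.Z hz) := rfl
  have h2 : A.cyc.cls ((ZHom.id A).cyc.fm z) ((ZHom.id A).cyc.Z hz) = A.cyc.cls z hz := by
    congr 1
    exact id_fm A z
  rw [h1, h2, h]

/-- the relation on classes -/
private def RC (c : Car p k R) (A : ZDGA k) (m : ℤ) (x : A.HP m) (x' : A.HP (m - 1)) : Prop :=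
  ∃ (L : Lft c A) (a : L.Alp) (z z' : ℤ → A.cyc.V) (hz : z ∈ A.cyc.Z Set.univ m)
    (hz' : z' ∈ A.cyc.Z Set.univ (m - 1)), L.Rel a m z z' ∧ A.cyc.cls z hz = x ∧
      A.cyc.cls z' hz' = x'

private theorem RC.nat {c : Car p k R} {A B : ZDGA k} (f : ZHom A B) {m : ℤ} {x : A.HP m}
    {x' : A.HP (m - 1)} {y' : B.HP (m - 1)} (h : RC c A m x x') (h' : RC c B m (f.HP m x) y') :
    y' = f.HP (m - 1) x' := by
  obtain ⟨L, a, z, z', hz, hz', hr, rfl, rfl⟩ := h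
  obtain ⟨M, b, w, w', hw, hw', hr', e, rfl⟩ := h'
  exact mkey f a b hz hz' hw hw' hr hr' e

private theorem RC.uniq {c : Car p k R} {A : ZDGA k} {m : ℤ} {x : A.HP m}
    {x' y' : A.HP (m - 1)} (h : RC c A m x x') (h' : RC c A m x y') : y' = x' := by
  obtain ⟨L, a, z, z', hz, hz', hr, rfl, rfl⟩ := h
  obtain ⟨M, b, w, w', hw, hw', hr', e, rfl⟩ := h'
  have h1 := mkey (ZHom.id A) a b hz hz' hw hw' hr hr' (hp_id A hz hw e)
  have h2 : (ZHom.id A).HP (m - 1) (A.cyc.cls z' hz') =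
      A.cyc.cls ((ZHom.id A).cyc.fm z') ((ZHom.id A).cyc.Z hz') := rfl
  have h3 : A.cyc.cls ((ZHom.id A).cyc.fm z') ((ZHom.id A).cyc.Z hz') = A.cyc.cls z' hz' := by
    congr 1
    exact id_fm A z'
  rw [h1, h2, h3]

private theorem RC.ex (c : Car p k R) (A : ZDGA k) (m : ℤ) (x : A.HP m) : ∃ x', RC c A m x x' := by
  obtain ⟨L⟩ := exists_lft (c := c) A
  obtain ⟨a⟩ := L.exists_alp
  obtain ⟨z, hz, rfl⟩ := A.cyc.cls_surj x
  obtain ⟨z', h⟩ := L.rel_exists a hz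
  exact ⟨_, L, a, z, z', hz, L.rel_Z a hz h, h, rfl, rfl⟩

private theorem RC.exL {c : Car p k R} {A : ZDGA k} (L : Lft c A) (a : L.Alp) (m : ℤ) (x : A.HP m) :
    ∃ (z z' : ℤ → A.cyc.V) (hz : z ∈ A.cyc.Z Set.univ m)
    (_ : z' ∈ A.cyc.Z Set.univ (m - 1)), L.Rel a m z z' ∧ A.cyc.cls z hz = x := by
  obtain ⟨z, hz, rfl⟩ := A.cyc.cls_surj x
  obtain ⟨z', h⟩ := L.rel_exists a hz
  exact ⟨z, z', hz, L.rel_Z a hz h, h, rfl⟩

private theorem RC.add {c : Car p k R} {A : ZDGA k} {m : ℤ} {x y : A.HP m}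
    {x' y' : A.HP (m - 1)} (h : RC c A m x x') (h' : RC c A m y y') :
    RC c A m (x + y) (x' + y') := by
  obtain ⟨L⟩ := exists_lft (c := c) A
  obtain ⟨a⟩ := L.exists_alp
  obtain ⟨z, z', hz, hz', hr, e⟩ := RC.exL L a m x
  obtain ⟨w, w', hw, hw', hr', e'⟩ := RC.exL L a m y
  have h1 := RC.uniq h ⟨L, a, z, z', hz, hz', hr, e, rfl⟩
  have h2 := RC.uniq h' ⟨L, a, w, w', hw, hw', hr', e', rfl⟩
  refine ⟨L, a, z + w, z' + w', Submodule.add_mem _ hz hw, Submodule.add_mem _ hz' hw',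
    L.rel_add a hr hr', ?_, ?_⟩
  · rw [A.cyc.cls_add z w hz hw, e, e']
  · rw [A.cyc.cls_add z' w' hz' hw', h1, h2]

private theorem RC.smul {c : Car p k R} {A : ZDGA k} {m : ℤ} {x : A.HP m}
    {x' : A.HP (m - 1)} (r : k) (h : RC c A m x x') : RC c A m (r • x) (r • x') := by
  obtain ⟨L, a, z, z', hz, hz', hr, rfl, rfl⟩ := h
  exact ⟨L, a, r • z, r • z', Submodule.smul_mem _ r hz, Submodule.smul_mem _ r hz',
    L.rel_smul a r hr, A.cyc.cls_smul r z hz, A.cyc.cls_smul r z' hz'⟩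

theorem exists_bock (c : Car p k R) : Nonempty (Bock c) := by
  classical
  choose F hF using fun (A : ZDGA k) (m : ℤ) (x : A.HP m) => RC.ex c A m x
  refine ⟨{
    β := fun A m =>
      { toFun := F A m
        map_add' := fun x y => (RC.uniq (hF A m (x + y)) ((hF A m x).add (hF A m y))).symm
        map_smul' := fun r x => (RC.uniq (hF A m (r • x)) ((hF A m x).smul r)).symm }
    nat := fun A B f m x => RC.nat f (hF A m x) (hF B m (f.HP m x))
    strict := ?_ }⟩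
  intro A L hL m X P hX hP hXP hx hp
  obtain ⟨a, ha⟩ := L.rel_strict hL
  exact RC.uniq ⟨L, a, L.toA X, L.toA P, hx, hp, ha m X P hX hP hXP, rfl, rfl⟩ (hF A m _)

end BK

end NC
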