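import Mathlib
import Pool.Agent.H94.BK.Defs
import Pool.Agent.H94.NC.CorQI
import Pool.Agent.H94.NC.Final

/-!
# Block A, module A24: a natural odd operator and Kuenneth projectors

* `shf`: the shift by two columns, `HP_m ≃ HP_(m-2)`, natural (`(shift z) q = z (q + 2)`).
* `out_of`: let `b A : HP_1(A) → HP_0(A)` be natural.  For `φ` in `corrMaps`, `M.Induces φ`,
  `φ` is diagonal (`φ (x, y) = (φ₀ x, φ₁ y)`) because `M.iM.HPs` is injective
  (`HPs_bij`, `M.iM_HT_bij`), and `b φ₁ = φ₀ b` by naturality for `M.iM`, `M.rhoM` and injectivity.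
  So `T (x, y) = (b y, 0)` commutes with all `φ`, hence (after base change to `F`) with `π⁺` or `π⁻`
  if this is algebraic; but `π⁺ T (0, y) = (b y, 0)`, `T π⁺ (0, y) = 0` and
  `T π⁻ (0, y) = (b y, 0)`, `π⁻ T (0, y) = 0`, and `1 ⊗ (b y, 0) ≠ 0`.
-/

set_option autoImplicit false

noncomputable section

namespace NC

namespace BK

variable {k : Type} [Field k]

theorem univ_shS (j : ℤ) : (Set.univ : Set ℤ) = CycMod.shS Set.univ j := by
  ext p
  simp [CycMod.shS]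

/-- the shift by two columns -/
theorem exists_shf : ∃ σ : (A : ZDGA k) → (m : ℤ) → A.HP m ≃ₗ[k] A.HP (m - 2),
    ∀ (A B : ZDGA k) (f : ZHom A B) (m : ℤ) (x : A.HP m),
      σ B m (f.HP m x) = f.HP (m - 2) (σ A m x) :=
  ⟨fun A m => LinearEquiv.ofBijective
      (A.cyc.sh Set.univ Set.univ m (m - 2) 1 (univ_shS 1) (by ring))
      (A.cyc.sh_bij Set.univ Set.univ m (m - 2) 1 (univ_shS 1) (by ring)),
    fun _ _ f m x => (CycMod.sh_nat f.cyc Set.univ Set.univ m (m - 2) 1 (univ_shS 1)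
      (by ring) x).symm⟩

open TensorProduct in
theorem out_of (b : (A : ZDGA k) → A.HP 1 →ₗ[k] A.HP 0)
    (hb : ∀ (A B : ZDGA k) (f : ZHom A B) (x : A.HP 1), b B (f.HP 1 x) = f.HP 0 (b A x))
    (A : ZDGA k) (y : A.HP 1) (hy : b A y ≠ 0) (F : Type) [Field F] [Algebra k F] :
    ¬ A.AlgExt F A.piPlus ∧ ¬ A.AlgExt F A.piMinus := by
  obtain ⟨T, hT⟩ : ∃ T : A.HPs →ₗ[k] A.HPs, ∀ v : A.HPs, T v = (b A v.2, 0) :=
    ⟨LinearMap.inl k (A.HP 0) (A.HP 1) ∘ₗ b A ∘ₗ LinearMap.snd k (A.HP 0) (A.HP 1), fun v => rfl⟩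
  have hcomm : ∀ φ ∈ A.corrMaps, T ∘ₗ φ = φ ∘ₗ T := by
    rintro φ ⟨M, hM, hφ⟩
    have hinj := (HPs_bij M.iM (M.iM_HT_bij hM)).1
    refine LinearMap.ext (fun v => hinj ?_)
    rw [LinearMap.comp_apply, LinearMap.comp_apply, hφ, hT, hT]
    have h2 : M.iM.HP 1 (φ v).2 = M.rhoM.HP 1 v.2 := congrArg Prod.snd (hφ v)
    refine Prod.ext ?_ ?_
    · change M.iM.HP 0 (b A (φ v).2) = M.rhoM.HP 0 (b A v.2)
      rw [← hb, ← hb, h2]
    · change M.iM.HP 1 0 = M.rhoM.HP 1 0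
      rw [map_zero, map_zero]
  have hcF : ∀ ψ : A.HPs →ₗ[k] A.HPs, A.AlgExt F ψ →
      (T ∘ₗ ψ).baseChange F = (ψ ∘ₗ T).baseChange F := by
    rintro ψ ⟨n, c, φ, h1, h2⟩
    rw [LinearMap.baseChange_comp, LinearMap.baseChange_comp, h2]
    refine LinearMap.ext (fun x => ?_)
    simp only [LinearMap.comp_apply, LinearMap.sum_apply, map_sum, LinearMap.smul_apply, map_smul]
    refine Finset.sum_congr rfl (fun i _ => ?_)
    have h3 := congrArg (fun q => q.baseChange F) (hcomm _ (h1 i))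
    simp only [LinearMap.baseChange_comp] at h3
    have h4 := LinearMap.congr_fun h3 x
    simp only [LinearMap.comp_apply] at h4
    rw [h4]
  have hne : T.baseChange F ≠ 0 := by
    intro h
    have h1 : T.baseChange F (1 ⊗ₜ[k] ((0, y) : A.HPs)) = 0 := by rw [h]; rfl
    rw [LinearMap.baseChange_tmul, hT] at h1
    have h2 : ((b A y, 0) : A.HPs) = 0 := by
      apply Module.FaithfullyFlat.tensorProduct_mk_injective (A := k) (B := F) A.HPs
      rw [map_zero]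
      exact h1
    exact hy (congrArg Prod.fst h2)
  constructor
  · intro h
    have h1 := hcF _ h
    have e1 : T ∘ₗ A.piPlus = 0 := by
      refine LinearMap.ext (fun v => ?_)
      rw [LinearMap.comp_apply, hT]
      change (b A 0, (0 : A.HP 1)) = 0
      rw [map_zero]
      rfl
    have e2 : A.piPlus ∘ₗ T = T := by
      refine LinearMap.ext (fun v => ?_)
      rw [LinearMap.comp_apply, hT]
      rfl
    rw [e1, e2, LinearMap.baseChange_zero] at h1
    exact hne h1.symm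
  · intro h
    have h1 := hcF _ h
    have e1 : T ∘ₗ A.piMinus = T := by
      refine LinearMap.ext (fun v => ?_)
      rw [LinearMap.comp_apply, hT, hT]
      rfl
    have e2 : A.piMinus ∘ₗ T = 0 := by
      refine LinearMap.ext (fun v => ?_)
      rw [LinearMap.comp_apply, hT]
      rfl
    rw [e1, e2, LinearMap.baseChange_zero] at h1
    exact hne h1

theorem A_out {p : ℕ} {R : Type} [CommRing R] {c : Car p k R} (Bk : Bock c) (A : ZDGA k)
    (y : A.HP (-1)) (hy : Bk.β A (-1) y ≠ 0) (F : Type) [Field F] [Algebra k F] :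
    ¬ A.AlgExt F A.piPlus ∧ ¬ A.AlgExt F A.piMinus := by
  let s1 : (A : ZDGA k) → A.HP 1 →ₗ[k] A.HP (-1) := fun A =>
    A.cyc.sh Set.univ Set.univ 1 (-1) 1 (univ_shS 1) (by norm_num)
  let s2 : (A : ZDGA k) → A.HP (-1 - 1) →ₗ[k] A.HP 0 := fun A =>
    A.cyc.sh Set.univ Set.univ (-1 - 1) 0 (-1) (univ_shS (-1)) (by norm_num)
  let b : (A : ZDGA k) → A.HP 1 →ₗ[k] A.HP 0 := fun A => s2 A ∘ₗ Bk.β A (-1) ∘ₗ s1 A
  have hb : ∀ (A B : ZDGA k) (f : ZHom A B) (x : A.HP 1),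
      b B (f.HP 1 x) = f.HP 0 (b A x) := by
    intro A B f x
    change s2 B (Bk.β B (-1) (s1 B (f.HP 1 x))) = f.HP 0 (s2 A (Bk.β A (-1) (s1 A x)))
    have h1 : s1 B (f.HP 1 x) = f.HP (-1) (s1 A x) :=
      (CycMod.sh_nat f.cyc Set.univ Set.univ 1 (-1) 1 (univ_shS 1) (by norm_num) x).symm
    have h2 : ∀ z : A.HP (-1 - 1), s2 B (f.HP (-1 - 1) z) = f.HP 0 (s2 A z) := fun z =>
      (CycMod.sh_nat f.cyc Set.univ Set.univ (-1 - 1) 0 (-1) (univ_shS (-1)) (by norm_num) z).symm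
    rw [h1, Bk.nat, h2]
  obtain ⟨y', hy'⟩ : ∃ y', s1 A y' = y :=
    (A.cyc.sh_bij Set.univ Set.univ 1 (-1) 1 (univ_shS 1) (by norm_num)).2 y
  refine out_of b hb A y' ?_ F
  intro h
  apply hy
  have h1 : s2 A (Bk.β A (-1) y) = 0 := by
    rw [← hy']
    exact h
  exact (A.cyc.sh_bij Set.univ Set.univ (-1 - 1) 0 (-1) (univ_shS (-1)) (by norm_num)).1
    (h1.trans (map_zero _).symm)

end BK

end NC
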