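import Mathlib
import Pool.Agent.H94.BK.Main
import Pool.Agent.H94.BK.Out
import Pool.Agent.H36.EK.Bet
import Pool.Agent.H36.EK.Pub
import Pool.Agent.H36.EK.Proper
import Pool.Agent.H34.TE.AsxX
import Pool.Agent.H34.TE.Free
import Pool.Agent.H82.BD.CarEx
import Pool.Agent.H37.AS.Main
import Pool.Agent.H2.EE.Out
import Pool.Agent.H55.ED.SurEx
import Pool.Agent.H21.EK.Lam

/-!
# Block Z: the Kuenneth projectors of the surface are not algebraic
-/

set_option autoImplicit false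

open NC NC.BK KPub

noncomputable section

namespace EK

variable {p q : ℕ} {k : Type} [Field k] {R K : Type} [CommRing R] [Algebra k R] [CommRing K]
  [Algebra k K] {C : CurR q k R} (W : SurR C K)

/-- blocks A, B, C, R together -/
theorem not_alg (hQ : SurR.QP p q k) {lam : K →ₗ[k] k} (hlam : W.Kills lam)
    (hmu : lam (∑ g, mv (W.datX hQ) (W.muX hQ) ((0, 0), g) ((1, 1), g)) ≠ 0)
    (F : Type) [Field F] [Algebra k F] :
    ¬ (W.AX hQ).AlgExt F (W.AX hQ).piPlus ∧ ¬ (W.AX hQ).AlgExt F (W.AX hQ).piMinus := by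
  have : Fact p.Prime := ⟨hQ.prime⟩
  have : CharP k p := hQ.char
  obtain ⟨R', _, ⟨c⟩⟩ := exists_car p k
  obtain ⟨Bk⟩ := exists_bock c
  obtain ⟨y, hy⟩ := W.exists_beta hQ c Bk (fun m X hX h => (H8.MC.lft p c).toA_Z hX h) hlam hmu
  exact A_out Bk (W.AX hQ) y hy F

/-- the public statement for the surface -/
theorem pub_AX (hQ : SurR.QP p q k) {lam : K →ₗ[k] k} (hlam : W.Kills lam)
    (hmu : lam (∑ g, mv (W.datX hQ) (W.muX hQ) ((0, 0), g) ((1, 1), g)) ≠ 0)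
    (hPF : PF (W.AX hQ).toDGA (BMod.diag (W.AX hQ).toDGA)) :
    ∃ (A : Type) (_ : Ring A) (_ : Algebra k A) (g : ℤ → Submodule k A) (d : A →ₗ[k] A),
      IsDGA k A g d ∧ IsSaturated k A g d ∧
      (∀ m, ∃ (H : Type) (_ : AddCommGroup H) (_ : Module k H)
        (q : (ℤ → MonoidAlgebra k (List (ℤ × A))) →ₗ[k] H), IsHP k A g d m H q) ∧
      ∀ (H₀ : Type) [AddCommGroup H₀] [Module k H₀]
        (q₀ : (ℤ → MonoidAlgebra k (List (ℤ × A))) →ₗ[k] H₀)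
        (H₁ : Type) [AddCommGroup H₁] [Module k H₁]
        (q₁ : (ℤ → MonoidAlgebra k (List (ℤ × A))) →ₗ[k] H₁),
        IsHP k A g d 0 H₀ q₀ → IsHP k A g d 1 H₁ q₁ →
        (∀ (M : Type) [AddCommGroup M] [Module k M] (gM : ℤ → Submodule k M)
          (dM : M →ₗ[k] M) (l : A → M → M) (r : M → A → M),
          IsCorr k A g d M gM dM l r → ∃! φ, Induces k A g d M gM dM l r H₀ q₀ H₁ q₁ φ) ∧
        (∀ (F E : Type) [Field F] [Field E] [Algebra F E] [Algebra k E],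
          ¬ IsAlg k A g d H₀ q₀ H₁ q₁ F E (LinearMap.inl k H₀ H₁ ∘ₗ LinearMap.fst k H₀ H₁) ∧
          ¬ IsAlg k A g d H₀ q₀ H₁ q₁ F E (LinearMap.inr k H₀ H₁ ∘ₗ LinearMap.snd k H₀ H₁)) :=
  pub (W.AX hQ) hPF (W.finH_AX hQ C.finH_AE) (fun F _ _ => not_alg W hQ hlam hmu F)

/-- **every field of characteristic `p`, every prime `p`** -/
theorem every (p : ℕ) (hp : p.Prime) (k : Type) [Field k] [CharP k p] :
    ∃ (A : Type) (_ : Ring A) (_ : Algebra k A) (g : ℤ → Submodule k A) (d : A →ₗ[k] A),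
      IsDGA k A g d ∧ IsSaturated k A g d ∧
      (∀ m, ∃ (H : Type) (_ : AddCommGroup H) (_ : Module k H)
        (q : (ℤ → MonoidAlgebra k (List (ℤ × A))) →ₗ[k] H), IsHP k A g d m H q) ∧
      ∀ (H₀ : Type) [AddCommGroup H₀] [Module k H₀]
        (q₀ : (ℤ → MonoidAlgebra k (List (ℤ × A))) →ₗ[k] H₀)
        (H₁ : Type) [AddCommGroup H₁] [Module k H₁]
        (q₁ : (ℤ → MonoidAlgebra k (List (ℤ × A))) →ₗ[k] H₁),
        IsHP k A g d 0 H₀ q₀ → IsHP k A g d 1 H₁ q₁ →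
        (∀ (M : Type) [AddCommGroup M] [Module k M] (gM : ℤ → Submodule k M)
          (dM : M →ₗ[k] M) (l : A → M → M) (r : M → A → M),
          IsCorr k A g d M gM dM l r → ∃! φ, Induces k A g d M gM dM l r H₀ q₀ H₁ q₁ φ) ∧
        (∀ (F E : Type) [Field F] [Field E] [Algebra F E] [Algebra k E],
          ¬ IsAlg k A g d H₀ q₀ H₁ q₁ F E (LinearMap.inl k H₀ H₁ ∘ₗ LinearMap.fst k H₀ H₁) ∧
          ¬ IsAlg k A g d H₀ q₀ H₁ q₁ F E (LinearMap.inr k H₀ H₁ ∘ₗ LinearMap.snd k H₀ H₁)) := by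
  have hfact : Fact p.Prime := ⟨hp⟩
  have hQ : SurR.QP p (p ^ 2) k := ⟨hp, inferInstance, 2, by norm_num, rfl⟩
  have h2 : 2 ≤ p ^ 2 := le_trans hp.two_le (Nat.le_self_pow (by norm_num) p)
  obtain ⟨R, _, _, C, K, _, _, ⟨W⟩⟩ := exists_curR_surR (p ^ 2) h2 k
  have hpq : p < p ^ 2 := by nlinarith [hp.two_le]
  have hE : PF C.AE.toDGA (BMod.diag C.AE.toDGA) := EE.PF_AE C hQ
  refine pub_AX W hQ (W.Kills_lam hp.two_le hpq) ?_ ?_
  · rw [W.lam_mu hQ rfl]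
    exact neg_ne_zero.2 one_ne_zero
  · exact (W.asxX hQ).pf p 2 rfl (by norm_num) (PF_tens_diag hE hE)

end EK
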